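import Pool.Agent.Lib.MP_dae8ad_gt.A.IF

/-! Definitions for coloured words. -/

namespace Pool.Agent.AS

/-- Symmetric quandles. -/
class SQ (Y : Type) [Lab Y] : Prop where
  rho_rho : ∀ p : Y, Lab.rho (Lab.rho p) = p
  act_rho_act : ∀ p q : Y, Lab.act (Lab.rho p) (Lab.act p q) = q
  act_act : ∀ p q r : Y, Lab.act p (Lab.act q r) = Lab.act (Lab.act p q) (Lab.act p r)
  rho_act : ∀ p q : Y, Lab.rho (Lab.act p q) = Lab.act p (Lab.rho q)
  act_self : ∀ p : Y, Lab.act p p = p

structure Hom {Y Y' : Type} [Lab Y] [Lab Y'] (f : Y → Y') : Prop where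
  act : ∀ p q, f (Lab.act p q) = Lab.act (f p) (f q)
  rho : ∀ p, f (Lab.rho p) = Lab.rho (f p)

instance : Lab Unit := ⟨fun _ _ => (), fun _ => ()⟩

instance : SQ Bool :=
  ⟨fun p => Bool.not_not p, fun _ _ => rfl, fun _ _ _ => rfl, fun _ _ => rfl, fun _ => rfl⟩

instance (T : Type) : SQ (Bool × T) :=
  ⟨fun p => Prod.ext (Bool.not_not p.1) rfl, fun _ _ => rfl, fun _ _ _ => rfl, fun _ _ => rfl,
    fun _ => rfl⟩

theorem hom_unit {Y : Type} [Lab Y] : Hom (fun _ : Y => ()) := ⟨fun _ _ => rfl, fun _ => rfl⟩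

variable {Y Y' : Type}

/-- The top level of a word over the bottom level `a`. -/
def lev [Lab Y] : List (L Y) → List Y → List Y
  | [], a => a
  | l :: w, a => lev w (next l a)

/-- The mirror image of a letter in a horizontal line. -/
def rvl (l : L Y) (a : List Y) : L Y :=
  match l.2, a.drop l.1 with
  | .X, _ => (l.1, .Z)
  | .Z, _ => (l.1, .X)
  | .cup _, _ => (l.1, .cap)
  | .cap, p :: _ => (l.1, .cup p)
  | .cap, [] => (l.1, .cap)

/-- The mirror image of a word in a horizontal line. -/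
def rv [Lab Y] : List (L Y) → List Y → List (L Y)
  | [], _ => []
  | l :: w, a => rv w (next l a) ++ [rvl l a]

def MvS (s s' : List (L Unit)) : Prop := Mv s s' ∨ Mv s' s

/-- A move with its place. -/
abbrev PS := ℕ × List (L Unit) × List (L Unit)

def StepI [Lab Y] (m : PS) (w w' : List (L Y)) : Prop :=
  ∃ p u u' q a b, p.length = m.1 ∧ shape u = m.2.1 ∧ shape u' = m.2.2 ∧ w = p ++ u ++ q ∧
    w' = p ++ u' ++ q ∧ MvS m.2.1 m.2.2 ∧ Run p [] a ∧ Run u a b ∧ Run u' a b

def IsoP [Lab Y] : List PS → List (L Y) → List (L Y) → Prop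
  | [], w, w' => w = w'
  | m :: π, w, w' => ∃ w1, StepI m w w1 ∧ IsoP π w1 w'

def rvP (π : List PS) : List PS := (π.map fun m => (m.1, m.2.2, m.2.1)).reverse

open Classical in
/-- Transport of a colouring along a sequence of moves. -/
noncomputable def tr [Lab Y] (π : List PS) (v : List (L Y)) : List (L Y) :=
  if h : ∃ v', IsoP π v v' then h.choose else []

/-- Slice data with labels in `Y`; the labels of the marks satisfy `Q`. -/
def SliceY [Lab Y] (sg : Y → Bool) (Q : Y → Prop) (K : List (L Y)) : Prop :=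
  ∃ (D : List (ML Y)) (s s' : List Y) (y : Y), RunM D [] [] ∧ Conn (D.map (ML.map sg)) ∧
    (∀ i y, ML.mk i y ∈ D → Q y) ∧ marks D = s.length + s'.length ∧
    Iso (lo D) (K ++ circles s) ∧ Iso (hi D) (circles (y :: s'))

/-- Pairs of parallel strands. -/
@[ext] structure Pr (Y : Type) where
  l : Y
  r : Y

instance [Lab Y] : Lab (Pr Y) :=
  ⟨fun p q => ⟨Lab.act p.l (Lab.act p.r q.l), Lab.act p.l (Lab.act p.r q.r)⟩,
    fun p => ⟨Lab.rho p.r, Lab.rho p.l⟩⟩

def Pr.map (f : Y → Y') (p : Pr Y) : Pr Y' := ⟨f p.l, f p.r⟩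

def dblP (w : List (L (Pr Y))) : List (L Y) := dbl (mapW (fun p => (p.l, p.r)) w)

def flat (a : List (Pr Y)) : List Y := a.flatMap fun p => [p.l, p.r]

/-- The doubled boundary of a disc with bands, from a colouring of the cores by quadruples. -/
def boxW (g : ℕ) (E : List (L (Pr (Pr Y)))) : List (L Y) :=
  dblP (shift 1 (dblP E) ++ List.replicate (4 * g) (0, .cap))

/-- The colouring in which every band carries the pair `P` on both edges. -/
def box [Lab Y] {g : ℕ} (P : Pr Y) (S : List (L (Bool × (Fin g × Bool)))) : List (L Y) :=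
  boxW g (mapW (fun _ => ⟨Lab.rho P, P⟩) S)

end Pool.Agent.AS
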