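import Pool.Agent.Lib.MP_dae8ad_gt.T.BDefs

namespace Pool.Agent.AS

variable {Y Y' Y'' : Type}

theorem mapW_nil (f : Y → Y') : mapW f [] = [] := rfl
theorem mapW_cons (f : Y → Y') (l : L Y) (w : List (L Y)) :
    mapW f (l :: w) = (l.1, l.2.map f) :: mapW f w := rfl
theorem mapW_append (f : Y → Y') (u v : List (L Y)) : mapW f (u ++ v) = mapW f u ++ mapW f v :=
  List.map_append
theorem length_mapW (f : Y → Y') (w : List (L Y)) : (mapW f w).length = w.length :=
  List.length_map _
theorem shift_append (n : ℕ) (u v : List (L Y)) : shift n (u ++ v) = shift n u ++ shift n v :=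
  List.map_append

theorem basic_map_map (f : Y' → Y'') (g : Y → Y') (k : Kd Y) :
    (k.map g).map f = k.map (f ∘ g) := by
  cases k <;> rfl

theorem basic_map_id (k : Kd Y) : k.map id = k := by
  cases k <;> rfl

theorem basic_circles (y : Y) (s : List Y) :
    circles (y :: s) = (0, .cup y) :: (0, .cap) :: circles s := rfl

theorem basic_shift (n : ℕ) (l : L Y) (w : List (L Y)) :
    shift n (l :: w) = (l.1 + n, l.2) :: shift n w := rfl

theorem mapW_mapW (f : Y' → Y'') (g : Y → Y') (w : List (L Y)) :
    mapW f (mapW g w) = mapW (f ∘ g) w := by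
  simp [mapW, basic_map_map]

theorem mapW_id (w : List (L Y)) : mapW id w = w := by
  simp [mapW, basic_map_id]

theorem mapW_congr {f g : Y → Y'} {w : List (L Y)} (h : ∀ y ∈ cups w, f y = g y) :
    mapW f w = mapW g w := by
  induction w with
  | nil => rfl
  | cons l w ih =>
    obtain ⟨i, k⟩ := l
    cases k <;> simp_all [cups, mapW_cons, Kd.map]

theorem shape_mapW (f : Y → Y') (w : List (L Y)) : shape (mapW f w) = shape w := by
  exact mapW_mapW _ _ w

theorem mapW_shift (f : Y → Y') (n : ℕ) (w : List (L Y)) :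
    mapW f (shift n w) = shift n (mapW f w) := by
  simp [mapW, shift]

theorem shift_shift (m n : ℕ) (w : List (L Y)) : shift m (shift n w) = shift (n + m) w := by
  simp [shift, add_assoc]

theorem mapW_circles (f : Y → Y') (s : List Y) : mapW f (circles s) = circles (s.map f) := by
  induction s with
  | nil => rfl
  | cons y s ih =>
    rw [List.map_cons, basic_circles, basic_circles, mapW_cons, mapW_cons, ih]
    rfl

theorem cups_mapW (f : Y → Y') (w : List (L Y)) : cups (mapW f w) = (cups w).map f := by
  induction w with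
  | nil => rfl
  | cons l w ih =>
    obtain ⟨i, k⟩ := l
    cases k <;> simp [cups, mapW_cons, Kd.map, ih]

theorem cups_append (u v : List (L Y)) : cups (u ++ v) = cups u ++ cups v := by
  induction u with
  | nil => rfl
  | cons l u ih =>
    obtain ⟨i, k⟩ := l
    cases k <;> simp [cups, ih]

theorem cups_circles (s : List Y) : cups (circles s) = s := by
  induction s with
  | nil => rfl
  | cons y s ih => exact congrArg (y :: ·) ih

theorem circles_inj {s s' : List Y} (h : circles s = circles s') : s = s' := by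
  rw [← cups_circles s, h, cups_circles]

theorem mapW_eq_append {f : Y → Y'} {E : List (L Y)} {u v : List (L Y')} (h : mapW f E = u ++ v) :
    ∃ E1 E2, E = E1 ++ E2 ∧ mapW f E1 = u ∧ mapW f E2 = v :=
  List.map_eq_append_iff.1 h

theorem mapW_eq_shift {f : Y → Y'} {E : List (L Y)} {n : ℕ} {w : List (L Y')}
    (h : mapW f E = shift n w) : ∃ E', E = shift n E' ∧ mapW f E' = w := by
  induction E generalizing w with
  | nil =>
    cases w with
    | nil => exact ⟨[], rfl, rfl⟩
    | cons l w => exact absurd h (by simp [mapW, shift])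
  | cons l E ih =>
    cases w with
    | nil => exact absurd h (by simp [mapW, shift])
    | cons l' w =>
      rw [mapW_cons, basic_shift, List.cons.injEq, Prod.mk.injEq] at h
      obtain ⟨E', h1, h2⟩ := ih h.2
      refine ⟨(l'.1, l.2) :: E', ?_, ?_⟩
      · rw [basic_shift, ← h1, ← h.1.1]
      · rw [mapW_cons, h2, h.1.2]

theorem mapW_eq_circles {f : Y → Y'} {E : List (L Y)} {s : List Y'} (h : mapW f E = circles s) :
    ∃ t, E = circles t ∧ t.map f = s := by
  induction s generalizing E with
  | nil => exact ⟨[], List.map_eq_nil_iff.1 h, rfl⟩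
  | cons y s ih =>
    rw [basic_circles] at h
    obtain ⟨⟨i, k⟩, E, rfl, h1, h⟩ := List.map_eq_cons_iff.1 h
    obtain ⟨⟨i', k'⟩, E, rfl, h2, h⟩ := List.map_eq_cons_iff.1 h
    obtain ⟨t, rfl, rfl⟩ := ih h
    cases k <;> cases k' <;> simp [Kd.map] at h1 h2
    obtain ⟨rfl, rfl⟩ := h1
    subst h2
    exact ⟨_ :: t, rfl, rfl⟩

/-- A word without cups is determined by its image. -/
theorem eq_of_no_cups {f : Y → Y'} {E E' : List (L Y)} (h : mapW f E = mapW f E')
    (hc : cups E' = []) : E = E' := by
  induction E generalizing E' with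
  | nil => exact (List.map_eq_nil_iff.1 h.symm).symm
  | cons l E ih =>
    cases E' with
    | nil => exact absurd h (by simp [mapW])
    | cons l' E' =>
      obtain ⟨i, k⟩ := l
      obtain ⟨i', k'⟩ := l'
      rw [mapW_cons, mapW_cons, List.cons.injEq] at h
      obtain ⟨h1, h2⟩ := h
      cases k <;> cases k' <;> simp [Kd.map, cups] at h1 hc ⊢ <;> exact ⟨h1, ih h2 hc⟩

theorem mapW_ji {f : Y → Y'} {g : Y → Y''} (hj : ∀ y z, f y = f z → g y = g z → y = z)
    {w w' : List (L Y)} (h : mapW f w = mapW f w') (h' : mapW g w = mapW g w') : w = w' := by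
  induction w generalizing w' with
  | nil => exact (List.map_eq_nil_iff.1 h.symm).symm
  | cons l w ih =>
    cases w' with
    | nil => exact absurd h (by simp [mapW])
    | cons l' w' =>
      obtain ⟨i, k⟩ := l
      obtain ⟨i', k'⟩ := l'
      rw [mapW_cons, mapW_cons, List.cons.injEq] at h h'
      obtain ⟨h1, h2⟩ := h
      obtain ⟨h3, h4⟩ := h'
      rw [ih h2 h4]
      cases k <;> cases k' <;> simp [Kd.map] at h1 h3 ⊢
      exacts [h1, h1, ⟨h1.1, hj _ _ h1.2 h3.2⟩, h1]

theorem lo_map (f : Y → Y') (D : List (ML Y)) : lo (D.map (ML.map f)) = mapW f (lo D) := by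
  induction D with
  | nil => rfl
  | cons d D ih => cases d <;> simp [ML.map, lo, mapW_cons, ih]

theorem hi_map (f : Y → Y') (D : List (ML Y)) : hi (D.map (ML.map f)) = mapW f (hi D) := by
  induction D with
  | nil => rfl
  | cons d D ih => cases d <;> simp [ML.map, hi, mapW_cons, Kd.map, ih]

theorem marks_map (f : Y → Y') (D : List (ML Y)) : marks (D.map (ML.map f)) = marks D := by
  induction D with
  | nil => rfl
  | cons d D ih => cases d <;> simp [ML.map, marks, ih]

theorem mapM_mapM (f : Y' → Y'') (g : Y → Y') (D : List (ML Y)) :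
    (D.map (ML.map g)).map (ML.map f) = D.map (ML.map (f ∘ g)) := by
  rw [List.map_map]
  refine List.map_congr_left fun d _ => ?_
  cases d <;> simp [ML.map, basic_map_map]

variable [Lab Y] [Lab Y'] [Lab Y'']

theorem Hom.comp {f : Y' → Y''} {g : Y → Y'} (hf : Hom f) (hg : Hom g) : Hom (f ∘ g) :=
  ⟨fun p q => by simp only [Function.comp, hg.act, hf.act],
    fun p => by simp only [Function.comp, hg.rho, hf.rho]⟩

theorem basic_nx_map {f : Y → Y'} (hf : Hom f) (k : Kd Y) (r : List Y) :
    nx (k.map f) (r.map f) = (nx k r).map f := by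
  rcases r with _ | ⟨p, _ | ⟨q, r⟩⟩ <;> cases k <;> simp [nx, Kd.map, hf.act, hf.rho]

theorem next_map {f : Y → Y'} (hf : Hom f) (l : L Y) (a : List Y) :
    next (l.1, l.2.map f) (a.map f) = (next l a).map f := by
  simp only [next, List.map_append, ← List.map_take, ← List.map_drop, basic_nx_map hf]

theorem ok_map {f : Y → Y'} (hf : Hom f) {l : L Y} {a : List Y} (h : ok l a) :
    ok (l.1, l.2.map f) (a.map f) := by
  obtain ⟨i, k⟩ := l
  refine ⟨by simpa using h.1, ?_⟩
  have h2 := h.2
  rw [← List.map_drop]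
  cases k
  · simpa [okh, Kd.map] using h2
  · simpa [okh, Kd.map] using h2
  · trivial
  · obtain ⟨p, t, e⟩ := h2
    exact ⟨f p, t.map f, by rw [e, List.map_cons, List.map_cons, hf.rho]⟩

theorem lev_map {f : Y → Y'} (hf : Hom f) (w : List (L Y)) (a : List Y) :
    lev (mapW f w) (a.map f) = (lev w a).map f := by
  induction w generalizing a with
  | nil => rfl
  | cons l w ih => rw [mapW_cons, lev, lev, next_map hf, ih]

theorem run_map {f : Y → Y'} (hf : Hom f) {w : List (L Y)} {a b : List Y} (h : Run w a b) :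
    Run (mapW f w) (a.map f) (b.map f) := by
  induction w generalizing a with
  | nil => exact congrArg _ h
  | cons l w ih => exact ⟨ok_map hf h.1, by rw [next_map hf]; exact ih h.2⟩

theorem run_lev {w : List (L Y)} {a b : List Y} (h : Run w a b) : lev w a = b := by
  induction w generalizing a with
  | nil => exact h
  | cons l w ih => exact ih h.2

theorem run_det {w : List (L Y)} {a b b' : List Y} (h : Run w a b) (h' : Run w a b') : b = b' :=
  (run_lev h).symm.trans (run_lev h')

theorem lev_append (u v : List (L Y)) (a : List Y) : lev (u ++ v) a = lev v (lev u a) := by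
  induction u generalizing a with
  | nil => rfl
  | cons l u ih => exact ih _

theorem run_append {u v : List (L Y)} {a c : List Y} :
    Run (u ++ v) a c ↔ ∃ b, Run u a b ∧ Run v b c := by
  induction u generalizing a with
  | nil => simp [Run]
  | cons l u ih => simp only [List.cons_append, Run, ih, and_assoc, exists_and_left]

theorem run_circles (s : List Y) : Run (circles s) [] [] := by
  induction s with
  | nil => rfl
  | cons y s ih => exact ⟨⟨le_rfl, trivial⟩, ⟨Nat.zero_le _, y, [], rfl⟩, ih⟩

/-- A letter in normal position. -/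
theorem next_app (l r : List Y) (k : Kd Y) : next (l.length, k) (l ++ r) = l ++ nx k r := by
  simp [next]

theorem ok_app (l r : List Y) (k : Kd Y) : ok (l.length, k) (l ++ r) ↔ okh k r := by
  simp [ok]

theorem basic_split {l : L Y} {a : List Y} (h : ok l a) :
    ∃ c r k, l = (c.length, k) ∧ a = c ++ r ∧ okh k r :=
  ⟨a.take l.1, a.drop l.1, l.2, by rw [List.length_take_of_le h.1],
    (List.take_append_drop _ _).symm, h.2⟩

theorem basic_okh {k : Kd Y} {t : List Y} (h : okh k t) (r : List Y) :
    okh k (t ++ r) ∧ nx k (t ++ r) = nx k t ++ r := by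
  rcases t with _ | ⟨p, _ | ⟨q, t⟩⟩ <;> cases k <;> simp_all [okh, nx]

theorem next_ctx {l : L Y} {a : List Y} (h : ok l a) (c r : List Y) :
    ok (l.1 + c.length, l.2) (c ++ a ++ r) ∧
      next (l.1 + c.length, l.2) (c ++ a ++ r) = c ++ next l a ++ r := by
  obtain ⟨d, t, k, rfl, rfl, hk⟩ := basic_split h
  have e : c ++ (d ++ t) ++ r = (c ++ d) ++ (t ++ r) := by simp
  rw [e, add_comm, ← List.length_append, ok_app, next_app, next_app, (basic_okh hk r).2]
  exact ⟨(basic_okh hk r).1, by simp⟩

theorem run_ctx {w : List (L Y)} {a b : List Y} (h : Run w a b) (c r : List Y) :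
    Run (shift c.length w) (c ++ a ++ r) (c ++ b ++ r) := by
  induction w generalizing a with
  | nil => exact congrArg (c ++ · ++ r) h
  | cons l w ih =>
    exact ⟨(next_ctx h.1 c r).1, by rw [(next_ctx h.1 c r).2]; exact ih h.2⟩

theorem run_left {w : List (L Y)} {c a e : List Y} :
    Run (shift c.length w) (c ++ a) e ↔ ∃ b, Run w a b ∧ e = c ++ b := by
  induction w generalizing a with
  | nil => simp [shift, Run, eq_comm]
  | cons l w ih =>
    have h1 : (c ++ a).drop (l.1 + c.length) = a.drop l.1 := by
      rw [add_comm, List.drop_length_add_append]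
    have h2 : next (l.1 + c.length, l.2) (c ++ a) = c ++ next l a := by
      rw [next, next, h1, add_comm, List.take_length_add_append, List.append_assoc]
    have h3 : ok (l.1 + c.length, l.2) (c ++ a) ↔ ok l a := by
      rw [ok, ok, h1, List.length_append, add_comm, add_le_add_iff_left]
    simp only [basic_shift, Run, h2, h3, ih, and_assoc, exists_and_left]

/-- The converse, when the shape of `w` fits the width of `a`. -/
theorem run_ctx_inv {w : List (L Y)} {a c r e : List Y} {b0 : List Unit}
    (h0 : Run (shape w) (a.map fun _ => ()) b0) (h : Run (shift c.length w) (c ++ a ++ r) e) :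
    ∃ b, Run w a b ∧ e = c ++ b ++ r := by
  induction w generalizing a with
  | nil => exact ⟨a, rfl, Eq.symm h⟩
  | cons l w ih =>
    obtain ⟨i, k⟩ := l
    have h1 : i ≤ a.length := by simpa using h0.1.1
    have h2 : okh (k.map fun _ => ()) ((a.drop i).map fun _ => ()) := by
      rw [List.map_drop]
      exact h0.1.2
    have h3 : okh k (a.drop i ++ r) := by
      have h4 : okh k ((c ++ a ++ r).drop (i + c.length)) := h.1.2
      rwa [List.append_assoc, add_comm, List.drop_length_add_append,
        List.drop_append_of_le_length h1] at h4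
    have h5 : ok (i, k) a := by
      refine ⟨h1, ?_⟩
      generalize a.drop i = t at h2 h3
      rcases t with _ | ⟨p, _ | ⟨q, t⟩⟩ <;> cases k <;> simp_all [okh, Kd.map]
    have h6 := h0.2
    have h7 := h.2
    rw [next_map hom_unit (i, k)] at h6
    rw [(next_ctx h5 c r).2] at h7
    obtain ⟨b, h8, h9⟩ := ih h6 h7
    exact ⟨b, ⟨h5, h8⟩, h9⟩

/-- Jointly injective homomorphisms detect validity. -/
theorem run_ji {f : Y → Y'} {g : Y → Y''} (hf : Hom f) (hg : Hom g)
    (hj : ∀ y z, f y = f z → g y = g z → y = z) {w : List (L Y)} {a : List Y} {b : List Y'}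
    {b' : List Y''} (h : Run (mapW f w) (a.map f) b) (h' : Run (mapW g w) (a.map g) b') :
    Run w a (lev w a) := by
  induction w generalizing a with
  | nil => rfl
  | cons l w ih =>
    have h1 : okh (l.2.map f) ((a.map f).drop l.1) := h.1.2
    have h2 : okh (l.2.map g) ((a.map g).drop l.1) := h'.1.2
    have h3 := h.2
    have h4 := h'.2
    rw [next_map hf] at h3
    rw [next_map hg] at h4
    refine ⟨⟨by simpa using h.1.1, ?_⟩, ih h3 h4⟩
    rw [← List.map_drop] at h1 h2
    generalize a.drop l.1 = t at h1 h2 ⊢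
    generalize l.2 = k at h1 h2 ⊢
    rcases t with _ | ⟨p, _ | ⟨q, t⟩⟩ <;> cases k <;> simp [okh, Kd.map] at h1 h2 ⊢
    exact hj _ _ (h1.trans (hf.rho p).symm) (h2.trans (hg.rho p).symm)

/-- A property of labels that passes along strands holds on every level. -/
theorem lev_forall (Q : Y → Prop) (hact : ∀ p q, Q p → Q q → Q (Lab.act p q))
    (hrho : ∀ p, Q p → Q (Lab.rho p)) (w : List (L Y)) (a : List Y) (hw : ∀ y ∈ cups w, Q y)
    (ha : ∀ y ∈ a, Q y) : ∀ y ∈ lev w a, Q y := by
  induction w generalizing a with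
  | nil => exact ha
  | cons l w ih =>
    obtain ⟨i, k⟩ := l
    have h1 : (∀ y ∈ cups [(i, k)], Q y) ∧ ∀ y ∈ cups w, Q y := by
      rw [← List.forall_mem_append, ← cups_append]
      exact hw
    refine ih _ h1.2 (List.forall_mem_append.2
      ⟨fun y hy => ha y (List.mem_of_mem_take hy), ?_⟩)
    have h2 : ∀ y ∈ a.drop i, Q y := fun y hy => ha y (List.mem_of_mem_drop hy)
    have h3 := h1.1
    generalize a.drop i = t at h2
    rcases t with _ | ⟨p, _ | ⟨q, t⟩⟩ <;> cases k <;> simp_all [nx, cups]

theorem cups_ne_nil {w : List (L Y)} {b : List Y} (h : Run w [] b) (hw : w ≠ []) :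
    cups w ≠ [] := by
  cases w with
  | nil => exact absurd rfl hw
  | cons l w =>
    obtain ⟨i, k⟩ := l
    have h1 := h.1.2
    cases k <;> simp [okh, cups] at h1 ⊢

theorem mapW_rv {f : Y → Y'} (hf : Hom f) (w : List (L Y)) (a : List Y) :
    mapW f (rv w a) = rv (mapW f w) (a.map f) := by
  induction w generalizing a with
  | nil => rfl
  | cons l w ih =>
    rw [mapW_cons, rv, rv, mapW_append, ih, next_map hf]
    congr 1
    obtain ⟨i, k⟩ := l
    simp only [mapW, rvl, List.map_cons, List.map_nil, ← List.map_drop]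
    generalize a.drop i = t
    cases t <;> cases k <;> rfl

theorem rv_append (u v : List (L Y)) (a : List Y) :
    rv (u ++ v) a = rv v (lev u a) ++ rv u a := by
  induction u generalizing a with
  | nil => simp [rv, lev]
  | cons l u ih => rw [List.cons_append, rv, rv, ih, lev, List.append_assoc]

theorem rvl_spec [SQ Y] {l : L Y} {a : List Y} (h : ok l a) :
    ok (rvl l a) (next l a) ∧ next (rvl l a) (next l a) = a ∧ rvl (rvl l a) (next l a) = l := by
  obtain ⟨c, t, k, rfl, rfl, hk⟩ := basic_split h
  have e : ∀ p q : Y, Lab.act q (Lab.act (Lab.rho q) p) = p := fun p q => by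
    have := SQ.act_rho_act (Lab.rho q) p
    rwa [SQ.rho_rho] at this
  rw [next_app]
  rcases t with _ | ⟨p, _ | ⟨q, t⟩⟩ <;> cases k <;>
    simp_all [rvl, okh, nx, ok_app, next_app, SQ.act_rho_act]

theorem run_rv [SQ Y] {w : List (L Y)} {a b : List Y} (h : Run w a b) : Run (rv w a) b a := by
  induction w generalizing a with
  | nil => exact Eq.symm h
  | cons l w ih => exact run_append.2 ⟨_, ih h.2, (rvl_spec h.1).1, (rvl_spec h.1).2.1⟩

theorem rv_rv [SQ Y] {w : List (L Y)} {a b : List Y} (h : Run w a b) : rv (rv w a) b = w := by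
  induction w generalizing a with
  | nil => rfl
  | cons l w ih =>
    rw [rv, rv_append, ih h.2, run_lev (run_rv h.2)]
    exact congrArg (· :: w) (rvl_spec h.1).2.2

theorem runM_map {f : Y → Y'} (hf : Hom f) {D : List (ML Y)} {a b : List Y} (h : RunM D a b) :
    RunM (D.map (ML.map f)) (a.map f) (b.map f) := by
  induction D generalizing a with
  | nil => exact congrArg _ h
  | cons d D ih =>
    cases d with
    | lt l => exact ⟨ok_map hf h.1, by rw [next_map hf]; exact ih h.2⟩
    | mk i y => exact ⟨run_map hf h.1, ih h.2⟩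

theorem runM_lo {D : List (ML Y)} {a b : List Y} (h : RunM D a b) : Run (lo D) a b := by
  induction D generalizing a with
  | nil => exact h
  | cons d D ih =>
    cases d with
    | lt l => exact ⟨h.1, ih h.2⟩
    | mk i y => exact ih h.2

theorem runM_hi {D : List (ML Y)} {a b : List Y} (h : RunM D a b) : Run (hi D) a b := by
  induction D generalizing a with
  | nil => exact h
  | cons d D ih =>
    cases d with
    | lt l => exact ⟨h.1, ih h.2⟩
    | mk i y => exact (run_append (u := [(i, .cap), (i, .cup y)])).2 ⟨a, h.1, ih h.2⟩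

/-- The level at a mark. -/
theorem mark_iff {i : ℕ} {y : Y} {a : List Y} : Run [(i, .cap), (i, .cup y)] a a ↔
    ∃ l r, l.length = i ∧ a = l ++ y :: Lab.rho y :: r := by
  constructor
  · rintro ⟨h1, -, h2⟩
    obtain ⟨c, t, k, e, rfl, hk⟩ := basic_split h1
    obtain ⟨rfl, rfl⟩ := Prod.mk.inj e
    rw [next_app, next_app] at h2
    exact ⟨c, _, rfl, Eq.symm h2⟩
  · rintro ⟨l, r, rfl, rfl⟩
    refine ⟨(ok_app _ _ _).2 ⟨y, r, rfl⟩, ?_⟩
    rw [next_app]
    refine ⟨(ok_app _ _ _).2 trivial, ?_⟩
    rw [next_app]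
    rfl

theorem iso_map {f : Y → Y'} (hf : Hom f) {w w' : List (L Y)} (h : Iso w w') :
    Iso (mapW f w) (mapW f w') := by
  induction h with
  | refl => exact .refl
  | tail _ h ih =>
    obtain ⟨p, u, u', q, a, b, rfl, rfl, h1, h2, h3, h4⟩ := h
    exact .tail ih ⟨mapW f p, mapW f u, mapW f u', mapW f q, a.map f, b.map f,
      by simp only [mapW_append], by simp only [mapW_append], by simpa only [shape_mapW] using h1,
      run_map hf h2, run_map hf h3, run_map hf h4⟩

theorem iso_symm {w w' : List (L Y)} (h : Iso w w') : Iso w' w := by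
  induction h with
  | refl => exact .refl
  | tail _ h ih =>
    obtain ⟨p, u, u', q, a, b, e, e', h1, h2, h3, h4⟩ := h
    exact .head ⟨p, u', u, q, a, b, e', e, h1.symm, h2, h4, h3⟩ ih

theorem iso_run {w w' : List (L Y)} (h : Iso w w') {c : List Y} (hw : Run w [] c) :
    Run w' [] c := by
  induction h with
  | refl => exact hw
  | tail _ h ih =>
    obtain ⟨p, u, u', q, a, b, rfl, rfl, -, h2, h3, h4⟩ := h
    obtain ⟨b', h5, h6⟩ := run_append.1 ih
    rw [run_det h5 (run_append.2 ⟨a, h2, h3⟩)] at h6
    exact run_append.2 ⟨b, run_append.2 ⟨a, h2, h4⟩, h6⟩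

theorem sliceY_map {sg : Y → Bool} {sg' : Y' → Bool} {Q : Y → Prop} {Q' : Y' → Prop} {f : Y → Y'}
    (hf : Hom f) (hs : ∀ y, sg' (f y) = sg y) (hQ : ∀ y, Q y → Q' (f y)) {K : List (L Y)}
    (h : SliceY sg Q K) : SliceY sg' Q' (mapW f K) := by
  obtain ⟨D, s, s', y, h1, h2, h3, h4, h5, h6⟩ := h
  refine ⟨D.map (ML.map f), s.map f, s'.map f, f y, runM_map hf h1, ?_, fun i z hz => ?_, ?_, ?_,
    ?_⟩
  · rwa [mapM_mapM, show sg' ∘ f = sg from funext hs]
  · obtain ⟨d, hd, e⟩ := List.mem_map.1 hz
    cases d with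
    | lt l => cases e
    | mk i' y' =>
      cases e
      exact hQ _ (h3 _ _ hd)
  · rw [marks_map, h4, List.length_map, List.length_map]
  · rw [lo_map, ← mapW_circles, ← mapW_append]
    exact iso_map hf h5
  · rw [hi_map, ← List.map_cons, ← mapW_circles]
    exact iso_map hf h6

theorem sliceY_of_slice {K : List (L Bool)} (h : Slice K) : SliceY id (fun _ => True) K := by
  obtain ⟨D, s, s', y, h1, h2, h3, h4, h5⟩ := h
  have e : D.map (ML.map id) = D := by
    refine (List.map_congr_left fun d _ => ?_).trans (List.map_id D)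
    cases d <;> simp [ML.map, basic_map_id]
  exact ⟨D, s, s', y, h1, e.symm ▸ h2, fun _ _ _ => trivial, h3, h4, h5⟩

end Pool.Agent.AS
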