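import Pool.Agent.Lib.MP_dae8ad_gt.T.Basic

namespace Pool.Agent.AS

variable {Y Y' : Type}

theorem dblP_append (u v : List (L (Pr Y))) : dblP (u ++ v) = dblP u ++ dblP v := by
  simp only [dblP, mapW_append, dbl, List.flatMap_append]

theorem dblP_shift (n : ℕ) (w : List (L (Pr Y))) : dblP (shift n w) = shift (2 * n) (dblP w) := by
  induction w with
  | nil => rfl
  | cons l w ih =>
    obtain ⟨i, k⟩ := l
    have h1 : shift n ((i, k) :: w) = [(i + n, k)] ++ shift n w := rfl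
    have h2 : (i, k) :: w = [(i, k)] ++ w := rfl
    rw [h1, h2, dblP_append, dblP_append, shift_append, ih]
    congr 1
    cases k <;> simp [dblP, dbl, mapW, shift, Kd.map] <;> omega

theorem flat_append (a b : List (Pr Y)) : flat (a ++ b) = flat a ++ flat b := by
  simp only [flat, List.flatMap_append]

theorem length_flat (a : List (Pr Y)) : (flat a).length = 2 * a.length := by
  induction a with
  | nil => rfl
  | cons p a ih =>
    have h : flat (p :: a) = p.l :: p.r :: flat a := rfl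
    rw [h, List.length_cons, List.length_cons, ih, List.length_cons]
    omega

theorem flat_map (f : Y → Y') (a : List (Pr Y)) : (flat a).map f = flat (a.map (Pr.map f)) := by
  induction a with
  | nil => rfl
  | cons p a ih =>
    have h : flat (p :: a) = p.l :: p.r :: flat a := rfl
    have h' : flat ((p :: a).map (Pr.map f)) = f p.l :: f p.r :: flat (a.map (Pr.map f)) := rfl
    rw [h, h', List.map_cons, List.map_cons, ih]

theorem flat_inj {a b : List (Pr Y)} (h : flat a = flat b) : a = b := by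
  induction a generalizing b with
  | nil =>
    cases b with
    | nil => rfl
    | cons q b => exact absurd h (by simp [flat])
  | cons p a ih =>
    cases b with
    | nil => exact absurd h (by simp [flat])
    | cons q b =>
      have h1 : p.l :: p.r :: flat a = q.l :: q.r :: flat b := h
      simp only [List.cons.injEq] at h1
      rw [ih h1.2.2, Pr.ext h1.1 h1.2.1]

theorem mapW_dblP (f : Y → Y') (w : List (L (Pr Y))) :
    mapW f (dblP w) = dblP (mapW (Pr.map f) w) := by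
  induction w with
  | nil => rfl
  | cons l w ih =>
    obtain ⟨i, k⟩ := l
    have h1 : mapW (Pr.map f) ((i, k) :: w) = [(i, k.map (Pr.map f))] ++ mapW (Pr.map f) w := rfl
    have h2 : (i, k) :: w = [(i, k)] ++ w := rfl
    rw [h1, h2, dblP_append, dblP_append, mapW_append, ih]
    congr 1
    cases k <;> rfl

theorem dbl_kd_eq {f : Y → Y'} {k : Kd Y} :
    (k.map f = .X → k = .X) ∧ (k.map f = .Z → k = .Z) ∧ (k.map f = .cap → k = .cap) ∧
      ∀ y, k.map f = .cup y → ∃ x, k = .cup x ∧ f x = y := by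
  cases k <;> simp [Kd.map]

theorem dbl_cons_eq {f : Y → Y'} {E : List (L Y)} {i : ℕ} {k : Kd Y'} {w : List (L Y')}
    (h : mapW f E = (i, k) :: w) : ∃ k' E', E = (i, k') :: E' ∧ k'.map f = k ∧ mapW f E' = w := by
  cases E with
  | nil => exact absurd h (by simp [mapW])
  | cons l E =>
    obtain ⟨j, k'⟩ := l
    rw [mapW_cons, List.cons.injEq, Prod.mk.injEq] at h
    obtain ⟨⟨rfl, h1⟩, h2⟩ := h
    exact ⟨k', E, rfl, h1, h2⟩

theorem dbl_lift_one {f : Y → Y'} {E : List (L Y)} {i : ℕ} {k : Kd (Pr Y')}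
    (h : mapW f E = dblP [(i, k)]) : ∃ k', E = dblP [(i, k')] ∧ k'.map (Pr.map f) = k := by
  cases k with
  | X =>
    obtain ⟨k1, E, rfl, h1, h⟩ := dbl_cons_eq h
    obtain ⟨k2, E, rfl, h2, h⟩ := dbl_cons_eq h
    obtain ⟨k3, E, rfl, h3, h⟩ := dbl_cons_eq h
    obtain ⟨k4, E, rfl, h4, h⟩ := dbl_cons_eq h
    obtain rfl : E = [] := List.map_eq_nil_iff.1 h
    rw [dbl_kd_eq.1 h1, dbl_kd_eq.1 h2, dbl_kd_eq.1 h3, dbl_kd_eq.1 h4]
    exact ⟨.X, rfl, rfl⟩
  | Z =>
    obtain ⟨k1, E, rfl, h1, h⟩ := dbl_cons_eq h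
    obtain ⟨k2, E, rfl, h2, h⟩ := dbl_cons_eq h
    obtain ⟨k3, E, rfl, h3, h⟩ := dbl_cons_eq h
    obtain ⟨k4, E, rfl, h4, h⟩ := dbl_cons_eq h
    obtain rfl : E = [] := List.map_eq_nil_iff.1 h
    rw [dbl_kd_eq.2.1 h1, dbl_kd_eq.2.1 h2, dbl_kd_eq.2.1 h3, dbl_kd_eq.2.1 h4]
    exact ⟨.Z, rfl, rfl⟩
  | cup y =>
    obtain ⟨k1, E, rfl, h1, h⟩ := dbl_cons_eq h
    obtain ⟨k2, E, rfl, h2, h⟩ := dbl_cons_eq h
    obtain rfl : E = [] := List.map_eq_nil_iff.1 h
    obtain ⟨x1, rfl, h3⟩ := dbl_kd_eq.2.2.2 _ h1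
    obtain ⟨x2, rfl, h4⟩ := dbl_kd_eq.2.2.2 _ h2
    exact ⟨.cup ⟨x1, x2⟩, rfl, congrArg Kd.cup (Pr.ext h3 h4)⟩
  | cap =>
    obtain ⟨k1, E, rfl, h1, h⟩ := dbl_cons_eq h
    obtain ⟨k2, E, rfl, h2, h⟩ := dbl_cons_eq h
    obtain rfl : E = [] := List.map_eq_nil_iff.1 h
    rw [dbl_kd_eq.2.2.1 h1, dbl_kd_eq.2.2.1 h2]
    exact ⟨.cap, rfl, rfl⟩

theorem dbl_mapW_caps (f : Y → Y') (n : ℕ) :
    mapW f (List.replicate n (0, .cap)) = List.replicate n (0, .cap) := by
  simp only [mapW, List.map_replicate, Kd.map]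

theorem dbl_cups_caps (n : ℕ) : cups (List.replicate n ((0, .cap) : L Y)) = [] := by
  induction n with
  | zero => rfl
  | succ n ih => exact ih

theorem dbl_lift {f : Y → Y'} {E : List (L Y)} {w0 : List (L (Pr Y'))} (h : mapW f E = dblP w0) :
    ∃ w, E = dblP w ∧ mapW (Pr.map f) w = w0 := by
  induction w0 generalizing E with
  | nil =>
    have : E = [] := List.map_eq_nil_iff.1 h
    exact ⟨[], this, rfl⟩
  | cons l w0 ih =>
    obtain ⟨i, k⟩ := l
    have h2 : (i, k) :: w0 = [(i, k)] ++ w0 := rfl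
    rw [h2, dblP_append] at h
    obtain ⟨E1, E2, rfl, h3, h4⟩ := mapW_eq_append h
    obtain ⟨w, rfl, rfl⟩ := ih h4
    obtain ⟨k', rfl, rfl⟩ := dbl_lift_one h3
    exact ⟨[(i, k')] ++ w, (dblP_append _ _).symm, rfl⟩

theorem mapW_boxW (f : Y → Y') (g : ℕ) (E : List (L (Pr (Pr Y)))) :
    mapW f (boxW g E) = boxW g (mapW (Pr.map (Pr.map f)) E) := by
  simp only [boxW, mapW_dblP, mapW_append, mapW_shift, dbl_mapW_caps]

theorem boxW_lift {f : Y → Y'} {g : ℕ} {w : List (L Y)} {E0 : List (L (Pr (Pr Y')))}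
    (h : mapW f w = boxW g E0) : ∃ E, w = boxW g E ∧ mapW (Pr.map (Pr.map f)) E = E0 := by
  obtain ⟨w1, rfl, h1⟩ := dbl_lift h
  obtain ⟨E1, E2, rfl, h2, h3⟩ := mapW_eq_append h1
  obtain ⟨E3, rfl, h4⟩ := mapW_eq_shift h2
  obtain ⟨E, rfl, rfl⟩ := dbl_lift h4
  rw [← dbl_mapW_caps (Pr.map f)] at h3
  rw [eq_of_no_cups h3 (dbl_cups_caps _)]
  exact ⟨E, rfl, rfl⟩

theorem two_knot {g : ℕ} (s : Bool) (S : List (L (Bool × (Fin g × Bool)))) :
    two s (knot g S) = box ⟨s, !s⟩ S := by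
  have h1 : ∀ (Z : Type) (w : List (L Z)), two s w = dblP (mapW (fun _ => ⟨s, !s⟩) w) := by
    intro Z w
    simp only [two, dblP, mapW_mapW]
    rfl
  have h2 : two false S = dblP (mapW (fun _ => ⟨false, true⟩) S) := by
    simp only [two, dblP, mapW_mapW]
    rfl
  rw [h1, knot, h2, box, boxW, mapW_append, mapW_shift, dbl_mapW_caps, mapW_dblP, mapW_mapW]
  cases s <;> rfl

variable [Lab Y] [Lab Y']

theorem Hom.pr {f : Y → Y'} (hf : Hom f) : Hom (Pr.map f) :=
  ⟨fun p q => by ext <;> simp only [Pr.map, Lab.act, hf.act],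
    fun p => by ext <;> simp only [Pr.map, Lab.rho, hf.rho]⟩

theorem mapW_box {f : Y → Y'} (hf : Hom f) {g : ℕ} (P : Pr Y)
    (S : List (L (Bool × (Fin g × Bool)))) : mapW f (box P S) = box (P.map f) S := by
  rw [box, box, mapW_boxW, mapW_mapW, ← hf.pr.rho]
  rfl

theorem dbl_run_zero {k : Kd (Pr Y)} {r : List (Pr Y)} {c : List Y} :
    Run (dblP [(0, k)]) (flat r) c ↔ okh k r ∧ c = flat (nx k r) := by
  have hf : ∀ (p : Pr Y) (a : List (Pr Y)), flat (p :: a) = p.l :: p.r :: flat a := fun _ _ => rfl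
  have h0 : flat ([] : List (Pr Y)) = [] := rfl
  have hX : dblP [(0, (.X : Kd (Pr Y)))] = [(1, .X), (2, .X), (0, .X), (1, .X)] := rfl
  have hZ : dblP [(0, (.Z : Kd (Pr Y)))] = [(1, .Z), (0, .Z), (2, .Z), (1, .Z)] := rfl
  have hu : ∀ y : Pr Y, dblP [(0, .cup y)] = [(0, .cup y.l), (1, .cup y.r)] := fun _ => rfl
  have hc : dblP [(0, (.cap : Kd (Pr Y)))] = [(1, .cap), (0, .cap)] := rfl
  cases k with
  | X =>
    rw [hX]
    rcases r with _ | ⟨p, _ | ⟨q, r⟩⟩
    · simp [Run, ok, okh, h0]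
    · simp [Run, ok, okh, h0, hf]
    · simp only [Run, ok, okh, next, nx, hf]
      simp
      exact eq_comm
  | Z =>
    rw [hZ]
    rcases r with _ | ⟨p, _ | ⟨q, r⟩⟩
    · simp [Run, ok, okh, h0]
    · simp [Run, ok, okh, h0, hf]
    · simp only [Run, ok, okh, next, nx, hf]
      simp
      exact eq_comm
  | cup y =>
    rw [hu]
    simp only [Run, ok, okh, next, nx, hf]
    simp
    exact eq_comm
  | cap =>
    rw [hc]
    rcases r with _ | ⟨p, _ | ⟨q, r⟩⟩
    · simp [Run, ok, okh, h0]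
    · simp [Run, ok, okh, h0, hf]
    · simp only [Run, ok, okh, next, nx, hf]
      simp
      constructor
      · rintro ⟨h1, h2, rfl⟩
        exact ⟨Pr.ext h1 h2, rfl⟩
      · rintro ⟨rfl, rfl⟩
        exact ⟨rfl, rfl, rfl⟩

theorem dbl_run_one {l : L (Pr Y)} {a : List (Pr Y)} {c : List Y} :
    Run (dblP [l]) (flat a) c ↔ ok l a ∧ c = flat (next l a) := by
  obtain ⟨i, k⟩ := l
  by_cases hi : i ≤ a.length
  · obtain ⟨u, r, rfl, rfl⟩ : ∃ u r, a = u ++ r ∧ u.length = i :=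
      ⟨a.take i, a.drop i, (List.take_append_drop i a).symm, List.length_take_of_le hi⟩
    have h1 : [(u.length, k)] = shift u.length [(0, k)] := by simp [shift]
    rw [h1, dblP_shift, ← length_flat, flat_append, run_left, ok_app, next_app, flat_append]
    constructor
    · rintro ⟨b, h2, rfl⟩
      obtain ⟨h3, rfl⟩ := dbl_run_zero.1 h2
      exact ⟨h3, rfl⟩
    · rintro ⟨h2, rfl⟩
      exact ⟨_, dbl_run_zero.2 ⟨h2, rfl⟩, rfl⟩
  · refine iff_of_false (fun h => hi ?_) (fun h => hi h.1.1)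
    have hl := length_flat a
    cases k <;> have h1 := h.1.1 <;> simp only at h1 <;> omega

theorem run_dbl {w : List (L (Pr Y))} {a b : List (Pr Y)} (h : Run w a b) :
    Run (dblP w) (flat a) (flat b) := by
  induction w generalizing a with
  | nil => exact congrArg flat h
  | cons l w ih =>
    have h2 : l :: w = [l] ++ w := rfl
    rw [h2, dblP_append, run_append]
    exact ⟨_, dbl_run_one.2 ⟨h.1, rfl⟩, ih h.2⟩

theorem run_dbl_inv {w : List (L (Pr Y))} {a : List (Pr Y)} {c : List Y}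
    (h : Run (dblP w) (flat a) c) : ∃ b, c = flat b ∧ Run w a b := by
  induction w generalizing a with
  | nil => exact ⟨a, Eq.symm h, rfl⟩
  | cons l w ih =>
    have h2 : l :: w = [l] ++ w := rfl
    rw [h2, dblP_append, run_append] at h
    obtain ⟨d, h3, h4⟩ := h
    obtain ⟨h5, rfl⟩ := dbl_run_one.1 h3
    obtain ⟨b, rfl, h6⟩ := ih h4
    exact ⟨b, rfl, h5, h6⟩

/-- The box splits into the doubled cores and the caps. -/
theorem run_boxW {g : ℕ} {E : List (L (Pr (Pr Y)))} {P : Pr Y} {c : List Y} :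
    Run (boxW g E) [P.l, P.r] c ↔ ∃ t c', Run E [] t ∧ c = flat c' ∧
      Run (List.replicate (4 * g) (0, .cap)) (P :: flat t) c' := by
  have hP : [P.l, P.r] = flat [P] := rfl
  have hl : ∀ (w : List (L (Pr Y))) (e : List (Pr Y)),
      Run (shift 1 w) [P] e ↔ ∃ b, Run w [] b ∧ e = P :: b := fun w e =>
    run_left (c := [P]) (a := [])
  rw [hP, boxW]
  constructor
  · intro h
    obtain ⟨c', rfl, h1⟩ := run_dbl_inv h
    obtain ⟨b, h2, h3⟩ := run_append.1 h1
    obtain ⟨b', h4, rfl⟩ := (hl _ _).1 h2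
    obtain ⟨t, rfl, h5⟩ := run_dbl_inv (a := []) h4
    exact ⟨t, c', h5, rfl, h3⟩
  · rintro ⟨t, c', h1, rfl, h2⟩
    exact run_dbl (run_append.2 ⟨_, (hl _ _).2 ⟨_, run_dbl h1, rfl⟩, h2⟩)

end Pool.Agent.AS
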