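import Pool.Agent.Lib.MP_dae8ad_gt.T.LbDefs
import Pool.Agent.Lib.MP_dae8ad_gt.T.Basic

namespace Pool.Agent.AS

variable {G M M' M1 N M2 A : Type} [Group G] [AddCommGroup M] [DistribMulAction G M]
  [AddCommGroup M'] [DistribMulAction G M']
  [AddCommGroup M1] [DistribMulAction G M1] [AddCommGroup N] [DistribMulAction G N]
  [AddCommGroup M2] [DistribMulAction G M2] [AddCommGroup A] (P : PD G M1 N M2 A)

theorem PD.q_sec (n : N) : P.q (P.sec n) = n := Function.surjInv_eq P.surj n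

theorem PD.qq_sig (y : Lb G (N × M2)) : P.qq (P.sig y) = y := by
  refine Lb.ext rfl rfl ?_
  exact Prod.ext (P.q_sec _) rfl

theorem PD.zero1 (m : M2) : P.β 0 m = 0 := by
  have h := P.add1 0 0 (map_zero _) (map_zero _) m
  rw [add_zero] at h
  exact left_eq_add.1 h

theorem PD.zero2 {p : M1} (h : P.q p = 0) : P.β p 0 = 0 := by
  have h1 := P.add2 p h 0 0
  rw [add_zero] at h1
  exact left_eq_add.1 h1

theorem PD.sub1 {p p' : M1} (h : P.q p = 0) (h' : P.q p' = 0) (m : M2) :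
    P.β (p - p') m = P.β p m - P.β p' m := by
  have h1 := P.add1 (p - p') p' (by rw [map_sub, h, h', sub_zero]) h' m
  rw [sub_add_cancel] at h1
  exact eq_sub_of_add_eq h1.symm

theorem PD.sub2 {p : M1} (h : P.q p = 0) (m m' : M2) : P.β p (m - m') = P.β p m - P.β p m' := by
  have h1 := P.add2 p h (m - m') m'
  rw [sub_add_cancel] at h1
  exact eq_sub_of_add_eq h1.symm

theorem reg_append (ρ : M2) (a b : List (Lb G (M × M2))) : reg ρ (a ++ b) = reg (reg ρ a) b := by
  exact List.foldl_append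

/-- Regions only see the second components. -/
theorem reg_map (ψ : M × M2 → M') (ρ : M2) (a : List (Lb G (M × M2))) :
    reg ρ (a.map (Lb.mp fun m => (ψ m, m.2))) = reg ρ a := by
  induction a generalizing ρ with
  | nil => rfl
  | cons y a ih => exact ih _

theorem lam_nf {Y : Type} [Lab Y] {l : L Y} {a : List Y} (h : ok l a) :
    (∃ u p q r, l = (List.length u, .X) ∧ a = u ++ p :: q :: r) ∨
    (∃ u p q r, l = (List.length u, .Z) ∧ a = u ++ p :: q :: r) ∨
    (∃ u p r, l = (List.length u, .cup p) ∧ a = u ++ r) ∨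
    (∃ u p r, l = (List.length u, .cap) ∧ a = u ++ p :: Lab.rho p :: r) := by
  obtain ⟨i, k⟩ := l
  obtain ⟨h1, h2⟩ := h
  have hl : (a.take i).length = i := List.length_take_of_le h1
  have ha : a = a.take i ++ a.drop i := (List.take_append_drop i a).symm
  generalize a.take i = u at hl ha
  change okh k (a.drop i) at h2
  generalize a.drop i = r at ha h2
  subst hl ha
  cases k with
  | X =>
    match r, h2 with
    | p :: q :: r, _ => exact .inl ⟨u, p, q, r, rfl, rfl⟩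
    | [], h2 => simp [okh] at h2
    | [_], h2 => simp [okh] at h2
  | Z =>
    match r, h2 with
    | p :: q :: r, _ => exact .inr (.inl ⟨u, p, q, r, rfl, rfl⟩)
    | [], h2 => simp [okh] at h2
    | [_], h2 => simp [okh] at h2
  | cup y => exact .inr (.inr (.inl ⟨u, y, r, rfl, rfl⟩))
  | cap =>
    obtain ⟨p, t, rfl⟩ := h2
    exact .inr (.inr (.inr ⟨u, p, t, rfl, rfl⟩))

theorem lam_regX (p q : Lb G (M × M2)) (ρ : M2) :
    reg1 p (reg1 (Lab.act p q) ρ) = reg1 q (reg1 p ρ) := by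
  simp only [reg1, act_x, act_m, Prod.snd_add, Prod.smul_snd, Prod.snd_sub, smul_add, smul_sub,
    mul_smul, mul_inv_rev, inv_inv, inv_smul_smul]
  abel

theorem lam_regZ (p q : Lb G (M × M2)) (ρ : M2) :
    reg1 (Lab.act (Lab.rho q) p) (reg1 q ρ) = reg1 q (reg1 p ρ) := by
  simp only [reg1, act_x, act_m, rho_x, rho_m, Prod.snd_add, Prod.smul_snd, Prod.snd_sub, smul_add,
    smul_sub, mul_smul, mul_inv_rev, inv_inv, smul_inv_smul]
  abel

theorem lam_regC (p : Lb G (M × M2)) (ρ : M2) : reg1 (Lab.rho p) (reg1 p ρ) = ρ := by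
  simp only [reg1, rho_x, rho_m, smul_add, smul_sub, inv_inv, smul_inv_smul]
  abel

theorem reg_next {l : L (Lb G (M × M2))} {a : List (Lb G (M × M2))} (h : ok l a) (ρ : M2) :
    reg ρ (next l a) = reg ρ a := by
  rcases lam_nf h with ⟨u, p, q, r, rfl, rfl⟩ | ⟨u, p, q, r, rfl, rfl⟩ | ⟨u, p, r, rfl, rfl⟩ |
    ⟨u, p, r, rfl, rfl⟩ <;> rw [next_app, reg_append, reg_append]
  · exact congrArg (reg · r) (lam_regX p q _)
  · exact congrArg (reg · r) (lam_regZ p q _)
  · exact congrArg (reg · r) (lam_regC p _)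
  · exact congrArg (reg · r) (lam_regC p _).symm

theorem reg_run {w : List (L (Lb G (M × M2)))} {a b : List (Lb G (M × M2))} (h : Run w a b)
    (ρ : M2) : reg ρ b = reg ρ a := by
  induction w generalizing a with
  | nil => rw [show a = b from h]
  | cons l w ih => rw [ih h.2, reg_next h.1]

theorem oms_append (ρ : M2) (a b : List (Lb G (M1 × M2))) :
    OmS P ρ (a ++ b) = OmS P ρ a + OmS P (reg ρ a) b := by
  induction a generalizing ρ with
  | nil => exact (zero_add _).symm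
  | cons y a ih =>
    show _ + OmS P _ (a ++ b) = _ + OmS P _ a + OmS P (reg (reg1 y ρ) a) b
    rw [ih, add_assoc]

theorem oms_sig (ρ : M2) (a : List (Lb G (N × M2))) : OmS P ρ (a.map P.sig) = 0 := by
  induction a generalizing ρ with
  | nil => rfl
  | cons y a ih =>
    show P.β (P.sec (P.q (P.sec y.m.1)) - P.sec y.m.1) _ + OmS P _ (a.map P.sig) = 0
    rw [ih, P.q_sec, sub_self, P.zero1, add_zero]

theorem lam_def (m : M1) : P.q (P.sec (P.q m) - m) = 0 := by
  rw [map_sub, P.q_sec, sub_self]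

/-- A jump of a whole block by `d` (telescoping sum). -/
theorem oms_jump {d : M1} (hd : P.q d = 0) (ρ : M2) (a : List (Lb G (M1 × M2))) :
    OmS P ρ (a.map (Lb.mp fun m => (m.1 + d, m.2))) = OmS P ρ a - P.β d (reg ρ a - ρ) := by
  induction a generalizing ρ with
  | nil =>
    show (0 : A) = 0 - P.β d (ρ - ρ)
    rw [sub_self, P.zero2 hd, sub_zero]
  | cons y a ih =>
    show P.β (P.sec (P.q (y.m.1 + d)) - (y.m.1 + d)) (reg1 y ρ - ρ) + OmS P (reg1 y ρ) (a.map _) =
      P.β _ (reg1 y ρ - ρ) + OmS P (reg1 y ρ) a - P.β d (reg (reg1 y ρ) a - ρ)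
    rw [ih, map_add, hd, add_zero, ← sub_sub, P.sub1 (lam_def P _) hd, P.sub2 hd, P.sub2 hd,
      P.sub2 hd]
    abel

theorem lam_key (x : G) (a b : M1) (s t : M2) (e : s = x • t) :
    P.β (P.sec (P.q (P.sec (P.q a) + x • (P.sec (P.q b) - P.sec (P.q a)))) -
      (P.sec (P.q a) + x • (P.sec (P.q b) - P.sec (P.q a)))) s =
    P.β (P.sec (P.q (a + x • (b - a))) - (a + x • (b - a))) s - P.β (P.sec (P.q a) - a) s -
      (P.β (P.sec (P.q b) - b) t - P.β (P.sec (P.q a) - a) t) := by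
  have ha := lam_def P a
  have hb := lam_def P b
  have hab : P.q (P.sec (P.q b) - b - (P.sec (P.q a) - a)) = 0 := by rw [map_sub, ha, hb, sub_zero]
  have e1 : P.q (P.sec (P.q a) + x • (P.sec (P.q b) - P.sec (P.q a))) = P.q (a + x • (b - a)) := by
    simp only [map_add, P.eqv x, map_sub, P.q_sec]
  rw [e1, ← P.sub1 hb ha, ← P.inv x _ t hab, ← e, ← P.sub1 (lam_def P _) ha,
    ← P.sub1 (by rw [map_sub, lam_def, ha, sub_zero]) (by rw [P.eqv x, hab, smul_zero])]
  congr 1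
  simp only [smul_sub]
  abel

theorem lam_omsC (ρ : M2) (p : Lb G (M1 × M2)) (r : List (Lb G (M1 × M2))) :
    OmS P ρ (p :: Lab.rho p :: r) = OmS P ρ r := by
  show P.β (P.sec (P.q p.m.1) - p.m.1) (reg1 p ρ - ρ) + (P.β (P.sec (P.q p.m.1) - p.m.1)
    (reg1 (Lab.rho p) (reg1 p ρ) - reg1 p ρ) + OmS P (reg1 (Lab.rho p) (reg1 p ρ)) r) = _
  rw [lam_regC, P.sub2 (lam_def P _), P.sub2 (lam_def P _)]
  abel

/-- Conservation for one letter.  With `a = l ++ strands ++ r` and `d y = sec (q y) - y` for the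
strands: for `X` on `p, q` the new defects differ by `d p + x (d q - d p)` and `d p`; with
`ρ1 = reg1 p ρ`, `ρ2 = reg1 q ρ1`, the region between the new strands is `ρ' = m p + x (ρ2 - m p)`,
`ρ' - ρ = x (ρ2 - ρ1)`, and `β (d p + x (d q - d p)) (ρ' - ρ) + β (d p) (ρ2 - ρ') =
β (d p) (ρ1 - ρ) + β (d q) (ρ2 - ρ1)` by `inv`; `Z` is similar; for cups and caps both strands have
the same defect and the region returns. -/
theorem jl1 {l : L (Lb G (M1 × M2))} {a : List (Lb G (M1 × M2))} (h : ok l a) (ρ : M2) :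
    OmS P ρ (next (l.1, (l.2.map P.qq).map P.sig) ((a.map P.qq).map P.sig)) =
      OmS P ρ (next l a) - OmS P ρ a := by
  have hr (u : List (Lb G (M1 × M2))) : reg ρ ((u.map P.qq).map P.sig) = reg ρ u := by
    rw [List.map_map]
    exact reg_map (fun m => P.sec (P.q m.1)) ρ u
  have hl (u : List (Lb G (M1 × M2))) : u.length = ((u.map P.qq).map P.sig).length := by
    rw [List.length_map, List.length_map]
  rcases lam_nf h with ⟨u, p, q, r, rfl, rfl⟩ | ⟨u, p, q, r, rfl, rfl⟩ | ⟨u, p, r, rfl, rfl⟩ |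
    ⟨u, p, r, rfl, rfl⟩ <;>
    rw [next_app, List.map_append, List.map_append, hl u, next_app, oms_append, oms_append,
      oms_append, oms_sig, hr, zero_add, add_sub_add_left_eq_sub] <;>
    generalize reg ρ u = ρ0
  · show P.β (P.sec (P.q (P.sec (P.q p.m.1) + p.x • (P.sec (P.q q.m.1) - P.sec (P.q p.m.1)))) -
        (P.sec (P.q p.m.1) + p.x • (P.sec (P.q q.m.1) - P.sec (P.q p.m.1))))
        (reg1 (Lab.act p q) ρ0 - ρ0) + OmS P _ (((p :: r).map P.qq).map P.sig) =
      P.β (P.sec (P.q (p.m.1 + p.x • (q.m.1 - p.m.1))) - (p.m.1 + p.x • (q.m.1 - p.m.1)))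
        (reg1 (Lab.act p q) ρ0 - ρ0) +
        (P.β _ (reg1 p (reg1 (Lab.act p q) ρ0) - reg1 (Lab.act p q) ρ0) +
          OmS P (reg1 p (reg1 (Lab.act p q) ρ0)) r) -
      (P.β _ (reg1 p ρ0 - ρ0) + (P.β _ (reg1 q (reg1 p ρ0) - reg1 p ρ0) +
        OmS P (reg1 q (reg1 p ρ0)) r))
    have e : reg1 (Lab.act p q) ρ0 - ρ0 = p.x • (reg1 q (reg1 p ρ0) - reg1 p ρ0) := by
      rw [← lam_regX]
      simp only [reg1, smul_add, smul_sub, smul_inv_smul]
      abel
    rw [oms_sig, add_zero, lam_regX, lam_key P p.x _ _ _ _ e, P.sub2 (lam_def P p.m.1),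
      P.sub2 (lam_def P p.m.1), P.sub2 (lam_def P p.m.1), P.sub2 (lam_def P p.m.1)]
    abel
  · show P.β (P.sec (P.q (P.sec (P.q q.m.1))) - P.sec (P.q q.m.1)) _ +
      (P.β (P.sec (P.q (P.sec (P.q q.m.1) + q.x⁻¹ • (P.sec (P.q p.m.1) - P.sec (P.q q.m.1)))) -
        (P.sec (P.q q.m.1) + q.x⁻¹ • (P.sec (P.q p.m.1) - P.sec (P.q q.m.1))))
        (reg1 (Lab.act (Lab.rho q) p) (reg1 q ρ0) - reg1 q ρ0) +
          OmS P _ ((r.map P.qq).map P.sig)) =
      P.β _ (reg1 q ρ0 - ρ0) +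
      (P.β (P.sec (P.q (q.m.1 + q.x⁻¹ • (p.m.1 - q.m.1))) - (q.m.1 + q.x⁻¹ • (p.m.1 - q.m.1)))
        (reg1 (Lab.act (Lab.rho q) p) (reg1 q ρ0) - reg1 q ρ0) +
          OmS P (reg1 (Lab.act (Lab.rho q) p) (reg1 q ρ0)) r) -
      (P.β _ (reg1 p ρ0 - ρ0) + (P.β _ (reg1 q (reg1 p ρ0) - reg1 p ρ0) +
        OmS P (reg1 q (reg1 p ρ0)) r))
    have e : reg1 q (reg1 p ρ0) - reg1 q ρ0 = q.x⁻¹ • (reg1 p ρ0 - ρ0) := by
      simp only [reg1, smul_add, smul_sub]
      abel
    rw [oms_sig, add_zero, P.q_sec, sub_self, P.zero1, zero_add, lam_regZ,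
      lam_key P q.x⁻¹ _ _ _ _ e, P.sub2 (lam_def P q.m.1),
      P.sub2 (lam_def P q.m.1), P.sub2 (lam_def P q.m.1), P.sub2 (lam_def P q.m.1)]
    abel
  · show OmS P ρ0 (((p :: Lab.rho p :: r).map P.qq).map P.sig) =
      OmS P ρ0 (p :: Lab.rho p :: r) - OmS P ρ0 r
    rw [oms_sig, lam_omsC, sub_self]
  · show OmS P ρ0 ((r.map P.qq).map P.sig) = OmS P ρ0 r - OmS P ρ0 (p :: Lab.rho p :: r)
    rw [oms_sig, lam_omsC, sub_self]

/-- An exact lift computes the state sum from its ends. -/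
theorem lam_lift {w : List (L (Lb G (M1 × M2)))} {a b : List (Lb G (M1 × M2))} (h : Run w a b)
    (ρ : M2) : Lam P ρ (mapW P.qq w) (a.map P.qq) = OmS P ρ b - OmS P ρ a := by
  induction w generalizing a with
  | nil => rw [show a = b from h, sub_self]; rfl
  | cons l w ih =>
    show OmS P ρ (next (l.1, (l.2.map P.qq).map P.sig) ((a.map P.qq).map P.sig)) +
      Lam P ρ (mapW P.qq w) (next (l.1, l.2.map P.qq) (a.map P.qq)) = _
    rw [jl1 P h.1, next_map P.hom_qq, ih h.2]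
    abel

theorem lam_append (ρ : M2) (u v : List (L (Lb G (N × M2)))) (a : List (Lb G (N × M2))) :
    Lam P ρ (u ++ v) a = Lam P ρ u a + Lam P ρ v (lev u a) := by
  induction u generalizing a with
  | nil => exact (zero_add _).symm
  | cons l u ih =>
    show _ + Lam P ρ (u ++ v) _ = _ + Lam P ρ u _ + Lam P ρ v (lev u (next l a))
    rw [ih, add_assoc]

theorem lam_ok_sig {l : L (Lb G (N × M2))} {a : List (Lb G (N × M2))} (h : ok l a) :
    ok (l.1, l.2.map P.sig) (a.map P.sig) := by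
  rcases lam_nf h with ⟨u, p, q, r, rfl, rfl⟩ | ⟨u, p, q, r, rfl, rfl⟩ | ⟨u, p, r, rfl, rfl⟩ |
    ⟨u, p, r, rfl, rfl⟩ <;> rw [List.map_append, ← List.length_map (f := P.sig), ok_app]
  · simp [okh, Kd.map]
  · simp [okh, Kd.map]
  · trivial
  · exact ⟨P.sig p, r.map P.sig, rfl⟩

theorem lam_ctx {w : List (L (Lb G (N × M2)))} {a b : List (Lb G (N × M2))} (h : Run w a b)
    (ρ : M2) (c r : List (Lb G (N × M2))) :
    Lam P ρ (shift c.length w) (c ++ a ++ r) = Lam P (reg ρ c) w a := by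
  induction w generalizing a with
  | nil => rfl
  | cons l w ih =>
    show OmS P ρ (next (l.1 + c.length, l.2.map P.sig) ((c ++ a ++ r).map P.sig)) +
      Lam P ρ (shift c.length w) (next (l.1 + c.length, l.2) (c ++ a ++ r)) =
      OmS P _ (next (l.1, l.2.map P.sig) (a.map P.sig)) + Lam P _ w (next l a)
    have e := (next_ctx (lam_ok_sig P h.1) (c.map P.sig) (r.map P.sig)).2
    rw [List.length_map] at e
    rw [(next_ctx h.1 c r).2, ih h.2, List.map_append, List.map_append, e, oms_append, oms_append,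
      oms_sig, oms_sig, zero_add, add_zero,
      show reg ρ (c.map P.sig) = reg ρ c from reg_map (fun m => P.sec m.1) ρ c]

theorem lam_circles (ρ : M2) (s : List (Lb G (N × M2))) : Lam P ρ (circles s) [] = 0 := by
  induction s with
  | nil => rfl
  | cons y s ih =>
    show OmS P ρ ([y, Lab.rho y].map P.sig) + ((0 : A) + Lam P ρ (circles s) []) = 0
    rw [oms_sig, ih, add_zero, add_zero]

theorem lam_oms0 (a : List (Lb G (M1 × M2))) (h : ∀ y ∈ a, y.m.2 = 0) : OmS P 0 a = 0 := by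
  induction a with
  | nil => rfl
  | cons y a ih =>
    have e : reg1 y (0 : M2) = 0 := by simp [reg1, h y List.mem_cons_self]
    show P.β _ (reg1 y 0 - 0) + OmS P (reg1 y 0) a = 0
    rw [e, sub_zero, P.zero2 (lam_def P _), ih fun z hz => h z (List.mem_cons_of_mem _ hz),
      add_zero]

theorem lam_next0 (l : L (Lb G (M × M2))) (a : List (Lb G (M × M2)))
    (hl : ∀ y ∈ cups [l], y.m.2 = 0) (ha : ∀ y ∈ a, y.m.2 = 0) : ∀ y ∈ next l a, y.m.2 = 0 :=
  lev_forall (fun y : Lb G (M × M2) => y.m.2 = 0)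
    (fun p q hp hq => by simp [act_m, hp, hq]) (fun _ hp => hp) [l] a hl ha

theorem lam_zero' (w : List (L (Lb G (N × M2)))) (a : List (Lb G (N × M2)))
    (hw : ∀ y ∈ cups w, y.m.2 = 0) (ha : ∀ y ∈ a, y.m.2 = 0) : Lam P 0 w a = 0 := by
  induction w generalizing a with
  | nil => rfl
  | cons l w ih =>
    have e : cups (l :: w) = cups [l] ++ cups w := cups_append [l] w
    rw [e] at hw
    have h1 : ∀ y ∈ cups [l], y.m.2 = 0 := fun y hy => hw y (List.mem_append_left _ hy)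
    show OmS P 0 (next _ _) + Lam P 0 w (next l a) = 0
    rw [ih _ (fun y hy => hw y (List.mem_append_right _ hy)) (lam_next0 l a h1 ha), add_zero]
    refine lam_oms0 P _ (lam_next0 _ _ (fun y hy => ?_) fun y hy => ?_)
    · rw [show cups [(l.1, l.2.map P.sig)] = _ from cups_mapW P.sig [l]] at hy
      obtain ⟨z, hz, rfl⟩ := List.mem_map.1 hy
      exact h1 z hz
    · obtain ⟨z, hz, rfl⟩ := List.mem_map.1 hy
      exact ha z hz

/-- If all second components vanish, so do all regions. -/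
theorem lam_zero (w : List (L (Lb G N))) (a : List (Lb G N)) :
    Lam P 0 (mapW (Lb.mp fun m => (m, 0)) w) (a.map (Lb.mp fun m => (m, 0))) = 0 := by
  refine lam_zero' P _ _ (fun y hy => ?_) (fun y hy => ?_)
  · rw [cups_mapW] at hy
    obtain ⟨z, -, rfl⟩ := List.mem_map.1 hy
    rfl
  · obtain ⟨z, -, rfl⟩ := List.mem_map.1 hy
    rfl

theorem zipW_spec {w : List (L (Lb G M))} {w' : List (L (Lb G M'))} (h : mapW bs w = mapW bs w') :
    mapW (Lb.mp Prod.fst) (zipW w w') = w ∧ mapW (Lb.mp Prod.snd) (zipW w w') = w' := by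
  induction w generalizing w' with
  | nil =>
    cases w' with
    | nil => exact ⟨rfl, rfl⟩
    | cons l' w' => cases h
  | cons l w ih =>
    cases w' with
    | nil => cases h
    | cons l' w' =>
      rw [mapW_cons, mapW_cons, List.cons.injEq] at h
      obtain ⟨h1, h2⟩ := ih h.2
      obtain ⟨i, k⟩ := l
      obtain ⟨i', k'⟩ := l'
      obtain ⟨rfl, hk⟩ : i = i' ∧ k.map bs = k'.map bs := Prod.ext_iff.1 h.1
      show _ :: mapW _ (zipW w w') = _ ∧ _ :: mapW _ (zipW w w') = _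
      rw [h1, h2]
      cases k <;> cases k' <;> try first | exact ⟨rfl, rfl⟩ | (simp [Kd.map] at hk; done)
      rename_i y z
      have e : bs y = bs z := Kd.cup.inj hk
      have e1 := congrArg Lb.s e
      have e2 := congrArg Lb.x e
      have e3 : Lb.mp Prod.snd (zipL y z) = z := Lb.ext e1 e2 rfl
      exact ⟨rfl, congrArg (fun t => (i, Kd.cup t) :: w') e3⟩

theorem lb_ji (y z : Lb G (M × M')) (h : y.mp Prod.fst = z.mp Prod.fst)
    (h' : y.mp Prod.snd = z.mp Prod.snd) : y = z := by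
  have h1 := congrArg Lb.s h
  have h2 := congrArg Lb.x h
  exact Lb.ext h1 h2 (Prod.ext (congrArg Lb.m h) (congrArg Lb.m h'))

theorem col_zipW {K0 : List (L (Lb0 G))} {w : List (L (Lb G M))} {w' : List (L (Lb G M'))}
    (h : Col K0 w) (h' : Col K0 w') : Col K0 (zipW w w') := by
  obtain ⟨h1, h2⟩ := zipW_spec (h.2.trans h'.2.symm)
  have h3 := run_ji (a := []) hom_fst hom_snd lb_ji (h1.symm ▸ h.1) (h2.symm ▸ h'.1)
  have h4 := lev_map hom_fst (zipW w w') []
  rw [h1, List.map_nil, run_lev h.1] at h4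
  rw [List.map_eq_nil_iff.1 h4.symm] at h3
  refine ⟨h3, ?_⟩
  rw [← h.2]
  conv_rhs => rw [← h1, mapW_mapW]
  rfl

theorem col_map {K0 : List (L (Lb0 G))} {w : List (L (Lb G M))} (h : Col K0 w) {ψ : M → M'}
    (hψ : Hom (Lb.mp ψ : Lb G M → Lb G M')) : Col K0 (mapW (Lb.mp ψ) w) := by
  refine ⟨run_map hψ h.1, ?_⟩
  rw [mapW_mapW]
  exact h.2

theorem ap_map {ψ : M →+ M'} (h : Eqv G ψ) (r : G →₀ ℤ) (m : M) : ψ (ap r m) = ap r (ψ m) := by
  simp only [ap, map_finsuppSum, map_zsmul, h _ m]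

theorem evF_map {ι : Type} [Fintype ι] {ψ : M →+ M'} (h : Eqv G ψ) (φ : ι → G →₀ ℤ) (c : ι → M) :
    ψ (evF φ c) = evF φ (ψ ∘ c) := by
  simp only [evF, map_sum, ap_map h, Function.comp]

theorem evF_add {ι : Type} [Fintype ι] (φ : ι → G →₀ ℤ) (c c' : ι → M) :
    evF φ (c + c') = evF φ c + evF φ c' := by
  simp only [evF, ap, Pi.add_apply, smul_add, Finsupp.sum_add, Finset.sum_add_distrib]

theorem evF_zero {ι : Type} [Fintype ι] (φ : ι → G →₀ ℤ) : evF φ (0 : ι → M) = 0 := by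
  simp [evF, ap]

theorem om_map {ψ : M →+ M'} (h : Eqv G ψ) (g : G) (m : M) : ψ (om g m) = om g (ψ m) := by
  rw [om, om, map_sub, h g]

end Pool.Agent.AS
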