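import Pool.Agent.Lib.MP_dae8ad_gt.T.QEx
import Pool.Agent.Lib.MP_dae8ad_gt.T.Dbl
import Pool.Agent.Lib.MP_dae8ad_gt.T.Lam

namespace Pool.Agent.AS

variable {G M M' : Type} [Group G] [AddCommGroup M] [DistribMulAction G M] [AddCommGroup M']
  [DistribMulAction G M'] {g : ℕ}

theorem tl_tl (a b : M) (P : Pr (Lb G M)) : tl a (tl b P) = tl (b + a) P := by
  ext <;> simp [tl, Pr.map, Lb.mp, add_assoc]

theorem tl_zero (P : Pr (Lb G M)) : tl 0 P = P := by
  ext <;> simp [tl, Pr.map, Lb.mp]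

theorem tl_rho (a : M) (P : Pr (Lb G M)) : Lab.rho (tl a P) = tl a (Lab.rho P) := by
  rfl

theorem tl_inj {a b : M} {P : Pr (Lb G M)} (h : tl a P = tl b P) : a = b := by
  have h1 : P.l.m + a = P.l.m + b := congrArg (fun p : Pr (Lb G M) => p.l.m) h
  exact add_left_cancel h1

theorem boxa_act (P : Pr (Lb G M)) (a b : M) (u : Lb G M) :
    Lab.act (Lab.rho (tl a P).r) (Lab.act (Lab.rho (tl a P).l)
      (Lab.act (tl b P).l (Lab.act (tl b P).r u))) = u.mp (· + om (hP P)⁻¹ (a - b)) := by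
  ext
  · rfl
  · simp [act_x, rho_x, tl, Pr.map, Lb.mp, mul_assoc]
  · simp only [act_m, rho_x, rho_m, tl, Pr.map, Lb.mp, om, hP, mul_inv_rev, mul_smul, smul_add,
      smul_sub, inv_smul_smul]
    abel

theorem boxa_rr (P : Pr (Lb G M)) : Lab.rho (Lab.rho P) = P :=
  Pr.ext (SQ.rho_rho P.l) (SQ.rho_rho P.r)

/-- Passing under the two edges of a band is a translation. -/
theorem quad_act (P : Pr (Lb G M)) (a b : M) (q : Pr (Lb G M)) :
    Lab.act (Lab.rho (tl a P)) (Lab.act (tl b P) q) = tl (om (hP P)⁻¹ (a - b)) q := by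
  exact Pr.ext (boxa_act P a b q.l) (boxa_act P a b q.r)

theorem hom_FQ (P : Pr (Lb G M)) (y : Fin g × Bool → M) : Hom (FQ P y) := by
  constructor
  · intro p q
    have h1 : ∀ u : Pr (Lb G M), Lab.act (FQ P y p).l (Lab.act (FQ P y p).r u) =
        tl (sgn p.s (vq P y p.n)) u := by
      intro u
      obtain ⟨s, n, z⟩ := p
      cases s
      · refine (quad_act P z (z + y n) u).trans (congrArg (fun a => tl a u) ?_)
        simp only [sgn, vq, om, Bool.false_eq_true, if_false, smul_sub, smul_add]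
        abel
      · refine (quad_act P (z + y n) z u).trans (congrArg (fun a => tl a u) ?_)
        simp only [sgn, vq, if_true, add_sub_cancel_left]
    refine Pr.ext (Eq.trans ?_ (h1 _).symm) (Eq.trans ?_ (h1 _).symm)
    · generalize hc : sgn p.s (vq P y p.n) = c
      obtain ⟨s, n, z⟩ := q
      cases s
      · show Lab.rho (tl (z + sgn p.s (vq P y p.n)) P) = tl c (Lab.rho (tl z P))
        rw [hc, ← tl_rho c, tl_tl]
      · show Lab.rho (tl (z + sgn p.s (vq P y p.n) + y n) P) = tl c (Lab.rho (tl (z + y n) P))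
        rw [hc, ← tl_rho c, tl_tl, add_right_comm]
    · generalize hc : sgn p.s (vq P y p.n) = c
      obtain ⟨s, n, z⟩ := q
      cases s
      · show tl (z + sgn p.s (vq P y p.n) + y n) P = tl c (tl (z + y n) P)
        rw [hc, tl_tl, add_right_comm]
      · show tl (z + sgn p.s (vq P y p.n)) P = tl c (tl z P)
        rw [hc, tl_tl]
  · rintro ⟨s, n, z⟩
    cases s
    · exact Pr.ext rfl (boxa_rr _).symm
    · exact Pr.ext rfl (boxa_rr _).symm

theorem boxa_cap (P : Pr (Lb G M)) (a b : M) (w : List (L (Pr (Lb G M))))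
    (r c : List (Pr (Lb G M))) :
    Run ((0, .cap) :: w) (tl a P :: Lab.rho (tl b P) :: r) c ↔ b = a ∧ Run w r c := by
  refine and_congr ?_ Iff.rfl
  constructor
  · rintro ⟨-, p, t, h⟩
    simp only [List.drop_zero, List.cons.injEq] at h
    obtain ⟨rfl, h1, -⟩ := h
    have h2 := congrArg Lab.rho h1
    rw [boxa_rr, boxa_rr] at h2
    exact tl_inj h2
  · rintro rfl
    exact ⟨Nat.zero_le _, _, _, rfl⟩

theorem boxa_four (P : Pr (Lb G M)) (u0 u1 d0 d1 y0 y1 : M) (w : List (L (Pr (Lb G M))))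
    (r c : List (Pr (Lb G M))) :
    Run ((0, .cap) :: (0, .cap) :: (0, .cap) :: (0, .cap) :: w)
      (P :: Lab.rho (tl (u0 + y0) P) :: tl u0 P :: Lab.rho (tl (u1 + y1) P) :: tl u1 P ::
        Lab.rho (tl d0 P) :: tl (d0 + y0) P :: Lab.rho (tl d1 P) :: tl (d1 + y1) P :: r) c ↔
      (u0 = -y0 ∧ u1 = -y0 - y1 ∧ d0 = -y0 - y1 ∧ d1 = -y1) ∧ Run w (P :: r) c := by
  have h := boxa_cap P 0 (u0 + y0) ((0, .cap) :: (0, .cap) :: (0, .cap) :: w)
    (tl u0 P :: Lab.rho (tl (u1 + y1) P) :: tl u1 P ::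
      Lab.rho (tl d0 P) :: tl (d0 + y0) P :: Lab.rho (tl d1 P) :: tl (d1 + y1) P :: r) c
  rw [tl_zero] at h
  rw [h, boxa_cap, boxa_cap, boxa_cap]
  constructor
  · rintro ⟨a1, a2, a3, a4, a5⟩
    have b1 : u0 = -y0 := eq_neg_of_add_eq_zero_left a1
    have b2 : u1 = -y0 - y1 := by rw [← b1, ← a2]; abel
    have b4 : d1 = -y1 := by rw [a4, a3, b2]; abel
    rw [b4, neg_add_cancel, tl_zero] at a5
    exact ⟨⟨b1, b2, a3.trans b2, b4⟩, a5⟩
  · rintro ⟨⟨rfl, rfl, rfl, rfl⟩, a5⟩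
    refine ⟨by abel, by abel, rfl, by abel, ?_⟩
    rw [neg_add_cancel, tl_zero]
    exact a5

theorem boxa_caps (P : Pr (Lb G M)) (y zu zd : Fin g × Bool → M) (c : List (Pr (Lb G M)))
    (js : List (Fin g)) :
    Run (List.replicate (4 * js.length) (0, .cap)) (P :: flat (((js.flatMap fun j =>
      [(true, (j, false)), (true, (j, true)), (false, (j, false)), (false, (j, true))]).map
        fun u : Bool × (Fin g × Bool) =>
          (⟨u.1, u.2, if u.1 then zu u.2 else zd u.2⟩ : Qd (vq P y))).map (FQ P y))) c ↔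
      (∀ j ∈ js, zu (j, false) = zuF y (j, false) ∧ zu (j, true) = zuF y (j, true) ∧
        zd (j, false) = zdF y (j, false) ∧ zd (j, true) = zdF y (j, true)) ∧ c = [P] := by
  induction js with
  | nil => exact ⟨fun h => ⟨fun _ h' => absurd h' List.not_mem_nil, h.symm⟩, fun h => h.2.symm⟩
  | cons j js ih =>
    rw [List.forall_mem_cons, and_assoc, ← ih, List.flatMap_cons, List.map_append, List.map_append,
      flat_append]
    exact boxa_four P (zu (j, false)) (zu (j, true)) (zd (j, false)) (zd (j, true)) (y (j, false))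
      (y (j, true)) _ _ c

/-- The caps close up exactly when the positions of the legs are `zuF`, `zdF` (induction over the
list of handles; each handle starts and ends with the pair `P`). -/
theorem caps_iff (P : Pr (Lb G M)) (y zu zd : Fin g × Bool → M) (c : List (Pr (Lb G M))) :
    Run (List.replicate (4 * g) (0, .cap)) (P :: flat ((topQ (vq P y) zu zd).map (FQ P y))) c ↔
      zu = zuF y ∧ zd = zdF y ∧ c = [P] := by
  have h := boxa_caps P y zu zd c (List.finRange g)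
  rw [List.length_finRange] at h
  refine Iff.trans ?_ (h.trans ?_)
  · unfold topQ legs
    exact Iff.rfl
  · constructor
    · rintro ⟨h1, h2⟩
      refine ⟨funext fun ⟨j, b⟩ => ?_, funext fun ⟨j, b⟩ => ?_, h2⟩
      · have h3 := h1 j (List.mem_finRange j)
        cases b
        · exact h3.1
        · exact h3.2.1
      · have h3 := h1 j (List.mem_finRange j)
        cases b
        · exact h3.2.2.1
        · exact h3.2.2.2
    · rintro ⟨rfl, rfl, h2⟩
      exact ⟨fun _ _ => ⟨rfl, rfl, rfl, rfl⟩, h2⟩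

theorem boxa_J (y : Fin g × Bool → M) (j : Fin g × Bool) :
    ∑ i, Jm g j i • y i = zuF y j - zdF y j := by
  obtain ⟨j, b⟩ := j
  rw [Fintype.sum_prod_type, Finset.sum_eq_single j]
  · cases b <;> simp [Jm, zuF, zdF]
  · intro k _ hk
    simp [Jm, hk.symm]
  · simp

/-- `zuF y - zdF y = J y` and `Uᵀ - U = J`. -/
theorem beq_eq {U : Matrix (Fin g × Bool) (Fin g × Bool) ℤ} (hU : U.transpose - U = Jm g)
    (P : Pr (Lb G M)) (y : Fin g × Bool → M) (j : Fin g × Bool) :
    beq U (hP P) y j = ∑ i, U i j • vq P y i - (zuF y j - zdF y j) := by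
  have h1 : ∀ i, U i j = U j i + Jm g j i := by
    intro i
    have h2 : U i j - U j i = Jm g j i := congrFun (congrFun hU j) i
    omega
  have h3 : ∑ i, U i j • y i = ∑ i, U j i • y i + (zuF y j - zdF y j) := by
    rw [← boxa_J, ← Finset.sum_add_distrib]
    exact Finset.sum_congr rfl fun i _ => by rw [h1 i, add_smul]
  have h4 : ∑ i, U i j • vq P y i = ∑ i, U i j • y i - (hP P)⁻¹ • ∑ i, U i j • y i := by
    rw [Finset.smul_sum, ← Finset.sum_sub_distrib]
    exact Finset.sum_congr rfl fun i _ => by rw [vq, om, smul_sub, smul_comm (U i j)]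
  rw [h4, beq]
  generalize (hP P)⁻¹ • ∑ i, U i j • y i = t
  rw [h3]
  abel

omit [AddCommGroup M] in
theorem boxa_nm (v zu zd : Fin g × Bool → M) : (topQ v zu zd).map Qd.nm = legs g := by
  rw [topQ, List.map_map]
  exact List.map_id _

theorem box_run {S : SW g} {P : Pr (Lb G M)} {y : Fin g × Bool → M} {w : List (L (Lb G M))}
    (h : IsBox S P y w) : Run w [P.l, P.r] [P.l, P.r] ∧ mapW bs w = box (P.map bs) S ∧
      ∀ j, beq (seifert S) (hP P) y j = 0 := by
  obtain ⟨E, rfl, hE, rfl⟩ := h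
  refine ⟨run_boxW.2 ⟨_, [P], run_map (hom_FQ P y) hE, rfl,
    (caps_iff P y _ _ _).2 ⟨rfl, rfl, rfl⟩⟩, ?_, fun j => ?_⟩
  · rw [mapW_boxW, box, mapW_mapW, mapW_mapW]
    refine congrArg (fun f => boxW g (mapW f E)) (funext ?_)
    rintro ⟨s, n, z⟩
    cases s <;> rfl
  · have h1 := run_map (hom_nm _) hE
    rw [boxa_nm] at h1
    rw [beq_eq (plan h1), ← q_pot hE j, sub_self]

theorem box_ex {S : SW g} (hS : Bands g S) (P : Pr (Lb G M)) {y : Fin g × Bool → M}
    (h : ∀ j, beq (seifert S) (hP P) y j = 0) : ∃ w, IsBox S P y w := by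
  obtain ⟨E, zd, h1, h2⟩ := q_ex hS (vq P y) (zuF y)
  have h3 : zd = zdF y := by
    funext j
    have h4 := q_pot h2 j
    have h5 := h j
    rw [beq_eq (plan hS.1), sub_eq_zero, ← h1, ← h4] at h5
    exact sub_right_injective h5
  subst h3
  exact ⟨_, E, h1, h2, rfl⟩

theorem box_uniq {S : SW g} (hS : Bands g S) {P : Pr (Lb G M)} {y : Fin g × Bool → M}
    {w w' : List (L (Lb G M))} (h : IsBox S P y w) (h' : IsBox S P y w') : w = w' := by
  obtain ⟨E, h1, h2, rfl⟩ := h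
  obtain ⟨E', h3, h4, rfl⟩ := h'
  rw [q_uniq hS h1 h3 h2 h4]

theorem box_nat {ψ : M →+ M'} (hψ : Eqv G ψ) (m0 : M') {S : SW g} {P : Pr (Lb G M)}
    {y : Fin g × Bool → M} {w : List (L (Lb G M))} (h : IsBox S P y w) :
    IsBox S (P.map (Lb.mp (afn ψ m0))) (ψ ∘ y) (mapW (Lb.mp (afn ψ m0)) w) := by
  obtain ⟨E, rfl, hE, rfl⟩ := h
  let φ : Qd (vq P y) → Qd (vq (P.map (Lb.mp (afn ψ m0))) (ψ ∘ y)) := fun p => ⟨p.s, p.n, ψ p.z⟩
  have hφ : Hom φ := by
    refine ⟨fun p q => Qd.ext rfl rfl ?_, fun _ => rfl⟩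
    show ψ (q.z + sgn p.s (om (hP P)⁻¹ (y p.n))) = ψ q.z + sgn p.s (om (hP P)⁻¹ (ψ (y p.n)))
    rw [map_add, ← om_map hψ]
    cases p.s
    · exact congrArg (ψ q.z + ·) (map_neg ψ _)
    · rfl
  have ht : ∀ a : M, (tl a P).map (Lb.mp (afn ψ m0)) = tl (ψ a) (P.map (Lb.mp (afn ψ m0))) := by
    intro a
    ext <;> simp [tl, Pr.map, Lb.mp, afn, add_right_comm]
  have hr : ∀ a : M, (Lab.rho (tl a P)).map (Lb.mp (afn ψ m0)) =
      Lab.rho (tl (ψ a) (P.map (Lb.mp (afn ψ m0)))) := fun a => by rw [← ht]; rfl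
  refine ⟨mapW φ E, by rw [mapW_mapW]; rfl, ?_, ?_⟩
  · have h1 := run_map hφ hE
    have h2 : (topQ (vq P y) (zuF y) (zdF y)).map φ = topQ _ (zuF (ψ ∘ y)) (zdF (ψ ∘ y)) := by
      rw [topQ, topQ, List.map_map]
      refine List.map_congr_left ?_
      rintro ⟨s, j, b⟩ -
      refine Qd.ext rfl rfl ?_
      cases s <;> cases b <;> simp [φ, zuF, zdF]
    rw [h2] at h1
    exact h1
  · rw [mapW_boxW, mapW_mapW, mapW_mapW]
    refine congrArg (fun f => boxW g (mapW f E)) (funext ?_)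
    rintro ⟨s, n, z⟩
    cases s
    · exact Pr.ext (hr z) ((ht (z + y n)).trans (by rw [map_add]; rfl))
    · exact Pr.ext ((hr (z + y n)).trans (by rw [map_add]; rfl)) (ht z)

theorem box_zero {S : SW g} (h : Run S [] (legs g)) (P : Pr (Lb G M)) :
    IsBox S P 0 (box P S) := by
  let φ : Bool × (Fin g × Bool) → Qd (vq P (0 : Fin g × Bool → M)) := fun p => ⟨p.1, p.2, 0⟩
  have hφ : Hom φ := by
    refine ⟨fun p q => Qd.ext rfl rfl ?_, fun _ => rfl⟩
    show (0 : M) = 0 + sgn p.1 (om (hP P)⁻¹ 0)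
    cases p.1 <;> simp [sgn, om]
  refine ⟨mapW φ S, by rw [mapW_mapW]; exact mapW_id S, ?_, ?_⟩
  · have h1 := run_map hφ h
    have h2 : (legs g).map φ = topQ _ (zuF 0) (zdF 0) := by
      refine List.map_congr_left ?_
      rintro ⟨s, j, b⟩ -
      refine Qd.ext rfl rfl ?_
      cases s <;> cases b <;> simp [φ, zuF, zdF]
    rw [h2] at h1
    exact h1
  · rw [box, mapW_mapW]
    refine congrArg (fun f => boxW g (mapW f S)) (funext ?_)
    rintro ⟨s, n⟩
    cases s <;> simp [φ, FQ, tl_zero]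

end Pool.Agent.AS
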