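import Pool.Agent.Lib.MP_dae8ad_gt.T.BoxA

namespace Pool.Agent.AS

variable {G M : Type} [Group G] [AddCommGroup M] [DistribMulAction G M] {g : ℕ}

/-- Two words over the same base word come from one word. -/
theorem boxb_zip {X Y Z W : Type} {f : Y → W} {k : Z → W} {p : X → Y} {q : X → Z}
    (hx : ∀ y z, f y = k z → ∃ x, p x = y ∧ q x = z) (E : List (L Y)) :
    ∀ S : List (L Z), mapW f E = mapW k S → ∃ E', mapW p E' = E ∧ mapW q E' = S := by
  induction E with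
  | nil =>
    intro S h
    cases S with
    | nil => exact ⟨[], rfl, rfl⟩
    | cons _ _ => cases h
  | cons l E ih =>
    intro S h
    cases S with
    | nil => cases h
    | cons l' S =>
      obtain ⟨h1, h2⟩ := List.cons.inj h
      obtain ⟨E', e1, e2⟩ := ih S h2
      obtain ⟨i, a⟩ := l
      obtain ⟨i', a'⟩ := l'
      obtain ⟨rfl, h3⟩ := Prod.mk.inj h1
      have : ∃ b : Kd X, b.map p = a ∧ b.map q = a' := by
        cases a <;> cases a' <;> try cases h3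
        · exact ⟨.X, rfl, rfl⟩
        · exact ⟨.Z, rfl, rfl⟩
        · obtain ⟨x, rfl, rfl⟩ := hx _ _ (Kd.cup.inj h3)
          exact ⟨.cup x, rfl, rfl⟩
        · exact ⟨.cap, rfl, rfl⟩
      obtain ⟨b, rfl, rfl⟩ := this
      exact ⟨(i, b) :: E', by rw [mapW_cons, e1], by rw [mapW_cons, e2]⟩

theorem boxb_cap {Y : Type} [Lab Y] {n : ℕ} {Q : Y} {q : Pr Y} {t : List (Pr Y)} {c : List Y}
    (h : Run (List.replicate (n + 1) (0, .cap)) (Q :: flat (q :: t)) c) :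
    q.l = Lab.rho Q ∧ Run (List.replicate n (0, .cap)) (q.r :: flat t) c := by
  obtain ⟨⟨-, p, r, e⟩, h2⟩ := h
  obtain ⟨rfl, e'⟩ := List.cons.inj e
  exact ⟨(List.cons.inj e').1, h2⟩

/-- The pair over `P` with values `a`, `b`. -/
def boxbPr (P : Pr (Lb G M)) (a b : M) : Pr (Lb G M) := ⟨⟨P.l.s, P.l.x, a⟩, ⟨P.r.s, P.r.x, b⟩⟩

def boxbT (P : Pr (Lb G M)) (a b c d : M) : M :=
  P.r.x⁻¹ • P.l.x⁻¹ • (om P.l.x (c - a) + P.l.x • om P.r.x (d - b))

theorem boxb_act1 (P : Pr (Lb G M)) (a b c d : M) (y : Lb G M) :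
    Lab.act (Lab.rho (boxbPr P a b).r) (Lab.act (Lab.rho (boxbPr P a b).l)
      (Lab.act (boxbPr P c d).l (Lab.act (boxbPr P c d).r y))) =
      Lb.mp (· + boxbT P a b c d) y := by
  ext
  · rfl
  · simp [act_x, rho_x, boxbPr, Lb.mp, mul_assoc]
  · simp only [act_m, rho_x, rho_m, boxbPr, Lb.mp, boxbT, om, smul_add, smul_sub, inv_smul_smul]
    abel

theorem boxb_act (P : Pr (Lb G M)) (a b c d : M) (q : Pr (Lb G M)) :
    Lab.act (Lab.rho (boxbPr P a b)) (Lab.act (boxbPr P c d) q) = tl (boxbT P a b c d) q :=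
  Pr.ext (boxb_act1 P a b c d q.l) (boxb_act1 P a b c d q.r)

/-- Orientation, name and the values on the four strands of a band. -/
@[ext] structure BoxbX (T : Type) (P : Pr (Lb G M)) where
  s : Bool
  n : T
  a : M
  b : M
  c : M
  d : M

variable {T : Type} {P : Pr (Lb G M)}

def BoxbX.t (p : BoxbX T P) : M :=
  if p.s then boxbT P p.a p.b p.c p.d else boxbT P p.c p.d p.a p.b

instance : Lab (BoxbX T P) :=
  ⟨fun p q => ⟨q.s, q.n, q.a + p.t, q.b + p.t, q.c + p.t, q.d + p.t⟩,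
    fun p => ⟨!p.s, p.n, p.a, p.b, p.c, p.d⟩⟩

def BoxbX.F (p : BoxbX T P) : Pr (Pr (Lb G M)) :=
  if p.s then ⟨Lab.rho (boxbPr P p.a p.b), boxbPr P p.c p.d⟩
  else ⟨Lab.rho (boxbPr P p.c p.d), boxbPr P p.a p.b⟩

def BoxbX.nm (p : BoxbX T P) : Bool × T := (p.s, p.n)

def BoxbX.D (p : BoxbX T P) : Bool × (T × (M × M × M)) :=
  (p.s, p.n, p.a - p.b, p.c - p.d, p.a - p.c)

theorem boxb_homF : Hom (BoxbX.F : BoxbX T P → Pr (Pr (Lb G M))) := by
  refine ⟨fun ⟨s, n, a, b, c, d⟩ ⟨s', n', a', b', c', d'⟩ => ?_, fun ⟨s, n, a, b, c, d⟩ => ?_⟩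
  · cases s
    · refine Eq.trans ?_ (Pr.ext (boxb_act P c d a b _).symm (boxb_act P c d a b _).symm :
        (⟨tl _ (BoxbX.F _).l, tl _ (BoxbX.F _).r⟩ : Pr _) = _)
      cases s' <;> rfl
    · refine Eq.trans ?_ (Pr.ext (boxb_act P a b c d _).symm (boxb_act P a b c d _).symm :
        (⟨tl _ (BoxbX.F _).l, tl _ (BoxbX.F _).r⟩ : Pr _) = _)
      cases s' <;> rfl
  · cases s <;>
      exact Pr.ext rfl (Pr.ext (SQ.rho_rho _).symm (SQ.rho_rho _).symm)

theorem boxb_homN : Hom (BoxbX.nm : BoxbX T P → Bool × T) := ⟨fun _ _ => rfl, fun _ => rfl⟩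

theorem boxb_homD : Hom (BoxbX.D : BoxbX T P → Bool × (T × (M × M × M))) :=
  ⟨fun _ _ => Prod.ext rfl (Prod.ext rfl (Prod.ext (add_sub_add_right_eq_sub _ _ _)
    (Prod.ext (add_sub_add_right_eq_sub _ _ _) (add_sub_add_right_eq_sub _ _ _)))), fun _ => rfl⟩

theorem boxb_ji (p q : BoxbX T P) (h : p.F = q.F) (h' : p.nm = q.nm) :
    p = q := by
  obtain ⟨s, n, a, b, c, d⟩ := p
  obtain ⟨s', n', a', b', c', d'⟩ := q
  obtain ⟨rfl, rfl⟩ := Prod.mk.inj h'
  have h1 := congrArg (·.l.l.m) h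
  have h2 := congrArg (·.l.r.m) h
  have h3 := congrArg (·.r.l.m) h
  have h4 := congrArg (·.r.r.m) h
  cases s
  · exact BoxbX.ext rfl rfl h3 h4 h2 h1
  · exact BoxbX.ext rfl rfl h2 h1 h3 h4

theorem boxb_surj (y : Pr (Pr (Lb G M))) (z : Bool × T)
    (h : y.map (Pr.map bs) = ⟨Lab.rho (P.map bs), P.map bs⟩) :
    ∃ x : BoxbX T P, x.F = y ∧ x.nm = z := by
  obtain ⟨⟨⟨s1, x1, b⟩, ⟨s2, x2, a⟩⟩, ⟨⟨s3, x3, c⟩, ⟨s4, x4, d⟩⟩⟩ := y
  obtain ⟨s, n⟩ := z
  obtain rfl : s1 = !P.r.s := congrArg (·.l.l.s) h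
  obtain rfl : s2 = !P.l.s := congrArg (·.l.r.s) h
  obtain rfl : s3 = P.l.s := congrArg (·.r.l.s) h
  obtain rfl : s4 = P.r.s := congrArg (·.r.r.s) h
  obtain rfl : x1 = P.r.x⁻¹ := congrArg (·.l.l.x) h
  obtain rfl : x2 = P.l.x⁻¹ := congrArg (·.l.r.x) h
  obtain rfl : x3 = P.l.x := congrArg (·.r.l.x) h
  obtain rfl : x4 = P.r.x := congrArg (·.r.r.x) h
  cases s
  · exact ⟨⟨false, n, c, d, a, b⟩, rfl, rfl⟩
  · exact ⟨⟨true, n, a, b, c, d⟩, rfl, rfl⟩

theorem boxb_dif {Q : Pr (Lb G M)} {a b : M} (h : Lab.rho (boxbPr P a b) = Lab.rho Q) :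
    a - b = Q.l.m - Q.r.m := by
  have h1 : b = Q.r.m := congrArg (·.l.m) h
  have h2 : a = Q.l.m := congrArg (·.r.m) h
  rw [h1, h2]

/-- The caps identify the differences, handle by handle. -/
theorem boxb_caps (f : Fin g × Bool → M × M × M) (c : List (Pr (Lb G M))) (js : List (Fin g)) :
    ∀ (t : List (BoxbX (Fin g × Bool) P)) (Q : Pr (Lb G M)), t.map BoxbX.nm = (js.flatMap fun j =>
      [(true, (j, false)), (true, (j, true)), (false, (j, false)), (false, (j, true))]) →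
    (∀ p ∈ t, p.D.2.2 = f p.n) →
    Run (List.replicate (4 * js.length) (0, .cap)) (Q :: flat (t.map BoxbX.F)) c →
    ∀ j ∈ js, ∀ e, (f (j, e)).1 = Q.l.m - Q.r.m ∧ (f (j, e)).2.1 = Q.l.m - Q.r.m := by
  induction js with
  | nil => intro _ _ _ _ _ j hj; cases hj
  | cons j js ih =>
    intro t Q h1 h2 h3
    obtain ⟨⟨s1, n1, a1, b1, c1, d1⟩, t, rfl, e1, i1⟩ := List.map_eq_cons_iff.1 h1
    obtain ⟨⟨s2, n2, a2, b2, c2, d2⟩, t, rfl, e2, i2⟩ := List.map_eq_cons_iff.1 i1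
    obtain ⟨⟨s3, n3, a3, b3, c3, d3⟩, t, rfl, e3, i3⟩ := List.map_eq_cons_iff.1 i2
    obtain ⟨⟨s4, n4, a4, b4, c4, d4⟩, t, rfl, e4, i4⟩ := List.map_eq_cons_iff.1 i3
    obtain ⟨rfl, rfl⟩ := Prod.mk.inj e1
    obtain ⟨rfl, rfl⟩ := Prod.mk.inj e2
    obtain ⟨rfl, rfl⟩ := Prod.mk.inj e3
    obtain ⟨rfl, rfl⟩ := Prod.mk.inj e4
    obtain ⟨k1, h3⟩ := boxb_cap (n := 4 * js.length + 3) h3
    obtain ⟨k2, h3⟩ := boxb_cap h3
    obtain ⟨k3, h3⟩ := boxb_cap h3
    obtain ⟨k4, h3⟩ := boxb_cap h3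
    have m1 : a1 - b1 = Q.l.m - Q.r.m := boxb_dif k1
    have m2 : a2 - b2 = c1 - d1 := boxb_dif k2
    have m3 : c3 - d3 = c2 - d2 := boxb_dif k3
    have m4 : c4 - d4 = a3 - b3 := boxb_dif k4
    have f1 : (a1 - b1, c1 - d1, a1 - c1) = f (j, false) := h2 ⟨true, _, _, _, _, _⟩ (by simp)
    have f2 : (a2 - b2, c2 - d2, a2 - c2) = f (j, true) := h2 ⟨true, _, _, _, _, _⟩ (by simp)
    have f3 : (a3 - b3, c3 - d3, a3 - c3) = f (j, false) := h2 ⟨false, _, _, _, _, _⟩ (by simp)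
    have f4 : (a4 - b4, c4 - d4, a4 - c4) = f (j, true) := h2 ⟨false, _, _, _, _, _⟩ (by simp)
    obtain ⟨g1, g2, -⟩ : _ ∧ _ ∧ _ := by simpa only [Prod.mk.injEq] using f1.trans f3.symm
    obtain ⟨g3, g4, -⟩ : _ ∧ _ ∧ _ := by simpa only [Prod.mk.injEq] using f2.trans f4.symm
    have u2 : c2 - d2 = Q.l.m - Q.r.m := g4.trans (m4.trans (g1.symm.trans m1))
    have u1 : c1 - d1 = Q.l.m - Q.r.m := g2.trans (m3.trans u2)
    have u3 : a4 - b4 = Q.l.m - Q.r.m := g3.symm.trans (m2.trans u1)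
    intro i hi e
    rcases List.mem_cons.1 hi with rfl | hi
    · cases e
      · rw [← f1]
        exact ⟨m1, u1⟩
      · rw [← f2]
        exact ⟨m2.trans u1, u2⟩
    · rw [← u3]
      exact ih t (boxbPr P a4 b4) i4 (fun p hp => h2 p (by simp [hp])) h3 i hi e

theorem boxb_FQ (y : Fin g × Bool → M) (p : BoxbX (Fin g × Bool) P)
    (h1 : p.a - p.b = P.l.m - P.r.m) (h2 : p.c - p.d = P.l.m - P.r.m) (h3 : p.a - p.c = y p.n) :
    FQ P y ⟨p.s, p.n, p.c - P.l.m⟩ = p.F := by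
  have e1 : tl (p.c - P.l.m) P = boxbPr P p.c p.d := by
    refine Pr.ext (Lb.ext rfl rfl (add_sub_cancel _ _)) (Lb.ext rfl rfl ?_)
    change P.r.m + (p.c - P.l.m) = p.d
    rw [eq_add_of_sub_eq h2]
    abel
  have e2 : tl (p.c - P.l.m + y p.n) P = boxbPr P p.a p.b := by
    refine Pr.ext (Lb.ext rfl rfl ?_) (Lb.ext rfl rfl ?_)
    · change P.l.m + (p.c - P.l.m + y p.n) = p.a
      rw [← h3]
      abel
    · change P.r.m + (p.c - P.l.m + y p.n) = p.b
      rw [← h3, eq_add_of_sub_eq h1]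
      abel
  simp only [FQ, BoxbX.F, e1, e2]

/-- Every colouring of a box is of the standard form.  By `boxW_lift`, `w = boxW g E` with all
quadruples of `E` over `Q0 = (rho P0, P0)`.  Zip `E` with `S` into a word with labels
`Bool × name × quadruple` (the quadruples over `Q0` form a family closed under `act` and `rho`; such
a quadruple is `(rho (A), B)` with pairs `A`, `B` over `P0`, and it acts on any label by a
translation of the module value).  For orientation `s` let `(A', B') = (A, B)` if `s`, else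
`(B, A)`; the three differences `A'.l.m - A'.r.m`, `B'.l.m - B'.r.m`, `A'.l.m - B'.l.m` are constant
along strands, so by `name_fun` they depend only on the name; call the third `y`.  The caps
(`run_boxW`) force the first two to be `P.l.m - P.r.m` on every leg (each cap identifies a pair
with the next one), hence on every cup; so with `z = B'.l.m - P.l.m` every cup of `E` is
`FQ P y ⟨s, name, z⟩`.  Validity of the word of these labels: `run_ji` for `Qd.nm` and `FQ P y`;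
then `q_top`, `caps_iff`. -/
theorem box_all {S : SW g} (hS : Bands g S) {P : Pr (Lb G M)} {w : List (L (Lb G M))}
    (hw : mapW bs w = box (P.map bs) S) {c : List (Lb G M)} (h : Run w [P.l, P.r] c) :
    ∃ y, IsBox S P y w := by
  obtain ⟨E, rfl, hE⟩ := boxW_lift hw
  obtain ⟨t, c', r1, -, r2⟩ := run_boxW.1 h
  obtain ⟨E', rfl, rfl⟩ := boxb_zip (p := (BoxbX.F : BoxbX (Fin g × Bool) P → _)) (q := BoxbX.nm)
    boxb_surj E S hE
  have r3 : Run E' [] (lev E' []) := run_ji boxb_homF boxb_homN boxb_ji (a := []) r1 hS.1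
  obtain ⟨f, f1, f2⟩ := name_fun hS (E := mapW BoxbX.D E') (mapW_mapW _ _ _)
    (run_map boxb_homD r3)
  have f3 := boxb_caps f c' (List.finRange g) (lev E' []) P (run_det (run_map boxb_homN r3) hS.1)
    (fun p hp => f2 _ (List.mem_map_of_mem hp))
    (by rw [List.length_finRange, run_det (run_map boxb_homF r3) r1]; exact r2)
  refine ⟨fun i => (f i).2.2, ?_⟩
  generalize hy : (fun i => (f i).2.2) = y
  let K : BoxbX (Fin g × Bool) P → Qd (vq P y) := fun p => ⟨p.s, p.n, p.c - P.l.m⟩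
  have e1 : mapW Qd.nm (mapW K E') = mapW BoxbX.nm E' := mapW_mapW _ _ _
  have e2 : mapW (FQ P y) (mapW K E') = mapW BoxbX.F E' := by
    rw [mapW_mapW]
    refine mapW_congr fun p hp => ?_
    have e : p.D.2.2 = f p.n := f1 _ (by rw [cups_mapW]; exact List.mem_map_of_mem hp)
    have e' := f3 p.n.1 (List.mem_finRange _) p.n.2
    exact boxb_FQ y p ((congrArg (·.1) e).trans e'.1) ((congrArg (·.2.1) e).trans e'.2)
      ((congrArg (·.2.2) e).trans (congrFun hy p.n))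
  have r4 : Run (mapW K E') [] (lev (mapW K E') []) := by
    refine run_ji (hom_nm _) (hom_FQ P y) (fun p q h1 h2 => ?_) (a := []) (e1 ▸ hS.1) (e2 ▸ r1)
    obtain ⟨s, n, z⟩ := p
    obtain ⟨s', n', z'⟩ := q
    obtain ⟨rfl, rfl⟩ := Prod.mk.inj h1
    have h3 := congrArg (·.r) h2
    cases s
    · exact Qd.ext rfl rfl (add_right_cancel (tl_inj h3))
    · exact Qd.ext rfl rfl (tl_inj h3)
  obtain ⟨zu, zd, e3⟩ := q_top (run_det (run_map (hom_nm _) r4) (e1 ▸ hS.1))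
  rw [e3] at r4
  obtain ⟨rfl, rfl, -⟩ := (caps_iff P y zu zd c').1
    (by rw [run_det (run_map (hom_FQ P y) r4) (e2 ▸ r1)]; exact r2)
  exact ⟨mapW K E', e1, r4, by rw [e2]⟩

end Pool.Agent.AS
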