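import Pool.Agent.Lib.MP_dae8ad_gt.T.BoxA

namespace Pool.Agent.AS

variable {G M1 N M2 A : Type} [Group G] [AddCommGroup M1] [DistribMulAction G M1]
  [AddCommGroup N] [DistribMulAction G N] [AddCommGroup M2] [DistribMulAction G M2]
  [AddCommGroup A] {g : ℕ}

/-- The projection on module values. -/
def boxc_phi (P : PD G M1 N M2 A) : M1 × M2 →+ N × M2 :=
  AddMonoidHom.prodMap P.q (AddMonoidHom.id M2)

theorem boxc_phi_apply (P : PD G M1 N M2 A) (m : M1 × M2) : boxc_phi P m = (P.q m.1, m.2) := rfl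

theorem boxc_phi_eqv (P : PD G M1 N M2 A) : Eqv G (boxc_phi P) := by
  intro x m
  simp only [boxc_phi_apply, Prod.smul_fst, Prod.smul_snd, P.eqv x, Prod.smul_mk]

theorem boxc_map_sig (P : PD G M1 N M2 A) (Z : Pr (Lb G (N × M2))) :
    (Z.map P.sig).map P.qq = Z := by
  ext1
  · exact P.qq_sig Z.l
  · exact P.qq_sig Z.r

theorem boxc_tl_map (P : PD G M1 N M2 A) (a : M1 × M2) (W : Pr (Lb G (M1 × M2))) :
    (tl a W).map P.qq = tl (boxc_phi P a) (W.map P.qq) := by
  have key : ∀ u : Lb G (M1 × M2),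
      P.qq (Lb.mp (· + a) u) = Lb.mp (· + boxc_phi P a) (P.qq u) := by
    intro u
    refine Lb.ext rfl rfl ?_
    show boxc_phi P (u.m + a) = boxc_phi P u.m + boxc_phi P a
    exact map_add _ _ _
  ext1
  · exact key W.l
  · exact key W.r

/-- The image of the four strands of a band. -/
theorem boxc_FQ_map (P : PD G M1 N M2 A) (Z : Pr (Lb G (N × M2)))
    (Y : Fin g × Bool → N × M2) (y' : Fin g × Bool → M1 × M2) (hy : ∀ i, boxc_phi P (y' i) = Y i)
    (p : Qd (vq (Z.map P.sig) y')) :
    (FQ (Z.map P.sig) y' p).map (Pr.map P.qq) = FQ Z Y ⟨p.s, p.n, boxc_phi P p.z⟩ := by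
  have hr : ∀ W : Pr (Lb G (M1 × M2)), (Lab.rho W).map P.qq = Lab.rho (W.map P.qq) :=
    fun W => (P.hom_qq.pr).rho W
  unfold FQ
  cases hs : p.s
  · simp only [Bool.false_eq_true, if_false]
    ext1
    · show (Lab.rho (tl p.z (Z.map P.sig))).map P.qq = _
      rw [hr, boxc_tl_map, boxc_map_sig]
    · show (tl (p.z + y' p.n) (Z.map P.sig)).map P.qq = _
      rw [boxc_tl_map, boxc_map_sig, map_add, hy]
  · simp only [if_true]
    ext1
    · show (Lab.rho (tl (p.z + y' p.n) (Z.map P.sig))).map P.qq = _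
      rw [hr, boxc_tl_map, boxc_map_sig, map_add, hy]
    · show (tl p.z (Z.map P.sig)).map P.qq = _
      rw [boxc_tl_map, boxc_map_sig]

/-- The region across a downward leg. -/
theorem boxc_reg_down (W : Pr (Lb G (M1 × M2))) (y' : Fin g × Bool → M1 × M2)
    (j : Fin g × Bool) (z : M1 × M2) (ρ : M2) :
    reg ρ (flat (flat [FQ W y' ⟨false, j, z⟩])) - ρ = om (hP W)⁻¹ (y' j).2 := by
  simp only [FQ, Bool.false_eq_true, if_false, flat, List.flatMap_cons, List.flatMap_nil,
    List.append_nil, List.cons_append, List.nil_append, reg, List.foldl_cons, List.foldl_nil]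
  show reg1 (Lb.mp (· + (z + y' j)) W.r) (reg1 (Lb.mp (· + (z + y' j)) W.l)
    (reg1 (Lab.rho (Lb.mp (· + z) W.l)) (reg1 (Lab.rho (Lb.mp (· + z) W.r)) ρ))) - ρ = _
  simp only [reg1, rho_x, rho_m, Lb.mp, inv_inv, Prod.snd_add, om, hP, mul_inv_rev, smul_add,
    smul_sub, mul_smul, inv_smul_smul]
  abel

/-- The jump of a downward leg. -/
theorem boxc_jump (W : Pr (Lb G (M1 × M2))) (y' : Fin g × Bool → M1 × M2)
    (j : Fin g × Bool) (z : M1 × M2) (d : M1) :
    flat (flat [FQ W y' ⟨false, j, z + (d, 0)⟩]) =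
      (flat (flat [FQ W y' ⟨false, j, z⟩])).map (Lb.mp fun m => (m.1 + d, m.2)) := by
  have key : ∀ (u : Lb G (M1 × M2)) (a b : M1 × M2), b = a + (d, 0) →
      Lb.mp (· + b) u = Lb.mp (fun m : M1 × M2 => (m.1 + d, m.2)) (Lb.mp (· + a) u) := by
    intro u a b hb
    refine Lb.ext rfl rfl ?_
    show u.m + b = ((u.m + a).1 + d, (u.m + a).2)
    rw [hb]
    ext
    · simp only [Prod.fst_add, add_assoc]
    · simp only [Prod.snd_add, add_zero]
  have e : z + (d, 0) + y' j = z + y' j + (d, 0) := by abel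
  simp only [FQ, Bool.false_eq_true, if_false, flat, List.flatMap_cons, List.flatMap_nil,
    List.append_nil, List.cons_append, List.nil_append, List.map_cons, List.map_nil]
  show [Lab.rho (Lb.mp (· + (z + (d, 0))) W.r), Lab.rho (Lb.mp (· + (z + (d, 0))) W.l),
    Lb.mp (· + (z + (d, 0) + y' j)) W.l, Lb.mp (· + (z + (d, 0) + y' j)) W.r] = _
  rw [key W.r z _ rfl, key W.l z _ rfl, key W.l (z + y' j) _ e, key W.r (z + y' j) _ e]
  rfl

/-- The difference of the defects of two levels of legs. -/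
theorem boxc_legs (P : PD G M1 N M2 A) (W : Pr (Lb G (M1 × M2))) (y' zu zd : Fin g × Bool → M1 × M2)
    (d : Fin g × Bool → M1) (hd : ∀ j, P.q (d j) = 0) (ls : List (Bool × (Fin g × Bool))) :
    ∀ ρ : M2,
      OmS P ρ (flat (flat ((ls.map fun y => (⟨y.1, y.2, if y.1 then zu y.2 else zd y.2⟩ :
          Qd (vq W y'))).map (FQ W y')))) -
        OmS P ρ (flat (flat ((ls.map fun y => (⟨y.1, y.2, if y.1 then zu y.2 else
          zd y.2 + (d y.2, 0)⟩ : Qd (vq W y'))).map (FQ W y')))) =
      (ls.map fun y => if y.1 then 0 else P.β (d y.2) (om (hP W)⁻¹ (y' y.2).2)).sum := by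
  induction ls with
  | nil => intro ρ; exact sub_self _
  | cons a ls ih =>
    intro ρ
    obtain ⟨s, j⟩ := a
    have split : ∀ (q : Pr (Pr (Lb G (M1 × M2)))) (r : List (Pr (Pr (Lb G (M1 × M2))))),
        flat (flat (q :: r)) = flat (flat [q]) ++ flat (flat r) := by
      intro q r
      rw [← flat_append, ← flat_append]
      rfl
    simp only [List.map_cons, List.sum_cons]
    rw [split _ (List.map _ _), oms_append]
    rw [split _ (List.map _ (List.map (fun y : Bool × (Fin g × Bool) => (⟨y.1, y.2,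
      if y.1 then zu y.2 else zd y.2 + (d y.2, 0)⟩ : Qd (vq W y'))) ls)), oms_append]
    cases s
    · simp only [Bool.false_eq_true, if_false]
      rw [boxc_jump, oms_jump P (hd j), reg_map (fun m : M1 × M2 => m.1 + d j), boxc_reg_down,
        ← ih (reg ρ (flat (flat [FQ W y' ⟨false, j, zd j⟩])))]
      abel
    · simp only [if_true]
      rw [← ih (reg ρ (flat (flat [FQ W y' ⟨true, j, zu j⟩]))), zero_add]
      exact add_sub_add_left_eq_sub _ _ _

theorem boxc_sum (F : Fin g × Bool → A) :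
    ((legs g).map fun y => if y.1 then 0 else F y.2).sum = ∑ j, F j := by
  rw [Fintype.sum_prod_type, Fin.sum_univ_def]
  unfold legs
  generalize List.finRange g = l
  induction l with
  | nil => rfl
  | cons a l ih =>
    rw [List.flatMap_cons, List.map_append, List.sum_append, ih, List.map_cons, List.sum_cons]
    simp only [List.map_cons, List.map_nil, List.sum_cons, List.sum_nil, if_true,
      Bool.false_eq_true, if_false, Fintype.sum_bool, zero_add, add_zero]
    rw [add_comm (F (a, false))]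

theorem boxc_beq_map {M M' : Type} [AddCommGroup M] [DistribMulAction G M] [AddCommGroup M']
    [DistribMulAction G M'] {ψ : M →+ M'} (hψ : Eqv G ψ)
    (U : Matrix (Fin g × Bool) (Fin g × Bool) ℤ) (h : G) (y : Fin g × Bool → M)
    (j : Fin g × Bool) : ψ (beq U h y j) = beq U h (fun i => ψ (y i)) j := by
  simp only [beq, map_sub, hψ h⁻¹, map_sum, map_zsmul]

theorem boxc_zuF_map {M M' : Type} [AddCommGroup M] [AddCommGroup M'] (ψ : M →+ M')
    (y : Fin g × Bool → M) (j : Fin g × Bool) : ψ (zuF y j) = zuF (fun i => ψ (y i)) j := by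
  unfold zuF
  split <;> simp only [map_sub, map_neg]

/-- The state sum of a box.  Lift `Z` to `Z'` over `M1 × M2` (`sig`), put `y' i = (y i, (Y i).2)`,
take `E'` from `q_ex` with `zu = zuF y'`; its image is the word `E` of the box (`q_uniq`).  The
doubled cores lift exactly from `[Z']` to the level `t` = `Z'` followed by the legs with `zuF y'`,
`zd`; the caps lift exactly from the level `t*` with `zuF y'`, `zdF y'` to `[Z']` (`caps_iff`).
So `Lam = OmS t - OmS t*` (`lam_append`, `lam_lift`).  By `q_pot` and `beq_eq`,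
`zdF y' j - zd j = (beq U h y j, 0)`; the four strands of the downward leg `j` jump by this amount,
and the region changes by `om h⁻¹ (Y j).2` across them (by its negative across an upward leg):
`oms_append`, `oms_jump`, induction over the list `legs g`. -/
theorem box_lam (P : PD G M1 N M2 A) {S : SW g} (hS : Bands g S) {Z : Pr (Lb G (N × M2))}
    {Y : Fin g × Bool → N × M2} {w : List (L (Lb G (N × M2)))} (h : IsBox S Z Y w)
    (y : Fin g × Bool → M1) (hy : ∀ i, P.q (y i) = (Y i).1) (ρ : M2) :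
    Lam P ρ w [Z.l, Z.r] = ∑ j, P.β (beq (seifert S) (hP Z) y j) (om (hP Z)⁻¹ (Y j).2) := by
  obtain ⟨-, -, hb0⟩ := box_run h
  obtain ⟨E, hE, rE, rfl⟩ := h
  obtain ⟨y', hy'⟩ : ∃ y' : Fin g × Bool → M1 × M2, y' = fun i => (y i, (Y i).2) := ⟨_, rfl⟩
  have hφ : ∀ i, boxc_phi P (y' i) = Y i := by
    intro i
    rw [hy', boxc_phi_apply, hy]
  have hφ' : (fun i => boxc_phi P (y' i)) = Y := funext hφ
  obtain ⟨E', zd, hE', rE'⟩ := q_ex hS (vq (Z.map P.sig) y') (zuF y')
  have hh : hP (Z.map P.sig) = hP Z := rfl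
  -- the jump
  have hjump : ∀ j, zdF y' j = zd j + (beq (seifert S) (hP Z) y j, 0) := by
    intro j
    have h1 := q_pot rE' j
    rw [hE'] at h1
    have h2 := beq_eq (plan hS.1) (Z.map P.sig) y' j
    rw [← h1, hh] at h2
    have h3 : beq (seifert S) (hP Z) y' j = (beq (seifert S) (hP Z) y j, 0) := by
      ext
      · have := boxc_beq_map (ψ := AddMonoidHom.fst M1 M2) (fun _ _ => rfl) (seifert S) (hP Z) y' j
        rw [hy'] at this ⊢
        exact this
      · have a1 := boxc_beq_map (ψ := AddMonoidHom.snd M1 M2) (fun _ _ => rfl) (seifert S) (hP Z)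
          y' j
        have a2 := boxc_beq_map (ψ := AddMonoidHom.snd N M2) (fun _ _ => rfl) (seifert S) (hP Z)
          Y j
        rw [hb0 j, map_zero] at a2
        rw [hy'] at a1 ⊢
        exact a1.trans a2.symm
    rw [← h3, h2]
    abel
  have hd : ∀ j, P.q (beq (seifert S) (hP Z) y j) = 0 := by
    intro j
    have a1 := boxc_beq_map P.eqv (seifert S) (hP Z) y j
    have a2 := boxc_beq_map (ψ := AddMonoidHom.fst N M2) (fun _ _ => rfl) (seifert S) (hP Z) Y j
    rw [hb0 j, map_zero] at a2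
    rw [a1, funext hy]
    exact a2.symm
  -- the image of `E'` is `E`
  let fq : Qd (vq (Z.map P.sig) y') → Qd (vq Z Y) := fun p => ⟨p.s, p.n, boxc_phi P p.z⟩
  have hv : ∀ i, boxc_phi P (vq (Z.map P.sig) y' i) = vq Z Y i := by
    intro i
    unfold vq
    rw [om_map (boxc_phi_eqv P), hφ, hh]
  have hfq : Hom fq := by
    refine ⟨fun p q => Qd.ext rfl rfl ?_, fun p => rfl⟩
    show boxc_phi P (q.z + sgn p.s (vq (Z.map P.sig) y' p.n)) =
      boxc_phi P q.z + sgn p.s (vq Z Y p.n)
    rw [map_add, ← hv]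
    unfold sgn
    split
    · rfl
    · rw [map_neg]
  have htop : ∀ zd0 : Fin g × Bool → M1 × M2,
      (topQ (vq (Z.map P.sig) y') (zuF y') zd0).map fq =
        topQ (vq Z Y) (zuF Y) (fun j => boxc_phi P (zd0 j)) := by
    intro zd0
    unfold topQ
    rw [List.map_map]
    refine List.map_congr_left fun a _ => Qd.ext rfl rfl ?_
    show boxc_phi P (if a.1 then zuF y' a.2 else zd0 a.2) =
      if a.1 then zuF Y a.2 else boxc_phi P (zd0 a.2)
    split
    · rw [boxc_zuF_map, hφ']
    · rfl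
  have hEE : mapW fq E' = E := by
    have r1 := run_map hfq rE'
    rw [htop] at r1
    refine q_uniq hS ?_ hE r1 rE
    rw [mapW_mapW]
    exact hE'
  have hcomp : FQ Z Y ∘ fq = Pr.map (Pr.map P.qq) ∘ FQ (Z.map P.sig) y' :=
    funext fun p => (boxc_FQ_map P Z Y y' hφ p).symm
  have hw : boxW g (mapW (FQ Z Y) E) =
      mapW P.qq (dblP (shift 1 (dblP (mapW (FQ (Z.map P.sig) y') E')))) ++
        mapW P.qq (dblP (List.replicate (4 * g) (0, .cap))) := by
    rw [← hEE, mapW_mapW, hcomp, ← mapW_mapW, ← mapW_boxW, ← mapW_append, ← dblP_append]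
    rfl
  have ru : Run (dblP (shift 1 (dblP (mapW (FQ (Z.map P.sig) y') E')))) (flat [Z.map P.sig])
      (flat (Z.map P.sig ::
        flat ((topQ (vq (Z.map P.sig) y') (zuF y') zd).map (FQ (Z.map P.sig) y')))) := by
    refine run_dbl ?_
    have r1 := run_dbl (run_map (hom_FQ (Z.map P.sig) y') rE')
    exact (run_left (c := [Z.map P.sig]) (a := [])).2 ⟨_, r1, rfl⟩
  have rc : Run (dblP (List.replicate (4 * g) (0, .cap)))
      (flat (Z.map P.sig ::
        flat ((topQ (vq (Z.map P.sig) y') (zuF y') (zdF y')).map (FQ (Z.map P.sig) y'))))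
      (flat [Z.map P.sig]) :=
    run_dbl ((caps_iff _ _ _ _ _).2 ⟨rfl, rfl, rfl⟩)
  have ha : [Z.l, Z.r] = (flat [Z.map P.sig]).map P.qq := by
    rw [flat_map, List.map_singleton, boxc_map_sig]
    rfl
  have hlev : ∀ zd0 : Fin g × Bool → M1 × M2, (flat (Z.map P.sig ::
      flat ((topQ (vq (Z.map P.sig) y') (zuF y') zd0).map (FQ (Z.map P.sig) y')))).map P.qq =
      flat (Z :: flat ((topQ (vq Z Y) (zuF Y) (fun j => boxc_phi P (zd0 j))).map (FQ Z Y))) := by
    intro zd0
    rw [flat_map, List.map_cons, boxc_map_sig, flat_map, List.map_map, ← hcomp, ← List.map_map,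
      htop]
  have hzz : (fun j => boxc_phi P (zd j)) = fun j => boxc_phi P (zdF y' j) := by
    funext j
    rw [hjump, map_add, boxc_phi_apply P (beq (seifert S) (hP Z) y j, 0), hd]
    exact (add_zero _).symm
  rw [hw, lam_append, ha, lam_lift P ru, lev_map P.hom_qq, run_lev ru, hlev, hzz, ← hlev,
    lam_lift P rc]
  have split : ∀ r : List (Pr (Lb G (M1 × M2))),
      flat (Z.map P.sig :: r) = flat [Z.map P.sig] ++ flat r := by
    intro r
    rw [← flat_append]
    rfl
  rw [split (flat _), split (flat (List.map _ (topQ _ _ (zdF y')))), oms_append, oms_append]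
  have key := boxc_legs P (Z.map P.sig) y' (zuF y') zd (beq (seifert S) (hP Z) y) hd (legs g)
    (reg ρ (flat [Z.map P.sig]))
  rw [boxc_sum (fun j => P.β (beq (seifert S) (hP Z) y j) (om (hP (Z.map P.sig))⁻¹ (y' j).2))]
    at key
  have e1 : zdF y' = fun j => zd j + (beq (seifert S) (hP Z) y j, 0) := funext hjump
  have e2 : ∀ j, (y' j).2 = (Y j).2 := fun j => by rw [hy']
  simp only [e2, hh] at key
  rw [e1, ← key]
  unfold topQ
  abel

end Pool.Agent.AS
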