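import Pool.Agent.Lib.MP_dae8ad_gt.T.LbDefs

/-! The chain complex of the complement of a slice disc, read from a marked diagram. -/

namespace Pool.Agent.AS

section
variable {G M : Type} [Group G] [AddCommGroup M] [DistribMulAction G M]

/-- The value on the strand at position `i`. -/
def hm (a : List (Lb G M)) (i : ℕ) : M := ((a.drop i).map Lb.m).headD 0

def cm : Kd (Lb G M) → M
  | .cup y => y.m
  | _ => 0

/-- For a colouring `w` of `lo D`: the differences of the two strands at the marks. -/
def sites : List (ML (Lb0 G)) → List (L (Lb G M)) → List (Lb G M) → List M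
  | [], _, _ => []
  | .lt _ :: D, l :: w, a => sites D w (next l a)
  | .lt _ :: D, [], a => sites D [] a
  | .mk i _ :: D, w, a => (hm a (i + 1) - hm a i) :: sites D w a

def remark : List (ML (Lb0 G)) → List (L (Lb G M)) → List (Lb G M) → List (ML (Lb G M))
  | [], _, _ => []
  | .lt _ :: D, l :: w, a => .lt l :: remark D w (next l a)
  | .lt _ :: _, [], _ => []
  | .mk i y :: D, w, a => .mk i (cst (hm a i) y) :: remark D w a

/-- For a colouring `w` of `hi D`: the differences between minimum and maximum at the marks. -/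
def rows : List (ML (Lb0 G)) → List (L (Lb G M)) → List (Lb G M) → List M
  | [], _, _ => []
  | .lt _ :: D, l :: w, a => rows D w (next l a)
  | .lt _ :: D, [], a => rows D [] a
  | .mk i _ :: D, l :: l' :: w, a => (cm l'.2 - hm a i) :: rows D w (next l' (next l a))
  | .mk _ _ :: D, _, a => 0 :: rows D [] a

def unhi : List (ML (Lb0 G)) → List (L (Lb G M)) → List (ML (Lb G M))
  | [], _ => []
  | .lt _ :: D, l :: w => .lt l :: unhi D w
  | .lt _ :: _, [] => []
  | .mk i y :: D, _ :: l' :: w => .mk i (cst (cm l'.2) y) :: unhi D w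
  | .mk _ _ :: _, _ => []

def ylist : List (ML (Lb0 G)) → List G
  | [] => []
  | .lt _ :: D => ylist D
  | .mk _ y :: D => y.x :: ylist D

def circ (s : List (Lb0 G)) (n : Fin s.length → M) : List (Lb G M) :=
  List.ofFn fun k => cst (n k) (s.get k)

end

/-- The free module. -/
def FG (G ι : Type) := ι → G →₀ ℤ

noncomputable instance (G ι : Type) : AddCommGroup (FG G ι) :=
  inferInstanceAs (AddCommGroup (ι → G →₀ ℤ))

noncomputable instance (G ι : Type) [Group G] : DistribMulAction G (FG G ι) where
  smul g φ := fun k => (φ k).mapDomain (g * ·)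
  one_smul φ := funext fun k => show (φ k).mapDomain ((1 : G) * ·) = φ k by
    simp only [one_mul]; exact Finsupp.mapDomain_id
  mul_smul g h φ := funext fun k =>
    show (φ k).mapDomain (g * h * ·) = ((φ k).mapDomain (h * ·)).mapDomain (g * ·) by
      rw [← Finsupp.mapDomain_comp]; congr 1; funext x; exact mul_assoc _ _ _
  smul_zero g := funext fun _ => Finsupp.mapDomain_zero
  smul_add g φ φ' := funext fun _ => Finsupp.mapDomain_add

noncomputable def gen {G ι : Type} [Group G] [DecidableEq ι] (k : ι) : FG G ι :=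
  Pi.single (M := fun _ => G →₀ ℤ) k (Finsupp.single 1 1)

/-- Slice data with chosen sequences of moves. -/
structure SD (G : Type) [Group G] (Q : G → Prop) (K0 : List (L (Lb0 G))) where
  D : List (ML (Lb0 G))
  s : List (Lb0 G)
  y : Lb0 G
  s' : List (Lb0 G)
  pl : List PS
  ph : List PS
  run : RunM D [] []
  conn : Conn (D.map (ML.map Lb.s))
  hQ : ∀ i y, ML.mk i y ∈ D → Q y.x
  mk_eq : marks D = s.length + s'.length
  lo_iso : IsoP pl (lo D) (K0 ++ circles s)
  hi_iso : IsoP ph (hi D) (circles (y :: s'))
  ne : K0 ≠ []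

namespace SD

variable {G : Type} [Group G] {Q : G → Prop} {K0 : List (L (Lb0 G))} (S : SD G Q K0)
  {M : Type} [AddCommGroup M] [DistribMulAction G M]

abbrev b : ℕ := S.s.length
abbrev d : ℕ := S.s'.length

noncomputable def loW (a : List (L (Lb G M))) (n : Fin S.b → M) : List (L (Lb G M)) :=
  tr (rvP S.pl) (a ++ circles (circ S.s n))

noncomputable def hiW (m : M) (c : Fin S.d → M) : List (L (Lb G M)) :=
  tr (rvP S.ph) (circles (cst m S.y :: circ S.s' fun k => c k + m))

noncomputable def xs2 (a : List (L (Lb G M))) (n : Fin S.b → M) : List M :=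
  sites S.D (S.loW a n) []

noncomputable def xs (a : List (L (Lb G M))) (i : Fin (S.b + S.d)) : M := (S.xs2 a 0).getD i 0

noncomputable def rw2 (m : M) (c : Fin S.d → M) : List M := rows S.D (S.hiW m c) []

noncomputable def DM (m : M) (c : Fin S.d → M) : List (ML (Lb G M)) := unhi S.D (S.hiW m c)

noncomputable def res (m : M) (c : Fin S.d → M) : List (L (Lb G M)) :=
  (tr S.pl (lo (S.DM m c))).take K0.length

noncomputable def V (i : Fin (S.b + S.d)) : Fin S.d → G →₀ ℤ :=
  (S.rw2 (0 : FG G (Fin S.d)) gen).getD i 0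

noncomputable def Pi (i : Fin (S.b + S.d)) : Fin S.b → G →₀ ℤ :=
  (S.xs2 (mapW (cst (0 : FG G (Fin S.b))) K0) gen).getD i 0

def yv (i : Fin (S.b + S.d)) : G := (ylist S.D).getD i 1

/-- The colouring `a` extends over the disc complement. -/
def Ext (a : List (L (Lb G M))) : Prop := ∃ n : Fin S.b → M, ∀ i, S.xs a i + evF (S.Pi i) n = 0

def KV (c : Fin S.d → M) : Prop := ∀ i, evF (S.V i) c = 0

end SD

end Pool.Agent.AS
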