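import Pool.Agent.Lib.MP_dae8ad_gt.T.Moves

namespace Pool.Agent.AS

variable {Y Y' : Type} [Lab Y] [Lab Y']

/-- A word without caps lifts upwards from any lift of the bottom level. -/
theorem lift_up {q : Y → Y'} (hq : Hom q) (hs : Function.Surjective q) {u : List (L Y')}
    (hu : ∀ l ∈ u, l.2 ≠ .cap) {a' b' : List Y'} (hr : Run u a' b') (a : List Y)
    (ha : a.map q = a') : ∃ v b, mapW q v = u ∧ b.map q = b' ∧ Run v a b := by
  induction u generalizing a a' with
  | nil => exact ⟨[], a, rfl, ha.trans hr, rfl⟩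
  | cons l u ih =>
    subst ha
    obtain ⟨i, k⟩ := l
    obtain ⟨⟨h1, h2⟩, h3⟩ := hr
    rw [List.length_map] at h1
    obtain ⟨k, rfl, hk⟩ : ∃ k0 : Kd Y, k0.map q = k ∧ okh k0 (a.drop i) := by
      cases k with
      | X => exact ⟨.X, rfl, by simpa [okh] using h2⟩
      | Z => exact ⟨.Z, rfl, by simpa [okh] using h2⟩
      | cup y =>
        obtain ⟨y, rfl⟩ := hs y
        exact ⟨.cup y, rfl, trivial⟩
      | cap => exact absurd rfl (hu _ List.mem_cons_self)
    obtain ⟨v, b, e1, e2, e3⟩ := ih (fun l hl => hu l (List.mem_cons_of_mem _ hl)) h3 _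
      (next_map hq (i, k) a).symm
    exact ⟨(i, k) :: v, b, by rw [mapW_cons, e1], e2, ⟨h1, hk⟩, e3⟩

theorem path_rv {u : List (L Y)} (hu : cups u = []) {a b : List Y} (hr : Run u a b) :
    ∀ l ∈ rv u a, l.2 ≠ .cap := by
  induction u generalizing a with
  | nil => exact fun _ h => absurd h List.not_mem_nil
  | cons l u ih =>
    obtain ⟨i, k⟩ := l
    intro l hl
    rw [rv, List.mem_append, List.mem_singleton] at hl
    cases k with
    | cup y => exact absurd hu (List.cons_ne_nil _ _)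
    | cap =>
      obtain ⟨p, t, e⟩ := hr.1.2
      refine hl.elim (ih hu hr.2 l) fun h => ?_
      simp only [h, rvl, e]
      exact nofun
    | _ => exact hl.elim (ih hu hr.2 l) fun h => h ▸ nofun

/-- A word without cups lifts downwards (apply `lift_up` to `rv u a'`). -/
theorem lift_down [SQ Y] [SQ Y'] {q : Y → Y'} (hq : Hom q) (hs : Function.Surjective q)
    {u : List (L Y')} (hu : cups u = []) {a' b' : List Y'} (hr : Run u a' b') (b : List Y)
    (hb : b.map q = b') : ∃ v a, mapW q v = u ∧ a.map q = a' ∧ Run v a b := by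
  obtain ⟨v, a, e1, e2, e3⟩ := lift_up hq hs (path_rv hu hr) (run_rv hr) b hb
  exact ⟨rv v b, a, by rw [mapW_rv hq, e1, hb, rv_rv hr], e2, run_rv e3⟩

/-- A word without cups followed by a word without caps. -/
def pathG (s : List (L Unit)) : Prop :=
  ∃ s1 s2, s = s1 ++ s2 ∧ cups s1 = [] ∧ ∀ l ∈ s2, l.2 ≠ .cap

theorem path_good {s s' : List (L Unit)} (h : Mv s s') : pathG s ∨ pathG s' := by
  have h1 : ∀ s, cups s = [] → pathG s := fun s h => ⟨s, [], (List.append_nil s).symm, h, nofun⟩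
  have h2 : ∀ s : List (L Unit), (∀ l ∈ s, l.2 ≠ .cap) → pathG s := fun s h => ⟨[], s, rfl, rfl, h⟩
  cases h with
  | far i m k k' =>
    cases k with
    | cap =>
      cases k' with
      | cup y => exact .inl ⟨[_], [_], rfl, rfl, by simp⟩
      | _ => exact .inl (h1 _ rfl)
    | _ =>
      cases k' with
      | cap => exact .inr ⟨[_], [_], rfl, rfl, by simp⟩
      | _ => exact .inl (h2 _ (by simp))
  | cupX => exact .inl (h2 _ (by simp))
  | cupZ => exact .inl (h2 _ (by simp))
  | _ => exact .inr (h1 _ rfl)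

theorem path_lift [SQ Y] [SQ Y'] {q : Y → Y'} (hq : Hom q) (hs : Function.Surjective q)
    {u u' : List (L Y')} (h : MvS (shape u) (shape u')) (hg : pathG (shape u)) {a' b' : List Y'}
    (hr : Run u a' b') (hr' : Run u' a' b') : ∃ v v' a b, mapW q v = u ∧ mapW q v' = u' ∧
      a.map q = a' ∧ b.map q = b' ∧ Run v a b ∧ Run v' a b := by
  obtain ⟨s1, s2, e, g1, g2⟩ := hg
  obtain ⟨u1, u2, rfl, rfl, rfl⟩ := mapW_eq_append e
  obtain ⟨c', r1, r2⟩ := run_append.1 hr
  obtain ⟨c, hc⟩ := hs.list_map c'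
  rw [cups_mapW, List.map_eq_nil_iff] at g1
  obtain ⟨v1, a, rfl, rfl, r3⟩ := lift_down hq hs g1 r1 c hc
  obtain ⟨v2, b, rfl, rfl, r4⟩ := lift_up hq hs (fun l hl h1 => g2 _ (List.mem_map_of_mem hl)
    (by rw [h1]; rfl)) r2 c hc
  have r5 := run_append.2 ⟨c, r3, r4⟩
  have r6 := run_map hom_unit hr'
  rw [List.map_map] at r6
  rw [← mapW_append, shape_mapW] at h
  obtain ⟨v', e1, r7⟩ := mv_ex h rfl r5 r6
  exact ⟨_, v', a, b, mapW_append _ _ _,
    mv_uniq h.symm ((shape_mapW _ _).trans e1) rfl (run_map hq r7) hr', rfl, rfl, r5, r7⟩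

/-- Both sides of a move lift with common ends: one of the two sides is a word without cups
followed by a word without caps, so it lifts from the middle level; get the other side by `mv_ex`
and identify its image by `mv_uniq`. -/
theorem mv_lift [SQ Y] [SQ Y'] {q : Y → Y'} (hq : Hom q) (hs : Function.Surjective q)
    {u u' : List (L Y')} (h : MvS (shape u) (shape u')) {a' b' : List Y'} (hr : Run u a' b')
    (hr' : Run u' a' b') : ∃ v v' a b, mapW q v = u ∧ mapW q v' = u' ∧ a.map q = a' ∧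
      b.map q = b' ∧ Run v a b ∧ Run v' a b := by
  rcases (h.elim path_good fun h => (path_good h).symm) with g | g
  · exact path_lift hq hs h g hr hr'
  · obtain ⟨v', v, a, b, e1, e2, e3, e4, e5, e6⟩ := path_lift hq hs h.symm g hr' hr
    exact ⟨v, v', a, b, e2, e1, e3, e4, e6, e5⟩

theorem iso_iff {w w' : List (L Y)} : Iso w w' ↔ ∃ π, IsoP π w w' := by
  constructor
  · intro h
    induction h using Relation.ReflTransGen.head_induction_on with
    | refl => exact ⟨[], rfl⟩
    | head h _ ih =>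
      obtain ⟨π, hπ⟩ := ih
      obtain ⟨p, u, u', q, a, b, h⟩ := h
      exact ⟨(p.length, shape u, shape u') :: π, _, ⟨p, u, u', q, a, b, rfl, rfl, rfl, h⟩, hπ⟩
  · rintro ⟨π, h⟩
    induction π generalizing w with
    | nil => exact h ▸ .refl
    | cons m π ih =>
      obtain ⟨w1, ⟨p, u, u', q, a, b, -, e1, e2, h1⟩, h2⟩ := h
      rw [← e1, ← e2] at h1
      exact .head ⟨p, u, u', q, a, b, h1⟩ (ih h2)

theorem path_append {π π' : List PS} {w w1 w2 : List (L Y)} (h : IsoP π w w1)
    (h' : IsoP π' w1 w2) : IsoP (π ++ π') w w2 := by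
  induction π generalizing w with
  | nil => exact h ▸ h'
  | cons m π ih =>
    obtain ⟨w0, h1, h2⟩ := h
    exact ⟨w0, h1, ih h2⟩

theorem isoP_symm {π : List PS} {w w' : List (L Y)} (h : IsoP π w w') : IsoP (rvP π) w' w := by
  induction π generalizing w with
  | nil => exact Eq.symm h
  | cons m π ih =>
    obtain ⟨w1, ⟨p, u, u', q, a, b, e0, e1, e2, e3, e4, h1, r1, r2, r3⟩, h2⟩ := h
    rw [rvP, List.map_cons, List.reverse_cons]
    exact path_append (ih h2)
      ⟨w, ⟨p, u', u, q, a, b, e0, e2, e1, e4, e3, h1.symm, r1, r3, r2⟩, rfl⟩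

theorem rvP_rvP (π : List PS) : rvP (rvP π) = π := by
  simp [rvP, Function.comp_def]

theorem isoP_map {f : Y → Y'} (hf : Hom f) {π : List PS} {w w' : List (L Y)} (h : IsoP π w w') :
    IsoP π (mapW f w) (mapW f w') := by
  induction π generalizing w with
  | nil => exact congrArg _ h
  | cons m π ih =>
    obtain ⟨w1, ⟨p, u, u', q, a, b, e0, e1, e2, rfl, rfl, h1, r1, r2, r3⟩, h2⟩ := h
    exact ⟨_, ⟨mapW f p, mapW f u, mapW f u', mapW f q, a.map f, b.map f,
      (length_mapW f p).trans e0, (shape_mapW f u).trans e1, (shape_mapW f u').trans e2,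
      by simp only [mapW_append], by simp only [mapW_append], h1, run_map hf r1, run_map hf r2,
      run_map hf r3⟩, ih h2⟩

theorem isoP_run {π : List PS} {w w' : List (L Y)} (h : IsoP π w w') {c : List Y}
    (hw : Run w [] c) : Run w' [] c :=
  iso_run (iso_iff.2 ⟨π, h⟩) hw

theorem isoP_det [SQ Y] {π : List PS} {w w1 w2 : List (L Y)} (h : IsoP π w w1)
    (h' : IsoP π w w2) : w1 = w2 := by
  induction π generalizing w with
  | nil => exact (Eq.symm h).trans h'
  | cons m π ih =>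
    obtain ⟨_, ⟨p, u, u', q, a, b, e0, e1, e2, rfl, rfl, h1, r1, r2, r3⟩, h2⟩ := h
    obtain ⟨_, ⟨p2, u2, u2', q2, a2, b2, f0, f1, f2, f3, rfl, -, t1, t2, t3⟩, h3⟩ := h'
    have e3 : u.length = u2.length := by
      rw [← length_mapW (fun _ => ()) u, ← length_mapW (fun _ => ()) u2]
      exact congrArg _ (e1.trans f1.symm)
    obtain ⟨f4, rfl⟩ := List.append_inj f3 (by simp only [List.length_append, e0, f0, e3])
    obtain ⟨rfl, rfl⟩ := List.append_inj f4 (e0.trans f0.symm)
    obtain rfl := run_det r1 t1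
    obtain rfl := run_det r2 t2
    obtain rfl := mv_uniq h1.symm e2 f2 r3 t3
    exact ih h2 h3

/-- Every colouring of the same shape can be carried along. -/
theorem isoP_ex [SQ Y'] {π : List PS} {w w' : List (L Y)} (h : IsoP π w w') {v : List (L Y')}
    (hv : shape v = shape w) {c : List Y'} (hr : Run v [] c) : ∃ v', IsoP π v v' := by
  induction π generalizing w v with
  | nil => exact ⟨v, rfl⟩
  | cons m π ih =>
    obtain ⟨_, ⟨p, u, u', q, a, b, e0, e1, e2, rfl, rfl, h1, r1, r2, r3⟩, h2⟩ := h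
    obtain ⟨_, q1, rfl, f0, f3⟩ := mapW_eq_append (hv.trans (mapW_append _ _ _))
    obtain ⟨p1, u1, rfl, f1, f2⟩ := mapW_eq_append (f0.trans (mapW_append _ _ _))
    obtain ⟨b1, t0, t3⟩ := run_append.1 hr
    obtain ⟨a1, t1, t2⟩ := run_append.1 t0
    have t4 := run_map hom_unit r3
    rw [run_det (run_map hom_unit r1) (f1 ▸ run_map hom_unit t1)] at t4
    obtain ⟨u1', f4, t5⟩ := mv_ex h1 (f2.trans e1) t2 (by rw [← e2]; exact t4)
    obtain ⟨v', h3⟩ := ih h2 (v := p1 ++ u1' ++ q1) (by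
      simp only [shape, mapW_append, f1, f3]
      rw [show mapW _ u1' = mapW _ u' from f4.trans e2.symm])
      (run_append.2 ⟨b1, run_append.2 ⟨a1, t1, t5⟩, t3⟩)
    refine ⟨v', _, ⟨p1, u1, u1', q1, a1, b1, ?_, f2.trans e1, f4, rfl, rfl, h1, t1, t2, t5⟩, h3⟩
    rw [← length_mapW (fun _ => ()), f1, length_mapW, e0]

theorem tr_eq [SQ Y] {π : List PS} {v v' : List (L Y)} (h : IsoP π v v') : tr π v = v' := by
  have h1 : ∃ v', IsoP π v v' := ⟨v', h⟩
  rw [tr, dif_pos h1]
  exact isoP_det h1.choose_spec h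

/-- Transport over a base path. -/
theorem tr_spec [SQ Y] [SQ Y'] {f : Y → Y'} (hf : Hom f) {π : List PS} {w w' : List (L Y')}
    (h : IsoP π w w') {v : List (L Y)} (hv : mapW f v = w) {c : List Y} (hr : Run v [] c) :
    IsoP π v (tr π v) ∧ Run (tr π v) [] c ∧ mapW f (tr π v) = w' := by
  subst hv
  obtain ⟨v', h1⟩ := isoP_ex h (shape_mapW f v).symm hr
  rw [tr_eq h1]
  exact ⟨h1, isoP_run h1 hr, isoP_det (isoP_map hf h1) h⟩

end Pool.Agent.AS
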