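import Pool.Agent.Lib.MP_dae8ad_gt.T.ChkDefs
import Pool.Agent.Lib.MP_dae8ad_gt.T.Path

namespace Pool.Agent.AS

/-- `w` may be replaced by `w'` in every valid context. -/
def ChkG (w w' : List (L Bool)) : Prop :=
  ∀ p a b, Run p [] a → Run w a b → Iso (p ++ w) (p ++ w') ∧ Run w' a b

theorem chk_trans {u v w : List (L Bool)} (h : ChkG u v) (h' : ChkG v w) : ChkG u w :=
  fun p a b hp hu => ⟨(h p a b hp hu).1.trans (h' p a b hp (h p a b hp hu).2).1,
    (h' p a b hp (h p a b hp hu).2).2⟩

theorem chk_snoc {p : List (L Bool)} {a : List Bool} {l : L Bool} (hp : Run p [] a) (h : ok l a) :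
    Run (p ++ [l]) [] (next l a) := run_append.2 ⟨a, hp, h, rfl⟩

theorem chk_cons {u v : List (L Bool)} (h : ChkG u v) (l : L Bool) : ChkG (l :: u) (l :: v) :=
  fun p a b hp hu => by
    have := h _ _ b (chk_snoc hp hu.1) hu.2
    exact ⟨by simpa using this.1, hu.1, this.2⟩

theorem chk_step {p u u' : List (L Bool)} {a m : List Bool} (w : List (L Bool))
    (hm : MvS (shape u) (shape u')) (hp : Run p [] a) (h : Run u a m) (h' : Run u' a m) :
    Iso (p ++ (u ++ w)) (p ++ (u' ++ w)) :=
  Relation.ReflTransGen.single ⟨p, u, u', w, a, m, by simp, by simp, hm, hp, h, h'⟩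

theorem chk_loc {x : L Bool} {u u' : List (L Bool)} (i : ℕ) (w : List (L Bool))
    (hm : MvS (shape (shift i (x :: u))) (shape (shift i u')))
    (h : ∀ a m, Run (x :: u) a m → Run u' a m) :
    ChkG (shift i (x :: u) ++ w) (shift i u' ++ w) := by
  intro p a b hp hu
  obtain ⟨m, h1, h2⟩ := run_append.1 hu
  have h3 : Run (shift i u') a m := by
    have hi : i ≤ a.length := le_trans (Nat.le_add_left _ _) h1.1.1
    obtain ⟨c, r, rfl, rfl⟩ : ∃ c r, a = c ++ r ∧ c.length = i :=
      ⟨a.take i, a.drop i, by simp, by simp [hi]⟩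
    obtain ⟨e, h4, rfl⟩ := run_left.1 h1
    exact run_left.2 ⟨e, h _ _ h4, rfl⟩
  exact ⟨chk_step w hm hp h1 h3, run_append.2 ⟨m, h3, h2⟩⟩

theorem chk_next (n : ℕ) (k : Kd Bool) (x : Bool) (a : List Bool) :
    next (n + 1, k) (x :: a) = x :: next (n, k) a := rfl

theorem chk_ok (n : ℕ) (k : Kd Bool) (x : Bool) (a : List Bool) :
    ok (n + 1, k) (x :: a) ↔ ok (n, k) a := by simp [ok]

theorem chk_next0 (k : Kd Bool) (a : List Bool) : next (0, k) a = nx k a := rfl

theorem chk_ok0 (k : Kd Bool) (a : List Bool) : ok (0, k) a ↔ okh k a := by simp [ok]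

theorem chk_nil (n : ℕ) (k : Kd Bool) : ¬ ok (n + 1, k) [] := by simp [ok]

theorem chk_far (k k' : Kd Bool) (n : ℕ) (a m : List Bool) :
    Run [(0, k), (n + k.outw, k')] a m ↔ Run [(n + k.inw, k'), (0, k)] a m := by
  rcases k with _ | _ | y | _
  all_goals
    rcases a with _ | ⟨x, _ | ⟨z, a⟩⟩ <;>
      simp [Run, Kd.inw, Kd.outw, chk_next, chk_ok, chk_next0, chk_ok0, chk_nil, okh, nx, and_comm,
        and_left_comm, and_assoc]

theorem chk_c0 (i n : ℕ) (k k' : Kd Bool) (w : List (L Bool)) :
    ChkG ((i, k) :: (i + k.outw + n, k') :: w) ((i + k.inw + n, k') :: (i, k) :: w) := by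
  have := chk_loc (x := (0, k)) (u := [(n + k.outw, k')]) (u' := [(n + k.inw, k'), (0, k)]) i w
    (Or.inl (by
      have := Mv.far i n (k.map fun _ => ()) (k'.map fun _ => ())
      cases k <;> simpa [shape, shift, mapW, Kd.map, Kd.inw, Kd.outw, add_comm, add_left_comm]
        using this)) fun a m => (chk_far k k' n a m).1
  simpa [shift, add_comm, add_left_comm] using this

theorem chk_c1 (i n : ℕ) (k k' : Kd Bool) (w : List (L Bool)) :
    ChkG ((i + k.inw + n, k') :: (i, k) :: w) ((i, k) :: (i + k.outw + n, k') :: w) := by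
  have := chk_loc (x := (n + k.inw, k')) (u := [(0, k)]) (u' := [(0, k), (n + k.outw, k')]) i w
    (Or.inr (by
      have := Mv.far i n (k.map fun _ => ()) (k'.map fun _ => ())
      cases k <;> simpa [shape, shift, mapW, Kd.map, Kd.inw, Kd.outw, add_comm, add_left_comm]
        using this)) fun a m => (chk_far k k' n a m).2
  simpa [shift, add_comm, add_left_comm] using this

theorem chk_rho (y : Bool) : Lab.rho y = !y := rfl

theorem chk_act (x y : Bool) : Lab.act x y = y := rfl

theorem chk_pair {i₁ i₂ : ℕ} {k₁ k₂ : Kd Bool} {u' : List (L Bool)}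
    (h : ((i₁, k₁), (i₂, k₂), u') ∈ [
      ((1, .cup true), (0, .cap), []), ((1, .cup false), (0, .cap), []),
      ((0, .cup true), (1, .cap), []), ((0, .cup false), (1, .cap), []),
      ((0, .X), (0, .Z), []), ((0, .Z), (0, .X), []),
      ((0, .X), (1, .cap), [(1, .Z), (0, .cap)]), ((1, .X), (0, .cap), [(0, .Z), (1, .cap)]),
      ((0, .Z), (1, .cap), [(1, .X), (0, .cap)]), ((1, .Z), (0, .cap), [(0, .X), (1, .cap)]),
      ((0, .cup true), (1, .X), [(1, .cup true), (0, .Z)]),
      ((0, .cup false), (1, .X), [(1, .cup false), (0, .Z)]),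
      ((1, .cup true), (0, .X), [(0, .cup true), (1, .Z)]),
      ((1, .cup false), (0, .X), [(0, .cup false), (1, .Z)]),
      ((0, .cup true), (1, .Z), [(1, .cup true), (0, .X)]),
      ((0, .cup false), (1, .Z), [(1, .cup false), (0, .X)]),
      ((1, .cup true), (0, .Z), [(0, .cup true), (1, .X)]),
      ((1, .cup false), (0, .Z), [(0, .cup false), (1, .X)])]) (i : ℕ) (w : List (L Bool)) :
    ChkG ((i₁ + i, k₁) :: (i₂ + i, k₂) :: w) (shift i u' ++ w) := by
  refine chk_loc (x := (i₁, k₁)) (u := [(i₂, k₂)]) i w ?_ fun a m => ?_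
  · simp only [List.mem_cons, Prod.mk.injEq, List.not_mem_nil, or_false] at h
    rcases h with h | h | h | h | h | h | h | h | h | h | h | h | h | h | h | h | h | h <;>
      obtain ⟨⟨rfl, rfl⟩, ⟨rfl, rfl⟩, rfl⟩ := h <;>
      simp only [shape, shift, mapW, Kd.map, List.map_cons, List.map_nil, zero_add, add_comm 1 i] <;>
      first
        | exact Or.inl (by constructor)
        | exact Or.inr (by constructor)
  · simp only [List.mem_cons, Prod.mk.injEq, List.not_mem_nil, or_false] at h
    rcases h with h | h | h | h | h | h | h | h | h | h | h | h | h | h | h | h | h | h <;>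
      obtain ⟨⟨rfl, rfl⟩, ⟨rfl, rfl⟩, rfl⟩ := h <;>
      rcases a with _ | ⟨x, _ | ⟨y, _ | ⟨z, a⟩⟩⟩ <;>
      simp +contextual [Run, ok, next, okh, nx, chk_rho, chk_act]

theorem chk_ins (j : ℕ) (y : Bool) (w : List (L Bool)) :
    ChkG ((j + 1, .cup y) :: w) ((j + 1, .cup y) :: (j, .X) :: (j, .Z) :: w) := by
  intro p a b hp hu
  have h1 : j + 1 ≤ a.length := hu.1.1
  have h2 : Run [(j, .X), (j, .Z)] (next (j + 1, .cup y) a) (next (j + 1, .cup y) a) := by
    have h3 : j + 2 ≤ (next (j + 1, .cup y) a).length := by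
      simp [next, nx, h1]
      omega
    generalize next (j + 1, .cup y) a = e at h3
    obtain ⟨c, r, rfl, rfl⟩ : ∃ c r, e = c ++ r ∧ c.length = j :=
      ⟨e.take j, e.drop j, by simp, by simp; omega⟩
    have h4 : Run [(0, .X), (0, .Z)] r r := by
      rcases r with _ | ⟨x, _ | ⟨z, r⟩⟩
      · simp at h3
      · simp at h3
      · simp [Run, ok, next, okh, nx, chk_act]
    simpa [shift] using (run_left (c := c)).2 ⟨r, h4, rfl⟩
  refine ⟨?_, hu.1, run_append.2 ⟨_, h2, hu.2⟩⟩
  simpa using chk_step (u := []) (u' := [(j, .X), (j, .Z)]) w (Or.inr (Mv.r2X j))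
    (chk_snoc hp hu.1) rfl h2

theorem chk_c6 (j : ℕ) (y : Bool) (w : List (L Bool)) :
    ChkG ((j + 1, .cup y) :: (j + 1, .cap) :: w) ((j, .cup y) :: (j, .cap) :: w) := by
  have h1 := chk_pair (i₁ := 1) (k₁ := .cup y) (i₂ := 0) (k₂ := .X) (u' := [(0, .cup y), (1, .Z)])
    (by cases y <;> simp) j ((j, .Z) :: (j + 1, .cap) :: w)
  have h2 := chk_pair (i₁ := 0) (k₁ := .Z) (i₂ := 1) (k₂ := .cap) (u' := [(1, .X), (0, .cap)])
    (by simp) j w
  have h3 := chk_pair (i₁ := 0) (k₁ := .Z) (i₂ := 0) (k₂ := .X) (u' := [])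
    (by simp) (j + 1) ((j, .cap) :: w)
  simp only [shift, List.map_cons, List.map_nil, zero_add, add_comm 1 j, List.cons_append,
    List.nil_append] at h1 h2 h3
  exact chk_trans (chk_ins j y _) (chk_trans h1 (chk_cons (chk_trans (chk_cons h2 _) h3) _))

theorem chk_up {k₁ k₂ : Kd Bool} {w w' : List (L Bool)} {i : ℕ} (i₁ i₂ : ℕ) (u' : List (L Bool))
    (h : ChkG ((i₁ + i, k₁) :: (i₂ + i, k₂) :: w) (shift i u' ++ w)) {j₁ j₂ : ℕ}
    (h1 : j₁ = i₁ + i) (h2 : j₂ = i₂ + i) (h3 : w' = shift i u' ++ w) :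
    ChkG ((j₁, k₁) :: (j₂, k₂) :: w) w' := by
  subst h1 h2 h3
  exact h

theorem chk_mv1 {c : ℕ} {w w' : List (L Bool)} (h : mv1 c w = some w') : ChkG w w' := by
  unfold mv1 at h
  split at h
  · split_ifs at h with h1
    obtain ⟨n, rfl⟩ := Nat.exists_eq_add_of_le h1
    rename_i i k k' w
    rw [← Option.some.inj h, show i + k.outw + n - k.outw + k.inw = i + k.inw + n by omega]
    exact chk_c0 i n k k' w
  · split_ifs at h with h1
    obtain ⟨n, rfl⟩ := Nat.exists_eq_add_of_le h1
    rename_i k' i k w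
    rw [← Option.some.inj h, show i + k.inw + n - k.inw + k.outw = i + k.outw + n by omega]
    exact chk_c1 i n k k' w
  · split_ifs at h with h1
    rename_i j y i w
    obtain rfl := Option.some.inj h
    rcases h1 with rfl | rfl
    · exact chk_up 1 0 [] (chk_pair (by cases y <;> simp) i _) (by omega) (by omega) rfl
    · exact chk_up 0 1 [] (chk_pair (by cases y <;> simp) j _) (by omega) (by omega) rfl
  · split_ifs at h with h1
    obtain rfl := Option.some.inj h
    subst h1
    exact chk_up 0 0 [] (chk_pair (by simp) _ _) (zero_add _).symm (zero_add _).symm rfl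
  · split_ifs at h with h1
    obtain rfl := Option.some.inj h
    subst h1
    exact chk_up 0 0 [] (chk_pair (by simp) _ _) (zero_add _).symm (zero_add _).symm rfl
  · split_ifs at h with h1 h2 <;> obtain rfl := Option.some.inj h <;> subst_vars
    · exact chk_up 0 1 [(1, .Z), (0, .cap)] (chk_pair (by simp) _ _) (zero_add _).symm
        (add_comm _ _) (by simp [shift, add_comm])
    · exact chk_up 1 0 [(0, .Z), (1, .cap)] (chk_pair (by simp) _ _) (add_comm _ _)
        (zero_add _).symm (by simp [shift, add_comm])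
  · split_ifs at h with h1 h2 <;> obtain rfl := Option.some.inj h <;> subst_vars
    · exact chk_up 0 1 [(1, .X), (0, .cap)] (chk_pair (by simp) _ _) (zero_add _).symm
        (add_comm _ _) (by simp [shift, add_comm])
    · exact chk_up 1 0 [(0, .X), (1, .cap)] (chk_pair (by simp) _ _) (add_comm _ _)
        (zero_add _).symm (by simp [shift, add_comm])
  · rename_i y _ _
    split_ifs at h with h1 h2 <;> obtain rfl := Option.some.inj h <;> subst_vars
    · exact chk_up 0 1 [(1, .cup y), (0, .Z)] (chk_pair (by cases y <;> simp) _ _) (zero_add _).symm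
        (add_comm _ _) (by simp [shift, add_comm])
    · exact chk_up 1 0 [(0, .cup y), (1, .Z)] (chk_pair (by cases y <;> simp) _ _) (add_comm _ _)
        (zero_add _).symm (by simp [shift, add_comm])
  · rename_i y _ _
    split_ifs at h with h1 h2 <;> obtain rfl := Option.some.inj h <;> subst_vars
    · exact chk_up 0 1 [(1, .cup y), (0, .X)] (chk_pair (by cases y <;> simp) _ _) (zero_add _).symm
        (add_comm _ _) (by simp [shift, add_comm])
    · exact chk_up 1 0 [(0, .cup y), (1, .X)] (chk_pair (by cases y <;> simp) _ _) (add_comm _ _)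
        (zero_add _).symm (by simp [shift, add_comm])
  · split_ifs at h with h1
    obtain rfl := Option.some.inj h
    obtain ⟨rfl, h2⟩ := h1
    obtain ⟨j, rfl⟩ := Nat.exists_eq_add_of_le' h2
    exact chk_c6 j _ _
  · cases h

theorem chk_mvAt {n c : ℕ} {w w' : List (L Bool)} (h : mvAt n c w = some w') : ChkG w w' := by
  induction n generalizing w w' with
  | zero => exact chk_mv1 h
  | succ n ih =>
    rcases w with _ | ⟨l, w⟩
    · cases h
    · obtain ⟨v, h1, rfl⟩ := Option.map_eq_some_iff.1 h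
      exact chk_cons (ih h1) l

theorem chk_chk {cs : List ℕ} {w w' : List (L Bool)} (h : chk cs w = some w') : ChkG w w' := by
  induction cs generalizing w with
  | nil =>
    obtain rfl := Option.some.inj h
    exact fun _ _ _ _ hw => ⟨Relation.ReflTransGen.refl, hw⟩
  | cons s cs ih =>
    obtain ⟨v, h1, h2⟩ := Option.bind_eq_some_iff.1 h
    exact chk_trans (chk_mvAt h1) (ih h2)

/-- Soundness of one move.  For the codes `0` to `5` exhibit the `Step` with `p`, the two sides and
the rest of the word (validity of the new side: direct computation on `a = l ++ strands ++ r`, the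
action on `Bool` is trivial).  Code `6` is four steps: insert `[(i - 1, X), (i - 1, Z)]` between
the cup and the cap, use `cupX`, `capZ`, and cancel. -/
theorem mv1_sound {c : ℕ} {w w' p : List (L Bool)} (h : mv1 c w = some w') {a b : List Bool}
    (hp : Run p [] a) (hw : Run w a b) : Iso (p ++ w) (p ++ w') := by
  exact (chk_mv1 h p a b hp hw).1

theorem mvAt_sound {n c : ℕ} {w w' p : List (L Bool)} (h : mvAt n c w = some w')
    {a b : List Bool} (hp : Run p [] a) (hw : Run w a b) : Iso (p ++ w) (p ++ w') := by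
  exact (chk_mvAt h p a b hp hw).1

theorem chk_sound {cs : List ℕ} {w w' : List (L Bool)} (h : chk cs w = some w') {b : List Bool}
    (hw : Run w [] b) : Iso w w' := by
  exact (chk_chk h [] [] b rfl hw).1

theorem eqW_eq {w w' : List (L Bool)} (h : eqW w w' = true) : w = w' := by
  induction w generalizing w' with
  | nil => cases w' <;> simp_all [eqW]
  | cons l w ih =>
    rcases w' with _ | ⟨l', w'⟩
    · simp [eqW] at h
    · simp only [eqW, Bool.and_eq_true, beq_iff_eq] at h
      obtain ⟨i, k⟩ := l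
      obtain ⟨i', k'⟩ := l'
      rw [ih h.2]
      cases k <;> cases k' <;> simp_all [Kd.beqB]

theorem chkTo_sound {cs : List ℕ} {w w' : List (L Bool)} (h : chkTo cs w w' = true)
    {b : List Bool} (hw : Run w [] b) : Iso w w' := by
  unfold chkTo at h
  split at h
  · rename_i v hv
    exact eqW_eq h ▸ chk_sound hv hw
  · cases h

end Pool.Agent.AS
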