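import Pool.Agent.Lib.MP_dae8ad_gt.T.ChkDefs
import Pool.Agent.Lib.MP_dae8ad_gt.T.Basic

namespace Pool.Agent.AS

theorem connchk_ok {l : L Bool} {a : List Bool} (h : okB l a = true) : ok l a := by
  obtain ⟨i, k⟩ := l
  simp only [okB, Bool.and_eq_true, decide_eq_true_eq] at h
  refine ⟨h.1, ?_⟩
  have h2 := h.2
  show okh k (a.drop i)
  generalize a.drop i = r at h2
  rcases k with _ | _ | y | _ <;> rcases r with _ | ⟨p, _ | ⟨q, r⟩⟩ <;> simp [okh] at h2 ⊢
  exact h2

theorem runB_sound {D : List (ML Bool)} {a : List Bool} (h : runB D a = true) : RunM D a [] := by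
  induction D generalizing a with
  | nil => exact List.isEmpty_iff.1 h
  | cons m D ih =>
    rcases m with l | ⟨i, y⟩
    · simp only [runB, Bool.and_eq_true] at h
      exact ⟨connchk_ok h.1, ih h.2⟩
    · simp only [runB, Bool.and_eq_true, decide_eq_true_eq, beq_iff_eq] at h
      refine ⟨mark_iff.2 ⟨a.take i, (a.drop i).drop 2, List.length_take_of_le h.1.1, ?_⟩, ih h.2⟩
      have e := List.take_append_drop 2 (a.drop i)
      rw [h.1.2] at e
      exact (List.take_append_drop i a).symm.trans (congrArg (a.take i ++ ·) e.symm)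

theorem lo_lt {Y : Type} (w : List (L Y)) : lo (w.map ML.lt) = w := by
  induction w with
  | nil => rfl
  | cons l w ih => exact congrArg (l :: ·) ih

theorem connchk_two {col : ℕ → Bool} {a r : List (Bool × Bool)} {s : List ℕ}
    (hs : a.map Prod.snd = s.map col) {i : ℕ} {p q : Bool × Bool} (h : a.drop i = p :: q :: r) :
    col (s.getD i 0) = p.2 ∧ col (s.getD (i + 1) 0) = q.2 ∧
      (s.drop (i + 2)).map col = r.map Prod.snd := by
  have h1 : (s.drop i).map col = p.2 :: q.2 :: r.map Prod.snd := by
    rw [List.map_drop, ← hs, ← List.map_drop, h]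
    rfl
  obtain ⟨x, t, e1, hx, h2⟩ := List.map_eq_cons_iff.1 h1
  obtain ⟨y, u, rfl, hy, h3⟩ := List.map_eq_cons_iff.1 h2
  have g0 : s[i]? = some x := by rw [← Nat.add_zero i, ← List.getElem?_drop, e1]; rfl
  have g1 : s[i + 1]? = some y := by rw [← List.getElem?_drop, e1]; rfl
  have g2 : s.drop (i + 2) = u := by simpa using congrArg (List.drop 2) e1
  simp only [List.getD_eq_getElem?_getD, g0, g1, g2, Option.getD_some, hx, hy, h3, and_self]

theorem connchk_len {Y : Type} {r : List Y} (h : 2 ≤ r.length) : ∃ p q t, r = p :: q :: t := by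
  rcases r with _ | ⟨p, _ | ⟨q, t⟩⟩
  · simp at h
  · simp at h
  · exact ⟨p, q, t, rfl⟩

/-- If `col` lists the colours of the minima (those of `E` start at the number `n`) and the level
`a` has the colours of the names `s`, the recorded pairs have equal colours. -/
theorem eqs_sound (col : ℕ → Bool) {E : List (ML (Bool × Bool))} {a b : List (Bool × Bool)}
    (h : RunM E a b) (s : List ℕ) (n : ℕ) (hs : a.map Prod.snd = s.map col)
    (hc : ∀ k (hk : k < (cups (lo E)).length), ((cups (lo E))[k]).2 = col (n + k)) :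
    ∀ e ∈ eqs (E.map (ML.map Prod.fst)) s n, col e.1 = col e.2 := by
  induction E generalizing a s n with
  | nil => exact fun e he => absurd he List.not_mem_nil
  | cons m E ih =>
    have ht : ∀ i, (a.take i).map Prod.snd = (s.take i).map col := fun i => by
      rw [List.map_take, List.map_take, hs]
    rcases m with ⟨i, _ | _ | y | _⟩ | ⟨i, y⟩
    · obtain ⟨p, q, t, e⟩ := connchk_len (r := a.drop i) h.1.2
      obtain ⟨h1, h2, h3⟩ := connchk_two hs e
      refine ih h.2 _ n ?_ hc
      simp only [next, e, nx, List.map_append, List.map_cons, ht, h1, h2, h3]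
      rfl
    · obtain ⟨p, q, t, e⟩ := connchk_len (r := a.drop i) h.1.2
      obtain ⟨h1, h2, h3⟩ := connchk_two hs e
      refine ih h.2 _ n ?_ hc
      simp only [next, e, nx, List.map_append, List.map_cons, ht, h1, h2, h3]
      rfl
    · have h0 : y.2 = col n := hc 0 (Nat.succ_pos _)
      refine ih h.2 _ (n + 1) ?_ fun k hk => ?_
      · simp only [next, nx, List.map_append, List.map_cons, ht, List.map_drop, hs, ← h0]
        rfl
      · rw [Nat.add_assoc, Nat.add_comm 1 k]
        exact hc (k + 1) (Nat.succ_lt_succ hk)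
    · obtain ⟨p, t, e⟩ : ∃ p t, a.drop i = p :: Lab.rho p :: t := h.1.2
      obtain ⟨h1, h2, h3⟩ := connchk_two hs e
      refine List.forall_mem_cons.2 ⟨h1.trans h2.symm, ih h.2 _ n ?_ hc⟩
      simp only [next, e, nx, List.map_append, ht, h3]
    · obtain ⟨l, t, rfl, e⟩ := mark_iff.1 h.1
      obtain ⟨h1, h2, -⟩ := connchk_two hs (i := l.length) (e ▸ List.drop_left)
      exact List.forall_mem_cons.2 ⟨h1.trans h2.symm, ih h.2 s n hs hc⟩

theorem connchk_fold {col : ℕ → Bool} {c : Bool} (es : List (ℕ × ℕ))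
    (he : ∀ e ∈ es, col e.1 = col e.2) (r : List ℕ) (hr : ∀ x ∈ r, col x = c) :
    ∀ x ∈ es.foldl grow r, col x = c := by
  induction es generalizing r with
  | nil => exact hr
  | cons e es ih =>
    obtain ⟨h1, h2⟩ := List.forall_mem_cons.1 he
    refine ih h2 _ ?_
    unfold grow
    split_ifs with g1 g2 g3
    · exact hr
    · exact List.forall_mem_cons.2 ⟨h1 ▸ hr _ (List.contains_iff_mem.1 g1), hr⟩
    · exact List.forall_mem_cons.2 ⟨h1.trans (hr _ (List.contains_iff_mem.1 g3)), hr⟩
    · exact hr

theorem connB_sound {D : List (ML Bool)} {k : ℕ} (h : connB D k = true) : Conn D := by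
  rintro E rfl hE
  let col : ℕ → Bool := fun j => ((cups (lo E)).getD j (true, true)).2
  have hc : ∀ j (hj : j < (cups (lo E)).length), ((cups (lo E))[j]).2 = col (0 + j) :=
    fun j hj => by simp [col, hj]
  have h1 := eqs_sound col hE [] 0 rfl hc
  have h2 : ∀ m, ∀ x ∈ reach (eqs (E.map (ML.map Prod.fst)) [] 0) m, col x = col 0 := by
    intro m
    induction m with
    | zero => exact fun x hx => by rw [List.mem_singleton.1 hx]
    | succ m ih => exact connchk_fold _ h1 _ ih
  have h3 : ∀ y ∈ cups (lo E), y.2 = col 0 := fun y hy => by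
    obtain ⟨j, hj, rfl⟩ := List.getElem_of_mem hy
    rw [hc j hj, Nat.zero_add]
    refine h2 k j (List.contains_iff_mem.1 (List.all_eq_true.1 h j (List.mem_range.2 ?_)))
    rwa [lo_map, cups_mapW, List.length_map]
  exact fun y hy z hz => (h3 y hy).trans (h3 z hz).symm

end Pool.Agent.AS
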