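import Pool.Agent.Lib.MP_dae8ad_gt.T.CertDefs
import Pool.Agent.Lib.MP_dae8ad_gt.T.Chk
import Pool.Agent.Lib.MP_dae8ad_gt.T.ConnChk

/-! The satellite of the unknot is a slice knot: an explicit marked diagram. -/

namespace Pool.Agent.AS

def cD : List (ML Bool) :=
  [
    .lt (0, .cup true), .lt (2, .cup true), .lt (4, .cup true), .lt (2, .X), .lt (1, .X),
    .lt (3, .X), .lt (2, .X), .lt (2, .X), .lt (3, .X), .lt (3, .X), .lt (2, .X),
    .lt (3, .cup false), .lt (4, .cup true), .lt (5, .cup false), .lt (6, .cup true), .lt (6, .X),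
    .lt (7, .X), .lt (5, .X), .lt (6, .X), .lt (8, .X), .lt (9, .X), .lt (7, .X), .lt (8, .X),
    .lt (4, .X), .lt (5, .X), .lt (3, .X), .lt (4, .X), .lt (6, .X), .lt (7, .X), .lt (5, .X),
    .lt (6, .X), .lt (11, .cup false), .lt (12, .cup true), .lt (13, .cup false),
    .lt (14, .cup true), .lt (14, .X), .lt (15, .X), .lt (13, .X), .lt (14, .X), .lt (16, .X),
    .lt (17, .X), .lt (15, .X), .lt (16, .X), .lt (12, .X), .lt (13, .X), .lt (11, .X),
    .lt (12, .X), .lt (14, .X), .lt (15, .X), .lt (13, .X), .lt (14, .X), .lt (10, .X),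
    .lt (11, .X), .lt (9, .X), .lt (10, .X), .lt (12, .X), .lt (13, .X), .lt (11, .X),
    .lt (12, .X), .lt (8, .X), .lt (9, .X), .lt (7, .X), .lt (8, .X), .lt (10, .X), .lt (11, .X),
    .lt (9, .X), .lt (10, .X), .lt (3, .Z), .lt (2, .Z), .lt (7, .Z), .lt (6, .Z), .lt (11, .Z),
    .lt (10, .Z), .lt (15, .Z), .lt (14, .Z), .lt (3, .cup false), .mk 2 true, .lt (1, .cap),
    .lt (5, .cup true), .mk 4 false, .lt (3, .cap), .lt (7, .cup false), .mk 6 true,
    .lt (5, .cap), .lt (9, .cup true), .mk 8 false, .lt (7, .cap), .lt (11, .cup false),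
    .mk 10 true, .lt (9, .cap), .lt (13, .cup true), .mk 12 false, .lt (11, .cap),
    .lt (15, .cup false), .mk 14 true, .lt (13, .cap), .lt (17, .cup true), .mk 16 false,
    .lt (15, .cap), .mk 19 false, .lt (18, .X), .lt (19, .X), .lt (17, .Z), .lt (18, .Z),
    .lt (16, .Z), .lt (17, .Z), .lt (15, .Z), .lt (16, .Z), .lt (14, .Z), .lt (15, .Z),
    .lt (13, .Z), .lt (14, .Z), .lt (12, .Z), .lt (13, .Z), .lt (11, .Z), .lt (12, .Z),
    .lt (10, .Z), .lt (11, .Z), .lt (9, .Z), .lt (10, .Z), .lt (8, .Z), .lt (9, .Z), .lt (7, .Z),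
    .lt (8, .Z), .lt (6, .Z), .lt (7, .Z), .lt (5, .Z), .lt (6, .Z), .lt (4, .Z), .lt (5, .Z),
    .lt (3, .Z), .lt (4, .Z), .lt (2, .Z), .lt (3, .Z), .lt (1, .Z), .lt (2, .Z), .lt (16, .X),
    .lt (17, .X), .lt (12, .X), .lt (13, .X), .lt (8, .X), .lt (9, .X), .lt (4, .X), .lt (5, .X),
    .lt (12, .Z), .lt (11, .Z), .lt (13, .Z), .lt (12, .Z), .lt (10, .Z), .lt (9, .Z),
    .lt (11, .Z), .lt (10, .Z), .lt (14, .Z), .lt (13, .Z), .lt (15, .Z), .lt (14, .Z),
    .lt (12, .Z), .lt (11, .Z), .lt (13, .Z), .lt (12, .Z), .lt (16, .Z), .lt (15, .Z),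
    .lt (17, .Z), .lt (16, .Z), .lt (14, .Z), .lt (13, .Z), .lt (15, .Z), .lt (14, .Z),
    .lt (18, .Z), .lt (17, .Z), .lt (19, .Z), .lt (18, .Z), .lt (16, .Z), .lt (15, .Z),
    .lt (17, .Z), .lt (16, .Z), .lt (16, .cap), .lt (15, .cap), .lt (14, .cap), .lt (13, .cap),
    .lt (8, .Z), .lt (7, .Z), .lt (9, .Z), .lt (8, .Z), .lt (6, .Z), .lt (5, .Z), .lt (7, .Z),
    .lt (6, .Z), .lt (10, .Z), .lt (9, .Z), .lt (11, .Z), .lt (10, .Z), .lt (8, .Z), .lt (7, .Z),
    .lt (9, .Z), .lt (8, .Z), .lt (8, .cap), .lt (7, .cap), .lt (6, .cap), .lt (5, .cap),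
    .lt (2, .Z), .lt (1, .Z), .lt (3, .Z), .lt (2, .Z), .lt (0, .cap), .lt (0, .cap),
    .lt (0, .cap)]

def cLo : List ℕ :=
  [
    601, 617, 633, 649, 665, 681, 697, 713, 608, 600, 593, 585, 577, 569, 561, 553, 601, 593, 585,
    577, 569, 561, 640, 632, 624, 616, 609, 601, 593, 585, 632, 624, 617, 609, 601, 593, 672, 664,
    656, 648, 640, 632, 625, 617, 664, 656, 648, 640, 633, 625, 704, 696, 688, 680, 672, 664, 656,
    648, 696, 688, 680, 672, 664, 656, 548, 539, 564, 555, 580, 571, 596, 587, 656, 648, 640, 632,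
    624, 616, 608, 600, 664, 656, 648, 640, 632, 624, 616, 608, 672, 664, 656, 648, 640, 632, 624,
    616, 680, 672, 664, 656, 648, 640, 632, 624, 705, 693, 699, 693, 699, 680, 705, 693, 699, 693,
    699, 672, 680, 705, 693, 699, 693, 699, 664, 672, 680, 705, 693, 699, 693, 699, 656, 664, 672,
    680, 705, 693, 699, 693, 699, 648, 656, 664, 672, 680, 705, 693, 699, 693, 699, 640, 648, 656,
    664, 672, 680, 705, 693, 699, 693, 699, 632, 640, 648, 656, 664, 672, 680, 705, 693, 699, 693,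
    699, 633, 688, 680, 672, 664, 656, 648, 696, 688, 680, 672, 664, 656, 665, 704, 696, 688, 680,
    712, 704, 696, 688, 697, 720, 712, 728, 720, 729, 645, 651, 661, 667, 677, 683, 693, 699]

def cHi : List ℕ :=
  [
    602, 602, 602, 602, 602, 602, 602, 602, 602, 602, 602, 602, 602, 602, 602, 602, 592, 584, 576,
    568, 560, 552, 544, 536, 528, 520, 512, 504, 496, 488, 480, 472, 464, 456, 448, 440, 432, 424,
    416, 408, 400, 392, 384, 376, 368, 360, 352, 344, 336, 328, 320, 312, 304, 296, 288, 280, 272,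
    264, 256, 248, 240, 232, 224, 216, 208, 200, 192, 184, 176, 168, 160, 152, 144, 136, 128, 120,
    112, 104, 96, 88, 84, 75, 68, 59, 52, 43, 36, 27, 17, 10, 533, 539, 533, 539, 533, 539, 533,
    539, 533, 539, 533, 539, 533, 539, 533, 539, 533, 539, 533, 539, 533, 539, 533, 539, 533, 539,
    533, 539, 533, 539, 533, 539, 533, 539, 533, 539, 528, 536, 544, 552, 560, 568, 576, 584, 592,
    600, 608, 616, 624, 632, 640, 648, 656, 664, 672, 680, 688, 696, 704, 712, 720, 728, 736, 744,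
    752, 760, 768, 776, 784, 792, 800, 808, 816, 824, 832, 840, 848, 856, 864, 872, 880, 888, 896,
    904, 912, 920, 928, 936, 944, 952, 960, 968, 976, 984, 992, 1000, 1008, 1016, 1024, 1032,
    1045, 1051, 1045, 1051, 1041, 1050, 523, 515, 507, 499, 491, 483, 475, 467, 459, 451, 443,
    435, 427, 419, 411, 403, 395, 387, 379, 371, 363, 355, 347, 339, 331, 323, 315, 307, 299, 291,
    283, 275, 267, 259, 251, 243, 235, 227, 219, 211, 206, 206, 206, 206, 206, 206, 206, 206, 206,
    206, 206, 206, 206, 206, 208, 216, 224, 232, 240, 248, 256, 264, 272, 280, 288, 296, 304, 312,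
    320, 328, 336, 344, 352, 360, 368, 376, 384, 392, 400, 200, 208, 216, 224, 232, 240, 248, 256,
    264, 272, 280, 288, 296, 304, 312, 320, 328, 336, 344, 352, 360, 368, 376, 384, 392, 198, 198,
    198, 198, 198, 198, 198, 198, 198, 198, 198, 198, 198, 200, 208, 216, 224, 232, 240, 248, 256,
    264, 272, 280, 288, 296, 304, 312, 320, 328, 336, 344, 352, 360, 368, 376, 384, 192, 200, 208,
    216, 224, 232, 240, 248, 256, 264, 272, 280, 288, 296, 304, 312, 320, 328, 336, 344, 352, 360,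
    368, 376, 190, 190, 190, 190, 190, 190, 190, 190, 190, 190, 190, 190, 192, 200, 208, 216, 224,
    232, 240, 248, 256, 264, 272, 280, 288, 296, 304, 312, 320, 328, 336, 344, 352, 360, 368, 184,
    192, 200, 208, 216, 224, 232, 240, 248, 256, 264, 272, 280, 288, 296, 304, 312, 320, 328, 336,
    344, 352, 360, 182, 182, 182, 182, 182, 182, 182, 182, 182, 182, 182, 184, 192, 200, 208, 216,
    224, 232, 240, 248, 256, 264, 272, 280, 288, 296, 304, 312, 320, 328, 336, 344, 352, 176, 184,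
    192, 200, 208, 216, 224, 232, 240, 248, 256, 264, 272, 280, 288, 296, 304, 312, 320, 328, 336,
    344, 171, 163, 155, 147, 139, 131, 123, 115, 107, 99, 91, 83, 75, 67, 59, 51, 46, 46, 46, 46,
    46, 46, 48, 56, 64, 72, 80, 40, 48, 56, 64, 72, 38, 38, 38, 38, 38, 40, 48, 56, 64, 32, 40,
    48, 56, 30, 30, 30, 30, 32, 40, 48, 24, 32, 40, 22, 22, 22, 24, 32, 16, 24, 9]

def cS : List Bool := [true, false, true, false, true, false, true, false, true]

theorem cD_run : runB cD [] = true := by decide +kernel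

theorem cD_conn : connB cD 12 = true := by decide +kernel

theorem cLo_ok : chkTo cLo (lo cD) (topB ++ botB) = true := by decide +kernel

theorem cHi_ok : chkTo cHi (hi cD) (circles (true :: cS)) = true := by decide +kernel

theorem slice_PU : Slice (topB ++ botB) :=
  ⟨cD, [], cS, true, runB_sound cD_run, connB_sound cD_conn, by decide +kernel,
    by simpa [circles] using chkTo_sound cLo_ok (runM_lo (runB_sound cD_run)),
    chkTo_sound cHi_ok (runM_hi (runB_sound cD_run))⟩

theorem knot_PU : IsKnot (topB ++ botB) := by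
  refine ⟨by simp [topB, R0], ?_, connB_sound (k := 12) (by decide +kernel)⟩
  have h := runM_lo (runB_sound (D := (topB ++ botB).map ML.lt) (a := []) (by decide +kernel))
  rwa [lo_lt] at h

end Pool.Agent.AS
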