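import Pool.Agent.Lib.MP_dae8ad_gt.T.QDefs

namespace Pool.Agent.AS

def topB : List (L Bool) := R0 ⟨true, true, true⟩

def botB : List (L Bool) :=
  botW ⟨true, true, true⟩ (two false (knot 1 SJ)) (two false (knot 1 SJ))

end Pool.Agent.AS
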