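import Pool.Agent.Lib.MP_dae8ad_gt.T.BDefs

/-! Checkers for sequences of moves, validity and connectedness. -/

namespace Pool.Agent.AS

/-- One move at the head of a word. -/
def mv1 : ℕ → List (L Bool) → Option (List (L Bool))
  | 0, (i, k) :: (j, k') :: w =>
    if i + k.outw ≤ j then some ((j - k.outw + k.inw, k') :: (i, k) :: w) else none
  | 1, (j, k') :: (i, k) :: w =>
    if i + k.inw ≤ j then some ((i, k) :: (j - k.inw + k.outw, k') :: w) else none
  | 2, (j, .cup _) :: (i, .cap) :: w => if j = i + 1 ∨ i = j + 1 then some w else none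
  | 3, (j, .X) :: (i, .Z) :: w => if j = i then some w else none
  | 3, (j, .Z) :: (i, .X) :: w => if j = i then some w else none
  | 4, (i, .X) :: (j, .cap) :: w =>
    if j = i + 1 then some ((j, .Z) :: (i, .cap) :: w)
    else if i = j + 1 then some ((j, .Z) :: (i, .cap) :: w) else none
  | 4, (i, .Z) :: (j, .cap) :: w =>
    if j = i + 1 then some ((j, .X) :: (i, .cap) :: w)
    else if i = j + 1 then some ((j, .X) :: (i, .cap) :: w) else none
  | 5, (i, .cup y) :: (j, .X) :: w =>
    if j = i + 1 then some ((j, .cup y) :: (i, .Z) :: w)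
    else if i = j + 1 then some ((j, .cup y) :: (i, .Z) :: w) else none
  | 5, (i, .cup y) :: (j, .Z) :: w =>
    if j = i + 1 then some ((j, .cup y) :: (i, .X) :: w)
    else if i = j + 1 then some ((j, .cup y) :: (i, .X) :: w) else none
  | 6, (i, .cup y) :: (j, .cap) :: w =>
    if i = j ∧ 1 ≤ i then some ((i - 1, .cup y) :: (i - 1, .cap) :: w) else none
  | _, _ => none

def mvAt : ℕ → ℕ → List (L Bool) → Option (List (L Bool))
  | 0, c, w => mv1 c w
  | n + 1, c, l :: w => (mvAt n c w).map (l :: ·)
  | _ + 1, _, [] => none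

/-- A step is coded as `8 n + c`. -/
def chk : List ℕ → List (L Bool) → Option (List (L Bool))
  | [], w => some w
  | s :: cs, w => (mvAt (s / 8) (s % 8) w).bind (chk cs)

def okB (l : L Bool) (a : List Bool) : Bool :=
  decide (l.1 ≤ a.length) && match l.2, a.drop l.1 with
    | .cup _, _ => true
    | .cap, p :: q :: _ => q == !p
    | _, _ :: _ :: _ => true
    | _, _ => false

def runB : List (ML Bool) → List Bool → Bool
  | [], a => a.isEmpty
  | .lt l :: D, a => okB l a && runB D (next l a)
  | .mk i y :: D, a => decide (i ≤ a.length) && ((a.drop i).take 2 == [y, !y]) && runB D a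

/-- The pairs of minima (numbered from `n`) that are joined at a maximum or at a mark. -/
def eqs : List (ML Bool) → List ℕ → ℕ → List (ℕ × ℕ)
  | [], _, _ => []
  | .lt (i, .cup _) :: D, a, n => eqs D (a.take i ++ n :: n :: a.drop i) (n + 1)
  | .lt (i, .cap) :: D, a, n =>
    (a.getD i 0, a.getD (i + 1) 0) :: eqs D (a.take i ++ a.drop (i + 2)) n
  | .lt (i, _) :: D, a, n =>
    eqs D (a.take i ++ a.getD (i + 1) 0 :: a.getD i 0 :: a.drop (i + 2)) n
  | .mk i _ :: D, a, n => (a.getD i 0, a.getD (i + 1) 0) :: eqs D a n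

def grow (r : List ℕ) (e : ℕ × ℕ) : List ℕ :=
  if r.contains e.1 then (if r.contains e.2 then r else e.2 :: r)
  else if r.contains e.2 then e.1 :: r else r

def reach (es : List (ℕ × ℕ)) : ℕ → List ℕ
  | 0 => [0]
  | k + 1 => es.foldl grow (reach es k)

def connB (D : List (ML Bool)) (k : ℕ) : Bool :=
  (List.range (cups (lo D)).length).all (reach (eqs D [] 0) k).contains

def Kd.beqB : Kd Bool → Kd Bool → Bool
  | .X, .X => true
  | .Z, .Z => true
  | .cap, .cap => true
  | .cup y, .cup z => y == z
  | _, _ => false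

def eqW : List (L Bool) → List (L Bool) → Bool
  | [], [] => true
  | l :: w, l' :: w' => l.1 == l'.1 && l.2.beqB l'.2 && eqW w w'
  | _, _ => false

def chkTo (cs : List ℕ) (w w' : List (L Bool)) : Bool :=
  match chk cs w with
  | some v => eqW v w'
  | none => false

end Pool.Agent.AS
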