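import Pool.Agent.Lib.MP_dae8ad_gt.T.Lam
import Pool.Agent.Lib.MP_dae8ad_gt.T.Path

namespace Pool.Agent.AS

variable {G M1 N M2 A : Type} [Group G]
  [AddCommGroup M1] [DistribMulAction G M1] [AddCommGroup N] [DistribMulAction G N]
  [AddCommGroup M2] [DistribMulAction G M2] [AddCommGroup A] (P : PD G M1 N M2 A)

theorem PD.surj_qq : Function.Surjective P.qq := fun y => ⟨P.sig y, P.qq_sig y⟩

theorem lam_isoP {π : List PS} {z z' : List (L (Lb G (N × M2)))} (h : IsoP π z z') (ρ : M2) :
    Lam P ρ z [] = Lam P ρ z' [] := by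
  induction π generalizing z with
  | nil => rw [show z = z' from h]
  | cons m π ih =>
    obtain ⟨w1, ⟨p, u, u', q, a, b, -, hu, hu', rfl, rfl, hm, hp, h1, h2⟩, h'⟩ := h
    rw [← ih h']
    obtain ⟨v, v', a', b', rfl, rfl, rfl, rfl, h3, h4⟩ :=
      mv_lift P.hom_qq P.surj_qq (by rw [hu, hu']; exact hm) h1 h2
    simp only [lam_append, lev_append, run_lev hp, run_lev h1, run_lev h2, lam_lift P h3,
      lam_lift P h4]

theorem laminv_ok {l : L (Lb G (N × M2))} {a : List (Lb G (N × M2))} (h : ok l a) :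
    ok (l.1, l.2.map P.sig) (a.map P.sig) := by
  obtain ⟨i, k⟩ := l
  obtain ⟨h1, h2⟩ := h
  refine ⟨by simpa using h1, ?_⟩
  show okh (k.map P.sig) ((a.map P.sig).drop i)
  rw [← List.map_drop]
  cases k with
  | X => simpa [okh, Kd.map] using h2
  | Z => simpa [okh, Kd.map] using h2
  | cup y => trivial
  | cap =>
    obtain ⟨p, t, e⟩ := h2
    exact ⟨P.sig p, t.map P.sig, by rw [e]; rfl⟩

theorem laminv_one {l : L (Lb G (N × M2))} {a : List (Lb G (N × M2))} (h : ok l a) (ρ : M2) :
    Lam P ρ [rvl l a] (next l a) = - Lam P ρ [l] a := by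
  have hid : P.qq ∘ P.sig = id := funext P.qq_sig
  have h1 : Run (mapW P.sig [l]) (a.map P.sig) (next (l.1, l.2.map P.sig) (a.map P.sig)) :=
    ⟨laminv_ok P h, rfl⟩
  have e1 : mapW P.qq (mapW P.sig [l]) = [l] := by rw [mapW_mapW, hid, mapW_id]
  have e2 : (a.map P.sig).map P.qq = a := by rw [List.map_map, hid, List.map_id]
  have h2 := run_map P.hom_qq h1
  rw [e1, e2] at h2
  have e3 : next l a = _ := h2.2
  have h3 := lam_lift P h1 ρ
  have h4 := lam_lift P (run_rv h1) ρ
  rw [mapW_rv P.hom_qq, e1, e2, ← e3] at h4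
  rw [e1, e2] at h3
  rw [h3, neg_sub]
  exact h4

/-- The mirror image has the opposite state sum: one letter lifts exactly (the chosen lifts `sig`
of the level and of the letter are valid), and so does its mirror image with the ends exchanged. -/
theorem lam_rv {w : List (L (Lb G (N × M2)))} {a b : List (Lb G (N × M2))} (h : Run w a b)
    (ρ : M2) : Lam P ρ (rv w a) b = - Lam P ρ w a := by
  induction w generalizing a with
  | nil => exact neg_zero.symm
  | cons l w ih =>
    have e : Lam P ρ (l :: w) a = Lam P ρ [l] a + Lam P ρ w (next l a) := lam_append P ρ [l] w a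
    show Lam P ρ (rv w (next l a) ++ [rvl l a]) b = _
    rw [lam_append, ih h.2, run_lev (run_rv h.2), laminv_one P h.1, e, neg_add, add_comm]

end Pool.Agent.AS
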