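import Pool.Agent.Lib.MP_dae8ad_gt.T.Mark
import Pool.Agent.Lib.MP_dae8ad_gt.T.LamInv

namespace Pool.Agent.AS

variable {G M M' : Type} [Group G] [AddCommGroup M] [DistribMulAction G M] [AddCommGroup M']
  [DistribMulAction G M'] {Q : G → Prop} {K0 : List (L (Lb0 G))}

theorem coreA_add (r r' : G →₀ ℤ) (m : M) : ap (r + r') m = ap r m + ap r' m :=
  Finsupp.sum_add_index' (fun _ => zero_smul _ _) fun _ _ _ => add_smul _ _ _

theorem coreA_single (g : G) (n : ℤ) (m : M) : ap (Finsupp.single g n) m = n • g • m :=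
  Finsupp.sum_single_index (zero_smul _ _)

theorem coreA_getD (ψ : M →+ M') (l : List M) (i : ℕ) : (l.map ψ).getD i 0 = ψ (l.getD i 0) := by
  rw [← List.getD_map l 0 ψ, map_zero]

theorem exSD (h : SliceY Lb.s (fun y => Q y.x) K0) (hne : K0 ≠ []) : Nonempty (SD G Q K0) := by
  obtain ⟨D, s, s', y, h1, h2, h3, h4, h5, h6⟩ := h
  obtain ⟨pl, h5⟩ := iso_iff.1 h5
  obtain ⟨ph, h6⟩ := iso_iff.1 h6
  exact ⟨⟨D, s, y, s', pl, ph, h1, h2, h3, h4, h5, h6, hne⟩⟩

theorem circ_map (s : List (Lb0 G)) (ψ : M → M') (n : Fin s.length → M) :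
    (circ s n).map (Lb.mp ψ) = circ s (ψ ∘ n) := by
  rw [circ, List.map_ofFn]
  rfl

theorem circ_bs (s : List (Lb0 G)) (n : Fin s.length → M) : (circ s n).map bs = s := by
  rw [circ, List.map_ofFn]
  exact List.ofFn_get s

theorem circ_sur {s : List (Lb0 G)} {t : List (Lb G M)} (h : t.map bs = s) :
    ∃ n, t = circ s n := by
  subst h
  refine ⟨fun k => (t[k.1]'(by simpa using k.2)).m,
    List.ext_getElem (by simp [circ]) fun i h1 h2 => ?_⟩
  simp only [circ, List.getElem_ofFn, List.get_eq_getElem, List.getElem_map]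
  rfl

theorem circ_inj {s : List (Lb0 G)} {n n' : Fin s.length → M} (h : circ s n = circ s n') :
    n = n' := by
  funext k
  exact congrArg Lb.m (congrFun (List.ofFn_injective h) k)

/-- Evaluation as an equivariant map from the free module. -/
theorem ex_evH {ι : Type} [Fintype ι] [DecidableEq ι] (c : ι → M) :
    ∃ ψ : FG G ι →+ M, Eqv G ψ ∧ (∀ φ : FG G ι, ψ φ = evF φ c) ∧ ∀ k, ψ (gen k) = c k := by
  refine ⟨AddMonoidHom.mk' (fun φ => evF φ c) fun φ φ' => ?_, fun g φ => ?_, fun _ => rfl,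
    fun k => ?_⟩
  · exact (Finset.sum_congr rfl fun k _ => coreA_add (φ k) (φ' k) (c k)).trans
      Finset.sum_add_distrib
  · show ∑ k, ap ((g • φ) k) (c k) = g • ∑ k, ap (φ k) (c k)
    rw [Finset.smul_sum]
    refine Finset.sum_congr rfl fun k _ => ?_
    show ap ((φ k).mapDomain (g * ·)) (c k) = g • ap (φ k) (c k)
    rw [ap, Finsupp.sum_mapDomain_index (by simp) (fun _ _ _ => add_smul _ _ _), ap,
      Finsupp.sum, Finsupp.sum, Finset.smul_sum]
    exact Finset.sum_congr rfl fun x _ => by rw [mul_smul]; exact smul_comm _ g _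
  · show ∑ j, ap (Pi.single (M := fun _ => G →₀ ℤ) k (Finsupp.single 1 1) j) (c j) = c k
    rw [Finset.sum_eq_single k (fun j _ hj => by rw [Pi.single_eq_of_ne hj]; simp [ap]) (by simp),
      Pi.single_eq_same, coreA_single, one_smul, one_smul]

theorem evF_gen {ι : Type} [Fintype ι] [DecidableEq ι] (φ : FG G ι) :
    evF φ (gen : ι → FG G ι) = φ := by
  have e : ∀ (k : ι) (r : G →₀ ℤ), ap r (gen k : FG G ι) =
      Pi.single (M := fun _ => G →₀ ℤ) k r := fun k r => by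
    induction r using Finsupp.induction_linear with
    | zero => exact (Pi.single_zero (M := fun _ => G →₀ ℤ) k).symm
    | add r r' h h' =>
      rw [coreA_add, h, h']
      exact (Pi.single_add (f := fun _ => G →₀ ℤ) k r r').symm
    | single g n =>
      rw [coreA_single]
      funext j
      show n • (Pi.single (M := fun _ => G →₀ ℤ) k (Finsupp.single 1 1) j).mapDomain (g * ·) = _
      by_cases hj : j = k
      · subst hj
        simp
      · simp [Pi.single_eq_of_ne hj]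
  simp only [evF, e]
  exact Finset.univ_sum_single (M := fun _ => G →₀ ℤ) φ

namespace SD

variable (S : SD G Q K0)

include S in
theorem run0 : Run K0 [] [] := by
  obtain ⟨b, h1, h2⟩ := run_append.1 (isoP_run S.lo_iso (runM_lo S.run))
  have h3 := run_ctx (run_circles S.s) [] b
  have e : shift 0 (circles S.s) = circles S.s := List.map_id _
  rw [List.length_nil, e] at h3
  obtain rfl : b = [] := run_det h3 h2
  exact h1

include S in
theorem col0 (m : M) : Col K0 (mapW (cst m) K0) := by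
  exact ⟨run_map (hom_cst m) S.run0, (mapW_mapW _ _ _).trans (mapW_id K0)⟩

theorem loW_spec {a : List (L (Lb G M))} (h : Col K0 a) (n : Fin S.b → M) :
    IsoP S.pl (S.loW a n) (a ++ circles (circ S.s n)) ∧ Run (S.loW a n) [] [] ∧
      mapW bs (S.loW a n) = lo S.D := by
  obtain ⟨h1, h2, h3⟩ := tr_spec hom_bs (isoP_symm S.lo_iso) (v := a ++ circles (circ S.s n))
    (by rw [mapW_append, h.2, mapW_circles, circ_bs]) (run_append.2 ⟨[], h.1, run_circles _⟩)
  have h4 := isoP_symm h1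
  rw [rvP_rvP] at h4
  exact ⟨h4, h2, h3⟩

theorem hiW_spec (m : M) (c : Fin S.d → M) :
    IsoP S.ph (S.hiW m c) (circles (cst m S.y :: circ S.s' fun k => c k + m)) ∧
      Run (S.hiW m c) [] [] ∧ mapW bs (S.hiW m c) = hi S.D := by
  obtain ⟨h1, h2, h3⟩ := tr_spec hom_bs (isoP_symm S.hi_iso)
    (v := circles (cst m S.y :: circ S.s' fun k => c k + m))
    (by rw [mapW_circles, List.map_cons, circ_bs]; rfl) (run_circles _)
  have h4 := isoP_symm h1
  rw [rvP_rvP] at h4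
  exact ⟨h4, h2, h3⟩

theorem loW_nat {ψ : M → M'} (hψ : Hom (Lb.mp ψ : Lb G M → Lb G M')) {a : List (L (Lb G M))}
    (h : Col K0 a) (n : Fin S.b → M) :
    mapW (Lb.mp ψ) (S.loW a n) = S.loW (mapW (Lb.mp ψ) a) (ψ ∘ n) := by
  have h1 := isoP_map hψ (isoP_symm (S.loW_spec h n).1)
  rw [mapW_append, mapW_circles, circ_map] at h1
  exact (tr_eq h1).symm

theorem hiW_nat {ψ : M →+ M'} (hψ : Eqv G ψ) (m0 : M') (m : M) (c : Fin S.d → M) :
    mapW (Lb.mp (afn ψ m0)) (S.hiW m c) = S.hiW (ψ m + m0) (ψ ∘ c) := by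
  have h1 := isoP_map (hom_afn hψ m0) (isoP_symm (S.hiW_spec m c).1)
  have e : (afn ψ m0 ∘ fun k => c k + m) = fun k => (ψ ∘ c) k + (ψ m + m0) :=
    funext fun k => by simp [afn, add_assoc]
  rw [mapW_circles, List.map_cons, circ_map, e] at h1
  exact (tr_eq h1).symm

theorem length_xs2 (a : List (L (Lb G M))) (n : Fin S.b → M) : (S.xs2 a n).length = S.b + S.d :=
  (length_sites _ _ _).trans S.mk_eq

theorem length_rw2 (m : M) (c : Fin S.d → M) : (S.rw2 m c).length = S.b + S.d :=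
  (length_rows _ _ _).trans S.mk_eq

/-- `hiW_nat` and `rows_nat` for the evaluation map of `c` and `m0 = m`. -/
theorem rw2_eq (m : M) (c : Fin S.d → M) (i : Fin (S.b + S.d)) :
    (S.rw2 m c).getD i 0 = evF (S.V i) c := by
  obtain ⟨ψ, h1, h2, h3⟩ := ex_evH (G := G) c
  have e := S.hiW_nat h1 m 0 gen
  rw [map_zero, zero_add, show ψ ∘ gen = c from funext h3] at e
  have e2 := rows_nat h1 m S.run (S.hiW_spec 0 gen).2.2 (a := []) rfl
  rw [e] at e2
  refine Eq.trans ?_ (h2 _)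
  rw [rw2, V, rw2, ← coreA_getD, ← e2]
  rfl

theorem xs2_nat {ψ : M →+ M'} (hψ : Eqv G ψ) (m0 : M') {a : List (L (Lb G M))} (h : Col K0 a)
    (n : Fin S.b → M) : S.xs2 (mapW (Lb.mp (afn ψ m0)) a) (afn ψ m0 ∘ n) = (S.xs2 a n).map ψ := by
  rw [xs2, ← S.loW_nat (hom_afn hψ m0) h n]
  exact sites_nat hψ m0 S.run (S.loW_spec h n).2.2 (a := []) rfl

theorem coreA_nat {ψ : M →+ M'} (hψ : Eqv G ψ) {a : List (L (Lb G M))} (h : Col K0 a)
    (n : Fin S.b → M) (i : ℕ) :
    (S.xs2 (mapW (Lb.mp ψ) a) (ψ ∘ n)).getD i 0 = ψ ((S.xs2 a n).getD i 0) := by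
  have e := S.xs2_nat hψ 0 h n
  rw [show afn ψ 0 = ψ from funext fun _ => add_zero _] at e
  rw [e, coreA_getD]

/-- Additivity: colour with `M × M`, `z = zipW a (constant 0)`, circles `(0, n k)`, and use
`xs2_nat` for the two projections and the sum. -/
theorem xs2_eq {a : List (L (Lb G M))} (h : Col K0 a) (n : Fin S.b → M) (i : Fin (S.b + S.d)) :
    (S.xs2 a n).getD i 0 = S.xs a i + evF (S.Pi i) n := by
  have q0 : Eqv G (AddMonoidHom.inl M M) := fun g m => Prod.ext rfl (smul_zero g).symm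
  have hz := col_map h (hom_eqv q0)
  have e1 := S.coreA_nat (ψ := AddMonoidHom.fst M M) (fun _ _ => rfl) hz (fun k => (0, n k)) i
  have e2 := S.coreA_nat (ψ := AddMonoidHom.snd M M) (fun _ _ => rfl) hz (fun k => (0, n k)) i
  have e3 := S.coreA_nat (ψ := AddMonoidHom.fst M M + AddMonoidHom.snd M M)
    (fun g m => (smul_add g m.1 m.2).symm) hz (fun k => (0, n k)) i
  obtain ⟨ψ, h1, h2, h3⟩ := ex_evH (G := G) n
  have e4 := S.coreA_nat h1 (S.col0 0) gen i
  rw [mapW_mapW] at e1 e2 e3 e4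
  have a1 : mapW (Lb.mp (AddMonoidHom.fst M M) ∘ Lb.mp (AddMonoidHom.inl M M)) a = a := mapW_id a
  have a2 : mapW (Lb.mp (AddMonoidHom.snd M M) ∘ Lb.mp (AddMonoidHom.inl M M)) a =
      mapW (cst (0 : M)) K0 := by rw [← h.2, mapW_mapW]; rfl
  have a3 : mapW (Lb.mp (AddMonoidHom.fst M M + AddMonoidHom.snd M M : M × M →+ M) ∘
      Lb.mp (AddMonoidHom.inl M M)) a = a := by
    refine Eq.trans (mapW_congr fun y _ => ?_) (mapW_id a)
    exact Lb.ext rfl rfl (add_zero y.m)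
  have a4 : mapW (Lb.mp ψ ∘ cst 0) K0 = mapW (cst (0 : M)) K0 :=
    mapW_congr fun y _ => Lb.ext rfl rfl (map_zero ψ)
  have n3 : ((AddMonoidHom.fst M M + AddMonoidHom.snd M M : M × M →+ M) ∘ fun k => (0, n k)) = n :=
    funext fun k => zero_add _
  rw [a1] at e1
  rw [a2] at e2
  rw [a3, n3] at e3
  rw [a4, show ψ ∘ gen = n from funext h3, h2] at e4
  rw [e3, AddMonoidHom.add_apply, ← e1, ← e2, Pi, ← e4]
  rfl

theorem xs_nat {ψ : M →+ M'} (hψ : Eqv G ψ) {a : List (L (Lb G M))} (h : Col K0 a)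
    (i : Fin (S.b + S.d)) : S.xs (mapW (Lb.mp ψ) a) i = ψ (S.xs a i) := by
  have e := S.coreA_nat hψ h 0 i
  rwa [show ψ ∘ (0 : Fin S.b → M) = 0 from funext fun _ => map_zero ψ] at e

theorem xs_zero (i : Fin (S.b + S.d)) : S.xs (mapW (cst (0 : M)) K0) i = 0 := by
  have e := S.xs_nat (ψ := (0 : M →+ M)) (fun g _ => (smul_zero g).symm) (S.col0 0) i
  rw [mapW_mapW] at e
  exact e

theorem ext_nat {ψ : M →+ M'} (hψ : Eqv G ψ) (m0 : M') {a : List (L (Lb G M))} (h : Col K0 a)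
    (he : S.Ext a) : S.Ext (mapW (Lb.mp (afn ψ m0)) a) := by
  obtain ⟨n, hn⟩ := he
  refine ⟨afn ψ m0 ∘ n, fun i => ?_⟩
  rw [← S.xs2_eq (col_map h (hom_afn hψ m0)), S.xs2_nat hψ m0 h, coreA_getD, S.xs2_eq h, hn,
    map_zero]

theorem yv_Q (i : Fin (S.b + S.d)) : Q (S.yv i) := by
  obtain ⟨h1, h2⟩ := ylist_mem S.hQ
  have hi : i.1 < (ylist S.D).length := by rw [h1, S.mk_eq]; exact i.2
  rw [yv, List.getD_eq_getElem _ _ hi]
  exact h2 _ (List.getElem_mem hi)

end SD

end Pool.Agent.AS
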