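import Pool.Agent.Lib.MP_dae8ad_gt.T.CoreA

namespace Pool.Agent.AS

variable {G M M' : Type} [Group G] [AddCommGroup M] [DistribMulAction G M] [AddCommGroup M']
  [DistribMulAction G M'] {Q : G → Prop} {K0 : List (L (Lb0 G))}

theorem coreb_all {l : List M} {p : ℕ} (hl : l.length = p) :
    (∀ x ∈ l, x = 0) ↔ ∀ i : Fin p, l.getD i 0 = 0 := by
  subst hl
  refine ⟨fun h i => ?_, fun h x hx => ?_⟩
  · rw [List.getD_eq_getElem _ _ i.2]
    exact h _ (List.getElem_mem _)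
  · obtain ⟨i, hi, rfl⟩ := List.getElem_of_mem hx
    have := h ⟨i, hi⟩
    rwa [List.getD_eq_getElem _ _ hi] at this

omit [Group G] [AddCommGroup M] [DistribMulAction G M] in
theorem coreb_circ (s : List (Lb0 G)) (m : M) : s.map (cst m) = circ s fun _ => m := by
  conv_lhs => rw [← List.ofFn_get s, List.map_ofFn]
  rfl

theorem coreb_afn (ψ : M →+ M') : afn ψ 0 = ψ := funext fun _ => add_zero _

/-- The field with two elements and the trivial action. -/
def CoreBT (_G : Type) : Type := ZMod 2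

instance (G : Type) : AddCommGroup (CoreBT G) := inferInstanceAs (AddCommGroup (ZMod 2))

instance (G : Type) [Group G] : DistribMulAction G (CoreBT G) where
  smul _ m := m
  one_smul _ := rfl
  mul_smul _ _ _ := rfl
  smul_zero _ := rfl
  smul_add _ _ _ := rfl

theorem coreb_ev {ι : Type} [Fintype ι] (φ : ι → G →₀ ℤ) (c : ι → ZMod 2) :
    evF (M := CoreBT G) φ c = (∑ k, (aug (φ k) : ZMod 2) * c k : ZMod 2) := by
  refine Finset.sum_congr rfl fun k _ => ?_
  rw [← zsmul_eq_mul]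
  exact (Finset.sum_smul (M := ZMod 2) (f := fun g => φ k g) (s := (φ k).support)
    (x := c k)).symm

def corebD (a : ZMod 2) : Bool := decide (a = 1)

/-- The two-colouring of a colouring with values in the field with two elements. -/
def corebF (y : Lb G (CoreBT G)) : Bool × Bool := (y.s, corebD y.m)

theorem coreb_hom : Hom (corebF : Lb G (CoreBT G) → Bool × Bool) where
  act p q := by
    have h : (Lab.act p q).m = q.m := add_sub_cancel p.m q.m
    unfold corebF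
    rw [h]
    rfl
  rho _ := rfl

namespace SD

variable (S : SD G Q K0)

theorem coreb_take {a : List (L (Lb G M))} (h : Col K0 a) (n : Fin S.b → M) :
    (tr S.pl (S.loW a n)).take K0.length = a := by
  rw [tr_eq (S.loW_spec h n).1]
  exact List.take_left' ((length_mapW bs a).symm.trans (congrArg List.length h.2))

theorem coreb_lo {E : List (ML (Lb G M))} (hE : RunM E [] []) (hb : E.map (ML.map bs) = S.D) :
    ∃ a n, Col K0 a ∧ lo E = S.loW a n := by
  obtain ⟨h1, h2, h3⟩ := tr_spec hom_bs S.lo_iso (v := lo E) (by rw [← lo_map, hb]) (runM_lo hE)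
  obtain ⟨a, E2, e, h4, h5⟩ := mapW_eq_append h3
  obtain ⟨t, rfl, h6⟩ := mapW_eq_circles h5
  obtain ⟨n, rfl⟩ := circ_sur h6
  rw [e] at h1 h2
  obtain ⟨b, h7, -⟩ := run_append.1 h2
  have h8 := run_map hom_bs h7
  rw [h4] at h8
  have h9 : b = [] := List.map_eq_nil_iff.1 (run_det h8 S.run0)
  exact ⟨a, n, ⟨h9 ▸ h7, h4⟩, (tr_eq (isoP_symm h1)).symm⟩

theorem coreb_hi {E : List (ML (Lb G M))} (hE : RunM E [] []) (hb : E.map (ML.map bs) = S.D) :
    ∃ m c, S.KV c ∧ S.DM m c = E := by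
  obtain ⟨h1, -, h3⟩ := tr_spec hom_bs S.hi_iso (v := hi E) (by rw [← hi_map, hb]) (runM_hi hE)
  obtain ⟨t, e, h4⟩ := mapW_eq_circles h3
  obtain ⟨y, t', rfl, h5, h6⟩ := List.map_eq_cons_iff.1 h4
  obtain ⟨c, rfl⟩ := circ_sur h6
  have h7 : S.hiW y.m (fun k => c k - y.m) = hi E := by
    refine tr_eq (isoP_symm ?_)
    simp only [sub_add_cancel]
    rw [← h5]
    exact e ▸ h1
  obtain ⟨-, h8, h9⟩ := marked_spec hE
  rw [hb, ← h7] at h8 h9
  exact ⟨_, _, fun i => by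
    rw [← S.rw2_eq y.m]; exact (coreb_all (S.length_rw2 _ _)).1 h8 i, h9⟩

theorem coreb_const {E : List (ML (Lb G (CoreBT G)))} (hE : RunM E [] [])
    (hb : E.map (ML.map bs) = S.D) : ∃ m, E = S.D.map (ML.map (cst m)) := by
  have h1 := S.conn (E.map (ML.map corebF)) (by rw [← hb, mapM_mapM, mapM_mapM]; rfl)
    (runM_map coreb_hom hE)
  rw [lo_map, cups_mapW] at h1
  have h2 : ∀ y ∈ cups (lo E), ∀ z ∈ cups (lo E), y.m = z.m := fun y hy z hz => by
    have h3 : ∀ a b : ZMod 2, corebD a = corebD b → a = b := by decide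
    exact h3 _ _ (h1 _ (List.mem_map_of_mem hy) _ (List.mem_map_of_mem hz))
  have h3 : ∃ m, ∀ y ∈ cups (lo E), y.m = m := by
    by_cases h : ∃ z, z ∈ cups (lo E)
    · obtain ⟨z, hz⟩ := h
      exact ⟨z.m, fun y hy => h2 y hy z hz⟩
    · exact ⟨0, fun y hy => absurd ⟨y, hy⟩ h⟩
  obtain ⟨m, hm⟩ := h3
  exact ⟨m, hb ▸ marked_const hE m (fun _ h => absurd h List.not_mem_nil) hm⟩

/-- `unhi_spec` with `rw2_eq`; carry `lo (DM m c)` along `pl` (`tr_spec`), split the result over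
`K0 ++ circles s`. -/
theorem res_spec (m : M) {c : Fin S.d → M} (h : S.KV c) :
    RunM (S.DM m c) [] [] ∧ hi (S.DM m c) = S.hiW m c ∧ (S.DM m c).map (ML.map bs) = S.D ∧
      Col K0 (S.res m c) ∧ ∃ n, lo (S.DM m c) = S.loW (S.res m c) n := by
  obtain ⟨-, h1, h2⟩ := S.hiW_spec m c
  obtain ⟨h3, h4, h5⟩ := unhi_spec S.run h2 (a := []) rfl h1
    ((coreb_all (S.length_rw2 m c)).2 fun i => (S.rw2_eq m c i).trans (h i))
  obtain ⟨a, n, h6, h7⟩ := S.coreb_lo h3 h5
  have h8 : S.res m c = a := (congrArg (fun w => (tr S.pl w).take K0.length) h7).trans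
    (S.coreb_take h6 n)
  rw [h8]
  exact ⟨h3, h4, h5, h6, n, h7⟩

theorem res_ext (m : M) {c : Fin S.d → M} (h : S.KV c) : S.Ext (S.res m c) := by
  obtain ⟨h1, -, h2, h3, n, h4⟩ := S.res_spec m h
  have h5 := (marked_spec h1).1
  rw [h2, h4] at h5
  exact ⟨n, fun i => by rw [← S.xs2_eq h3]; exact (coreb_all (S.length_xs2 _ _)).1 h5 i⟩

/-- `remark_spec`; carry `hi` of the marked diagram along `ph` to circles, read `m` and `c`. -/
theorem res_sur {a : List (L (Lb G M))} (h : Col K0 a) (he : S.Ext a) :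
    ∃ m c, S.KV c ∧ S.res m c = a := by
  obtain ⟨n, hn⟩ := he
  obtain ⟨-, h1, h2⟩ := S.loW_spec h n
  obtain ⟨h3, h4, h5⟩ := remark_spec S.run h2 (a := []) rfl h1
    ((coreb_all (S.length_xs2 a n)).2 fun i => (S.xs2_eq h n i).trans (hn i))
  obtain ⟨m, c, h6, h7⟩ := S.coreb_hi h3 h5
  refine ⟨m, c, h6, ?_⟩
  rw [res, h7, h4, S.coreb_take h]

theorem res_nat {ψ : M →+ M'} (hψ : Eqv G ψ) (m0 : M') (m : M) {c : Fin S.d → M} (h : S.KV c) :
    S.res (ψ m + m0) (ψ ∘ c) = mapW (Lb.mp (afn ψ m0)) (S.res m c) := by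
  obtain ⟨-, -, -, h3, n, h4⟩ := S.res_spec m h
  have h5 : S.DM (ψ m + m0) (ψ ∘ c) = (S.DM m c).map (ML.map (Lb.mp (afn ψ m0))) := by
    rw [DM, ← S.hiW_nat hψ, unhi_nat _ (S.hiW_spec m c).2.2, DM]
  rw [res, h5, lo_map, h4, S.loW_nat (hom_afn hψ m0) h3,
    S.coreb_take (col_map h3 (hom_afn hψ m0))]

theorem res_slice (m : M) {c : Fin S.d → M} (h : S.KV c) :
    SliceY Lb.s (fun y => Q y.x) (S.res m c) := by
  obtain ⟨h1, h2, h3, h4, n, h5⟩ := S.res_spec m h
  refine ⟨S.DM m c, circ S.s n, circ S.s' fun k => c k + m, cst m S.y, h1, ?_, fun i y hy => ?_, ?_,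
    iso_iff.2 ⟨S.pl, h5 ▸ (S.loW_spec h4 n).1⟩, iso_iff.2 ⟨S.ph, h2 ▸ (S.hiW_spec m c).1⟩⟩
  · have h6 := S.conn
    rwa [← h3, mapM_mapM] at h6
  · exact S.hQ i (bs y) (h3 ▸ List.mem_map_of_mem (f := ML.map bs) hy)
  · rw [← marks_map bs, h3, S.mk_eq, circ, circ, List.length_ofFn, List.length_ofFn]

variable {M1 N M2 A : Type} [AddCommGroup M1] [DistribMulAction G M1] [AddCommGroup N]
  [DistribMulAction G N] [AddCommGroup M2] [DistribMulAction G M2] [AddCommGroup A]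

/-- The basic identity.  With `n'` from `res_spec` put `W = loW z (n', n)`; its first component is
`lo (DM (q m) (q c))` (`loW_nat`), `H = hiW m c` lifts `hi` of it (`hiW_nat`); `mark_lam` with empty
levels, `lam_isoP`, `lam_append`, `lam_circles`, `msum_eq`, `rw2_eq`, `xs2_eq`. -/
theorem idf (P : PD G M1 N M2 A) (m : M1) (c : Fin S.d → M1) (h : ∀ i, P.q (evF (S.V i) c) = 0)
    {z : List (L (Lb G (N × M2)))} (hz : Run z [] [])
    (h1 : mapW (Lb.mp Prod.fst) z = S.res (P.q m) (P.q ∘ c)) (n : Fin S.b → M2) :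
    Lam P 0 z [] = ∑ i, P.β (evF (S.V i) c)
      (om (S.yv i) (S.xs (mapW (Lb.mp Prod.snd) z) i + evF (S.Pi i) n)) := by
  have hk : S.KV (P.q ∘ c) := fun i => (evF_map P.eqv _ _).symm.trans (h i)
  obtain ⟨h2, h3, h4, h5, n', h6⟩ := S.res_spec (P.q m) hk
  have hc : Col K0 z := ⟨hz, by rw [← h5.2, ← h1, mapW_mapW]; rfl⟩
  obtain ⟨w1, w2, -⟩ := S.loW_spec hc fun k => (n' k, n k)
  have hH : mapW (Lb.mp P.q) (S.hiW m c) = hi (S.DM (P.q m) (P.q ∘ c)) := by
    have h7 := S.hiW_nat P.eqv 0 m c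
    rwa [coreb_afn, add_zero, ← h3] at h7
  have hW : mapW (Lb.mp Prod.fst) (S.loW z fun k => (n' k, n k)) = lo (S.DM (P.q m) (P.q ∘ c)) := by
    rw [S.loW_nat hom_fst hc, h1, h6]
    rfl
  obtain ⟨t, ht, e⟩ := mark_lam P h2 (t := []) hH hW rfl (S.hiW_spec m c).2.1 w2 0
  obtain rfl : t = [] := List.map_eq_nil_iff.1 ht
  rw [add_sub_cancel_right, h4, S.loW_nat hom_snd hc, List.map_nil, lam_isoP P w1, lam_append,
    run_lev hz, lam_circles, add_zero] at e
  refine (e.trans (msum_eq P ((ylist_mem S.hQ).1.trans S.mk_eq) (S.length_rw2 m c)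
    (S.length_xs2 _ n))).trans (Finset.sum_congr rfl fun i _ => ?_)
  rw [← S.rw2_eq m, ← S.xs2_eq (col_map hc hom_snd)]
  rfl

/-- `idf` for `z = res` with second component `0` (`lam_zero`, `xs_zero`). -/
theorem orth (P : PD G M1 N M2 A) (c : Fin S.d → M1) (h : ∀ i, P.q (evF (S.V i) c) = 0)
    (n : Fin S.b → M2) : ∑ i, P.β (evF (S.V i) c) (om (S.yv i) (evF (S.Pi i) n)) = 0 := by
  have hk : S.KV (P.q ∘ c) := fun i => (evF_map P.eqv _ _).symm.trans (h i)
  obtain ⟨-, -, -, h5, -⟩ := S.res_spec (P.q 0) hk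
  have hh : Hom (Lb.mp fun m => (m, 0) : Lb G N → Lb G (N × M2)) :=
    hom_mp fun _ _ _ => by simp
  have h1 := S.idf P 0 c h (col_map h5 hh).1 (by rw [mapW_mapW]; exact mapW_id _) n
  have h2 : mapW (Lb.mp Prod.snd) (mapW (Lb.mp fun m => (m, (0 : M2))) (S.res (P.q 0) (P.q ∘ c))) =
      mapW (cst (0 : M2)) K0 := by
    conv_rhs => rw [← h5.2]
    rw [mapW_mapW, mapW_mapW]
    rfl
  simp only [h2, S.xs_zero, zero_add] at h1
  exact h1.symm.trans (lam_zero P _ [])

/-- Use the module `ZMod 2` with the trivial action (a type synonym), on which `ap r m = aug r • m`;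
`y ↦ (y.s, decide (y.m = 1))` is a homomorphism to `Bool × Bool`; `conn` makes all minima of
`lo (DM 0 c)` equal; `marked_const`; then `hiW 0 c` is constant, and so are the circles
(`isoP_map`, `isoP_det`, `circ_inj`). -/
theorem t1 (c : Fin S.d → ZMod 2) (h : ∀ i, ∑ k, (aug (S.V i k) : ZMod 2) * c k = 0) : c = 0 := by
  have hk : S.KV (M := CoreBT G) c := fun i => (coreb_ev _ _).trans (h i)
  obtain ⟨h1, h2, h3, -⟩ := S.res_spec (M := CoreBT G) 0 hk
  obtain ⟨m, hm⟩ := S.coreb_const h1 h3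
  have h4 := isoP_map (hom_cst m) S.hi_iso
  rw [← hi_map, ← hm, h2, mapW_circles, List.map_cons, coreb_circ] at h4
  obtain ⟨h5, h6⟩ := List.cons.inj (circles_inj (isoP_det (S.hiW_spec _ _).1 h4))
  have h7 : (0 : CoreBT G) = m := congrArg Lb.m h5
  funext k
  exact (add_zero _).symm.trans ((congrFun (circ_inj h6) k).trans h7.symm)

/-- The same with `remark` of `loW (constant 0) n`; `K0` has a minimum (`cups_ne_nil`). -/
theorem t2 (n : Fin S.b → ZMod 2) (h : ∀ i, ∑ k, (aug (S.Pi i k) : ZMod 2) * n k = 0) : n = 0 := by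
  have hc := S.col0 (0 : CoreBT G)
  obtain ⟨h0, h1, h2⟩ := S.loW_spec hc n
  obtain ⟨h3, h4, h5⟩ := remark_spec S.run h2 (a := []) rfl h1
    ((coreb_all (S.length_xs2 (M := CoreBT G) _ n)).2 fun i => (S.xs2_eq hc n i).trans (by
      rw [S.xs_zero, zero_add]
      exact (coreb_ev _ _).trans (h i)))
  obtain ⟨m, hm⟩ := S.coreb_const h3 h5
  have h6 := isoP_map (hom_cst m) S.lo_iso
  rw [← lo_map, ← hm, h4, mapW_append, mapW_circles, coreb_circ] at h6
  obtain ⟨h7, h8⟩ := List.append_inj (isoP_det h0 h6) (by rw [length_mapW, length_mapW])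
  have h9 := congrArg cups h7
  rw [cups_mapW, cups_mapW] at h9
  obtain ⟨y, hy⟩ := List.exists_mem_of_ne_nil _ (cups_ne_nil S.run0 S.ne)
  have h10 : (0 : CoreBT G) = m := congrArg Lb.m (List.map_inj_left.1 h9 y hy)
  funext k
  exact (congrFun (circ_inj (circles_inj h8)) k).trans h10.symm

end SD

end Pool.Agent.AS
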