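import Pool.Agent.Lib.MP_dae8ad_gt.T.BoxB
import Pool.Agent.Lib.MP_dae8ad_gt.T.BoxC
import Pool.Agent.Lib.MP_dae8ad_gt.T.LamInv

namespace Pool.Agent.AS

theorem seifert_SJ : seifert SJ = UJ := by
  decide

/-- The two cups have different names and there is no cap. -/
theorem bands_SJ : Bands 1 SJ := by
  refine ⟨?_, fun E b hE _ y hy z hz h => ?_, fun p i q h => ?_⟩
  · simp [SJ, Run, ok, okh, next, nx, legs, List.finRange, Lab.act, Lab.rho]
  · have h1 := cups_mapW (fun y : Bool × ((Fin 1 × Bool) × Bool) => (y.1, y.2.1)) E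
    rw [hE] at h1
    obtain ⟨u, l, e, hu, h2⟩ := List.map_eq_cons_iff.1 h1.symm
    obtain ⟨v, l', rfl, hv, h3⟩ := List.map_eq_cons_iff.1 h2
    obtain rfl := List.map_eq_nil_iff.1 h3
    have hne : u.2.1 ≠ v.2.1 := by
      rw [(Prod.mk.inj hu).2, (Prod.mk.inj hv).2]
      decide
    rw [e] at hy hz
    simp only [List.mem_cons, List.not_mem_nil, or_false] at hy hz
    rcases hy with rfl | rfl <;> rcases hz with rfl | rfl
    exacts [rfl, absurd h hne, absurd h.symm hne, rfl]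
  · have : (i, Kd.cap) ∈ SJ := by rw [h]; simp
    simp [SJ] at this

section
variable {Y Y' : Type} [Lab Y] [Lab Y'] {g : ℕ}

theorem run_R0 (y : Tri Y) : Run (R0 y) [] (lv0 y) := by
  simp [R0, Run, ok, okh, next, nx, lv0, lev]

omit [Lab Y] in
theorem kdec_six {a : List Y} (h : a.length = 6) : ∃ p q r s t u, a = [p, q, r, s, t, u] :=
  match a, h with
  | [p, q, r, s, t, u], _ => ⟨p, q, r, s, t, u, rfl⟩

theorem kdec_len0 (y : Tri Y) : (lv0 y).length = 6 := by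
  simp [lv0, R0, lev, next, nx]

theorem kdec_len1 (y : Tri Y) : (lv1 y).length = 6 := by
  obtain ⟨p, q, r, s, t, u, h⟩ := kdec_six (kdec_len0 y)
  simp [lv1, h, R1, lev, next, nx]

theorem lv0_eq (y : Tri Y) : ∃ x r, lv0 y = [x] ++ [(P1 y).l, (P1 y).r] ++ r ∧ r.length = 3 := by
  obtain ⟨p, q, r, s, t, u, h⟩ := kdec_six (kdec_len0 y)
  exact ⟨p, [s, t, u], by simp [P1, h], rfl⟩

theorem run_R1 (y : Tri Y) : Run R1 (lv0 y) (lv1 y) := by
  obtain ⟨p, q, r, s, t, u, h⟩ := kdec_six (kdec_len0 y)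
  rw [lv1, h]
  simp [R1, Run, ok, okh, next, nx, lev]

theorem lv1_eq (y : Tri Y) :
    ∃ c x, lv1 y = c ++ [(P3 y).l, (P3 y).r] ++ [x] ∧ c.length = 3 := by
  obtain ⟨p, q, r, s, t, u, h⟩ := kdec_six (kdec_len1 y)
  exact ⟨[p, q, r], u, by simp [P3, h], rfl⟩

theorem kdec_lv0 {f : Y → Y'} (hf : Hom f) (y : Tri Y) : lv0 (y.map f) = (lv0 y).map f :=
  lev_map hf (R0 y) []

theorem kdec_lv1 {f : Y → Y'} (hf : Hom f) (y : Tri Y) : lv1 (y.map f) = (lv1 y).map f := by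
  rw [lv1, kdec_lv0 hf]
  exact lev_map hf R1 (lv0 y)

theorem P1_map {f : Y → Y'} (hf : Hom f) (y : Tri Y) : P1 (y.map f) = (P1 y).map f := by
  obtain ⟨p, q, r, s, t, u, h⟩ := kdec_six (kdec_len0 y)
  simp [P1, kdec_lv0 hf, Pr.map, h]

theorem P3_map {f : Y → Y'} (hf : Hom f) (y : Tri Y) : P3 (y.map f) = (P3 y).map f := by
  obtain ⟨p, q, r, s, t, u, h⟩ := kdec_six (kdec_len1 y)
  simp [P3, kdec_lv1 hf, Pr.map, h]

omit [Lab Y] [Lab Y'] in
theorem mapW_RW (f : Y → Y') (y : Tri Y) : mapW f (RW y) = RW (y.map f) := by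
  rfl

theorem mapW_KB {f : Y → Y'} (hf : Hom f) (y : Tri Y) (w1 w2 w3 : List (L Y)) :
    mapW f (KB y w1 w2 w3) = KB (y.map f) (mapW f w1) (mapW f w2) (mapW f w3) := by
  simp only [KB, botW, mapW_append, mapW_shift, mapW_rv hf, kdec_lv1 hf]
  rfl

theorem mapW_KG {f : Y → Y'} (hf : Hom f) (y : Tri Y) (S : SW g) :
    mapW f (KG y S) = KG (y.map f) S := by
  rw [KG, mapW_KB hf, mapW_box hf, mapW_box hf, mapW_box hf, ← P1_map hf, ← P3_map hf, KG]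

theorem kdec_R2 {y : Tri Y} (h : Run (RW y) [] []) : Run R2 (lv1 y) [] := by
  obtain ⟨a, h0, h'⟩ := run_append.1 h
  obtain ⟨b, h1, h2⟩ := run_append.1 h'
  rw [run_det h0 (run_R0 y)] at h1
  rwa [run_det h1 (run_R1 y)] at h2

theorem kdec_run1 {y : Tri Y} {w : List (L Y)}
    (h : Run w [(P1 y).l, (P1 y).r] [(P1 y).l, (P1 y).r]) : Run (shift 1 w) (lv0 y) (lv0 y) := by
  obtain ⟨x, r, e, -⟩ := lv0_eq y
  have := run_ctx h [x] r
  rwa [← e] at this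

theorem kdec_run3 {y : Tri Y} {w : List (L Y)}
    (h : Run w [(P3 y).l, (P3 y).r] [(P3 y).l, (P3 y).r]) : Run (shift 3 w) (lv1 y) (lv1 y) := by
  obtain ⟨c, x, e, hc⟩ := lv1_eq y
  have := run_ctx h c [x]
  rwa [← e, hc] at this

omit [Lab Y] [Lab Y'] in
theorem kdec_cup {f : Y → Y'} {E : List (L Y)} {i : ℕ} {y0 : Y'} {w : List (L Y')}
    (h : mapW f E = (i, .cup y0) :: w) :
    ∃ y E', E = (i, .cup y) :: E' ∧ f y = y0 ∧ mapW f E' = w := by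
  obtain ⟨⟨j, k⟩, E', rfl, h1, h2⟩ := List.map_eq_cons_iff.1 h
  obtain ⟨rfl, h3⟩ := Prod.mk.inj h1
  cases k with
  | cup y => exact ⟨y, E', rfl, Kd.cup.inj h3, h2⟩
  | _ => cases h3

omit [Lab Y] [Lab Y'] in
theorem kdec_R0 {f : Y → Y'} {E : List (L Y)} {y0 : Tri Y'} (h : mapW f E = R0 y0) :
    ∃ y : Tri Y, E = R0 y ∧ y.map f = y0 := by
  obtain ⟨a, E1, rfl, ha, h1⟩ := kdec_cup h
  obtain ⟨b, E2, rfl, hb, h2⟩ := kdec_cup h1
  obtain ⟨c, E3, rfl, hc, h3⟩ := kdec_cup h2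
  refine ⟨⟨a, b, c⟩, ?_, Tri.ext ha hb hc⟩
  rw [eq_of_no_cups (E' := (R0 ⟨a, b, c⟩).drop 3) h3 rfl]
  rfl

theorem run_KB [SQ Y] {y : Tri Y} (h : Run (RW y) [] []) {w1 w2 w3 : List (L Y)}
    (h1 : Run w1 [(P1 y).l, (P1 y).r] [(P1 y).l, (P1 y).r])
    (h2 : Run w2 [(P1 y).l, (P1 y).r] [(P1 y).l, (P1 y).r])
    (h3 : Run w3 [(P3 y).l, (P3 y).r] [(P3 y).l, (P3 y).r]) : Run (KB y w1 w2 w3) [] [] := by
  exact run_append.2 ⟨_, run_append.2 ⟨_, run_R0 y, kdec_run1 h1⟩, run_append.2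
    ⟨_, kdec_run1 h2, run_append.2 ⟨_, run_R1 y, run_append.2
      ⟨_, run_rv (kdec_run3 h3), kdec_R2 h⟩⟩⟩⟩

end

attribute [local irreducible] lv0 lv1 P1 P3 box rv

variable {G M M' : Type} [Group G] [AddCommGroup M] [DistribMulAction G M] [AddCommGroup M']
  [DistribMulAction G M'] {g : ℕ} {S : SW g}

theorem k_col {y : Tri (Lb G M)} {Y : N3 (Fin g × Bool) → M} {b : List (L (Lb G M))}
    (h : IsK S y Y b) : Col (KG (y.map bs) S) b ∧
      ∀ i, keq (seifert S) (hP (P1 y)) (hP (P3 y)) Y i = 0 := by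
  obtain ⟨hy, w1, w2, w3, h1, h2, h3, rfl⟩ := h
  obtain ⟨r1, m1, e1⟩ := box_run h1
  obtain ⟨r2, m2, e2⟩ := box_run h2
  obtain ⟨r3, m3, e3⟩ := box_run h3
  rw [seifert_SJ] at e2 e3
  refine ⟨⟨run_KB hy r1 r2 r3, ?_⟩, ?_⟩
  · rw [mapW_KB hom_bs, m1, m2, m3, ← P1_map hom_bs, ← P3_map hom_bs, KG]
  · rintro (i | i | i)
    exacts [e1 i, e2 i, e3 i]

theorem k_ex (hS : Bands g S) {y : Tri (Lb G M)} (hy : Run (RW y) [] [])
    {Y : N3 (Fin g × Bool) → M} (h : ∀ i, keq (seifert S) (hP (P1 y)) (hP (P3 y)) Y i = 0) :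
    ∃ b, IsK S y Y b := by
  obtain ⟨w1, h1⟩ := box_ex hS (P1 y) fun j => h (.inl j)
  obtain ⟨w2, h2⟩ := box_ex bands_SJ (P1 y) (y := fun i => Y (.inr (.inl i))) fun j => by
    rw [seifert_SJ]; exact h (.inr (.inl j))
  obtain ⟨w3, h3⟩ := box_ex bands_SJ (P3 y) (y := fun i => Y (.inr (.inr i))) fun j => by
    rw [seifert_SJ]; exact h (.inr (.inr j))
  exact ⟨_, hy, w1, w2, w3, h1, h2, h3, rfl⟩

theorem k_uniq (hS : Bands g S) {y : Tri (Lb G M)} {Y : N3 (Fin g × Bool) → M}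
    {b b' : List (L (Lb G M))} (h : IsK S y Y b) (h' : IsK S y Y b') : b = b' := by
  obtain ⟨-, w1, w2, w3, h1, h2, h3, rfl⟩ := h
  obtain ⟨-, v1, v2, v3, k1, k2, k3, rfl⟩ := h'
  rw [box_uniq hS h1 k1, box_uniq bands_SJ h2 k2, box_uniq bands_SJ h3 k3]

theorem k_nat {ψ : M →+ M'} (hψ : Eqv G ψ) (m0 : M') {y : Tri (Lb G M)}
    {Y : N3 (Fin g × Bool) → M} {b : List (L (Lb G M))} (h : IsK S y Y b) :
    IsK S (y.map (Lb.mp (afn ψ m0))) (ψ ∘ Y) (mapW (Lb.mp (afn ψ m0)) b) := by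
  obtain ⟨hy, w1, w2, w3, h1, h2, h3, rfl⟩ := h
  have hf := hom_afn hψ m0
  refine ⟨?_, _, _, _, ?_, ?_, ?_, mapW_KB hf _ _ _ _⟩
  · rw [← mapW_RW]
    exact run_map hf hy
  · rw [P1_map hf]
    exact box_nat hψ m0 h1
  · rw [P1_map hf]
    exact box_nat hψ m0 h2
  · rw [P3_map hf]
    exact box_nat hψ m0 h3

theorem k_zero (hS : Bands g S) {y : Tri (Lb G M)} (hy : Run (RW y) [] []) :
    IsK S y 0 (KG y S) := by
  exact ⟨hy, _, _, _, box_zero hS.1 (P1 y), box_zero bands_SJ.1 (P1 y),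
    box_zero bands_SJ.1 (P3 y), by rw [KG]⟩

theorem kdec_box (hS : Bands g S) {P : Pr (Lb G M)} {w : List (L (Lb G M))}
    (hw : mapW bs w = box (P.map bs) S) {c r e : List (Lb G M)}
    (h : Run (shift c.length w) (c ++ [P.l, P.r] ++ r) e) :
    (∃ y, IsBox S P y w) ∧ e = c ++ [P.l, P.r] ++ r := by
  have h0 : Run (shape (box P S)) _ _ := run_map hom_unit (box_run (box_zero hS.1 P)).1
  rw [← shape_mapW bs, mapW_box hom_bs, ← hw, shape_mapW] at h0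
  obtain ⟨b, hb, rfl⟩ := run_ctx_inv h0 h
  obtain ⟨y, hy⟩ := box_all hS hw hb
  exact ⟨⟨y, hy⟩, by rw [run_det hb (box_run hy).1]⟩

theorem kdec_beq {T : Type} [Fintype T] {ψ : M →+ M'} (hψ : Eqv G ψ) (U : Matrix T T ℤ) (h : G)
    (y : T → M) (j : T) : ψ (beq U h y j) = beq U h (ψ ∘ y) j := by
  simp only [beq, map_sub, hψ h⁻¹, map_sum, map_zsmul, Function.comp]

/-- Split `b` along `KG y0 S` (`mapW_eq_append`, `mapW_eq_shift`, `eq_of_no_cups`, `run_append`).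
The shape of a box is valid on two strands (`box_zero`, `box_run`), so `run_ctx_inv` and `box_all`
apply to the first two boxes, which return their level.  The third part `E` runs from `lv1 y` to a
level `e` whose image is `lv1 y0`; `E' = rv E (lv1 y)` runs from `e` to `lv1 y` and lies over
`shift 3 box` (`mapW_rv`, `rv_rv`); by `box_all` it returns its level, so `e = lv1 y` and
`E = rv E' (lv1 y)`. -/
theorem k_all (hS : Bands g S) {y0 : Tri (Lb0 G)} {b : List (L (Lb G M))}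
    (h : Col (KG y0 S) b) : ∃ y Y, y.map bs = y0 ∧ IsK S y Y b := by
  obtain ⟨hr, hb⟩ := h
  obtain ⟨b01, b', rfl, h01, h'⟩ := mapW_eq_append hb
  obtain ⟨b0, b1, rfl, h0, h1⟩ := mapW_eq_append h01
  obtain ⟨b2, b'', rfl, h2, h''⟩ := mapW_eq_append h'
  obtain ⟨b3, b45, rfl, h3, h45⟩ := mapW_eq_append h''
  obtain ⟨E, b5, rfl, h4, h5⟩ := mapW_eq_append h45
  obtain ⟨y, rfl, rfl⟩ := kdec_R0 h0
  obtain ⟨w1, rfl, m1⟩ := mapW_eq_shift h1
  obtain ⟨w2, rfl, m2⟩ := mapW_eq_shift h2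
  obtain rfl : b3 = R1 := eq_of_no_cups h3 rfl
  obtain rfl : b5 = R2 := eq_of_no_cups h5 rfl
  rw [P1_map hom_bs] at m1 m2
  obtain ⟨a1, r01, r'⟩ := run_append.1 hr
  obtain ⟨a0, r0, r1⟩ := run_append.1 r01
  obtain ⟨a2, r2, r''⟩ := run_append.1 r'
  obtain ⟨a3, r3, r45⟩ := run_append.1 r''
  obtain ⟨e, r4, r5⟩ := run_append.1 r45
  obtain ⟨x, r, e0, -⟩ := lv0_eq y
  rw [run_det r0 (run_R0 y), e0] at r1
  obtain ⟨⟨y1, k1⟩, rfl⟩ := kdec_box hS m1 (c := [x]) r1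
  obtain ⟨⟨y2, k2⟩, rfl⟩ := kdec_box bands_SJ m2 (c := [x]) r2
  rw [← e0] at r3
  obtain rfl := run_det (run_R1 y) r3
  have hB := kdec_run3 (box_run (box_zero bands_SJ.1 (P3 (y.map bs)))).1
  have he : e.map bs = lv1 (y.map bs) := by
    have := run_map hom_bs r4
    rw [h4, ← kdec_lv1 hom_bs] at this
    exact run_det this (run_rv hB)
  have h6 := mapW_rv hom_bs E (lv1 y)
  rw [h4, ← kdec_lv1 hom_bs, rv_rv hB] at h6
  obtain ⟨w3, e3, m3⟩ := mapW_eq_shift h6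
  have r6 := run_rv r4
  have e4 := rv_rv r4
  rw [e3] at r6 e4
  obtain ⟨c0, x0, e5, hc0⟩ := lv1_eq (y.map bs)
  rw [e5] at he
  obtain ⟨cp, xs, rfl, he1, -⟩ := List.map_eq_append_iff.1 he
  obtain ⟨c, pq, rfl, hc, hpq⟩ := List.map_eq_append_iff.1 he1
  obtain ⟨p, l, rfl, hp, hl⟩ := List.map_eq_cons_iff.1 hpq
  obtain ⟨q, l', rfl, hq, hl'⟩ := List.map_eq_cons_iff.1 hl
  obtain rfl := List.map_eq_nil_iff.1 hl'
  have hc3 : c.length = 3 := by rw [← hc0, ← hc, List.length_map]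
  have hP : P3 (y.map bs) = (⟨p, q⟩ : Pr (Lb G M)).map bs := Pr.ext hp.symm hq.symm
  rw [hP] at m3
  rw [← hc3] at r6
  obtain ⟨⟨y3, k3⟩, e6⟩ := kdec_box bands_SJ m3 r6
  have hP' : P3 y = ⟨p, q⟩ := by
    obtain ⟨c', x', e7, hc'⟩ := lv1_eq y
    rw [e6, List.append_assoc, List.append_assoc] at e7
    have := (List.append_inj e7 (hc3.trans hc'.symm)).2
    simp only [List.cons_append, List.cons.injEq] at this
    exact Pr.ext this.1.symm this.2.1.symm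
  rw [← e6] at r5 e4
  rw [← hP'] at k3
  exact ⟨y, Sum.elim y1 (Sum.elim y2 y3), rfl,
    run_append.2 ⟨_, run_R0 y, run_append.2 ⟨_, run_R1 y, r5⟩⟩, w1, w2, w3, k1, k2, k3,
    by rw [← e4]; rfl⟩

variable {M1 N M2 A : Type} [AddCommGroup M1] [DistribMulAction G M1]
  [AddCommGroup N] [DistribMulAction G N] [AddCommGroup M2] [DistribMulAction G M2]
  [AddCommGroup A]

/-- `lam_append`, `lam_ctx`, `lam_rv`, `box_lam`; `β p (-m) = - β p m` on the kernel of `q`. -/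
theorem k_lam (P : PD G M1 N M2 A) (hS : Bands g S) {y : Tri (Lb G (N × M2))}
    {Y : N3 (Fin g × Bool) → N × M2} {z : List (L (Lb G (N × M2)))} (h : IsK S y Y z)
    (Y' : N3 (Fin g × Bool) → M1) (hY : ∀ i, P.q (Y' i) = (Y i).1) :
    Lam P 0 z [] = Lam P 0 (RW y) [] + ∑ i, P.β (keq (seifert S) (hP (P1 y)) (hP (P3 y)) Y' i)
      (kw (hP (P1 y)) (hP (P3 y)) (fun i => (Y i).2) i) := by
  obtain ⟨hy, w1, w2, w3, h1, h2, h3, rfl⟩ := h
  have r1 := (box_run h1).1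
  have r2 := (box_run h2).1
  obtain ⟨r3, -, e3⟩ := box_run h3
  have l1 : ∀ {w : List (L (Lb G (N × M2)))}, Run w [(P1 y).l, (P1 y).r] [(P1 y).l, (P1 y).r] →
      ∃ ρ, Lam P 0 (shift 1 w) (lv0 y) = Lam P ρ w [(P1 y).l, (P1 y).r] := by
    intro w hw
    obtain ⟨x, r, e, -⟩ := lv0_eq y
    have := lam_ctx P hw 0 [x] r
    rw [← e] at this
    exact ⟨_, this⟩
  obtain ⟨ρ1, k1⟩ := l1 r1
  obtain ⟨ρ2, k2⟩ := l1 r2
  obtain ⟨c, x, e, hc⟩ := lv1_eq y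
  have k3 := lam_ctx P r3 0 c [x]
  rw [← e, hc, box_lam P bands_SJ h3 (fun i => Y' (.inr (.inr i))) fun i => hY _] at k3
  rw [box_lam P hS h1 (fun i => Y' (.inl i)) fun i => hY _] at k1
  rw [box_lam P bands_SJ h2 (fun i => Y' (.inr (.inl i))) fun i => hY _] at k2
  rw [seifert_SJ] at k2 k3 e3
  have hq : ∀ j, P.q (beq UJ (hP (P3 y)) (fun i => Y' (.inr (.inr i))) j) = 0 := by
    intro j
    have := kdec_beq (G := G) (ψ := AddMonoidHom.fst N M2) (fun _ _ => rfl) UJ (hP (P3 y))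
      (fun i => Y (.inr (.inr i))) j
    rw [e3 j, map_zero] at this
    rw [kdec_beq P.eqv, this]
    exact congrArg (fun t => beq UJ (hP (P3 y)) t j) (funext fun i => hY _)
  have hn : ∀ j m, P.β (beq UJ (hP (P3 y)) (fun i => Y' (.inr (.inr i))) j) (-m) =
      -P.β (beq UJ (hP (P3 y)) (fun i => Y' (.inr (.inr i))) j) m := fun j m => by
    rw [← zero_sub, P.sub2 (hq j), P.zero2 (hq j), zero_sub]
  simp only [KB, botW, RW, lam_append, lev_append, run_lev (run_R0 y), run_lev (run_R1 y),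
    run_lev (kdec_run1 r1), run_lev (kdec_run1 r2), run_lev (run_rv (kdec_run3 r3)),
    lam_rv P (kdec_run3 r3), k1, k2, k3, Fintype.sum_sum_type, keq, kw, Sum.elim_inl,
    Sum.elim_inr, hn, Finset.sum_neg_distrib]
  abel

end Pool.Agent.AS
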