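import Pool.Agent.Lib.MP_dae8ad_gt.T.LDefs

namespace Pool.Agent.AS

theorem lring_cubic : ∃ (B : Type) (_ : CommRing B) (u : Bˣ) (c : B →+ ℤ),
    (u : B) ^ 3 - (u : B) ^ 2 + 1 = 0 ∧ c 1 = 1 ∧ c u = 0 := by
  let f : Polynomial ℤ := Polynomial.X ^ 3 - Polynomial.X ^ 2 + 1
  have hm : f.Monic := by
    simp only [f]
    monicity!
  have hd : f.degree = 3 := by
    simp only [f]
    compute_degree!
  have hr : AdjoinRoot.root f ^ 3 - AdjoinRoot.root f ^ 2 + 1 = 0 := by
    have := AdjoinRoot.mk_self (f := f)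
    rw [← this, ← AdjoinRoot.mk_X, ← map_pow, ← map_pow, ← map_sub, ← map_one (AdjoinRoot.mk f),
      ← map_add]
  refine ⟨AdjoinRoot f, inferInstance,
    ⟨AdjoinRoot.root f, AdjoinRoot.root f - AdjoinRoot.root f ^ 2, by linear_combination -hr,
      by linear_combination -hr⟩,
    ((Polynomial.lcoeff ℤ 0).comp (AdjoinRoot.modByMonicHom hm)).toAddMonoidHom, hr, ?_, ?_⟩
  · show (AdjoinRoot.modByMonicHom hm (AdjoinRoot.mk f 1)).coeff 0 = 1
    rw [AdjoinRoot.modByMonicHom_mk, (Polynomial.modByMonic_eq_self_iff hm).2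
      (by rw [hd, Polynomial.degree_one]; decide)]
    simp
  · show (AdjoinRoot.modByMonicHom hm (AdjoinRoot.mk f Polynomial.X)).coeff 0 = 0
    rw [AdjoinRoot.modByMonicHom_mk, (Polynomial.modByMonic_eq_self_iff hm).2
      (by rw [hd, Polynomial.degree_X]; decide)]
    simp

theorem lring_dom : IsDomain (LaurentPolynomial ℤ) :=
  IsLocalization.isDomain_of_le_nonZeroDivisors (M := Submonoid.powers (Polynomial.X : Polynomial ℤ))
    _ (powers_le_nonZeroDivisors_of_noZeroDivisors Polynomial.X_ne_zero)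

theorem lring_prime : Prime (2 : LaurentPolynomial ℤ) := by
  have h2 : Prime (Polynomial.C (2 : ℤ)) := Polynomial.prime_C_iff.2 Int.prime_two
  have hp := (Ideal.span_singleton_prime h2.ne_zero).2 h2
  have hd : Disjoint
      ((Submonoid.powers (Polynomial.X : Polynomial ℤ) : Submonoid _) : Set (Polynomial ℤ))
      ((Ideal.span {Polynomial.C (2 : ℤ)} : Ideal (Polynomial ℤ)) : Set (Polynomial ℤ)) := by
    rw [Set.disjoint_left]
    rintro _ ⟨n, rfl⟩ h
    obtain ⟨c, hc⟩ := Ideal.mem_span_singleton.1 h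
    have := congrArg (Polynomial.eval 1) hc
    simp at this
    omega
  have := IsLocalization.isPrime_of_isPrime_disjoint _ (LaurentPolynomial ℤ) _ hp hd
  have e : algebraMap (Polynomial ℤ) (LaurentPolynomial ℤ) (Polynomial.C 2) = 2 := by
    rw [← map_ofNat (algebraMap (Polynomial ℤ) (LaurentPolynomial ℤ)) 2]
    rfl
  rw [Ideal.map_span, Set.image_singleton, e] at this
  refine (Ideal.span_singleton_prime ?_).1 this
  intro h
  have := congrArg (LaurentPolynomial.eval₂ (RingHom.id ℤ) 1) h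
  rw [map_ofNat, map_zero] at this
  omega

theorem lring_eps (a : LaurentPolynomial ℤ) :
    LaurentPolynomial.eval₂ (Int.castRingHom (ZMod 2)) 1 (LaurentPolynomial.invert a) =
      LaurentPolynomial.eval₂ (Int.castRingHom (ZMod 2)) 1 a := by
  induction a using LaurentPolynomial.induction_on' with
  | add p q hp hq => rw [map_add, map_add, map_add, hp, hq]
  | C_mul_T n r =>
    rw [map_mul, LaurentPolynomial.invert_C, LaurentPolynomial.invert_T,
      LaurentPolynomial.eval₂_C_mul_T, LaurentPolynomial.eval₂_C_mul_T, one_zpow, one_zpow]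

/-- `A = MonoidAlgebra (ZMod (2 ^ N)) G1` (or `LaurentPolynomial`), `ε` the augmentation modulo
`2`, `cj` induced by inversion.  `reg`, `reg1`: an element whose reduction modulo `2` is not zero is
regular (if `δ a = 0` then `a = 2 a'` because `(ZMod 2)[G1]` is a domain; if `a = 2 ^ k a'`,
`k < N`, then `2 ^ k δ a' = 0` forces `δ a' ∈ 2 A`, so `a' ∈ 2 A`).  For `w`: map `A` to
`AdjoinRoot f` over `ZMod (2 ^ N)`, `f = x ^ 3 - x ^ 2 + 1` (the root is a unit), where
`2 ^ (N - 1) ≠ 0` (`AdjoinRoot.powerBasis'` or degrees); take a character that does not vanish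
there (`CharacterModule.exists_character_apply_ne_zero_of_ne_zero`);
`(g w) m = w (t⁻³ f m) = 0`. -/
theorem exLR (N : ℕ) (hN : 0 < N) :
    ∃ (A : Type) (_ : CommRing A) (η : G1 →* A) (ε : A →+* ZMod 2) (cj : A →+* A), LR η ε cj ∧
      (2 ^ N : A) = 0 ∧ ∃ w : Du (RM η), Kg w ∧ (2 ^ (N - 1) : ℤ) • w ≠ 0 := by
  obtain ⟨B, _, u, c, hu, hc1, hcu⟩ := lring_cubic
  have := lring_dom
  let I : Ideal (LaurentPolynomial ℤ) := Ideal.span {2 ^ N}
  let π := Ideal.Quotient.mk I
  have hπ : ∀ a, π a = 0 ↔ 2 ^ N ∣ a := fun a =>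
    Ideal.Quotient.eq_zero_iff_mem.trans Ideal.mem_span_singleton
  have hreg : ∀ d, ¬ 2 ∣ d → ∀ a, π d * a = 0 → a = 0 := by
    intro d hd a h
    obtain ⟨a, rfl⟩ := Ideal.Quotient.mk_surjective a
    exact (hπ a).2 (lring_prime.pow_dvd_of_dvd_mul_left N hd ((hπ _).1 ((map_mul π d a).trans h)))
  let η : G1 →* LaurentPolynomial ℤ ⧸ I :=
    ⟨⟨fun g => π (LaurentPolynomial.T g.toAdd), map_one π⟩, fun g h => by
      show π (LaurentPolynomial.T (g.toAdd + h.toAdd)) = _
      rw [LaurentPolynomial.T_add, map_mul]⟩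
  let ε0 : LaurentPolynomial ℤ →+* ZMod 2 := LaurentPolynomial.eval₂ (Int.castRingHom _) 1
  have hε0 : ∀ a, 2 ∣ a → ε0 a = 0 := by
    rintro _ ⟨a, rfl⟩
    rw [map_mul, map_ofNat, show (2 : ZMod 2) = 0 from rfl, zero_mul]
  let ε := Ideal.Quotient.lift I ε0 fun a ha =>
    hε0 a ((dvd_pow_self 2 hN.ne').trans (Ideal.mem_span_singleton.1 ha))
  let iv : LaurentPolynomial ℤ →+* LaurentPolynomial ℤ :=
    (LaurentPolynomial.invert (R := ℤ)).toRingEquiv.toRingHom
  let cj := Ideal.Quotient.lift I (π.comp iv) fun a ha => (hπ _).2 (by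
    obtain ⟨b, rfl⟩ := Ideal.mem_span_singleton.1 ha
    rw [map_mul, map_pow, map_ofNat]
    exact dvd_mul_right _ _)
  have hcj : ∀ a, cj (π a) = π (LaurentPolynomial.invert a) := fun _ => rfl
  let ψ : LaurentPolynomial ℤ →+* B := LaurentPolynomial.eval₂ (Int.castRingHom _) u
  let w0 : LaurentPolynomial ℤ →+ AddCircle (1 : ℚ) :=
    ⟨⟨fun a => (((c (ψ a) : ℚ) / 2 ^ N : ℚ) : AddCircle (1 : ℚ)), by simp⟩, fun a b => by
      simp only [map_add, Int.cast_add, add_div, AddCircle.coe_add]⟩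
  have hw0 : ∀ a, w0 a = (((c (ψ a) : ℚ) / 2 ^ N : ℚ) : AddCircle (1 : ℚ)) := fun _ => rfl
  have hker : ∀ a ∈ I.toAddSubgroup, w0 a = 0 := by
    intro a ha
    obtain ⟨b, rfl⟩ := Ideal.mem_span_singleton.1 ha
    have e : ψ (2 ^ N * b) = (2 ^ N : ℕ) • ψ b := by
      rw [map_mul, map_pow, map_ofNat, nsmul_eq_mul]; push_cast; rfl
    rw [hw0, e, map_nsmul, AddCircle.coe_eq_zero_iff]
    refine ⟨c (ψ b), ?_⟩
    rw [nsmul_eq_mul]; push_cast; field_simp; simp
  let w : Du (RM η) := QuotientAddGroup.lift I.toAddSubgroup w0 hker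
  have hw : ∀ a, w.f (π a) = w0 a := fun _ => rfl
  refine ⟨_, inferInstance, η, ε, cj, ⟨fun g => ?_, fun g => ?_, fun a => ?_, fun a => ?_,
    fun δ hδ => ?_, ?_⟩, ?_, w, ?_, ?_⟩
  · show ε0 (LaurentPolynomial.T g.toAdd) = 1
    rw [LaurentPolynomial.eval₂_T, one_zpow, Units.val_one]
  · exact (hcj _).trans (congrArg π (LaurentPolynomial.invert_T _))
  · obtain ⟨a, rfl⟩ := Ideal.Quotient.mk_surjective a
    exact (hcj _).trans (congrArg π (LaurentPolynomial.involutive_invert a))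
  · obtain ⟨a, rfl⟩ := Ideal.Quotient.mk_surjective a
    exact lring_eps a
  · obtain ⟨d, rfl⟩ := Ideal.Quotient.mk_surjective δ
    exact hreg d fun h => hδ (hε0 d h)
  · have e : 1 - η (tt 1) = π (1 - LaurentPolynomial.T 1) := by rw [map_sub, map_one]; rfl
    rw [e]
    refine hreg _ ?_
    rintro ⟨b, hb⟩
    have := congrArg (fun a => c (ψ a)) hb
    simp only [map_sub, map_one, map_mul, map_ofNat] at this
    rw [LaurentPolynomial.eval₂_T, zpow_one, hc1, hcu, two_mul, map_add] at this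
    omega
  · have := (hπ _).2 dvd_rfl
    rwa [map_pow, map_ofNat] at this
  · refine AddMonoidHom.ext fun m => ?_
    obtain ⟨a, rfl⟩ := Ideal.Quotient.mk_surjective (I := I) m
    show w.f (π (LaurentPolynomial.T (-3)) * π a) - w.f (π (LaurentPolynomial.T (-1)) * π a) +
      w.f (π a) = 0
    rw [← map_mul, ← map_mul, hw, hw, hw, ← map_sub, ← map_add, hw0]
    have e : ψ (LaurentPolynomial.T (-3) * a - LaurentPolynomial.T (-1) * a + a) = 0 := by
      have e3 := LaurentPolynomial.eval₂_T_neg_n (Int.castRingHom B) u 3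
      have e1 := LaurentPolynomial.eval₂_T_neg_n (Int.castRingHom B) u 1
      rw [map_add, map_sub, map_mul, map_mul]
      refine (congrArg₂ (fun x y => x * ψ a - y * ψ a + ψ a) e3 e1).trans ?_
      have hi := u.inv_mul
      generalize ((u⁻¹ : Bˣ) : B) = v at hi ⊢
      linear_combination (v ^ 3 * ψ a) * hu +
        (ψ a * (-(v * u) ^ 2 - v * u - 1 + v * (v * u + 1))) * hi
    rw [e]
    simp
  · intro h
    have h1 : (2 ^ (N - 1) : ℤ) • w0 1 = 0 := DFunLike.congr_fun (congrArg Du.f h) (π 1)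
    rw [hw0, map_one, hc1, ← AddCircle.coe_zsmul, AddCircle.coe_eq_zero_iff] at h1
    obtain ⟨n, hn⟩ := h1
    obtain ⟨k, rfl⟩ : ∃ k, N = k + 1 := ⟨N - 1, by omega⟩
    simp only [zsmul_eq_mul, Nat.add_sub_cancel] at hn
    push_cast at hn
    have : (2 * n : ℚ) = 1 := by
      rw [mul_one] at hn
      rw [hn]; field_simp; ring
    have : 2 * n = 1 := by exact_mod_cast this
    omega

end Pool.Agent.AS
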