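import Pool.Agent.Lib.MP_dae8ad_gt.T.KDec

namespace Pool.Agent.AS

/-- The abelian colouring. -/
def i1 (s : Bool) : Lb0 G1 := ⟨s, if s then tt 1 else tt (-1), ()⟩

theorem hom_i1 : Hom i1 :=
  ⟨fun p q => by cases p <;> cases q <;> rfl, fun p => by cases p <;> rfl⟩

def y1 {M : Type} (m1 m2 m3 : M) : Tri (Lb G1 M) :=
  ⟨⟨true, tt 1, m1⟩, ⟨true, tt 1, m2⟩, ⟨true, tt 1, m3⟩⟩

section
variable {M : Type} [AddCommGroup M] [DistribMulAction G1 M]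

def d1 (m1 m2 m3 : M) : M := om (tt 1) (m1 - m2) - (m3 - m2)
def hh (m1 m2 m3 : M) : M := om (tt (-1)) (d1 m1 m2 m3)
def gm (m1 m2 : M) : M := -om (tt 1) (om (tt 1) (m1 - m2))

theorem rlev_act (s s' : Bool) (i j : ℤ) (m m' : M) :
    Lab.act (⟨s, tt i, m⟩ : Lb G1 M) ⟨s', tt j, m'⟩ = ⟨s', tt j, m + tt i • (m' - m)⟩ :=
  Lb.ext rfl (mul_inv_cancel_comm _ _) rfl

theorem rlev_rho (s : Bool) (i : ℤ) (m : M) :
    Lab.rho (⟨s, tt i, m⟩ : Lb G1 M) = ⟨!s, tt (-i), m⟩ := rfl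

theorem rlev_smul (i j : ℤ) (m : M) : tt i • tt j • m = tt (i + j) • m := (mul_smul _ _ _).symm

theorem rlev_zero (m : M) : tt 0 • m = m := one_smul _ _

def rlevF (x : M) : M := tt 3 • x - tt 2 • x + x
def rlevG (x : M) : M := tt 3 • x - tt 1 • x + x

theorem rlev_lv0 (m1 m2 m3 : M) : lv0 (y1 m1 m2 m3) =
    [⟨true, tt 1, m1⟩, ⟨false, tt (-1), m1 - tt (-1) • (m1 - m2)⟩,
      ⟨true, tt 1, m3 - tt (-1) • (m1 - m2) + tt 1 • (m1 - m2)⟩,
      ⟨false, tt (-1), m3 - tt (-1) • (m1 - m2) + 2 • (m1 - m2) - tt 1 • (m3 - m2)⟩,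
      ⟨true, tt 1, m3 - tt (-1) • (m1 - m2) + 2 • (m1 - m2) - tt 1 • (m1 - m2) - tt 1 • (m3 - m2)⟩,
      ⟨false, tt (-1), m3⟩] := by
  simp only [lv0, R0, y1, lev, next, nx, List.take, List.drop, List.cons_append, List.nil_append,
    rlev_act, rlev_rho, Bool.not_true, List.cons.injEq, Lb.mk.injEq, true_and, and_true, smul_add,
    smul_sub, rlev_smul, Int.reduceAdd, Int.reduceNeg, rlev_zero]
  refine ⟨?_, ?_, ?_, ?_⟩ <;> abel

theorem rlev_lv1 (m1 m2 m3 : M) : lv1 (y1 m1 m2 m3) =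
    [⟨true, tt 1, m1⟩, ⟨false, tt (-1), m3 - tt (-1) • (m1 - m2) + 3 • tt 1 • (m1 - m2) -
        tt 2 • (m1 - m2) - tt 2 • (m3 - m2)⟩,
      ⟨true, tt 1, m3 - tt (-1) • (m1 - m2) + 3 • tt 1 • (m1 - m2) - 2 • tt 2 • (m1 - m2) -
        tt 2 • (m3 - m2)⟩,
      ⟨false, tt (-1), m1 - tt (-1) • (m1 - m2) + tt 1 • (m1 - m2) - tt 2 • (m1 - m2)⟩,
      ⟨true, tt 1, m3 - tt (-1) • (m1 - m2) + tt 1 • (m1 - m2)⟩, ⟨false, tt (-1), m3⟩] := by
  simp only [lv1, rlev_lv0, R1, lev, next, nx, List.take, List.drop, List.cons_append,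
    List.nil_append, rlev_act, rlev_rho, Bool.not_true, Bool.not_false, List.cons.injEq,
    Lb.mk.injEq, true_and, and_true, two_nsmul, smul_add, smul_sub, rlev_smul, Int.reduceAdd,
    Int.reduceNeg, rlev_zero]
  refine ⟨?_, ?_, ?_⟩ <;> abel

/-- The level below the caps. -/
def rlevT (m1 m3 x a z : M) : List (Lb G1 M) :=
  [⟨true, tt 1, m1⟩, ⟨false, tt (-1), m1 - a⟩, ⟨true, tt 1, x⟩, ⟨false, tt (-1), x + z⟩,
    ⟨true, tt 1, m3 - a + z⟩, ⟨false, tt (-1), m3⟩]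

theorem rlev_W (m1 m2 m3 : M) : Run (R0 (y1 m1 m2 m3) ++ (R1 ++ R2a)) []
    (rlevT m1 m3 (m3 - tt (-1) • (m1 - m2) + tt 1 • (m1 - m2)) (tt (-1) • rlevF (m1 - m2))
      (rlevF (m1 - m2) + tt (-1) • rlevG (d1 m1 m2 m3))) := by
  refine run_append.2 ⟨_, run_R0 _, run_append.2 ⟨_, run_R1 _, ?_⟩⟩
  simp only [rlev_lv1, R2a, Run, ok, okh, next, nx, List.take, List.drop, List.cons_append,
    List.nil_append, List.length_cons, List.length_nil, Nat.reduceAdd, Nat.reduceLeDiff,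
    rlev_act, rlev_rho, Bool.not_true, Bool.not_false, List.cons.injEq, rlevT, rlevF, rlevG, d1, om,
    Lb.mk.injEq, true_and, and_true, two_nsmul, three_nsmul, smul_add, smul_sub, rlev_smul,
    Int.reduceAdd, Int.reduceNeg, rlev_zero]
  refine ⟨?_, ?_, ?_⟩ <;> abel

theorem rlev_caps {Y : Type} [Lab Y] (p0 p1 p2 p3 p4 p5 : Y) :
    Run [(0, .cap), (0, .cap), (0, .cap)] [p0, p1, p2, p3, p4, p5] [] ↔
      p1 = Lab.rho p0 ∧ p3 = Lab.rho p2 ∧ p5 = Lab.rho p4 := by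
  simp [Run, ok, okh, next, nx]

theorem rlev_RW {Y : Type} (y : Tri Y) :
    RW y = (R0 y ++ (R1 ++ R2a)) ++ [(0, .cap), (0, .cap), (0, .cap)] := rfl

theorem rlev_run {Y : Type} [Lab Y] {y : Tri Y} {t : List Y}
    (h : Run (R0 y ++ (R1 ++ R2a)) [] t) :
    Run (RW y) [] [] ↔ Run [(0, .cap), (0, .cap), (0, .cap)] t [] := by
  rw [rlev_RW, run_append]
  exact ⟨fun ⟨b, h1, h2⟩ => run_det h1 h ▸ h2, fun h2 => ⟨t, h, h2⟩⟩

/-- With `u = m1 - m2`, `w = m3 - m2` the differences at the three caps are `E0 = t⁻¹ f u`,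
`E1 = - f u - t⁻¹ g d1`, `E2 = - E0 - E1`. -/
theorem r1_iff (m1 m2 m3 : M) :
    Run (RW (y1 m1 m2 m3)) [] [] ↔ Kf (m1 - m2) ∧ Kg (d1 m1 m2 m3) := by
  rw [rlev_run (rlev_W m1 m2 m3), rlevT, rlev_caps]
  change _ ↔ rlevF (m1 - m2) = 0 ∧ rlevG (d1 m1 m2 m3) = 0
  simp only [rlev_rho, Bool.not_true, Lb.mk.injEq, true_and, sub_eq_self, add_eq_left,
    smul_eq_zero_iff_eq]
  refine ⟨fun ⟨h1, h2, _⟩ => ⟨h1, ?_⟩, fun ⟨h1, h2⟩ => ?_⟩
  · rwa [h1, zero_add, smul_eq_zero_iff_eq] at h2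
  · simp only [h1, h2, smul_zero, add_zero, sub_zero, and_self]

theorem r1_h1 (m1 m2 m3 : M) : hP (P1 (y1 m1 m2 m3)) = 1 ∧ hP (P3 (y1 m1 m2 m3)) = 1 := by
  rw [P1, P3, rlev_lv0, rlev_lv1]
  exact ⟨rfl, rfl⟩

theorem r1_h2 (m1 m2 m3 : M) : hP (P1 ((y1 m1 m2 m3).map toG)) = ⟨hh m1 m2 m3, 1⟩ ∧
    hP (P3 ((y1 m1 m2 m3).map toG)) = ⟨hh m1 m2 m3 + gm m1 m2, 1⟩ := by
  rw [P1_map hom_toG, P3_map hom_toG, P1, P3, rlev_lv0, rlev_lv1]
  refine ⟨Aff.ext ?_ rfl, Aff.ext ?_ rfl⟩ <;>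
    simp only [hP, Pr.map, toG, Aff.mul_a, List.getD_cons_succ, List.getD_cons_zero, hh, gm, d1, om,
      smul_add, smul_sub, rlev_smul, Int.reduceAdd, Int.reduceNeg, rlev_zero] <;> abel

theorem rlev_kg {x : M} (h : Kg x) (g : G1) : Kg (om g x) := by
  have h1 : rlevG (om g x) = om g (rlevG x) := by
    simp only [rlevG, om, smul_add, smul_sub, smul_smul, mul_comm g]
    abel
  exact h1.trans (by rw [show rlevG x = 0 from h, om, smul_zero, sub_zero])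

theorem rlev_kf {x : M} (h : Kf x) (g : G1) : Kf (om g x) := by
  have h1 : rlevF (om g x) = om g (rlevF x) := by
    simp only [rlevF, om, smul_add, smul_sub, smul_smul, mul_comm g]
    abel
  exact h1.trans (by rw [show rlevF x = 0 from h, om, smul_zero, sub_zero])

theorem kg_hh {m1 m2 m3 : M} (h : Kg (d1 m1 m2 m3)) : Kg (hh m1 m2 m3) := rlev_kg h _

theorem kf_gm {m1 m2 : M} (h : Kf (m1 - m2)) : Kf (gm m1 m2) := by
  have h1 := congrArg Neg.neg (rlev_kf (rlev_kf h (tt 1)) (tt 1))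
  rw [neg_zero] at h1
  rw [Kf, gm, ← h1, smul_neg, smul_neg]
  abel

variable {M1 N M2 A : Type} [AddCommGroup M1] [DistribMulAction G1 M1]
  [AddCommGroup N] [DistribMulAction G1 N] [AddCommGroup M2] [DistribMulAction G1 M2]
  [AddCommGroup A]

theorem rlev_pair (P : PD G1 M1 N M2 A) {y z : Lb G1 (M1 × M2)} (h : P.qq z = Lab.rho (P.qq y))
    (ρ : M2) (a : List (Lb G1 (M1 × M2))) : P.q (z.m.1 - y.m.1) = 0 ∧
      OmS P ρ (y :: z :: a) = P.β (z.m.1 - y.m.1) (reg1 y ρ - ρ) + OmS P ρ a := by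
  have h1 : P.q z.m.1 = P.q y.m.1 := congrArg (·.m.1) h
  have h2 : z.m.2 = y.m.2 := congrArg (·.m.2) h
  have h3 : z.x = y.x⁻¹ := congrArg (·.x) h
  have h4 : reg1 z (reg1 y ρ) = ρ := by
    simp only [reg1, h2, h3, inv_inv, add_sub_cancel_left, smul_inv_smul, add_sub_cancel]
  have h5 : P.q (P.sec (P.q y.m.1) - y.m.1) = 0 := by rw [map_sub, P.q_sec, sub_self]
  have h6 : P.q (P.sec (P.q y.m.1) - z.m.1) = 0 := by rw [map_sub, P.q_sec, h1, sub_self]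
  refine ⟨by rw [map_sub, h1, sub_self], ?_⟩
  rw [OmS, OmS, h4, h1, ← sub_sub_sub_cancel_left y.m.1 z.m.1 (P.sec (P.q y.m.1)), P.sub1 h5 h6,
    P.sub2 h6, P.sub2 h6]
  abel

theorem rlev_lamc (P : PD G1 M1 N M2 A) (p0 p2 p4 : Lb G1 (M1 × M2)) (ρ : M2) :
    Lam P ρ [(0, .cap), (0, .cap), (0, .cap)]
      ([p0, Lab.rho p0, p2, Lab.rho p2, p4, Lab.rho p4].map P.qq) = 0 := by
  refine (lam_lift P ((rlev_caps _ _ _ _ _ _).2 ⟨rfl, rfl, rfl⟩) ρ).trans ?_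
  rw [(rlev_pair P (P.hom_qq.rho p0) _ _).2, (rlev_pair P (P.hom_qq.rho p2) _ _).2,
    (rlev_pair P (P.hom_qq.rho p4) _ _).2]
  simp only [rho_m, sub_self, P.zero1, zero_add]

/-- The part below the caps lifts exactly to a level `t` of six strands; let `t*` be `t` with the
first components of the strands `1, 3, 5` replaced by those of `0, 2, 4` (jumps `E0, E1, E2`); the
caps lift exactly from `t*`.  The regions to the right of `1, 3, 5` are `0`, those to their left are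
`0`, `om t⁻¹ w`, `om t⁻¹ w`; so `Lam = OmS t - OmS t* = - β (E1 + E2) (om t⁻¹ w)`. -/
theorem r1_lam (P : PD G1 M1 N M2 A) (m1 m2 m3 : M1) (w : M2)
    (h : Run (RW (y1 (P.q m1, (0 : M2)) (P.q m2, 0) (P.q m3, w))) [] []) :
    Lam P 0 (RW (y1 (P.q m1, (0 : M2)) (P.q m2, 0) (P.q m3, w))) [] =
      P.β (tt (-1) • (tt 3 • (m1 - m2) - tt 2 • (m1 - m2) + (m1 - m2))) (om (tt (-1)) w) := by
  have h1 := rlev_W ((m1, 0) : M1 × M2) (m2, 0) (m3, w)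
  have h0 : tt (-1) • (tt 3 • (m1 - m2) - tt 2 • (m1 - m2) + (m1 - m2)) =
      (tt (-1) • rlevF (((m1, 0) : M1 × M2) - (m2, 0))).1 := rfl
  have h2 : (((m3, w) : M1 × M2) - tt (-1) • ((m1, 0) - (m2, 0)) +
      tt 1 • ((m1, 0) - (m2, 0))).2 = w := by simp
  rw [h0]
  generalize tt (-1) • rlevF (((m1, 0) : M1 × M2) - (m2, 0)) = a at h1 ⊢
  generalize ((m3, w) : M1 × M2) - tt (-1) • ((m1, 0) - (m2, 0)) +
    tt 1 • ((m1, 0) - (m2, 0)) = x at h1 h2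
  generalize rlevF (((m1, 0) : M1 × M2) - (m2, 0)) + tt (-1) • rlevG (d1 _ _ _) = z at h1
  have h3 : Run (R0 (y1 (P.q m1, (0 : M2)) (P.q m2, 0) (P.q m3, w)) ++ (R1 ++ R2a)) [] _ :=
    run_map P.hom_qq h1
  have h4 : Lam P 0 (R0 (y1 (P.q m1, (0 : M2)) (P.q m2, 0) (P.q m3, w)) ++ (R1 ++ R2a)) [] = _ :=
    lam_lift P h1 0
  obtain ⟨c1, c3, c5⟩ := (rlev_caps _ _ _ _ _ _).1 ((rlev_run h3).1 h)
  have h5 := rlev_lamc P ⟨true, tt 1, (m1, 0)⟩ ⟨true, tt 1, x⟩ ⟨true, tt 1, (m3, w) - a + z⟩ 0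
  simp only [List.map_cons, List.map_nil, P.hom_qq.rho] at h5
  have h6 : w = ((m3, w) - a + z).2 := congrArg (·.m.2) c5
  rw [rlev_RW, lam_append, h4, run_lev h3, rlevT, List.map_cons, List.map_cons, List.map_cons,
    List.map_cons, List.map_cons, List.map_cons, List.map_nil, c1, c3, c5, h5,
    (rlev_pair P c1 _ _).2, (rlev_pair P c3 _ _).2, (rlev_pair P c5 _ _).2]
  simp only [reg1, h2, ← h6, sub_zero, smul_zero, add_zero, OmS, P.zero2 (rlev_pair P c1 0 []).1,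
    zero_add]
  rw [← P.add1 _ _ (rlev_pair P c3 0 []).1 (rlev_pair P c5 0 []).1, zero_sub, smul_neg,
    ← sub_eq_add_neg]
  congr 1
  simp only [Prod.fst_add, Prod.fst_sub]
  abel

end

variable {G M M1 N M2 A : Type} [Group G] [AddCommGroup M] [DistribMulAction G M]
  [AddCommGroup M1] [DistribMulAction G M1] [AddCommGroup N] [DistribMulAction G N]
  [AddCommGroup M2] [DistribMulAction G M2] [AddCommGroup A]

/-- A constant first component lifts exactly. -/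
theorem r_lam0 (P : PD G M1 N M2 A) {y : Tri (Lb G (N × M2))} (h : Run (RW y) [] []) (m : N)
    (ha : y.a.m.1 = m) (hb : y.b.m.1 = m) (hc : y.c.m.1 = m) : Lam P 0 (RW y) [] = 0 := by
  have h1 : Hom (Lb.mp fun n => (P.sec m, n.2) : Lb G (N × M2) → Lb G (M1 × M2)) :=
    hom_mp fun g a b => Prod.ext (by simp) rfl
  have h2 := lam_lift P (run_map h1 h) 0
  have h3 : ∀ p : Lb G (N × M2), p.m.1 = m → P.qq (p.mp fun n => (P.sec m, n.2)) = p :=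
    fun p hp => Lb.ext rfl rfl (Prod.ext ((P.q_sec m).trans hp.symm) rfl)
  have h4 : (y.map (Lb.mp fun n => (P.sec m, n.2))).map P.qq = y :=
    Tri.ext (h3 _ ha) (h3 _ hb) (h3 _ hc)
  rw [mapW_RW, mapW_RW, h4] at h2
  exact h2.trans (sub_self _)

end Pool.Agent.AS
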