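import Pool.Agent.Lib.MP_dae8ad_gt.T.L1a
import Pool.Agent.Lib.MP_dae8ad_gt.T.LRing
import Pool.Agent.Lib.MP_dae8ad_gt.T.CoreB
import Pool.Agent.Lib.MP_dae8ad_gt.T.RLev

namespace Pool.Agent.AS

/-- Read the labels of the pattern from a colouring: the first three letters. -/
theorem isK_lab {G M : Type} [Group G] [AddCommGroup M] [DistribMulAction G M] {g : ℕ} {S : SW g}
    {y y' : Tri (Lb G M)} {Y Y' : N3 (Fin g × Bool) → M} {b : List (L (Lb G M))}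
    (h : IsK S y Y b) (h' : IsK S y' Y' b) : y = y' := by
  obtain ⟨-, _, _, _, -, -, -, rfl⟩ := h
  obtain ⟨-, _, _, _, -, -, -, e⟩ := h'
  simp only [KB, R0, List.cons_append, List.cons.injEq, Prod.mk.injEq, Kd.cup.injEq] at e
  exact Tri.ext e.1.2 e.2.1.2 e.2.2.1.2

section
variable {M M' : Type} [AddCommGroup M] [DistribMulAction G1 M] [AddCommGroup M']
  [DistribMulAction G1 M']

/-- `om g` as an additive map. -/
def l1_om (M : Type) [AddCommGroup M] [DistribMulAction G1 M] (g : G1) : M →+ M :=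
  AddMonoidHom.id M - DistribSMul.toAddMonoidHom M g

theorem l1_eqv (g : G1) : Eqv G1 (l1_om M g) := fun h m => by
  change h • m - g • h • m = h • (m - g • m)
  rw [smul_sub, smul_comm]

theorem l1_kg {ψ : M →+ M'} (hψ : Eqv G1 ψ) {m : M} (h : Kg m) : Kg (ψ m) := by
  rw [Kg, ← hψ, ← hψ, ← map_sub, ← map_add, h, map_zero]

theorem l1_kg_z (n : ℤ) {m : M} (h : Kg m) : Kg (n • m) := by
  rw [Kg, smul_comm, smul_comm (tt 1), ← smul_sub, ← smul_add, h, smul_zero]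

theorem l1_inj {m : M} (h : Kg m) (e : om (tt 1) m = 0) : m = 0 := by
  have e1 : tt 1 • m = m := (sub_eq_zero.1 e).symm
  have e3 : tt 3 • m = m := by
    rw [show tt 3 = tt 1 * (tt 1 * tt 1) from rfl, mul_smul, mul_smul, e1, e1, e1]
  rwa [Kg, e1, e3, sub_self, zero_add] at h

theorem l1_inj' {m : M} (h : Kg m) (e : om (tt (-1)) m = 0) : m = 0 :=
  l1_inj h (sub_eq_zero.2 ((smul_eq_iff_eq_inv_smul _).2 (sub_eq_zero.1 e)).symm)

theorem l1_gm {ψ : M →+ M'} (hψ : Eqv G1 ψ) (m : M') (m1 m2 : M) :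
    gm (ψ m1 + m) (ψ m2 + m) = ψ (gm m1 m2) := by
  rw [gm, gm, map_neg, om_map hψ, om_map hψ, map_sub, add_sub_add_right_eq_sub]

theorem l1_hh {ψ : M →+ M'} (hψ : Eqv G1 ψ) (m : M') (m1 m2 m3 : M) :
    hh (ψ m1 + m) (ψ m2 + m) (ψ m3 + m) = ψ (hh m1 m2 m3) := by
  rw [hh, hh, d1, d1, om_map hψ, map_sub, om_map hψ, map_sub, map_sub, add_sub_add_right_eq_sub,
    add_sub_add_right_eq_sub]

theorem l1_f (φ : Du M) (m : M) : (om (tt (-1)) φ).f m = φ.f (om (tt 1) m) := by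
  rw [om, om, map_sub]
  rfl

theorem l1_run {m1 m2 m3 : M} {w : M'} (h : Run (RW (y1 m1 m2 m3)) [] []) (hw : Kg w) :
    Run (RW (y1 (m1, (0 : M')) (m2, 0) (m3, w))) [] [] := by
  obtain ⟨h1, h2⟩ := (r1_iff _ _ _).1 h
  refine (r1_iff _ _ _).2 ⟨Prod.ext h1 (by simp), Prod.ext h2 ?_⟩
  simpa [Kg, d1, om] using l1_kg_z (-1) hw

end

/-- Suppose `2 ^ a γ, 2 ^ b h ∈ 2 ^ N X`.  Take `A`, `w` from `exLR`, `δ` from `l1_max` (`orth`
with `exPD0`, `t1`, `t2`, `yv_Q`), `P` from `exPD1`.  (i) For a module `M` killed by `2 ^ N` and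
`c` with `KV c`, `res m c` is the image of `res 0 x` under `afn ψ m` (`res_nat`), so it is
`IsK S (y1 (ψ m1 + m) ..) 0` (`k_nat`) and `2 ^ a gm`, `2 ^ b hh` vanish for its labels.
(ii) Let `w1 = 2 ^ a • om t⁻¹ (om t⁻¹ w)`, `as` the colouring with labels `y1 0 0 w1` and box data
`0` (`r1_iff`, `k_ex`; `beq _ _ 0 = 0`).  For `c` with `V c = δ u` let `z` be the colouring over
`N × Du` with zipped labels and box data `0`; its components are `res 0 (q c)` and `as` (`k_nat`,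
`k_uniq`); `idf` with `n = 0`, `k_lam`, `r1_lam` give `∑ (om (y i) (xs as i)) (u i) =
β (t⁻¹ f v) (om t⁻¹ w1)` for a lift `v` of the first label difference.  With `t⁻¹ f v = δ p` and
`2 ^ a (1 - t)² v = δ k` we get `2 ^ a (1 - t)² p = t⁻¹ f k`, so the value is
`w ((1 - t) t⁻¹ f k) = 0` because `g w = 0`.  (iii) So the image of `as` under `om t` extends
(`xs_nat`), is `res m c` (`res_sur`), and (i) with `isK_lab` gives
`2 ^ b • om t⁻¹ (om t w1) = 0`.  On elements killed by `g`, `om t` is injective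
(`t (1 + t) (1 - t) = 1 - g`), `om t⁻¹ = - t⁻¹ om t`; hence `2 ^ (a + b) • w = 0`. -/
theorem l1_main {g : ℕ} {S : SW g} (hS : Bands g S)
    (C : SD G1 (fun x => x = tt 1 ∨ x = tt (-1)) (KG (y1 () () ()) S))
    {X : Type} [AddCommGroup X] [DistribMulAction G1 X] (x : Fin C.d → X) (hx : C.KV x)
    (hu : ∀ (M : Type) [AddCommGroup M] [DistribMulAction G1 M] (c : Fin C.d → M), C.KV c →
      ∃ ψ : X →+ M, Eqv G1 ψ ∧ ψ ∘ x = c)
    {m1 m2 m3 : X} (hK : IsK S (y1 m1 m2 m3) 0 (C.res 0 x)) : L1 (hh m1 m2 m3) (gm m1 m2) := by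
  have key : ∀ (M : Type) [AddCommGroup M] [DistribMulAction G1 M] (m : M) (c : Fin C.d → M),
      C.KV c → ∃ ψ : X →+ M, Eqv G1 ψ ∧
        IsK S (y1 (ψ m1 + m) (ψ m2 + m) (ψ m3 + m)) 0 (C.res m c) := by
    intro M _ _ m c hc
    obtain ⟨ψ, h1, rfl⟩ := hu M c hc
    have h2 := k_nat h1 m hK
    rw [← C.res_nat h1 m 0 hx, map_zero, zero_add,
      show ψ ∘ (0 : N3 (Fin g × Bool) → X) = 0 from funext fun _ => map_zero ψ] at h2
    exact ⟨ψ, h1, h2⟩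
  rintro a b N hab ⟨⟨xa, ha⟩, xb, hb⟩
  obtain ⟨A, _, η, ε, cj, hLR, h2, w, hw, hw0⟩ := exLR N (by omega)
  obtain ⟨P0, hP0⟩ := exPD0 hLR
  obtain ⟨δ, hδ, hmax⟩ := l1_max hLR C.V C.Pi C.yv C.yv_Q C.t1 C.t2 fun c n => by
    simpa only [hP0] using C.orth P0 c (fun _ => rfl) n
  obtain ⟨N', _, _, P, hq, hβ⟩ := exPD1 η δ (hLR.reg δ hδ)
  have k1 : ∀ p : RM η, (2 ^ N : ℤ) • p = 0 := fun p => by
    have h3 : (2 ^ N : RM η) = 0 := h2
    rw [zsmul_eq_mul, Int.cast_pow, Int.cast_ofNat, h3, zero_mul]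
  have k2 : ∀ n : N', (2 ^ N : ℤ) • n = 0 := fun n => by
    obtain ⟨p, rfl⟩ := P.surj n
    rw [← map_zsmul, k1, map_zero]
  have k3 : ∀ φ : Du (RM η), (2 ^ N : ℤ) • φ = 0 := fun φ => AddMonoidHom.ext fun p => by
    change (2 ^ N : ℤ) • φ.f p = 0
    rw [← map_zsmul, k1, map_zero]
  obtain ⟨w1, hw1⟩ : ∃ w1, w1 = (2 ^ a : ℤ) • om (tt (-1)) (om (tt (-1)) w) := ⟨_, rfl⟩
  have g1 : Kg w1 := hw1 ▸ l1_kg_z _ (l1_kg (l1_eqv _) (l1_kg (l1_eqv _) hw))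
  have r1 : Run (RW (y1 0 0 w1)) [] [] := (r1_iff _ _ _).2
    ⟨by simp [Kf], by simpa [d1, om] using l1_kg_z (-1) g1⟩
  have a1 := k_zero hS r1
  have c1 : Col (KG (y1 () () ()) S) (KG (y1 0 0 w1) S) := (k_col a1).1
  obtain ⟨n, hn⟩ := hmax (C.xs (KG (y1 0 0 w1) S)) fun c u hc => by
    have q1 : ∀ i, P.q (evF (C.V i) c) = 0 := fun i => (hq _).2 ⟨_, hc i⟩
    obtain ⟨ψ, p1, p2⟩ := key N' (P.q 0) (P.q ∘ c) fun i => by rw [← evF_map P.eqv, q1]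
    have p3 := l1_gm p1 (P.q 0) m1 m2
    obtain ⟨v1, e1⟩ := P.surj (ψ m1 + P.q 0)
    obtain ⟨v2, e2⟩ := P.surj (ψ m2 + P.q 0)
    obtain ⟨v3, e3⟩ := P.surj (ψ m3 + P.q 0)
    rw [← e1, ← e2] at p3
    rw [← e1, ← e2, ← e3] at p2
    have r2 := l1_run p2.1 g1
    have a2 := k_zero hS r2
    have i1 := C.idf P 0 c q1 (k_col a2).1.1
      ((mapW_KG hom_fst _ S).trans (k_uniq hS (k_zero hS p2.1) p2)) 0
    have i2 : ∀ (h h' : G1) i, keq (seifert S) h h' (0 : N3 (Fin g × Bool) → RM η) i = 0 := by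
      rintro h h' (i | i | i) <;> simp [keq, beq]
    rw [k_lam P hS a2 0 fun _ => map_zero _, r1_lam P v1 v2 v3 w1 r2, mapW_KG hom_snd] at i1
    simp only [i2, P.zero1, Finset.sum_const_zero, add_zero, evF_zero, hc, hβ] at i1
    refine i1.symm.trans ?_
    have f1 : Kf (P.q v1 - P.q v2) := ((r1_iff _ _ _).1 p2.1).1
    rw [← map_sub] at f1
    obtain ⟨p, hp⟩ := (hq (tt (-1) • (tt 3 • (v1 - v2) - tt 2 • (v1 - v2) + (v1 - v2)))).1 (by
      rw [P.eqv, map_add, map_sub, P.eqv, P.eqv, f1, smul_zero])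
    obtain ⟨k, hk⟩ := (hq ((2 ^ a : ℤ) • gm v1 v2)).1 (by
      have := l1_gm P.eqv 0 v1 v2
      rw [add_zero, add_zero] at this
      rw [map_zsmul, ← this, p3, ← map_zsmul, ha, map_zsmul, k2])
    rw [hp, hβ, l1_f, hw1]
    change (2 ^ a : ℤ) • (om (tt (-1)) (om (tt (-1)) w)).f _ = 0
    rw [l1_f, l1_f, ← map_zsmul]
    have j1 := congrArg (fun φ : Du (RM η) => φ.f (-(tt 2 • om (tt 1) k))) hw
    change w.f ((tt 3)⁻¹ • _) - w.f ((tt 1)⁻¹ • _) + w.f _ = 0 at j1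
    rw [← map_sub, ← map_add] at j1
    rw [← j1]
    congr 1
    have t2 : RM.c η (η (tt 2)) = RM.c η (η (tt 1)) ^ 2 := map_pow η (tt 1) 2
    have t3 : RM.c η (η (tt 3)) = RM.c η (η (tt 1)) ^ 3 := map_pow η (tt 1) 3
    have t4 : RM.c η (η (tt 3)⁻¹) = RM.c η (η (tt (-1))) ^ 3 :=
      (congrArg η (show (tt 3)⁻¹ = tt (-1) ^ 3 by decide)).trans (map_pow η (tt (-1)) 3)
    have t5 : RM.c η (η (tt 1)) * RM.c η (η (tt (-1))) = 1 :=
      (map_mul η _ _).symm.trans (map_one η)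
    have t6 : (tt 1)⁻¹ = tt (-1) := rfl
    have hreg : ∀ a : RM η, RM.c η δ * a = 0 → a = 0 := hLR.reg δ hδ
    refine sub_eq_zero.1 (hreg _ ?_)
    simp only [gm, om, RM.smul_def, t2, t3, t4, t6, zsmul_eq_mul] at hp hk ⊢
    generalize RM.c η (η (tt 1)) = T at *
    generalize RM.c η (η (tt (-1))) = U at *
    generalize ((2 ^ a : ℤ) : RM η) = c at *
    linear_combination (-(c * (1 - T) ^ 3)) * hp - U * (1 - T) * (T ^ 3 - T ^ 2 + 1) * hk +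
      RM.c η δ * (1 - T) * k * (U * (T * U + 1) - T ^ 2) * t5
  have e0 : afn (l1_om (Du (RM η)) (tt 1)) 0 = l1_om _ (tt 1) := funext fun _ => add_zero _
  have a3 := k_nat (l1_eqv (tt 1)) 0 a1
  rw [e0] at a3
  obtain ⟨m, c, hc, e⟩ := C.res_sur (col_map c1 (hom_eqv (l1_eqv (tt 1))))
    ⟨n, fun i => by rw [C.xs_nat (l1_eqv _) c1]; exact hn i⟩
  obtain ⟨ψ, p1, p2⟩ := key _ m c hc
  have p3 := isK_lab (e ▸ p2) a3
  have p4 := l1_hh p1 m m1 m2 m3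
  have e1 : ψ m1 + m = _ := congrArg (fun y => y.a.m) p3
  have e2 : ψ m2 + m = _ := congrArg (fun y => y.b.m) p3
  have e3 : ψ m3 + m = _ := congrArg (fun y => y.c.m) p3
  rw [e1, e2, e3] at p4
  have p5 := congrArg ((2 ^ b : ℤ) • ·) p4
  simp only [← map_zsmul ψ, hb] at p5
  rw [map_zsmul, k3] at p5
  have g2 := l1_kg_z (2 ^ (a + b)) hw
  have g3 := l1_kg (l1_eqv (tt (-1))) g2
  have g4 := l1_kg (l1_eqv (tt (-1))) g3
  have p6 := l1_inj' g2 (l1_inj' g3 (l1_inj g4 (l1_inj' (l1_kg (l1_eqv (tt 1)) g4) (by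
    rw [← neg_eq_zero, ← p5, hw1]
    change -l1_om _ (tt (-1)) (l1_om _ (tt 1) (l1_om _ (tt (-1)) (l1_om _ (tt (-1))
      ((2 ^ (a + b) : ℤ) • w)))) = (2 ^ b : ℤ) • l1_om _ (tt (-1)) (l1_om _ (tt 1)
      (l1_om _ _ 0 - l1_om _ _ 0) - (l1_om _ (tt 1) ((2 ^ a : ℤ) • l1_om _ (tt (-1))
      (l1_om _ (tt (-1)) w)) - l1_om _ _ 0))
    simp only [map_zero, sub_zero, zero_sub, map_neg, map_zsmul, smul_neg, smul_smul, pow_add,
      mul_comm]))))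
  refine hw0 ?_
  rw [show N - 1 = N - 1 - (a + b) + (a + b) by omega, pow_add, mul_smul, p6, smul_zero]

end Pool.Agent.AS
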