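import Pool.Agent.Lib.MP_dae8ad_gt.T.Lin1

namespace Pool.Agent.AS

theorem l1a_ext {M N : Type} [AddCommGroup M] [AddCommGroup N] (f : M →+ N)
    (Φ : M →+ AddCircle (1 : ℚ)) (h : ∀ u, f u = 0 → Φ u = 0) :
    ∃ Ψ : N →+ AddCircle (1 : ℚ), ∀ u, Ψ (f u) = Φ u := by
  obtain ⟨Ψ, hΨ⟩ := (Module.Baer.of_divisible (AddCircle (1 : ℚ))).extension_property_addMonoidHom
    (QuotientAddGroup.kerLift f) (QuotientAddGroup.kerLift_injective f)
    (QuotientAddGroup.lift f.ker Φ fun u hu => h u hu)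
  exact ⟨Ψ, fun u => DFunLike.congr_fun hΨ (QuotientAddGroup.mk u)⟩

section
variable {A : Type} [CommRing A] {η : G1 →* A} {ε : A →+* ZMod 2} {cj : A →+* A}

/-- A character of `RM η` read on `A`. -/
def l1a_f (φ : Du (RM η)) : A →+ AddCircle (1 : ℚ) := φ

theorem l1a_om (g : G1) (a : A) : om g (RM.c η a) = RM.c η ((1 - η g) * a) :=
  show a - η g * a = (1 - η g) * a by ring

theorem l1a_ev {ι : Type} [Fintype ι] (r : ι → G1 →₀ ℤ) (c : ι → A) :
    evF r (fun k => RM.c η (c k)) = RM.c η (∑ k, hat η (r k) * c k) :=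
  Finset.sum_congr rfl fun k _ => ap_RM η (r k) _

theorem l1a_omD (h : LR η ε cj) (g : G1) (φ : Du (RM η)) (a : A) :
    l1a_f (om g φ) a = l1a_f φ (cj (1 - η g) * a) := by
  rw [map_sub, map_one, h.cjη, sub_mul, one_mul, map_sub]
  rfl

/-- Evaluation of a character. -/
def l1a_at (η : G1 →* A) (a : A) : Du (RM η) →+ AddCircle (1 : ℚ) :=
  ⟨⟨fun φ => l1a_f φ a, rfl⟩, fun _ _ => rfl⟩

theorem l1a_zero (φ : Du (RM η)) (h : ∀ a, l1a_at η a φ = 0) : φ = 0 := AddMonoidHom.ext h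

theorem l1a_apD (h : LR η ε cj) (r : G1 →₀ ℤ) (φ : Du (RM η)) (a : A) :
    l1a_at η a (ap r φ) = l1a_f φ (cj (hat η r) * a) := by
  unfold ap hat Finsupp.sum
  rw [map_sum, map_sum, Finset.sum_mul, map_sum]
  refine Finset.sum_congr rfl fun g _ => ?_
  beta_reduce
  rw [map_zsmul, map_mul cj, map_intCast, h.cjη, mul_assoc, ← zsmul_eq_mul, map_zsmul]
  rfl

theorem l1a_unit (h : LR η ε cj) (g : G1) (hg : g = tt 1 ∨ g = tt (-1)) :
    ∃ e e' : A, e * e' = 1 ∧ ε e = 1 ∧ 1 - η g = (1 - η (tt 1)) * e := by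
  have h1 : η (tt (-1)) * η (tt 1) = 1 := by rw [← map_mul, tt_neg, inv_mul_cancel, map_one]
  rcases hg with rfl | rfl
  · exact ⟨1, 1, one_mul _, map_one _, (mul_one _).symm⟩
  · refine ⟨-η (tt (-1)), -η (tt 1), by rw [neg_mul_neg, h1], ?_, by linear_combination -h1⟩
    rw [map_neg, h.eps]; rfl

end

/-- Maximality at the first level.  `1 - η (y i) = (1 - η t) e i` with the unit `e i = 1` or
`- η t⁻¹`.  Let `V' i k = hat η (V i k)`, `W k i = cj (e i * hat η (Pi i k))`; `horth` and `reg1`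
give `W V' = 0`; `lin_id` gives `δ`, `L`, `G`.  If `W u = 0` then `δ u = V' (L u)`, so the
functional `Φ u = ∑ (om (y i) (x i)) (u i)` vanishes on the kernel of `W`; extend it through `W`
(`AddCircle 1` is divisible: `Module.Baer.of_divisible`, `extension_property_addMonoidHom`) to
`Φ u = - ∑ n k ((W u) k)`.  Since `(ap r φ) m = φ (cj (hat η r) m)`, this says
`om (y i) (x i) + e i (Pi n) i = 0`, and `om (y i) = e i * om t`. -/
theorem l1_max {A : Type} [CommRing A] {η : G1 →* A} {ε : A →+* ZMod 2} {cj : A →+* A}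
    (h : LR η ε cj) {b d : ℕ} (V : Fin (b + d) → Fin d → G1 →₀ ℤ)
    (Pi : Fin (b + d) → Fin b → G1 →₀ ℤ) (y : Fin (b + d) → G1)
    (hy : ∀ i, y i = tt 1 ∨ y i = tt (-1))
    (t1 : ∀ c : Fin d → ZMod 2, (∀ i, ∑ k, (aug (V i k) : ZMod 2) * c k = 0) → c = 0)
    (t2 : ∀ c : Fin b → ZMod 2, (∀ i, ∑ k, (aug (Pi i k) : ZMod 2) * c k = 0) → c = 0)
    (horth : ∀ (c : Fin d → RM η) (n : Fin b → RM η),
      ∑ i, RM.c η (cj (evF (V i) c : RM η)) * om (y i) (evF (Pi i) n) = 0) :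
    ∃ δ : A, ε δ ≠ 0 ∧ ∀ x : Fin (b + d) → Du (RM η),
      (∀ (c : Fin d → RM η) (u : Fin (b + d) → RM η), (∀ i, evF (V i) c = RM.c η δ * u i) →
        ∑ i, (om (y i) (x i)).f (u i) = 0) →
      ∃ n : Fin b → Du (RM η), ∀ i, om (tt 1) (x i) + evF (Pi i) n = 0 := by
  classical
  choose e e' hee he1 hye using fun i => l1a_unit h (y i) (hy i)
  let V' : Matrix (Fin (b + d)) (Fin d) A := fun i k => hat η (V i k)
  let W : Matrix (Fin b) (Fin (b + d)) A := fun l i => cj (e i * hat η (Pi i l))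
  have hWV : W * V' = 0 := by
    ext l k
    have h0 := horth (fun k' => RM.c η ((_root_.Pi.single k 1 : Fin d → A) k'))
      (fun l' => RM.c η ((_root_.Pi.single l 1 : Fin b → A) l'))
    simp only [l1a_ev, l1a_om, _root_.Pi.single_apply, mul_ite, mul_one, mul_zero,
      Finset.sum_ite_eq', Finset.mem_univ, if_true] at h0
    have h1 : (1 - η (tt 1)) * ∑ i, cj (hat η (V i k)) * (e i * hat η (Pi i l)) = 0 := by
      rw [Finset.mul_sum]
      refine Eq.trans (Finset.sum_congr rfl fun i _ => ?_) h0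
      show _ = cj (hat η (V i k)) * ((1 - η (y i)) * hat η (Pi i l))
      rw [hye]; ring
    have h2 := congrArg cj (h.reg1 _ h1)
    rw [map_sum, map_zero] at h2
    rw [Matrix.mul_apply]
    refine Eq.trans (Finset.sum_congr rfl fun i _ => ?_) h2
    rw [map_mul, h.cjcj, mul_comm]
  obtain ⟨δ, L, G, hδ, hid⟩ := lin_id ε V' W hWV (by simp)
    (fun v hv => t1 v fun i => by
      have := congrFun hv i
      simpa only [Matrix.mulVec, dotProduct, Matrix.map_apply, V', eps_hat η ε h.eps,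
        _root_.Pi.zero_apply] using this)
    (fun v hv => t2 v fun i => by
      have := congrFun hv i
      simpa only [Matrix.mulVec, dotProduct, Matrix.map_apply, Matrix.transpose_apply, W,
        h.eps_cj, map_mul, he1, one_mul, eps_hat η ε h.eps, _root_.Pi.zero_apply] using this)
  refine ⟨δ, hδ, fun x hx => ?_⟩
  let Φ : (Fin (b + d) → A) →+ AddCircle (1 : ℚ) :=
    ∑ i, (l1a_f (om (y i) (x i))).comp (_root_.Pi.evalAddMonoidHom (fun _ => A) i)
  have hΦ : ∀ u, Φ u = ∑ i, l1a_f (om (y i) (x i)) (u i) := fun u => by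
    simp only [Φ, AddMonoidHom.finsetSum_apply]; rfl
  obtain ⟨Ψ, hΨ⟩ := l1a_ext W.mulVecLin.toAddMonoidHom Φ fun u hu => by
    rw [hΦ]
    refine hx (fun k => RM.c η (L.mulVec u k)) (fun i => RM.c η (u i)) fun i => ?_
    have h1 := congrArg (fun M => Matrix.mulVec M u i) hid
    have h2 : W.mulVec u = 0 := hu
    simp only [Matrix.add_mulVec, ← Matrix.mulVec_mulVec, h2, Matrix.mulVec_zero, add_zero,
      Matrix.smul_mulVec, Matrix.one_mulVec, _root_.Pi.smul_apply, smul_eq_mul] at h1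
    rw [l1a_ev]
    exact h1.symm
  refine ⟨fun l => (-(Ψ.comp (AddMonoidHom.single (fun _ => A) l)) : A →+ AddCircle (1 : ℚ)),
    fun i => l1a_zero _ fun a => ?_⟩
  have h1 := hΨ (_root_.Pi.single i (cj (e' i) * a))
  rw [hΦ, Finset.sum_eq_single i (fun j _ hj => by rw [_root_.Pi.single_eq_of_ne hj, map_zero])
    (by simp), _root_.Pi.single_eq_same, l1a_omD h, hye] at h1
  have h2 : ∀ z : A, cj (z * e i) * (cj (e' i) * a) = cj z * a := fun z => by
    rw [← mul_assoc, ← map_mul, mul_assoc, hee, mul_one]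
  have h3 : W.mulVecLin.toAddMonoidHom (_root_.Pi.single i (cj (e' i) * a)) =
      ∑ l, _root_.Pi.single l (cj (hat η (Pi i l)) * a) := by
    rw [Finset.univ_sum_single]
    funext l
    show W.mulVec _ l = _
    rw [Matrix.mulVec_single, ← h2 (hat η _), mul_comm (hat η _)]
    rfl
  rw [h2, h3, map_sum] at h1
  unfold evF
  rw [map_add, map_sum]
  simp only [l1a_apD h]
  show l1a_f (om (tt 1) (x i)) a + _ = 0
  rw [l1a_omD h, ← h1, ← Finset.sum_add_distrib]
  exact Finset.sum_eq_zero fun l _ => add_neg_cancel _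

/-- The pairing data for orthogonality: `q = 0`, `β p m = cj p * m`. -/
theorem exPD0 {A : Type} [CommRing A] {η : G1 →* A} {ε : A →+* ZMod 2} {cj : A →+* A}
    (h : LR η ε cj) : ∃ P : PD G1 (RM η) Unit (RM η) (RM η),
      ∀ p m, P.β p m = RM.c η (cj p) * m := by
  refine ⟨⟨0, fun _ _ => rfl, fun _ => ⟨0, rfl⟩, fun p m => RM.c η (cj p) * m,
    fun p p' _ _ m => ?_, fun p _ m m' => mul_add _ _ _, fun g p m _ => ?_⟩, fun _ _ => rfl⟩
  · have h1 : ∀ p p' m : A, cj (p + p') * m = cj p * m + cj p' * m := fun p p' m => by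
      rw [map_add, add_mul]
    exact h1 p p' m
  · have h1 : η g⁻¹ * η g = 1 := by rw [← map_mul, inv_mul_cancel, map_one]
    have h2 : ∀ p m : A, cj (η g * p) * (η g * m) = cj p * m := fun p m => by
      rw [map_mul, h.cjη]; linear_combination cj p * m * h1
    exact h2 p m

/-- The pairing data of `A → A / δ`: `N = RM ((Ideal.Quotient.mk (span {δ})).toMonoidHom.comp η)`,
`β p φ = φ (Function.invFun (δ * ·) p)`. -/
theorem exPD1 {A : Type} [CommRing A] (η : G1 →* A) (δ : A) (hδ : ∀ a, δ * a = 0 → a = 0) :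
    ∃ (N : Type) (_ : AddCommGroup N) (_ : DistribMulAction G1 N)
      (P : PD G1 (RM η) N (Du (RM η)) (AddCircle (1 : ℚ))),
      (∀ p, P.q p = 0 ↔ ∃ u, p = RM.c η δ * u) ∧ ∀ u φ, P.β (RM.c η δ * u) φ = φ.f u := by
  have hinj : Function.Injective fun a : A => δ * a := fun a a' ha =>
    sub_eq_zero.1 (hδ _ (by rw [mul_sub]; exact sub_eq_zero.2 ha))
  have hi : ∀ u : A, Function.invFun (fun a : A => δ * a) (δ * u) = u :=
    Function.leftInverse_invFun hinj
  have hq : ∀ p : A, Ideal.Quotient.mk (Ideal.span {δ}) p = 0 ↔ ∃ u, p = δ * u := fun p => by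
    rw [Ideal.Quotient.eq_zero_iff_mem, Ideal.mem_span_singleton]; rfl
  refine ⟨RM ((Ideal.Quotient.mk (Ideal.span {δ})).toMonoidHom.comp η), inferInstance,
    inferInstance, ⟨(Ideal.Quotient.mk (Ideal.span {δ})).toAddMonoidHom,
      fun g m => map_mul (Ideal.Quotient.mk (Ideal.span {δ})) (η g) m,
      Ideal.Quotient.mk_surjective (I := Ideal.span {δ}),
      fun p φ => l1a_f φ (Function.invFun (fun a : A => δ * a) p), fun p p' hp hp' φ => ?_,
      fun _ _ _ _ => rfl, fun g p φ hp => ?_⟩, hq, fun u φ => congrArg (l1a_f φ) (hi u)⟩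
  · obtain ⟨u, rfl⟩ := (hq p).1 hp
    obtain ⟨u', rfl⟩ := (hq p').1 hp'
    show l1a_f φ (Function.invFun _ (δ * u + δ * u')) = _
    rw [← mul_add, hi, hi, hi, map_add]
  · obtain ⟨u, rfl⟩ := (hq p).1 hp
    show l1a_f φ (η g⁻¹ * Function.invFun _ (η g * (δ * u))) = _
    rw [mul_left_comm, hi, hi, ← mul_assoc, ← map_mul, inv_mul_cancel, map_one, one_mul]

end Pool.Agent.AS
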