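import Pool.Agent.Lib.MP_dae8ad_gt.T.LbDefs
import Pool.Agent.Lib.MP_dae8ad_gt.S.SDefs

/-! Modules used as coefficients. -/

namespace Pool.Agent.AS

/-- A commutative ring on which `G` acts through a character. -/
def RM {G A : Type} [Group G] [CommRing A] (_η : G →* A) := A

instance {G A : Type} [Group G] [CommRing A] (η : G →* A) : CommRing (RM η) :=
  inferInstanceAs (CommRing A)

def RM.c {G A : Type} [Group G] [CommRing A] (η : G →* A) (a : A) : RM η := a

instance {G A : Type} [Group G] [CommRing A] (η : G →* A) : DistribMulAction G (RM η) where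
  smul g a := RM.c η (η g) * a
  one_smul a := show RM.c η (η 1) * a = a by rw [map_one]; exact one_mul a
  mul_smul g h a := show RM.c η (η (g * h)) * a = RM.c η (η g) * (RM.c η (η h) * a) by
    rw [map_mul]; exact mul_assoc _ _ _
  smul_zero _ := mul_zero _
  smul_add _ _ _ := mul_add _ _ _

theorem RM.smul_def {G A : Type} [Group G] [CommRing A] (η : G →* A) (g : G) (a : RM η) :
    g • a = RM.c η (η g) * a := rfl

/-- The image of an element of the group ring. -/
def hat {G A : Type} [Group G] [CommRing A] (η : G →* A) (r : G →₀ ℤ) : A :=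
  r.sum fun g n => (n : A) * η g

/-- The character module. -/
def Du (M : Type) [AddCommGroup M] := M →+ AddCircle (1 : ℚ)

noncomputable instance (M : Type) [AddCommGroup M] : AddCommGroup (Du M) :=
  inferInstanceAs (AddCommGroup (M →+ AddCircle (1 : ℚ)))

def Du.f {M : Type} [AddCommGroup M] (φ : Du M) : M →+ AddCircle (1 : ℚ) := φ

noncomputable instance {G M : Type} [Group G] [AddCommGroup M] [DistribMulAction G M] :
    DistribMulAction G (Du M) where
  smul g φ := φ.f.comp (DistribSMul.toAddMonoidHom M g⁻¹)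
  one_smul φ := AddMonoidHom.ext fun m => show φ.f ((1 : G)⁻¹ • m) = φ.f m by simp
  mul_smul g h φ := AddMonoidHom.ext fun m =>
    show φ.f ((g * h)⁻¹ • m) = φ.f (h⁻¹ • g⁻¹ • m) by rw [mul_inv_rev, mul_smul]
  smul_zero _ := rfl
  smul_add _ _ _ := rfl

theorem Du.smul_f {G M : Type} [Group G] [AddCommGroup M] [DistribMulAction G M] (g : G)
    (φ : Du M) (m : M) : (g • φ).f m = φ.f (g⁻¹ • m) := rfl

/-- Laurent polynomials modulo `2 ^ N`, as far as they are used. -/
structure LR {A : Type} [CommRing A] (η : G1 →* A) (ε : A →+* ZMod 2) (cj : A →+* A) : Prop where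
  eps : ∀ g, ε (η g) = 1
  cjη : ∀ g, cj (η g) = η g⁻¹
  cjcj : ∀ a, cj (cj a) = a
  eps_cj : ∀ a, ε (cj a) = ε a
  reg : ∀ δ, ε δ ≠ 0 → ∀ a, δ * a = 0 → a = 0
  reg1 : ∀ a, (1 - η (tt 1)) * a = 0 → a = 0

/-- A weighted shift representation. -/
structure SR (G O : Type) [Group G] [CommRing O] where
  dg : G → ℤ
  ρ : ℤ → G → O
  dg_mul : ∀ g h, dg (g * h) = dg g + dg h
  ρ_one : ∀ j, ρ j 1 = 1
  ρ_mul : ∀ j g h, ρ j (g * h) = ρ j g * ρ (j - dg g) h

theorem SR.dg_one {G O : Type} [Group G] [CommRing O] (R : SR G O) : R.dg 1 = 0 := by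
  have := R.dg_mul 1 1
  rw [one_mul] at this
  omega

/-- Sequences bounded in the directions `e ∈ E`. -/
def sqS (E : Set ℤ) (N : Type) [AddCommGroup N] : AddSubgroup (ℤ → N) where
  carrier := {v | ∀ e ∈ E, Bd e v}
  zero_mem' _ _ := ⟨0, fun _ _ => rfl⟩
  add_mem' {u v} hu hv e he := by
    obtain ⟨J, hJ⟩ := hu e he
    obtain ⟨J', hJ'⟩ := hv e he
    exact ⟨min J J', fun j hj => by
      rw [Pi.add_apply, hJ j (lt_min_iff.1 hj).1, hJ' j (lt_min_iff.1 hj).2, add_zero]⟩
  neg_mem' {u} hu e he := by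
    obtain ⟨J, hJ⟩ := hu e he
    exact ⟨J, fun j hj => by rw [Pi.neg_apply, hJ j hj, neg_zero]⟩

def Sq {G O : Type} [Group G] [CommRing O] (_R : SR G O) (E : Set ℤ) (N : Type)
    [AddCommGroup N] : Type := ↥(sqS E N)

section
variable {G O : Type} [Group G] [CommRing O] (R : SR G O) (E : Set ℤ) (N : Type) [AddCommGroup N]

instance : AddCommGroup (Sq R E N) := inferInstanceAs (AddCommGroup ↥(sqS E N))

variable {R E N}

def Sq.v (m : Sq R E N) : ℤ → N := Subtype.val m

theorem Sq.bd (m : Sq R E N) : ∀ e ∈ E, Bd e m.v := Subtype.property m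

theorem Sq.ext {m m' : Sq R E N} (h : ∀ j, m.v j = m'.v j) : m = m' := Subtype.ext (funext h)

def Sq.mk (v : ℤ → N) (h : ∀ e ∈ E, Bd e v) : Sq R E N := Subtype.mk v h

theorem Sq.v_add (m m' : Sq R E N) (j : ℤ) : (m + m').v j = m.v j + m'.v j := rfl
theorem Sq.v_zero (j : ℤ) : (0 : Sq R E N).v j = 0 := rfl
theorem Sq.v_neg (m : Sq R E N) (j : ℤ) : (-m).v j = -m.v j := rfl
theorem Sq.v_sub (m m' : Sq R E N) (j : ℤ) : (m - m').v j = m.v j - m'.v j := rfl

/-- The value at an index as an additive map. -/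
def Sq.ev (j : ℤ) : Sq R E N →+ N := ⟨⟨fun m => m.v j, rfl⟩, fun _ _ => rfl⟩

variable [Module O N]

instance : DistribMulAction G (Sq R E N) where
  smul g m := Sq.mk (fun j => R.ρ j g • m.v (j - R.dg g)) fun e he => by
    obtain ⟨J, hJ⟩ := m.bd e he
    exact ⟨J + e * R.dg g, fun j hj => by
      show R.ρ j g • m.v (j - R.dg g) = 0
      rw [hJ _ (by rw [mul_sub]; omega), smul_zero]⟩
  one_smul m := Sq.ext fun j => show R.ρ j 1 • m.v (j - R.dg 1) = m.v j by
    rw [R.ρ_one, R.dg_one, sub_zero, one_smul]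
  mul_smul g h m := Sq.ext fun j =>
    show R.ρ j (g * h) • m.v (j - R.dg (g * h)) =
      R.ρ j g • R.ρ (j - R.dg g) h • m.v (j - R.dg g - R.dg h) by
    rw [R.ρ_mul, R.dg_mul, mul_smul, sub_sub]
  smul_zero _ := Sq.ext fun _ => smul_zero _
  smul_add _ _ _ := Sq.ext fun _ => smul_add _ _ _

theorem Sq.v_smul (g : G) (m : Sq R E N) (j : ℤ) : (g • m).v j = R.ρ j g • m.v (j - R.dg g) := rfl

omit [Module O N] in
/-- The sequence concentrated at the index `0`. -/
def dlt (R : SR G O) (E : Set ℤ) (z : N) : Sq R E N :=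
  Sq.mk (fun j => if j = 0 then z else 0) fun _ _ =>
    ⟨0, fun j hj => if_neg (by rintro rfl; simp at hj)⟩

end

/-- The banded matrix of a matrix over the group ring; `f` reads the weights in `K`. -/
noncomputable def kerOf {G O K p q : Type} [Group G] [CommRing O] [Field K] (R : SR G O)
    (f : O →+* K) (φ : p → q → G →₀ ℤ) : Ker K p q :=
  fun j j' a b => (φ a b).sum fun g n => if R.dg g = j - j' then (n : K) * f (R.ρ j g) else 0

/-- The rows of `φ` multiplied by `1 - y i`. -/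
noncomputable def omF {G p q : Type} [Group G] (y : p → G) (φ : p → q → G →₀ ℤ) :
    p → q → G →₀ ℤ := fun i k => φ i k - (φ i k).mapDomain (y i * ·)

/-- The representation of the affine group given by a character of `X`. -/
def srOf {X K : Type} [AddCommGroup X] [DistribMulAction G1 X] [Field K] {O : Subring K}
    {cj : K →+* K} {τ : K ≃+* K} {n : ℕ} {χ : X → K} (h : Good X O cj τ n χ) : SR (Aff G1 X) O where
  dg g := g.g.toAdd
  ρ j g := ⟨χ (tt (-j) • g.a), h.chi_mem _⟩
  dg_mul _ _ := rfl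
  ρ_one j := Subtype.ext (show χ (tt (-j) • (0 : X)) = 1 by rw [smul_zero, h.chi_zero])
  ρ_mul j g g' := Subtype.ext (show χ (tt (-j) • (g.a + g.g • g'.a)) =
      χ (tt (-j) • g.a) * χ (tt (-(j - g.g.toAdd)) • g'.a) by
    rw [smul_add, h.chi_add, smul_smul, neg_sub, sub_eq_neg_add, tt_add]; rfl)

end Pool.Agent.AS
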