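import Pool.Agent.Lib.MP_dae8ad_gt.T.BDefs

/-! Labels in a group and a module; the state sum `Lam`. -/

namespace Pool.Agent.AS

/-- Orientation, meridian and a cocycle value. -/
@[ext] structure Lb (G M : Type) where
  s : Bool
  x : G
  m : M

abbrev Lb0 (G : Type) := Lb G Unit

section
variable {G M M' : Type}

def Lb.mp (ψ : M → M') (y : Lb G M) : Lb G M' := ⟨y.s, y.x, ψ y.m⟩

/-- Forget the module value. -/
def bs : Lb G M → Lb0 G := Lb.mp fun _ => ()

def cst (m : M) : Lb0 G → Lb G M := Lb.mp fun _ => m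

def zipL (y : Lb G M) (z : Lb G M') : Lb G (M × M') := ⟨y.s, y.x, (y.m, z.m)⟩

def zipl [Zero M'] (l : L (Lb G M)) (l' : L (Lb G M')) : L (Lb G (M × M')) :=
  match l.2, l'.2 with
  | .cup y, .cup z => (l.1, .cup (zipL y z))
  | k, _ => (l.1, k.map (Lb.mp fun m => (m, 0)))

def zipW [Zero M'] (w : List (L (Lb G M))) (w' : List (L (Lb G M'))) : List (L (Lb G (M × M'))) :=
  List.zipWith zipl w w'

variable [Group G] [AddCommGroup M] [DistribMulAction G M] [AddCommGroup M']
  [DistribMulAction G M']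

instance : Lab (Lb G M) :=
  ⟨fun p q => ⟨q.s, p.x * q.x * p.x⁻¹, p.m + p.x • (q.m - p.m)⟩, fun p => ⟨!p.s, p.x⁻¹, p.m⟩⟩

theorem act_s (p q : Lb G M) : (Lab.act p q).s = q.s := rfl
theorem act_x (p q : Lb G M) : (Lab.act p q).x = p.x * q.x * p.x⁻¹ := rfl
theorem act_m (p q : Lb G M) : (Lab.act p q).m = p.m + p.x • (q.m - p.m) := rfl
theorem rho_s (p : Lb G M) : (Lab.rho p).s = !p.s := rfl
theorem rho_x (p : Lb G M) : (Lab.rho p).x = p.x⁻¹ := rfl
theorem rho_m (p : Lb G M) : (Lab.rho p).m = p.m := rfl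

instance : SQ (Lb G M) where
  rho_rho p := by ext <;> simp [rho_s, rho_x, rho_m]
  act_rho_act p q := by ext <;> simp [act_s, act_x, act_m, rho_x, rho_m, mul_assoc]
  act_act p q r := by
    ext
    · rfl
    · simp [act_x, mul_assoc]
    · simp only [act_x, act_m, smul_add, smul_sub, mul_smul, inv_smul_smul]; abel
  rho_act p q := by ext <;> simp [act_s, act_x, act_m, rho_s, rho_x, rho_m, mul_assoc]
  act_self p := by ext <;> simp [act_s, act_x, act_m]

def Eqv (G : Type) {M M' : Type} [Group G] [AddCommGroup M] [DistribMulAction G M]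
    [AddCommGroup M'] [DistribMulAction G M'] (ψ : M →+ M') : Prop :=
  ∀ (g : G) m, ψ (g • m) = g • ψ m

def afn (ψ : M →+ M') (m0 : M') : M → M' := fun m => ψ m + m0

theorem hom_mp {ψ : M → M'} (h : ∀ (g : G) a b, ψ (a + g • (b - a)) = ψ a + g • (ψ b - ψ a)) :
    Hom (Lb.mp ψ : Lb G M → Lb G M') :=
  ⟨fun _ _ => Lb.ext rfl rfl (h _ _ _), fun _ => rfl⟩

theorem hom_afn {ψ : M →+ M'} (h : Eqv G ψ) (m0 : M') :
    Hom (Lb.mp (afn ψ m0) : Lb G M → Lb G M') :=
  hom_mp fun g a b => by simp only [afn, map_add, h g, map_sub, add_sub_add_right_eq_sub]; abel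

theorem hom_eqv {ψ : M →+ M'} (h : Eqv G ψ) : Hom (Lb.mp ψ : Lb G M → Lb G M') :=
  hom_mp fun g a b => by simp only [map_add, h g, map_sub]

theorem hom_bs : Hom (bs : Lb G M → Lb0 G) := hom_mp fun _ _ _ => rfl

theorem hom_cst (m : M) : Hom (cst m : Lb0 G → Lb G M) := hom_mp fun _ _ _ => by simp

theorem hom_s : Hom (Lb.s : Lb G M → Bool) := ⟨fun _ _ => rfl, fun _ => rfl⟩

theorem hom_fst : Hom (Lb.mp Prod.fst : Lb G (M × M') → Lb G M) := hom_mp fun _ _ _ => rfl

theorem hom_snd : Hom (Lb.mp Prod.snd : Lb G (M × M') → Lb G M') := hom_mp fun _ _ _ => rfl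

/-- `(1 - g) m`. -/
def om (g : G) (m : M) : M := m - g • m

/-- The action of an element of the group ring. -/
def ap (r : G →₀ ℤ) (m : M) : M := r.sum fun g n => n • g • m

def evF {ι : Type} [Fintype ι] (φ : ι → G →₀ ℤ) (c : ι → M) : M := ∑ k, ap (φ k) (c k)

def aug (r : G →₀ ℤ) : ℤ := r.sum fun _ n => n

/-- Colourings over the base word `K0`. -/
def Col (K0 : List (L (Lb0 G))) (b : List (L (Lb G M))) : Prop := Run b [] [] ∧ mapW bs b = K0

end

/-- The affine group of a module. -/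
@[ext] structure Aff (G M : Type) where
  a : M
  g : G

section
variable {G M : Type} [Group G] [AddCommGroup M] [DistribMulAction G M]

instance : Group (Aff G M) where
  mul p q := ⟨p.a + p.g • q.a, p.g * q.g⟩
  one := ⟨0, 1⟩
  inv p := ⟨-(p.g⁻¹ • p.a), p.g⁻¹⟩
  mul_assoc p q r := Aff.ext
    (show p.a + p.g • q.a + (p.g * q.g) • r.a = p.a + p.g • (q.a + q.g • r.a) by
      rw [smul_add, mul_smul, add_assoc]) (mul_assoc _ _ _)
  one_mul p := Aff.ext (show 0 + (1 : G) • p.a = p.a by simp) (one_mul _)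
  mul_one p := Aff.ext (show p.a + p.g • (0 : M) = p.a by simp) (mul_one _)
  inv_mul_cancel p := Aff.ext (show -(p.g⁻¹ • p.a) + p.g⁻¹ • p.a = 0 by simp) (inv_mul_cancel _)

theorem Aff.mul_a (p q : Aff G M) : (p * q).a = p.a + p.g • q.a := rfl
theorem Aff.mul_g (p q : Aff G M) : (p * q).g = p.g * q.g := rfl
theorem Aff.inv_a (p : Aff G M) : p⁻¹.a = -(p.g⁻¹ • p.a) := rfl
theorem Aff.inv_g (p : Aff G M) : p⁻¹.g = p.g⁻¹ := rfl
theorem Aff.one_a : (1 : Aff G M).a = 0 := rfl
theorem Aff.one_g : (1 : Aff G M).g = 1 := rfl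

/-- The affine map of a label. -/
def toG (y : Lb G M) : Lb0 (Aff G M) := ⟨y.s, ⟨om y.x y.m, y.x⟩, ()⟩

theorem hom_toG : Hom (toG : Lb G M → Lb0 (Aff G M)) where
  act p q := by
    refine Lb.ext rfl (Aff.ext ?_ rfl) rfl
    simp only [toG, om, act_x, act_m, Aff.mul_a, Aff.mul_g, Aff.inv_a, smul_add, smul_sub,
      smul_neg, mul_smul, inv_smul_smul]
    abel
  rho p := by
    refine Lb.ext rfl (Aff.ext ?_ rfl) rfl
    simp only [toG, om, rho_x, rho_m, Aff.inv_a, smul_sub, inv_smul_smul]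
    abel

end

/-- A surjection `q` and an invariant pairing of its kernel with a second module. -/
structure PD (G M1 N M2 A : Type) [Group G] [AddCommGroup M1] [DistribMulAction G M1]
    [AddCommGroup N] [DistribMulAction G N] [AddCommGroup M2] [DistribMulAction G M2]
    [AddCommGroup A] where
  q : M1 →+ N
  eqv : Eqv G q
  surj : Function.Surjective q
  β : M1 → M2 → A
  add1 : ∀ p p', q p = 0 → q p' = 0 → ∀ m, β (p + p') m = β p m + β p' m
  add2 : ∀ p, q p = 0 → ∀ m m', β p (m + m') = β p m + β p m'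
  inv : ∀ (g : G) p m, q p = 0 → β (g • p) (g • m) = β p m

section
variable {G M M1 N M2 A : Type} [Group G] [AddCommGroup M] [DistribMulAction G M]
  [AddCommGroup M1] [DistribMulAction G M1] [AddCommGroup N] [DistribMulAction G N]
  [AddCommGroup M2] [DistribMulAction G M2] [AddCommGroup A]

/-- The label of the region to the right of a strand. -/
def reg1 (y : Lb G (M × M2)) (ρ : M2) : M2 := y.m.2 + y.x⁻¹ • (ρ - y.m.2)

def reg (ρ : M2) (a : List (Lb G (M × M2))) : M2 := a.foldl (fun ρ y => reg1 y ρ) ρ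

noncomputable def PD.sec (P : PD G M1 N M2 A) : N → M1 := Function.surjInv P.surj

noncomputable def PD.sig (P : PD G M1 N M2 A) : Lb G (N × M2) → Lb G (M1 × M2) :=
  Lb.mp fun m => (P.sec m.1, m.2)

def PD.qq (P : PD G M1 N M2 A) : Lb G (M1 × M2) → Lb G (N × M2) := Lb.mp fun m => (P.q m.1, m.2)

/-- The defect of a lifted level against the chosen lifts. -/
noncomputable def OmS (P : PD G M1 N M2 A) : M2 → List (Lb G (M1 × M2)) → A
  | _, [] => 0
  | ρ, y :: a => P.β (P.sec (P.q y.m.1) - y.m.1) (reg1 y ρ - ρ) + OmS P (reg1 y ρ) a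

/-- The linking form as a state sum. -/
noncomputable def Lam (P : PD G M1 N M2 A) (ρ : M2) :
    List (L (Lb G (N × M2))) → List (Lb G (N × M2)) → A
  | [], _ => 0
  | l :: w, a => OmS P ρ (next (l.1, l.2.map P.sig) (a.map P.sig)) + Lam P ρ w (next l a)

theorem PD.hom_qq (P : PD G M1 N M2 A) : Hom P.qq :=
  hom_mp fun g a b => by simp only [Prod.ext_iff, Prod.fst_add, Prod.smul_fst, Prod.fst_sub,
    map_add, P.eqv g, map_sub, Prod.snd_add, Prod.smul_snd, Prod.snd_sub, and_self]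

end

end Pool.Agent.AS
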