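import Pool.Agent.Lib.MP_dae8ad_gt.T.Lev2a
import Pool.Agent.Lib.MP_dae8ad_gt.S.SeqFin

namespace Pool.Agent.AS

variable {G K : Type} [Group G] [Field K] {O : Subring K} {cj : K →+* K} {R : SR G O} {g : ℕ}
  {S : SW g} {y0 : Tri (Lb0 G)} {Q : G → Prop} {τ : K ≃+* K} {n w : ℕ}

theorem lev2_bd {p N : Type} [Finite p] [AddCommGroup N] {e : ℤ} (c : p → Sq R {e} N) :
    Bd e fun j i => (c i).v j := by
  choose J hJ using fun i => (c i).bd e rfl
  obtain ⟨M, hM⟩ := Finite.exists_ge J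
  exact ⟨M, fun j hj => funext fun i => hJ i j (hj.trans_le (hM i))⟩

/-- The columns of a bounded sequence of vectors. -/
theorem lev2_col {p : Type} {e : ℤ} (f : K →+* K) {u : ℤ → p → K} (hu : Bd e u) :
    ∃ c : p → Sq R {e} K, ∀ j k, (c k).v j = f (u j k) :=
  ⟨fun k => Sq.mk (fun j => f (u j k)) fun _ h => by
    obtain ⟨J, hJ⟩ := hu
    exact ⟨J, fun j hj => (congrArg f (congrFun (hJ j (Set.mem_singleton_iff.1 h ▸ hj)) k)).trans
      (map_zero f)⟩,
    fun _ _ => rfl⟩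

theorem lev2_col0 {M : Type} [AddCommGroup M] [DistribMulAction G M] {m : M}
    {Y : N3 (Fin g × Bool) → M} {b : List (L (Lb G M))} (h : IsK S (y0.map (cst m)) Y b) :
    Col (KG y0 S) b := (k_col h).1

theorem lev2_nat {M M' : Type} [AddCommGroup M] [DistribMulAction G M] [AddCommGroup M']
    [DistribMulAction G M'] {ψ : M →+ M'} (hψ : Eqv G ψ) {m : M} {m0 : M'} (h0 : ψ m + m0 = 0)
    {Y : N3 (Fin g × Bool) → M} {b : List (L (Lb G M))} (h : IsK S (y0.map (cst m)) Y b) :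
    IsK S (y0.map (cst 0)) (ψ ∘ Y) (mapW (Lb.mp (afn ψ m0)) b) := by
  have h1 : (y0.map (cst m)).map (Lb.mp (afn ψ m0)) = y0.map (cst (ψ m + m0)) := rfl
  rw [← h0, ← h1]
  exact k_nat hψ m0 h

/-- `X` lifts the site values of the colourings with box data `y`. -/
def Lev2X (R : SR G O) (C : SD G Q (KG y0 S)) (y : N3 (Fin g × Bool) → K)
    (X : ℤ → Fin (C.b + C.d) → K) : Prop :=
  ∀ e : ℤ, e = 1 ∨ e = -1 → ∀ b, IsK S (y0.map (cst 0)) (dq R {e} y) b →
    ∃ x : Fin (C.b + C.d) → Sq R {e} K, (∀ i, redS R {e} (x i) = om (C.yv i) (C.xs b i)) ∧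
      X = fun j i => (x i).v j

theorem lev2_X (H : Lv R S y0) (C : SD G Q (KG y0 S)) (y : N3 (Fin g × Bool) → K) :
    ∃ X, inL O ((Am R S y0).mulVec y) → Lev2X R C y X := by
  by_cases hy : inL O ((Am R S y0).mulVec y)
  · obtain ⟨a, ha⟩ := k_ex2 H {1, -1} 0 hy
    choose x hx using fun i => redS_surj R {1, -1} (om (C.yv i) (C.xs a i))
    refine ⟨fun j i => (x i).v j, fun _ e he b hb =>
      ⟨fun i => incS R e he K (x i), fun i => ?_, rfl⟩⟩
    have h1 := eqv_incS R e he (QO O)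
    have h2 : afn (incS R e he (QO O)) 0 = incS R e he (QO O) := funext fun _ => add_zero _
    rw [k_uniq H.hS hb (lev2_nat h1 ((add_zero _).trans (map_zero _)) ha), h2,
      C.xs_nat h1 (lev2_col0 ha), ← om_map h1, ← hx]
    rfl
  · exact ⟨0, fun h => absurd h hy⟩

theorem lev2_ext (C : SD G Q (KG y0 S)) (hQ : ∀ x, Q x → R.dg x = 1 ∨ R.dg x = -1) {e : ℤ}
    (he : e = 1 ∨ e = -1) {b : List (L (Lb G (Sq R {e} (QO O))))}
    {x : Fin (C.b + C.d) → Sq R {e} K} (hx : ∀ i, redS R {e} (x i) = om (C.yv i) (C.xs b i)) :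
    C.Ext b ↔ ∃ m, Bd e m ∧
      IntS O ((fun j i => (x i).v j) - app (kerOf R O.subtype (omF C.yv C.Pi)) m) := by
  have h1 := eqv_redS R ({e} : Set ℤ)
  have key : ∀ n : Fin C.b → Sq R {e} K, IntS O ((fun j i => (x i).v j) -
      app (kerOf R O.subtype (omF C.yv C.Pi)) fun j k => (n k).v j) ↔
      ∀ i, C.xs b i + evF (C.Pi i) (-(redS R {e} ∘ n)) = 0 := fun n => by
    refine forall_comm.trans (forall_congr' fun i => ?_)
    have h2 : evF (C.Pi i) (-(redS R {e} ∘ n)) = -evF (C.Pi i) (redS R {e} ∘ n) := by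
      rw [eq_neg_iff_add_eq_zero, ← evF_add, neg_add_cancel, evF_zero]
    have h3 : redS R {e} (x i - evF (omF C.yv C.Pi i) n) =
        om (C.yv i) (C.xs b i + evF (C.Pi i) (-(redS R {e} ∘ n))) := by
      rw [map_sub, hx, ev_omF, om_map h1, evF_map h1, h2]
      simp only [om, smul_add, smul_neg]
      abel
    refine Iff.trans (forall_congr' fun j => ?_)
      ((redS_zero R (x i - evF (omF C.yv C.Pi i) n)).symm.trans ⟨fun h =>
        om_inj R (E := {e}) rfl he (hQ _ (C.yv_Q i)) (h3.symm.trans h), fun h => by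
          rw [h3, h, om, smul_zero, sub_zero]⟩)
    rw [Sq.v_sub, show (evF (omF C.yv C.Pi i) n).v j = _ from ev_kerOf R (RingHom.id K) _ n j i]
    rfl
  constructor
  · rintro ⟨n, hn⟩
    choose n' hn' using fun k => redS_surj R {e} (-n k)
    refine ⟨_, lev2_bd n', (key n').2 fun i => ?_⟩
    rw [show -(redS R {e} ∘ n') = n from funext fun k => neg_eq_iff_eq_neg.2 (hn' k), hn]
  · rintro ⟨m, hm, h⟩
    obtain ⟨n, hn⟩ := lev2_col (R := R) (RingHom.id K) hm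
    obtain rfl : m = fun j k => (n k).v j := funext₂ fun j k => (hn j k).symm
    exact ⟨_, (key n).1 h⟩

theorem lev2_form (hv : VR O cj) (hu : ∀ j g, cj (R.ρ j g) * R.ρ j g = 1) (H : Lv R S y0)
    (C : SD G Q (KG y0 S)) {e : ℤ} (he : e = 1 ∨ e = -1) {c : Fin C.d → Sq R {e} K}
    (hc : ∀ i, redS R {e} (evF (C.V i) c) = 0) (m : Sq R {e} K) {m' : Sq R {e} (QO O)}
    {y y' : N3 (Fin g × Bool) → K} (hy : inL O ((Am R S y0).mulVec y))
    (hb : IsK S (y0.map (cst m')) (dq R {e} y) (C.res (redS R {e} m) (redS R {e} ∘ c)))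
    (hy' : inL O ((Am R S y0).mulVec y')) {X : ℤ → Fin (C.b + C.d) → K} (hX : Lev2X R C y' X) :
    bf cj (Am R S y0) (cm3 R g y0) y y' -
      pair (app (kerOf R (cj.comp O.subtype) C.V) fun j k => cj ((c k).v j)) X ∈ O := by
  obtain ⟨P, hq, hβ⟩ := exPD2 R hv hu he
  obtain ⟨a, ha⟩ := k_ex2 H {-e} 0 hy'
  obtain ⟨x, hx, rfl⟩ := hX (-e) (by omega) a ha
  obtain ⟨z, hz, h1, h2, h3⟩ := k_form H P hq hβ hy hb ha
  have h4 : (app (kerOf R (cj.comp O.subtype) C.V) fun j k => cj ((c k).v j)) =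
      fun j i => cj ((evF (C.V i) c).v j) := funext₂ fun j i => (ev_kerOf R cj _ c j i).symm
  have h5 : Bd e fun j i => cj ((evF (C.V i) c).v j) := by
    obtain ⟨J, hJ⟩ := lev2_bd fun i => evF (C.V i) c
    exact ⟨J, fun j hj => funext fun i => (congrArg cj (congrFun (hJ j hj) i)).trans (map_zero cj)⟩
  rw [h4, ← sum_pair he _ _ h5 (lev2_bd x), ← QO_zero, Submodule.Quotient.mk_sub, ← h3,
    C.idf P m c (hq ▸ hc) hz (hq ▸ h1) 0, sub_eq_zero, ← Submodule.mkQ_apply, map_sum]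
  refine Finset.sum_congr rfl fun i _ => ?_
  rw [evF_zero, add_zero, h2, ← hx, hβ _ ((redS_zero R _).1 (hc i)), Submodule.mkQ_apply]

/-- Apply `lagr_of`.  For `y` with `A y ∈ L` choose `a y` over the finite sequences `{1, -1}`
(`k_ex2` with `m = 0`) and lifts `x y i` (`redS_surj`) of `om (yv i) (xs (a y) i)`;
`Xf y j i = (x y i).v j`.  The image `a_e y` of `a y` under `incS e` is the colouring with labels
`cst 0` and data `dq {e} y` (`k_nat`).  Key fact (*): `Ext (a_e y) ↔ ∃ m, Bd e m ∧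
IntS (Xf y - app T m)` (`xs_nat`, `ev_omF`, `ev_kerOf` with the identity, `evF_map`, `om_map` for
`redS`, `redS_zero`, `om_inj`; `n k = - redS (m · k)`).  Key fact (**): if `c : Fin d → Sq {e} K`,
`m`, `y` satisfy `V c ∈ O` and `IsK (cst (q m)) (dq y) (res (q m) (q c))`, then for all `y'`
`bf y y' = pair (app V' (cj c)) (Xf y')` modulo `O` (`k_form`, `idf` with `n = 0`, `exPD2`,
`ev_kerOf`, `sum_pair`, `QO_zero`).  `hA`: `c k = cj (u · k)`, `b = res 0 (q c)` (`res_spec`,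
`res_ext`), `k_cls` gives `m'`, `y`; translating by `- m'` (`ext_nat`, `k_nat`, `k_uniq`) shows
`Ext (a_e y)`.  (In (**) the label `m'` need not be the base value of `res`: `k_form` allows any
`m`.)  `hB`: (*), `res_sur`, lift `m`, `c` along `redS`, (**). -/
theorem lev2 (hv : VR O cj) (hF : Far O τ) (hu : ∀ j g, cj (R.ρ j g) * R.ρ j g = 1)
    (H : Lv R S y0) (C : SD G Q (KG y0 S)) (hQ : ∀ x, Q x → R.dg x = 1 ∨ R.dg x = -1)
    (hD : Duo O τ n w (kerOf R (cj.comp O.subtype) C.V) (kerOf R O.subtype (omF C.yv C.Pi))) :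
    ∃ I, Lagr O cj (Am R S y0) (cm3 R g y0) I := by
  choose Xf hX using lev2_X H C
  have h1 := fun E => eqv_redS R E
  refine lagr_of hv.pid hF hD _ _ Xf (fun y hy => ?_) (fun e he u hb hi => ?_)
    fun e he y hy hm => ?_
  · have h2 : ∀ e : ℤ, e = 1 ∨ e = -1 → Bd e (Xf y) := fun e he => by
      obtain ⟨a, ha⟩ := k_ex2 H {e} 0 hy
      obtain ⟨x, -, hx⟩ := hX y hy e he a ha
      exact hx ▸ lev2_bd x
    exact ⟨h2 _ (.inl rfl), h2 _ (.inr rfl)⟩
  · obtain ⟨c, hc⟩ := lev2_col (R := R) cj hb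
    obtain rfl : u = fun j k => cj ((c k).v j) := funext₂ fun j k => by rw [hc, hv.cj_cj]
    have h2 : ∀ i, redS R {e} (evF (C.V i) c) = 0 := fun i => (redS_zero R _).2 fun j => by
      rw [← hv.cj_cj (Sq.v _ j), ev_kerOf]
      exact hv.cj_mem _ (hi j i)
    have h3 : C.KV (redS R {e} ∘ c) := fun i => (evF_map (h1 _) _ _).symm.trans (h2 i)
    obtain ⟨m, y, hy, hk⟩ := k_cls H he (C.res_spec (redS R {e} 0) h3).2.2.2.1
    have h4 : Eqv G (AddMonoidHom.id (Sq R {e} (QO O))) := fun _ _ => rfl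
    obtain ⟨x, hx, hx'⟩ := hX y hy e he _ (lev2_nat h4 (add_neg_cancel m) hk)
    exact ⟨y, hy, hx' ▸ (lev2_ext C hQ he hx).1 (C.ext_nat h4 _ (lev2_col0 hk) (C.res_ext _ h3)),
      fun y' hy' => lev2_form hv hu H C he h2 0 hy hk hy' (hX y' hy')⟩
  · obtain ⟨a, ha⟩ := k_ex2 H {e} 0 hy
    obtain ⟨x, hx, hx'⟩ := hX y hy e he a ha
    obtain ⟨m, c, hc, rfl⟩ := C.res_sur (lev2_col0 ha) ((lev2_ext C hQ he hx).2 (hx' ▸ hm))
    obtain ⟨m, rfl⟩ := redS_surj R {e} m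
    obtain ⟨c, rfl⟩ := (redS_surj R {e}).comp_left c
    have h2 : ∀ i, redS R {e} (evF (C.V i) c) = 0 := fun i => (evF_map (h1 _) _ _).trans (hc i)
    refine ⟨fun j k => cj ((c k).v j), fun j i => ?_,
      fun y' hy' => lev2_form hv hu H C he h2 m hy ha hy' (hX y' hy')⟩
    rw [← ev_kerOf]
    exact hv.cj_mem _ ((redS_zero R _).1 (h2 i) j)

end Pool.Agent.AS
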