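import Pool.Agent.Lib.MP_dae8ad_gt.T.QDefs
import Pool.Agent.Lib.MP_dae8ad_gt.T.Basic

namespace Pool.Agent.AS

variable {G M : Type} [Group G] [AddCommGroup M] [DistribMulAction G M]

section
variable {Y : Type} [Lab Y]

theorem rnov_cap (x z : Y) (r : List Y) :
    (∃ p t, x :: z :: r = p :: Lab.rho p :: t) ↔ z = Lab.rho x :=
  ⟨fun ⟨_, _, h⟩ => by cases h; rfl, fun h => ⟨x, r, by rw [h]⟩⟩

variable [SQ Y]

theorem rnov_1 (p q : Y) : Lab.act p (Lab.act (Lab.rho p) q) = q := by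
  simpa only [SQ.rho_rho] using SQ.act_rho_act (Lab.rho p) q

theorem rnov_2 (p q r : Y) :
    Lab.act (Lab.act p q) r = Lab.act p (Lab.act q (Lab.act (Lab.rho p) r)) := by
  rw [SQ.act_act p q, rnov_1]

theorem rnov_3 (p : Y) : Lab.act p (Lab.rho p) = Lab.rho p := by rw [← SQ.rho_act, SQ.act_self]

theorem rnov_4 (p : Y) : Lab.act (Lab.rho p) p = p := by
  simpa only [SQ.rho_rho] using rnov_3 (Lab.rho p)

end

theorem rnov_mem {N : AddSubgroup M} {t l r : M} (e : l = r) (h : t + (l - r) ∈ N) : t ∈ N := by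
  rwa [e, sub_self, add_zero] at h

theorem rnov_step (dg : G → ℤ) (hmul : ∀ g h, dg (g * h) = dg g + dg h) {e : ℤ}
    (he : e = 1 ∨ e = -1) (F : ℤ → AddSubgroup M) (anti : ∀ k k', k ≤ k' → F k' ≤ F k)
    (hF : ∀ (g : G) k m, m ∈ F k → g • m ∈ F (k + e * dg g)) {s1 s2 s3 : Bool} {a b c : G}
    {u w : M} (ha : dg a = 1) (hb : dg b = 1) (hc : dg c = 1)
    (h : Run (RW (⟨⟨s1, a, u⟩, ⟨s2, b, 0⟩, ⟨s3, c, w⟩⟩ : Tri (Lb G M))) [] []) (k : ℤ)
    (hu : u ∈ F k) (hw : w ∈ F k) : u ∈ F (k + 1) ∧ w ∈ F (k + 1) := by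
  simp only [RW, R0, R1, R2, R2a, List.cons_append, List.nil_append, Run, ok, okh, next, nx,
    List.take, List.drop, rnov_cap, List.length_cons, List.length_nil, Nat.reduceAdd,
    Nat.reduceLeDiff, true_and, and_true, le_refl, Nat.zero_le, rnov_1, rnov_2, rnov_3, rnov_4,
    SQ.rho_rho, SQ.rho_act, SQ.act_rho_act, SQ.act_self] at h
  have e0 := congrArg Lb.m h.1
  have e1 := congrArg Lb.m h.2.1
  have e2 := (congrArg Lb.m h.2.2).symm
  simp only [act_m, rho_m, rho_x, smul_add, smul_sub, smul_neg, sub_zero, zero_sub,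
    zero_add] at e0 e1 e2
  have hi : ∀ g, dg g⁻¹ = -dg g := fun g => by
    have h1 := hmul 1 1
    have h2 := hmul g g⁻¹
    rw [mul_one] at h1
    rw [mul_inv_cancel] at h2
    omega
  have sm : ∀ (g : G) j m, m ∈ F (j - e * dg g) → g • m ∈ F j := fun g j m hm => by
    simpa using hF g _ m hm
  have un : ∀ (g : G) j m, g • m ∈ F (j + e * dg g) → m ∈ F j := fun g j m hm => by
    simpa [hi] using hF g⁻¹ _ _ hm
  have bu : ∀ j, j ≤ k → u ∈ F j := fun j hj => anti _ _ hj hu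
  have bw : ∀ j, j ≤ k → w ∈ F j := fun j hj => anti _ _ hj hw
  rcases he with rfl | rfl
  · refine ⟨un a⁻¹ _ _ (rnov_mem e0 ?_), un c⁻¹ _ _ (rnov_mem e2 ?_)⟩
    all_goals
      abel_nf
      repeat' first | apply add_mem | apply zsmul_mem | apply sm | apply bu | apply bw
      all_goals
        simp only [hi, ha, hb, hc]
        omega
  · have hw' : w ∈ F (k + 1) := by
      refine un c _ _ (un b _ _ (un a⁻¹ _ _ (un c _ _ (un b _ _ (un c⁻¹ _ _ (rnov_mem e1 ?_))))))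
      abel_nf
      repeat' first | apply add_mem | apply zsmul_mem | apply sm | apply bu | apply bw
      all_goals
        simp only [hi, ha, hb, hc, smul_eq_mul]
        omega
    have bw' : ∀ j, j ≤ k + 1 → w ∈ F j := fun j hj => anti _ _ hj hw'
    refine ⟨un a _ _ (un b⁻¹ _ _ (un c _ _ (un b _ _ (un a⁻¹ _ _ (un c _ _ (un b _ _
      (un c⁻¹ _ _ (rnov_mem e2 ?_)))))))), hw'⟩
    abel_nf
    repeat' first | apply add_mem | apply zsmul_mem | apply sm | apply bu | apply bw'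
    all_goals
      simp only [hi, ha, hb, hc, smul_eq_mul]
      omega

/-- The pattern is acyclic for both completions.  Write `a, b, c` for the three group labels
(`A, B, C` their inverses), `u = y.a.m - y.b.m`, `w = y.c.m - y.b.m`.  Unfolding `Run` (first state
the module parts of the three cap conditions; expand with `smul_add`, `smul_sub`, `smul_smul`,
`mul_assoc`, `mul_inv_rev`, `inv_mul_cancel_left`, `mul_inv_cancel_left`, then `abel`) gives
E0: `(A - AbcAbcBaCB + AbcA - Abc - AbcAbcB + AbcAbcBaCBa + AbcAbcBa) u + (- Ab + AbcAbcBaCBaC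
- AbcAb - AbcAbcBaCBa + Abc + AbcAbcBaC - AbcAbcBa + AbcAbc) w = 0`,
E1: `(- A - AbcA + 1 + CbcA - Cbc - CbcAbcB + Abc) u + (C - 1 - Cb + Ab - Abc - CbcAb + AbcAb + Cbc
+ CbcAbc) w = 0`,
E2: `(- CbcA + Cbc + CbcAbcB - CbcAbcBa) u + (- C + Cb - Cbc + CbcAb - CbcAbc) w = 0`.
If `u, w ∈ F k`: for `e = 1` the terms `A u` in E0 and `C w` in E2 are the only ones of degree
`-1`, so `u, w ∈ F (k + 1)`; for `e = -1` the term `CbcAbc w` is the only one of degree `2` in E1,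
so `w ∈ F (k + 1)`, and then `CbcAbcBa u` in E2 gives `u ∈ F (k + 1)`. -/
theorem rnov (dg : G → ℤ) (hmul : ∀ g h, dg (g * h) = dg g + dg h) {e : ℤ} (he : e = 1 ∨ e = -1)
    (F : ℤ → AddSubgroup M) (anti : ∀ k k', k ≤ k' → F k' ≤ F k)
    (hF : ∀ (g : G) k m, m ∈ F k → g • m ∈ F (k + e * dg g)) (ex : ∀ m, ∃ k, m ∈ F k)
    (sep : ∀ m, (∀ k, m ∈ F k) → m = 0) (y : Tri (Lb G M)) (ha : dg y.a.x = 1)
    (hb : dg y.b.x = 1) (hc : dg y.c.x = 1) (h : Run (RW y) [] []) :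
    y.a.m = y.b.m ∧ y.c.m = y.b.m := by
  have h1 : Run (RW (⟨⟨y.a.s, y.a.x, y.a.m + -y.b.m⟩, ⟨y.b.s, y.b.x, y.b.m + -y.b.m⟩,
      ⟨y.c.s, y.c.x, y.c.m + -y.b.m⟩⟩ : Tri (Lb G M))) [] [] :=
    run_map (hom_afn (ψ := AddMonoidHom.id M) (fun _ _ => rfl) (-y.b.m)) h
  rw [add_neg_cancel] at h1
  obtain ⟨k1, hk1⟩ := ex (y.a.m + -y.b.m)
  obtain ⟨k2, hk2⟩ := ex (y.c.m + -y.b.m)
  have h2 : ∀ j, min k1 k2 ≤ j → y.a.m + -y.b.m ∈ F j ∧ y.c.m + -y.b.m ∈ F j :=
    Int.leInduction ⟨anti _ _ (min_le_left _ _) hk1, anti _ _ (min_le_right _ _) hk2⟩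
      fun j _ hj => rnov_step dg hmul he F anti hF ha hb hc h1 j hj.1 hj.2
  exact ⟨add_neg_eq_zero.1 (sep _ fun k => anti _ _ (le_max_left _ _) (h2 _ (le_max_right k _)).1),
    add_neg_eq_zero.1 (sep _ fun k => anti _ _ (le_max_left _ _) (h2 _ (le_max_right k _)).2)⟩

end Pool.Agent.AS
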