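import Pool.Agent.Lib.MP_dae8ad_gt.T.SeqPD
import Pool.Agent.Lib.MP_dae8ad_gt.T.RLev
import Pool.Agent.Lib.MP_dae8ad_gt.T.RNov

namespace Pool.Agent.AS

variable {G K : Type} [Group G] [Field K] {O : Subring K} {cj : K →+* K} (R : SR G O) {g : ℕ}
  {S : SW g} {y0 : Tri (Lb0 G)}

/-- Box data concentrated at the index `0`. -/
def dq (E : Set ℤ) {N : Type} (y : N → K) : N → Sq R E (QO O) :=
  fun i => dlt R E (Submodule.Quotient.mk (y i))

/-- The hypotheses on the colouring of the pattern. -/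
structure Lv (S : SW g) (y0 : Tri (Lb0 G)) : Prop where
  hS : Bands g S
  run : Run (RW y0) [] []
  ha : R.dg y0.a.x = 1
  hb : R.dg y0.b.x = 1
  hc : R.dg y0.c.x = 1
  h1 : R.dg (hP (P1 y0)) = 0
  h3 : R.dg (hP (P3 y0)) = 0
  hu : ∀ j : ℤ, j ≠ 0 → unitO O (am (seifert S) (R.ρ j (hP (P1 y0))⁻¹ : K)).det ∧
    unitO O (am UJ (R.ρ j (hP (P1 y0))⁻¹ : K)).det ∧ unitO O (am UJ (R.ρ j (hP (P3 y0))⁻¹ : K)).det

abbrev Am (S : SW g) (y0 : Tri (Lb0 G)) : Matrix (N3 (Fin g × Bool)) (N3 (Fin g × Bool)) K :=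
  A3 (seifert S) (R.ρ 0 (hP (P1 y0))⁻¹ : K) (R.ρ 0 (hP (P3 y0))⁻¹ : K)

abbrev cm3 (g : ℕ) (y0 : Tri (Lb0 G)) : N3 (Fin g × Bool) → K :=
  c3 (Fin g × Bool) (R.ρ 0 (hP (P1 y0))⁻¹ : K) (R.ρ 0 (hP (P3 y0))⁻¹ : K)

variable {R}

theorem lev2a_dg_inv {h : G} (hh : R.dg h = 0) : R.dg h⁻¹ = 0 := by
  have := R.dg_mul h h⁻¹
  rw [mul_inv_cancel, R.dg_one] at this
  omega

section
variable {M M' : Type} [AddCommGroup M] [DistribMulAction G M] [AddCommGroup M']
  [DistribMulAction G M']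

theorem lev2a_beq {ψ : M →+ M'} (hψ : Eqv G ψ) {T : Type} [Fintype T] (U : Matrix T T ℤ) (h : G)
    (Y : T → M) (i : T) : beq U h (fun k => ψ (Y k)) i = ψ (beq U h Y i) := by
  simp only [beq, map_sub, hψ h⁻¹, map_sum, map_zsmul]

theorem lev2a_keq {ψ : M →+ M'} (hψ : Eqv G ψ) (U : Matrix (Fin g × Bool) (Fin g × Bool) ℤ)
    (h h' : G) (Y : N3 (Fin g × Bool) → M) (i : N3 (Fin g × Bool)) :
    keq U h h' (fun k => ψ (Y k)) i = ψ (keq U h h' Y i) := by
  rcases i with i | i | i <;> exact lev2a_beq hψ _ _ _ _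

theorem lev2a_kw {ψ : M →+ M'} (hψ : Eqv G ψ) (h h' : G) (Y : N3 (Fin g × Bool) → M)
    (i : N3 (Fin g × Bool)) : kw h h' (fun k => ψ (Y k)) i = ψ (kw h h' Y i) := by
  rcases i with i | i | i
  · exact (om_map hψ _ _).symm
  · exact (om_map hψ _ _).symm
  · have e : ψ (-om h'⁻¹ (Y (.inr (.inr i)))) = -om h'⁻¹ (ψ (Y (.inr (.inr i)))) := by
      rw [AddMonoidHom.map_neg, om_map hψ]
    exact e.symm

theorem lev2a_h1 (m : M) (y0 : Tri (Lb0 G)) : hP (P1 (y0.map (cst m))) = hP (P1 y0) := by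
  rw [P1_map (hom_cst m)]
  generalize P1 y0 = P
  rfl

theorem lev2a_h3 (m : M) (y0 : Tri (Lb0 G)) : hP (P3 (y0.map (cst m))) = hP (P3 y0) := by
  rw [P3_map (hom_cst m)]
  generalize P3 y0 = P
  rfl

theorem lev2a_run (m : M) {y0 : Tri (Lb0 G)} (h : Run (RW y0) [] []) :
    Run (RW (y0.map (cst m))) [] [] := by
  rw [← mapW_RW]
  exact run_map (hom_cst m) h

end

theorem lev2a_red (E : Set ℤ) (z : K) :
    redS R E (dlt R E z) = dlt R E (Submodule.Quotient.mk z : QO O) :=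
  Sq.ext fun j => show (Submodule.Quotient.mk (if j = 0 then z else 0) : QO O) =
      if j = 0 then Submodule.Quotient.mk z else 0 by
    split_ifs <;> rfl

theorem lev2a_mv {T : Type} [Fintype T] (U : Matrix T T ℤ) (l l' : K) (x : N3 T → K) :
    (∀ i, (A3 U l l').mulVec x (.inl i) = (am U l).mulVec (fun k => x (.inl k)) i) ∧
    (∀ i, (A3 U l l').mulVec x (.inr (.inl i)) =
      (am UJ l).mulVec (fun k => x (.inr (.inl k))) i) ∧
    ∀ i, (A3 U l l').mulVec x (.inr (.inr i)) =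
      (am UJ l').mulVec (fun k => x (.inr (.inr k))) i := by
  refine ⟨fun i => ?_, fun i => ?_, fun i => ?_⟩ <;>
    simp [A3, Matrix.mulVec, dotProduct, Fintype.sum_sum_type]

theorem lev2a_am {T : Type} (U : Matrix T T ℤ) (l : O) (i j : T) : am U (l : K) i j ∈ O :=
  sub_mem (intCast_mem O _) (mul_mem l.2 (intCast_mem O _))

/-- An element of degree zero acts diagonally. -/
theorem beq_v {T : Type} [Fintype T] (U : Matrix T T ℤ) {h : G} (hh : R.dg h = 0) {E : Set ℤ}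
    (Y : T → Sq R E K) (i : T) (j : ℤ) :
    (beq U h Y i).v j = (am U (R.ρ j h⁻¹ : K)).mulVec (fun k => (Y k).v j) i := by
  have e : ∀ (V : T → ℤ), (∑ k, V k • Y k).v j = ∑ k, (V k : K) * (Y k).v j := fun V => by
    have := map_sum (Sq.ev (R := R) (E := E) (N := K) j) (fun k => V k • Y k) Finset.univ
    simp only [map_zsmul, zsmul_eq_mul] at this
    exact this
  rw [beq, Sq.v_sub, Sq.v_smul, lev2a_dg_inv hh, sub_zero, e, e, Subring.smul_def, smul_eq_mul]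
  simp only [Matrix.mulVec, dotProduct, am, sub_mul, Finset.sum_sub_distrib, Finset.mul_sum,
    mul_assoc]

theorem lev2a_keq_v (H : Lv R S y0) {E : Set ℤ} (Y : N3 (Fin g × Bool) → Sq R E K)
    (i : N3 (Fin g × Bool)) (j : ℤ) :
    (keq (seifert S) (hP (P1 y0)) (hP (P3 y0)) Y i).v j =
      (A3 (seifert S) (R.ρ j (hP (P1 y0))⁻¹ : K) (R.ρ j (hP (P3 y0))⁻¹ : K)).mulVec
        (fun k => (Y k).v j) i := by
  obtain ⟨e1, e2, e3⟩ := lev2a_mv (seifert S) (R.ρ j (hP (P1 y0))⁻¹ : K)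
    (R.ρ j (hP (P3 y0))⁻¹ : K) fun k => (Y k).v j
  rcases i with i | i | i
  · rw [e1]; exact beq_v _ H.h1 _ _ _
  · rw [e2]; exact beq_v _ H.h1 _ _ _
  · rw [e3]; exact beq_v _ H.h3 _ _ _

theorem keq_dlt (H : Lv R S y0) {E : Set ℤ} (y : N3 (Fin g × Bool) → K) (i : N3 (Fin g × Bool)) :
    keq (seifert S) (hP (P1 y0)) (hP (P3 y0)) (fun k => dlt R E (y k)) i =
      dlt R E ((Am R S y0).mulVec y i) := by
  refine Sq.ext fun j => ?_
  rw [lev2a_keq_v H]
  show Matrix.mulVec _ (fun k => if j = 0 then y k else 0) i = if j = 0 then _ else 0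
  split_ifs with hj
  · rw [hj]
  · exact congrFun (Matrix.mulVec_zero _) i

theorem kw_dlt (H : Lv R S y0) {E : Set ℤ} (y : N3 (Fin g × Bool) → K) (i : N3 (Fin g × Bool)) :
    kw (hP (P1 y0)) (hP (P3 y0)) (fun k => dlt R E (y k)) i = dlt R E (cm3 R g y0 i * y i) := by
  have e : ∀ (h : G), R.dg h = 0 → ∀ z : K,
      om h⁻¹ (dlt R E z) = dlt R E ((1 - (R.ρ 0 h⁻¹ : K)) * z) := fun h hh z => by
    refine Sq.ext fun j => ?_
    rw [om, Sq.v_sub, Sq.v_smul, lev2a_dg_inv hh, sub_zero, Subring.smul_def, smul_eq_mul]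
    show (if j = 0 then z else 0) - _ * (if j = 0 then z else 0) = if j = 0 then _ else 0
    split_ifs with hj
    · rw [hj]; ring
    · simp
  rcases i with i | i | i
  · exact e _ H.h1 _
  · exact e _ H.h1 _
  · refine (congrArg Neg.neg (e _ H.h3 _)).trans (Sq.ext fun j => ?_)
    show -(if j = 0 then _ else 0) = if j = 0 then -(1 - _) * _ else 0
    split_ifs
    · rw [neg_mul]
    · exact neg_zero

theorem lev2a_dq (E : Set ℤ) {N : Type} (y : N → K) :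
    dq R E y = fun k => redS R E (dlt R E (y k)) := funext fun _ => (lev2a_red E _).symm

theorem lev2a_int {E : Set ℤ} {z : K} (hz : z ∈ O) (j : ℤ) : (dlt R E z).v j ∈ O := by
  show (if j = 0 then z else 0) ∈ O
  split_ifs
  · exact hz
  · exact zero_mem _

/-- `k_ex`; the equations are the reductions of `keq_dlt` (`redS` commutes with `keq`). -/
theorem k_ex2 (H : Lv R S y0) (E : Set ℤ) (m : Sq R E (QO O)) {y : N3 (Fin g × Bool) → K}
    (hy : inL O ((Am R S y0).mulVec y)) : ∃ b, IsK S (y0.map (cst m)) (dq R E y) b := by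
  refine k_ex H.hS (lev2a_run m H.run) fun i => ?_
  rw [lev2a_h1, lev2a_h3, lev2a_dq, lev2a_keq (eqv_redS R E), keq_dlt H, redS_zero]
  exact lev2a_int (hy i)

/-- Classification.  `k_all`; `rnov` with `F k = {m | ∀ j, e * j < k → m.v j = 0}` makes the three
labels equal; lift the box data to `K` (`redS_surj`); by `k_col` and `beq_v` the lifts satisfy
`am U (ρ j h⁻¹) (Y j) ∈ L`, so `Y j ∈ L` for `j ≠ 0` (`inL_of_det`); `y = Y 0`. -/
theorem k_cls (H : Lv R S y0) {e : ℤ} (he : e = 1 ∨ e = -1) {b : List (L (Lb G (Sq R {e} (QO O))))}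
    (h : Col (KG y0 S) b) :
    ∃ m y, inL O ((Am R S y0).mulVec y) ∧ IsK S (y0.map (cst m)) (dq R {e} y) b := by
  obtain ⟨y, Y, hy, hK⟩ := k_all H.hS h
  let F : ℤ → AddSubgroup (Sq R {e} (QO O)) := fun k =>
    { carrier := {m | ∀ j, e * j < k → m.v j = 0}
      zero_mem' := fun _ _ => rfl
      add_mem' := fun ha hb j hj => by rw [Sq.v_add, ha j hj, hb j hj, add_zero]
      neg_mem' := fun ha j hj => by rw [Sq.v_neg, ha j hj, neg_zero] }
  obtain ⟨e1, e2⟩ := rnov R.dg R.dg_mul he F (fun k k' hk m hm j hj => hm j (hj.trans_le hk))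
    (fun a k m hm j hj => by
      rw [Sq.v_smul, hm _ (by rw [mul_sub]; omega), smul_zero])
    (fun m => m.bd e rfl) (fun m hm => Sq.ext fun j => hm (e * j + 1) j (by omega)) y
    (by rw [← H.ha, ← hy]; rfl) (by rw [← H.hb, ← hy]; rfl) (by rw [← H.hc, ← hy]; rfl) hK.1
  have ey : y = y0.map (cst y.b.m) := by
    rw [← hy]
    exact Tri.ext (Lb.ext rfl rfl e1) rfl (Lb.ext rfl rfl e2)
  choose Y' hY' using fun k => redS_surj R {e} (Y k)
  have hin : ∀ j, inL O ((A3 (seifert S) (R.ρ j (hP (P1 y0))⁻¹ : K)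
      (R.ρ j (hP (P3 y0))⁻¹ : K)).mulVec fun k => (Y' k).v j) := fun j i => by
    have h0 := (k_col hK).2 i
    rw [ey, lev2a_h1, lev2a_h3, ← funext hY', lev2a_keq (eqv_redS R {e}), redS_zero] at h0
    rw [← lev2a_keq_v H]
    exact h0 j
  refine ⟨y.b.m, fun k => (Y' k).v 0, hin 0, ?_⟩
  have eY : dq R {e} (fun k => (Y' k).v 0) = Y := by
    funext k
    refine Sq.ext fun j => ?_
    rw [← hY' k]
    show (if j = 0 then _ else 0) = (Submodule.Quotient.mk ((Y' k).v j) : QO O)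
    split_ifs with hj
    · rw [hj]
    · obtain ⟨u1, u2, u3⟩ := H.hu j hj
      obtain ⟨a1, a2, a3⟩ := lev2a_mv (seifert S) (R.ρ j (hP (P1 y0))⁻¹ : K)
        (R.ρ j (hP (P3 y0))⁻¹ : K) fun k => (Y' k).v j
      refine ((QO_zero O _).2 ?_).symm
      rcases k with k | k | k
      · exact inL_of_det _ (lev2a_am _ _) u1 _ (fun i => a1 i ▸ hin j _) k
      · exact inL_of_det _ (lev2a_am _ _) u2 _ (fun i => a2 i ▸ hin j _) k
      · exact inL_of_det _ (lev2a_am _ _) u3 _ (fun i => a3 i ▸ hin j _) k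
  rw [eY, ← ey]
  exact hK

/-- The state sum is the linking form.  Take `z` from `k_ex` for the labels `cst (m, 0)` and the
zipped data; its components by `k_nat`, `k_uniq`; `k_lam` with `Y' k = dlt (y k)`, `r_lam0`,
`keq_dlt`, `kw_dlt`. -/
theorem k_form (H : Lv R S y0) {e : ℤ}
    (P : PD G (Sq R {e} K) (Sq R {e} (QO O)) (Sq R {-e} (QO O)) (QO O)) (hq : P.q = redS R {e})
    (hβ : ∀ p, (∀ j, p.v j ∈ O) → ∀ m : Sq R {-e} K,
      P.β p (redS R {-e} m) = Submodule.Quotient.mk (∑ᶠ j, cj (p.v j) * m.v j))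
    {m : Sq R {e} (QO O)} {y y' : N3 (Fin g × Bool) → K} (hy : inL O ((Am R S y0).mulVec y))
    {b : List (L (Lb G (Sq R {e} (QO O))))} (hb : IsK S (y0.map (cst m)) (dq R {e} y) b)
    {a : List (L (Lb G (Sq R {-e} (QO O))))} (ha : IsK S (y0.map (cst 0)) (dq R {-e} y') a) :
    ∃ z, Run z [] [] ∧ mapW (Lb.mp Prod.fst) z = b ∧ mapW (Lb.mp Prod.snd) z = a ∧
      Lam P 0 z [] = Submodule.Quotient.mk (bf cj (Am R S y0) (cm3 R g y0) y y') := by
  have f1 : Eqv G (AddMonoidHom.fst (Sq R {e} (QO O)) (Sq R {-e} (QO O))) := fun _ _ => rfl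
  have f2 : Eqv G (AddMonoidHom.snd (Sq R {e} (QO O)) (Sq R {-e} (QO O))) := fun _ _ => rfl
  have hr := lev2a_run (m, (0 : Sq R {-e} (QO O))) H.run
  obtain ⟨z, hz⟩ := k_ex H.hS hr (Y := fun i => (dq R {e} y i, dq R {-e} y' i)) fun i => by
    have h1 := (k_col hb).2 i
    have h2 := (k_col ha).2 i
    rw [lev2a_h1, lev2a_h3] at h1 h2 ⊢
    exact Prod.ext ((lev2a_keq f1 _ _ _ _ i).symm.trans h1) ((lev2a_keq f2 _ _ _ _ i).symm.trans h2)
  have n1 := k_nat f1 0 hz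
  have n2 := k_nat f2 0 hz
  rw [show afn (AddMonoidHom.fst (Sq R {e} (QO O)) (Sq R {-e} (QO O))) 0 = Prod.fst from
    funext fun _ => add_zero _] at n1
  rw [show afn (AddMonoidHom.snd (Sq R {e} (QO O)) (Sq R {-e} (QO O))) 0 = Prod.snd from
    funext fun _ => add_zero _] at n2
  refine ⟨z, (k_col hz).1.1, k_uniq H.hS n1 hb, k_uniq H.hS n2 ha, ?_⟩
  rw [k_lam P H.hS hz (fun k => dlt R {e} (y k)) (fun i => by rw [hq]; exact lev2a_red _ _),
    r_lam0 P hr m rfl rfl rfl, zero_add, lev2a_h1, lev2a_h3, bf]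
  refine Eq.trans (Finset.sum_congr rfl fun i _ => ?_)
    (map_sum (Submodule.mkQ (1 : Submodule O K)) _ _).symm
  rw [keq_dlt H]
  show P.β _ (kw _ _ (dq R {-e} y') i) = _
  rw [lev2a_dq, lev2a_kw (eqv_redS R {-e}), kw_dlt H, hβ _ (lev2a_int (hy i)),
    finsum_eq_single _ 0 fun j hj => by
      show _ * (if j = 0 then _ else 0) = 0
      rw [if_neg hj, mul_zero]]
  show (Submodule.Quotient.mk (cj _ * (_ * _)) : QO O) = Submodule.Quotient.mk _
  rw [mul_left_comm, mul_assoc]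
  rfl

end Pool.Agent.AS
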