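import Pool.Agent.Lib.MP_dae8ad_gt.T.LDefs
import Pool.Agent.Lib.MP_dae8ad_gt.T.CoreA

namespace Pool.Agent.AS

/-- Lift a left inverse of the reduction (`ε` is onto). -/
theorem minor {A p q : Type} [CommRing A] [Fintype p] [Fintype q] [DecidableEq q]
    (ε : A →+* ZMod 2) (M : Matrix p q A) (h : ∀ v, (M.map ε).mulVec v = 0 → v = 0) :
    ∃ L : Matrix q p A, ε (L * M).det ≠ 0 := by
  classical
  obtain ⟨g, hg⟩ := (Matrix.toLin' (M.map ε)).exists_leftInverse_of_injective
    (LinearMap.ker_eq_bot'.2 h)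
  obtain ⟨s, hs⟩ := (ZMod.ringHom_surjective ε).hasRightInverse
  have e : LinearMap.toMatrix' g * M.map ε = 1 := by
    rw [← LinearMap.toMatrix'_toLin' (M.map ε), ← LinearMap.toMatrix'_comp, hg,
      LinearMap.toMatrix'_id]
  refine ⟨(LinearMap.toMatrix' g).map s, ?_⟩
  rw [RingHom.map_det, RingHom.mapMatrix_apply, Matrix.map_mul, Matrix.map_map, hs.comp_eq_id,
    Matrix.map_id, e, Matrix.det_one]
  exact one_ne_zero

/-- With `L0`, `G0` from `minor` (for `V` and `Wᵀ`) the product of `[L0; W]` and `Θ = [V | G0]` is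
block triangular, so `ε (det Θ) ≠ 0` (reindex `p ≃ d ⊕ b`).  Write `adj Θ = [L; N]`,
`det Θ = V L + G0 N`; multiply by `W`: `det Θ • W = (W G0) N`, so
`det (W G0) • N = det Θ • adj (W G0) W`. -/
theorem lin_id {A p b d : Type} [CommRing A] [Fintype p] [Fintype b] [Fintype d] [DecidableEq p]
    (ε : A →+* ZMod 2) (V : Matrix p d A) (W : Matrix b p A) (h : W * V = 0)
    (hc : Fintype.card p = Fintype.card b + Fintype.card d)
    (hV : ∀ v, (V.map ε).mulVec v = 0 → v = 0)
    (hW : ∀ v, (W.transpose.map ε).mulVec v = 0 → v = 0) :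
    ∃ (δ : A) (L : Matrix d p A) (G : Matrix p b A), ε δ ≠ 0 ∧
      δ • (1 : Matrix p p A) = V * L + G * W := by
  classical
  obtain ⟨L, hL⟩ := minor ε V hV
  obtain ⟨G', hG⟩ := minor ε W.transpose hW
  rw [← Matrix.det_transpose, Matrix.transpose_mul, Matrix.transpose_transpose] at hG
  generalize G'.transpose = G at hG
  have e : p ≃ d ⊕ b := Fintype.equivOfCardEq (by rw [hc, Fintype.card_sum, add_comm])
  have h1 : (V * L + G * W).det = (L * V).det * (W * G).det := by
    rw [← Matrix.fromCols_mul_fromRows, ← Matrix.det_fromBlocks_zero₂₁ _ (L * G), ← h,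
      ← Matrix.fromRows_mul_fromCols, ← Matrix.det_submatrix_equiv_self e,
      ← Matrix.submatrix_mul_equiv _ _ _ (Equiv.refl p), Matrix.det_mul_comm,
      Matrix.submatrix_mul_equiv]
    rfl
  have h2 : W * (V * L + G * W) = W * G * W := by
    rw [Matrix.mul_add, ← Matrix.mul_assoc, h, Matrix.zero_mul, zero_add, Matrix.mul_assoc]
  generalize hT : V * L + G * W = T at h1 h2
  have h3 : (W * G).det • (W * T.adjugate) = T.det • ((W * G).adjugate * W) := by
    rw [← Matrix.smul_mul, ← Matrix.one_mul W, ← Matrix.smul_mul, Matrix.one_mul,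
      ← Matrix.adjugate_mul, Matrix.mul_assoc _ (W * G), ← h2, ← Matrix.mul_assoc,
      Matrix.mul_assoc _ T, Matrix.mul_adjugate, Matrix.mul_smul, Matrix.mul_one]
  refine ⟨(W * G).det * T.det, (W * G).det • (L * T.adjugate), T.det • (G * (W * G).adjugate),
    ?_, ?_⟩
  · rw [h1, map_mul, map_mul]
    exact mul_ne_zero hG (mul_ne_zero hL hG)
  · rw [Matrix.smul_mul, Matrix.mul_assoc, ← Matrix.mul_smul G, ← h3, Matrix.mul_smul,
      Matrix.mul_smul, ← smul_add, ← Matrix.mul_assoc, ← Matrix.mul_assoc, ← Matrix.add_mul, hT,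
      Matrix.mul_adjugate, mul_smul]

theorem ap_RM {G A : Type} [Group G] [CommRing A] (η : G →* A) (r : G →₀ ℤ) (a : RM η) :
    ap r a = RM.c η (hat η r) * a := by
  change _ = (r.sum fun g n => (n : RM η) * RM.c η (η g)) * a
  rw [Finsupp.sum_mul, ap]
  simp only [zsmul_eq_mul, RM.smul_def, mul_assoc]

theorem eps_hat {G A : Type} [Group G] [CommRing A] (η : G →* A) (ε : A →+* ZMod 2)
    (h : ∀ g, ε (η g) = 1) (r : G →₀ ℤ) : ε (hat η r) = (aug r : ZMod 2) := by
  simp [hat, aug, Finsupp.sum, h]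

/-- The module with generators `x k` and relations `V i`: the quotient of `FG G d` by the subgroup
generated by all `g • V i`. -/
theorem exX {G p d : Type} [Group G] [Fintype d] [DecidableEq d] (V : p → d → G →₀ ℤ) :
    ∃ (X : Type) (_ : AddCommGroup X) (_ : DistribMulAction G X) (x : d → X),
      (∀ i, evF (V i) x = 0) ∧ (∀ z : X, ∃ φ : d → G →₀ ℤ, z = evF φ x) ∧
      ∀ (M : Type) [AddCommGroup M] [DistribMulAction G M] (c : d → M), (∀ i, evF (V i) c = 0) →
        ∃ ψ : X →+ M, Eqv G ψ ∧ ψ ∘ x = c := by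
  let V' : p → FG G d := V
  let H : AddSubgroup (FG G d) := AddSubgroup.closure {z | ∃ (g : G) (i : p), z = g • V' i}
  have hH : ∀ g : G, H ≤ H.comap (DistribSMul.toAddMonoidHom _ g) := fun g =>
    (AddSubgroup.closure_le _).2 (by
      rintro _ ⟨g', i, rfl⟩
      exact AddSubgroup.subset_closure ⟨g * g', i, (mul_smul g g' _).symm⟩)
  let _ : DistribMulAction G (FG G d ⧸ H) :=
    { smul g := QuotientAddGroup.map H H _ (hH g)
      one_smul z := QuotientAddGroup.induction_on z fun a => congrArg _ (one_smul G a)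
      mul_smul g g' z := QuotientAddGroup.induction_on z fun a => congrArg _ (mul_smul g g' a)
      smul_zero g := map_zero (QuotientAddGroup.map H H _ (hH g))
      smul_add g := map_add (QuotientAddGroup.map H H _ (hH g)) }
  have hπ : Eqv G (QuotientAddGroup.mk' H) := fun _ _ => rfl
  have e : ∀ φ : FG G d, evF φ (QuotientAddGroup.mk' H ∘ gen) = QuotientAddGroup.mk' H φ :=
    fun φ => (evF_map hπ φ gen).symm.trans (congrArg _ (evF_gen φ))
  refine ⟨FG G d ⧸ H, inferInstance, inferInstance, QuotientAddGroup.mk' H ∘ gen, fun i => (e _).trans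
    ((QuotientAddGroup.eq_zero_iff _).2 (AddSubgroup.subset_closure ⟨1, i, (one_smul G _).symm⟩)),
    fun z => QuotientAddGroup.induction_on z fun φ => ⟨φ, (e φ).symm⟩, fun M _ _ c hc => ?_⟩
  obtain ⟨ψ, h1, h2, h3⟩ := ex_evH (G := G) c
  have h4 : H ≤ ψ.ker := (AddSubgroup.closure_le _).2 (by
    rintro _ ⟨g, i, rfl⟩
    change ψ _ = 0
    rw [h1, h2, hc, smul_zero])
  exact ⟨QuotientAddGroup.lift H ψ h4, fun g z => QuotientAddGroup.induction_on z (h1 g),
    funext h3⟩

section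
open Polynomial Filter

theorem lin1_poly {M : Type} [AddCommGroup M] [DistribMulAction G1 M] [Module ℤ[X] M]
    (hT : ∀ (K : ℕ) (z : M), (X ^ K : ℤ[X]) • z = tt K • z) (r : G1 →₀ ℤ) :
    ∀ᶠ K : ℕ in atTop, ∃ u : ℤ[X], u.eval 1 = aug r ∧ ∀ z : M, u • z = tt K • ap r z := by
  induction r using Finsupp.induction_linear with
  | zero => exact .of_forall fun K => ⟨0, by simp [aug], by simp [ap]⟩
  | add r r' h h' =>
    filter_upwards [h, h'] with K ⟨u, h1, h2⟩ ⟨u', h3, h4⟩
    refine ⟨u + u', ?_, fun z => ?_⟩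
    · rw [eval_add, h1, h3, aug, aug, aug, Finsupp.sum_add_index' (by simp) (by simp)]
    · rw [add_smul, h2, h4, ap, ap, ap, Finsupp.sum_add_index' (by simp) (by simp [add_smul]),
        smul_add]
  | single g n =>
    filter_upwards [eventually_ge_atTop g.toAdd.natAbs] with K hK
    refine ⟨(n : ℤ[X]) * X ^ (K + g.toAdd).toNat, by simp [aug], fun z => ?_⟩
    rw [mul_smul, hT, Int.cast_smul_eq_zsmul, Int.toNat_of_nonneg (by omega), tt_add, mul_smul, ap,
      Finsupp.sum_single_index (by simp), smul_comm]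
    rfl

theorem lin1_fin {q : ℤ[X]} (hq : ((q.eval 1 : ℤ) : ZMod 2) ≠ 0) (N : ℕ) :
    ∃ i j : ℕ, i < j ∧ ∃ a b : ℤ[X], X ^ j - X ^ i = 2 ^ (N + 1) * a + q * b := by
  induction N with
  | zero =>
    have h0 : q.map (Int.castRingHom (ZMod 2)) ≠ 0 := fun h => hq (by
      simpa using congrArg (eval 1) h)
    have := (AdjoinRoot.powerBasis h0).finite
    have : Finite (AdjoinRoot (q.map (Int.castRingHom (ZMod 2)))) :=
      Module.finite_of_finite (ZMod 2)
    obtain ⟨i, j, hij, e⟩ : ∃ i j : ℕ, i < j ∧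
        AdjoinRoot.mk (q.map (Int.castRingHom (ZMod 2))) (X ^ j) = AdjoinRoot.mk _ (X ^ i) := by
      obtain ⟨i, j, h1, h2⟩ := Finite.exists_ne_map_eq_of_infinite fun n : ℕ =>
        AdjoinRoot.mk (q.map (Int.castRingHom (ZMod 2))) (X ^ n)
      rcases h1.lt_or_gt with h | h
      exacts [⟨i, j, h, h2.symm⟩, ⟨j, i, h, h2⟩]
    obtain ⟨b', hb⟩ := AdjoinRoot.mk_eq_mk.1 e
    obtain ⟨b, rfl⟩ := map_surjective _ (ZMod.ringHom_surjective (Int.castRingHom (ZMod 2))) b'
    have h1 : (X ^ j - X ^ i - q * b).map (Int.castRingHom (ZMod 2)) = 0 := by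
      simp only [Polynomial.map_sub, Polynomial.map_mul, Polynomial.map_pow, map_X, hb, sub_self]
    obtain ⟨a, ha⟩ : C ((2 : ℕ) : ℤ) ∣ X ^ j - X ^ i - q * b :=
      (C_dvd_iff_dvd_coeff _ _).2 fun n => (ZMod.intCast_zmod_eq_zero_iff_dvd _ 2).1 (by
        simpa only [coeff_map, coeff_zero, eq_intCast] using congrArg (coeff · n) h1)
    exact ⟨i, j, hij, a, b, by simpa [sub_eq_iff_eq_add] using ha⟩
  | succ N ih =>
    obtain ⟨i, j, hij, a, b, e⟩ := ih
    exact ⟨2 * i, 2 * j, by omega, a * (2 ^ N * a + X ^ i), b * (2 ^ (N + 1) * a + X ^ j + X ^ i),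
      by linear_combination (X ^ j + X ^ i + 2 ^ (N + 1) * a) * e⟩

theorem lin1_per {p d : Type} [Fintype p] [Fintype d] (V : p → d → G1 →₀ ℤ)
    (t1 : ∀ c : d → ZMod 2, (∀ i, ∑ k, (aug (V i k) : ZMod 2) * c k = 0) → c = 0)
    {M : Type} [AddCommGroup M] [DistribMulAction G1 M] [Module ℤ[X] M]
    (hT : ∀ (K : ℕ) (z : M), (X ^ K : ℤ[X]) • z = tt K • z) (x : d → M)
    (h : ∀ i, evF (V i) x = 0) (hx : ∀ z : M, ∃ φ : d → G1 →₀ ℤ, z = evF φ x) : Per M := by
  classical
  obtain ⟨K, hK⟩ := (eventually_all.2 fun i => eventually_all.2 fun k =>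
    lin1_poly hT (V i k)).exists
  choose U hU hU' using hK
  obtain ⟨L, hL⟩ := minor ((Int.castRingHom (ZMod 2)).comp (evalRingHom 1)) (Matrix.of U)
    fun v hv => t1 v fun i => by simpa [Matrix.mulVec, dotProduct, hU] using congrFun hv i
  have h1 : ∀ i, Fintype.linearCombination ℤ[X] x (Matrix.of U i) = 0 := fun i => by
    simp only [Fintype.linearCombination_apply, Matrix.of_apply, hU', ← Finset.smul_sum]
    exact (congrArg _ (h i)).trans (smul_zero _)
  have h2 : ∀ k, (L * Matrix.of U).det • x k = 0 := fun k => by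
    have e := congrArg (fun B => Fintype.linearCombination ℤ[X] x (B k))
      (Matrix.adjugate_mul (L * Matrix.of U))
    simp only [← Matrix.mul_assoc, Matrix.mul_apply_eq_vecMul _ (Matrix.of U),
      Matrix.vecMul_eq_sum, map_sum, map_smul, h1, smul_zero, Finset.sum_const_zero] at e
    simpa [Fintype.linearCombination_apply, Matrix.one_apply, ite_smul] using e.symm
  generalize (L * Matrix.of U).det = q at hL h2
  have h3 : ∀ z : M, q • z = 0 := fun z => by
    obtain ⟨φ, rfl⟩ := hx z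
    obtain ⟨K, hK⟩ := (eventually_all.2 fun k => lin1_poly hT (φ k)).exists
    choose u _ hu using hK
    rw [← smul_eq_zero_iff_eq (tt K), ← hT, smul_comm, hT, evF, Finset.smul_sum, Finset.smul_sum]
    exact Finset.sum_eq_zero fun k _ => by rw [← hu, smul_comm, h2, smul_zero]
  intro N
  obtain ⟨i, j, hij, a, b, e⟩ := lin1_fin (q := q) hL N
  refine ⟨j - i, by omega, fun z => ⟨(2 * a) • tt (-i) • z, ?_⟩⟩
  have h4 := congrArg (· • tt (-i) • z) e
  simp only [sub_smul, add_smul, hT, mul_smul q, h3, add_zero, smul_smul, ← tt_add, add_neg_cancel,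
    tt_zero, one_smul] at h4
  rw [Nat.cast_sub hij.le, sub_eq_add_neg (j : ℤ), h4, ← Int.cast_smul_eq_zsmul ℤ[X], smul_smul,
    pow_succ, mul_assoc]
  norm_cast

end

/-- Make `X` a module over `Λ = MonoidAlgebra ℤ G1` (`r • z = ap r.coeff z`).  `minor` and the
adjugate give `δ` with odd augmentation that kills all `x k`, hence `X`.  Modulo `2` and `δ` the
ring `Λ` is finite (`δ` is a power of `t` times a polynomial that is not zero modulo `2`), so
`t ^ m = 1 + 2 a + δ b` for some `m > 0`; `dvd_sub_pow_of_dvd_sub` in `Λ / δ` gives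
`t ^ (m 2 ^ N) = 1` modulo `2 ^ (N + 1)` and `δ`. -/
theorem per_X {p d : Type} [Fintype p] [Fintype d] (V : p → d → G1 →₀ ℤ)
    (t1 : ∀ c : d → ZMod 2, (∀ i, ∑ k, (aug (V i k) : ZMod 2) * c k = 0) → c = 0)
    {X : Type} [AddCommGroup X] [DistribMulAction G1 X] (x : d → X) (h : ∀ i, evF (V i) x = 0)
    (hx : ∀ z : X, ∃ φ : d → G1 →₀ ℤ, z = evF φ x) : Per X := by
  let ρ : G1 →* Module.End ℤ X := DistribMulAction.toModuleEnd ℤ X
  let _ := Module.compHom X (Polynomial.aeval (R := ℤ) (ρ (tt 1))).toRingHom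
  refine lin1_per V t1 (fun K z => ?_) x h hx
  change Polynomial.aeval (R := ℤ) (ρ (tt 1)) (Polynomial.X ^ K) z = ρ (tt K) z
  rw [map_pow, Polynomial.aeval_X, ← map_pow, tt, tt, ← ofAdd_nsmul, nsmul_one]

end Pool.Agent.AS
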