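import Pool.Agent.Lib.MP_dae8ad_gt.T.CDefs
import Pool.Agent.Lib.MP_dae8ad_gt.T.Lam

/-! All proofs are by induction on the marked diagram `D`; at a mark use `mark_iff`. -/

namespace Pool.Agent.AS

section
variable {Y Y' Y'' : Type}

theorem mark_cons {f : Y → Y'} {w : List (L Y)} {l0 : L Y'} {w0 : List (L Y')}
    (h : mapW f w = l0 :: w0) : ∃ l w', w = l :: w' ∧ (l.1, l.2.map f) = l0 ∧ mapW f w' = w0 :=
  List.map_eq_cons_iff.1 h

theorem mark_hi {f : Y → Y'} {w : List (L Y)} {i : ℕ} {y : Y'} {w0 : List (L Y')}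
    (h : mapW f w = (i, .cap) :: (i, .cup y) :: w0) :
    ∃ y' w', w = (i, .cap) :: (i, .cup y') :: w' ∧ f y' = y ∧ mapW f w' = w0 := by
  obtain ⟨⟨j, k⟩, w1, rfl, h1, h2⟩ := mark_cons h
  obtain ⟨⟨j', k'⟩, w2, rfl, h3, h4⟩ := mark_cons h2
  cases k <;> simp [Kd.map] at h1
  cases k' <;> simp [Kd.map] at h3
  exact ⟨_, _, by rw [h1, h3.1], h3.2, h4⟩

theorem mark_kd (f : Y' → Y'') (g : Y → Y') (k : Kd Y) : (k.map g).map f = k.map (f ∘ g) := by
  cases k <;> rfl

theorem mark_split [Lab Y'] {f : Y → Y'} {a : List Y} {i : ℕ} {y : Y'}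
    (h : Run [(i, .cap), (i, .cup y)] (a.map f) (a.map f)) : ∃ l p q r, l.length = i ∧
      a = l ++ p :: q :: r ∧ f p = y ∧ f q = Lab.rho y := by
  obtain ⟨l0, r0, rfl, e⟩ := mark_iff.1 h
  obtain ⟨l, r1, rfl, rfl, e1⟩ := List.map_eq_append_iff.1 e
  obtain ⟨p, r2, rfl, e2, e3⟩ := List.map_eq_cons_iff.1 e1
  obtain ⟨q, r, rfl, e4, -⟩ := List.map_eq_cons_iff.1 e3
  exact ⟨l, p, q, r, (List.length_map _).symm, rfl, e2, e4⟩

theorem mark_next [Lab Y] (l : List Y) (p q y : Y) (r : List Y) :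
    next (l.length, .cup y) (next (l.length, .cap) (l ++ p :: q :: r)) =
      l ++ y :: Lab.rho y :: r := by
  rw [next_app, next_app]
  rfl

theorem mark_cap [Lab Y] {l : List Y} {p q : Y} {r : List Y}
    (h : ok (l.length, .cap) (l ++ p :: q :: r)) : q = Lab.rho p := by
  obtain ⟨p', t, e⟩ := (ok_app _ _ _).1 h
  simp only [List.cons.injEq] at e
  rw [e.1, e.2.1]

end

variable {G M M' : Type} [Group G] [AddCommGroup M] [DistribMulAction G M] [AddCommGroup M']
  [DistribMulAction G M']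

omit [Group G] [DistribMulAction G M] in
theorem mark_hm (l : List (Lb G M)) (p q : Lb G M) (r : List (Lb G M)) :
    hm (l ++ p :: q :: r) l.length = p.m ∧ hm (l ++ p :: q :: r) (l.length + 1) = q.m := by
  simp [hm, List.drop_append]

omit [Group G] [AddCommGroup M] [DistribMulAction G M] in
theorem mark_ext {p q : Lb G M} (h : bs p = bs q) (h' : p.m = q.m) : p = q :=
  Lb.ext (congrArg Lb.s h :) (congrArg Lb.x h :) h'

theorem length_sites (D : List (ML (Lb0 G))) (w : List (L (Lb G M))) (a : List (Lb G M)) :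
    (sites D w a).length = marks D := by
  induction D generalizing w a with
  | nil => rfl
  | cons d D ih => cases d <;> cases w <;> simp [sites, marks, ih]

theorem length_rows (D : List (ML (Lb0 G))) (w : List (L (Lb G M))) (a : List (Lb G M)) :
    (rows D w a).length = marks D := by
  induction D generalizing w a with
  | nil => rfl
  | cons d D ih => cases d <;> rcases w with _ | ⟨l, _ | ⟨l', w⟩⟩ <;> simp [rows, marks, ih]

omit [Group G] in
theorem ylist_mem {Q : G → Prop} {D : List (ML (Lb0 G))} (h : ∀ i y, ML.mk i y ∈ D → Q y.x) :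
    (ylist D).length = marks D ∧ ∀ x ∈ ylist D, Q x := by
  induction D with
  | nil => simp [ylist, marks]
  | cons d D ih =>
    obtain ⟨h1, h2⟩ := ih fun i y hy => h i y (List.mem_cons_of_mem _ hy)
    cases d with
    | lt l => exact ⟨h1, h2⟩
    | mk i y =>
      exact ⟨congrArg (· + 1) h1, List.forall_mem_cons.2 ⟨h i y List.mem_cons_self, h2⟩⟩

theorem sites_nat {ψ : M →+ M'} (hψ : Eqv G ψ) (m0 : M') {D : List (ML (Lb0 G))}
    {a0 b0 : List (Lb0 G)} (hD : RunM D a0 b0) {w : List (L (Lb G M))} {a : List (Lb G M)}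
    (hw : mapW bs w = lo D) (ha : a.map bs = a0) :
    sites D (mapW (Lb.mp (afn ψ m0)) w) (a.map (Lb.mp (afn ψ m0))) = (sites D w a).map ψ := by
  subst ha
  induction D generalizing w a with
  | nil => rfl
  | cons d D ih =>
    cases d with
    | lt l0 =>
      obtain ⟨l, w, rfl, rfl, h1⟩ := mark_cons hw
      have h2 := hD.2
      rw [next_map hom_bs] at h2
      rw [mapW_cons, sites, sites, next_map (hom_afn hψ m0), ih h1 h2]
    | mk i y =>
      obtain ⟨l, p, q, r, rfl, rfl, -, -⟩ := mark_split hD.1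
      rw [sites, sites, ih hw hD.2, List.map_cons, (mark_hm l p q r).1, (mark_hm l p q r).2,
        List.map_append, List.map_cons, List.map_cons, ← List.length_map (Lb.mp (afn ψ m0)),
        (mark_hm _ _ _ _).1, (mark_hm _ _ _ _).2]
      simp [Lb.mp, afn]

theorem rows_nat {ψ : M →+ M'} (hψ : Eqv G ψ) (m0 : M') {D : List (ML (Lb0 G))}
    {a0 b0 : List (Lb0 G)} (hD : RunM D a0 b0) {w : List (L (Lb G M))} {a : List (Lb G M)}
    (hw : mapW bs w = hi D) (ha : a.map bs = a0) :
    rows D (mapW (Lb.mp (afn ψ m0)) w) (a.map (Lb.mp (afn ψ m0))) = (rows D w a).map ψ := by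
  subst ha
  induction D generalizing w a with
  | nil => rfl
  | cons d D ih =>
    cases d with
    | lt l0 =>
      obtain ⟨l, w, rfl, rfl, h1⟩ := mark_cons hw
      have h2 := hD.2
      rw [next_map hom_bs] at h2
      rw [mapW_cons, rows, rows, next_map (hom_afn hψ m0), ih h1 h2]
    | mk i y =>
      obtain ⟨l, p, q, r, rfl, rfl, e1, e2⟩ := mark_split hD.1
      obtain ⟨y', w, rfl, e3, h1⟩ := mark_hi hw
      have h2 : RunM D ((l ++ y' :: Lab.rho y' :: r).map bs) b0 := by
        simpa [e1, e2, e3, hom_bs.rho] using hD.2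
      rw [mapW_cons, mapW_cons, rows, rows, next_map (hom_afn hψ m0), next_map (hom_afn hψ m0),
        mark_next, ih h1 h2, List.map_cons, (mark_hm l p q r).1,
        List.map_append, List.map_cons, List.map_cons, ← List.length_map (Lb.mp (afn ψ m0)),
        (mark_hm _ _ _ _).1]
      simp [Lb.mp, afn, Kd.map, cm]

omit [Group G] [DistribMulAction G M] [DistribMulAction G M'] in
theorem unhi_nat (ψ : M → M') {D : List (ML (Lb0 G))} {w : List (L (Lb G M))}
    (hw : mapW bs w = hi D) :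
    unhi D (mapW (Lb.mp ψ) w) = (unhi D w).map (ML.map (Lb.mp ψ)) := by
  induction D generalizing w with
  | nil => rfl
  | cons d D ih =>
    cases d with
    | lt l0 =>
      obtain ⟨l, w, rfl, -, h1⟩ := mark_cons hw
      rw [mapW_cons, unhi, unhi, ih h1]
      rfl
    | mk i y =>
      obtain ⟨y', w, rfl, -, h1⟩ := mark_hi hw
      rw [mapW_cons, mapW_cons, unhi, unhi, ih h1]
      rfl

theorem remark_spec {D : List (ML (Lb0 G))} {a0 b0 : List (Lb0 G)} (hD : RunM D a0 b0)
    {w : List (L (Lb G M))} {a b : List (Lb G M)} (hw : mapW bs w = lo D) (ha : a.map bs = a0)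
    (hr : Run w a b) (h : ∀ x ∈ sites D w a, x = 0) :
    RunM (remark D w a) a b ∧ lo (remark D w a) = w ∧ (remark D w a).map (ML.map bs) = D := by
  subst ha
  induction D generalizing w a with
  | nil =>
    obtain rfl : w = [] := List.map_eq_nil_iff.1 hw
    exact ⟨hr, rfl, rfl⟩
  | cons d D ih =>
    cases d with
    | lt l0 =>
      obtain ⟨l, w, rfl, rfl, h1⟩ := mark_cons hw
      have h2 := hD.2
      rw [next_map hom_bs] at h2
      obtain ⟨i1, i2, i3⟩ := ih h1 hr.2 h h2
      exact ⟨⟨hr.1, i1⟩, congrArg (l :: ·) i2, congrArg (_ :: ·) i3⟩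
    | mk i y =>
      obtain ⟨l, p, q, r, rfl, rfl, rfl, e2⟩ := mark_split hD.1
      rw [sites, List.forall_mem_cons, (mark_hm l p q r).1, (mark_hm l p q r).2] at h
      obtain rfl : q = Lab.rho p := mark_ext e2 (sub_eq_zero.1 h.1)
      obtain ⟨i1, i2, i3⟩ := ih hw hr h.2 hD.2
      rw [remark, (mark_hm l p _ r).1]
      exact ⟨⟨mark_iff.2 ⟨l, r, rfl, rfl⟩, i1⟩, i2, congrArg (_ :: ·) i3⟩

theorem unhi_spec {D : List (ML (Lb0 G))} {a0 b0 : List (Lb0 G)} (hD : RunM D a0 b0)
    {w : List (L (Lb G M))} {a b : List (Lb G M)} (hw : mapW bs w = hi D) (ha : a.map bs = a0)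
    (hr : Run w a b) (h : ∀ x ∈ rows D w a, x = 0) :
    RunM (unhi D w) a b ∧ hi (unhi D w) = w ∧ (unhi D w).map (ML.map bs) = D := by
  subst ha
  induction D generalizing w a with
  | nil =>
    obtain rfl : w = [] := List.map_eq_nil_iff.1 hw
    exact ⟨hr, rfl, rfl⟩
  | cons d D ih =>
    cases d with
    | lt l0 =>
      obtain ⟨l, w, rfl, rfl, h1⟩ := mark_cons hw
      have h2 := hD.2
      rw [next_map hom_bs] at h2
      obtain ⟨i1, i2, i3⟩ := ih h1 hr.2 h h2
      exact ⟨⟨hr.1, i1⟩, congrArg (l :: ·) i2, congrArg (_ :: ·) i3⟩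
    | mk i y =>
      obtain ⟨l, p, q, r, rfl, rfl, rfl, -⟩ := mark_split hD.1
      obtain ⟨y', w, rfl, e3, h1⟩ := mark_hi hw
      obtain rfl := mark_cap hr.1
      rw [rows, List.forall_mem_cons, (mark_hm l p _ r).1, mark_next] at h
      obtain rfl : y' = p := mark_ext e3 (sub_eq_zero.1 h.1)
      have h3 := hr.2.2
      rw [mark_next] at h3
      obtain ⟨i1, i2, i3⟩ := ih h1 h3 h.2 hD.2
      exact ⟨⟨mark_iff.2 ⟨l, r, rfl, rfl⟩, i1⟩, congrArg (_ :: _ :: ·) i2, congrArg (_ :: ·) i3⟩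

theorem marked_spec {E : List (ML (Lb G M))} {a b : List (Lb G M)} (h : RunM E a b) :
    (∀ x ∈ sites (E.map (ML.map bs)) (lo E) a, x = 0) ∧
    (∀ x ∈ rows (E.map (ML.map bs)) (hi E) a, x = 0) ∧ unhi (E.map (ML.map bs)) (hi E) = E := by
  induction E generalizing a with
  | nil => exact ⟨fun _ h => absurd h List.not_mem_nil, fun _ h => absurd h List.not_mem_nil, rfl⟩
  | cons d E ih =>
    cases d with
    | lt l =>
      obtain ⟨i1, i2, i3⟩ := ih h.2
      exact ⟨i1, i2, congrArg (_ :: ·) i3⟩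
    | mk i y =>
      obtain ⟨l, r, rfl, rfl⟩ := mark_iff.1 h.1
      obtain ⟨i1, i2, i3⟩ := ih h.2
      rw [List.map_cons, ML.map, lo, hi, sites, rows, mark_next, List.forall_mem_cons,
        List.forall_mem_cons, (mark_hm l y _ r).1, (mark_hm l y _ r).2]
      exact ⟨⟨sub_self _, i1⟩, ⟨sub_self _, i2⟩, congrArg (_ :: ·) i3⟩

/-- If all minima carry the same value, the colouring is constant. -/
theorem marked_const {E : List (ML (Lb G M))} {a b : List (Lb G M)} (h : RunM E a b) (m : M)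
    (ha : ∀ y ∈ a, y.m = m) (hc : ∀ y ∈ cups (lo E), y.m = m) :
    E = (E.map (ML.map bs)).map (ML.map (cst m)) := by
  induction E generalizing a with
  | nil => rfl
  | cons d E ih =>
    cases d with
    | lt l =>
      have e : cups (lo (.lt l :: E)) = cups [l] ++ cups (lo E) := cups_append [l] (lo E)
      rw [e, List.forall_mem_append] at hc
      have h1 := lev_forall (fun y : Lb G M => y.m = m)
        (fun p q hp hq => by simp [act_m, hp, hq]) (fun p hp => hp) [l] a hc.1 ha
      refine congrArg₂ _ ?_ (ih h.2 h1 hc.2)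
      obtain ⟨i, _ | _ | y | _⟩ := l
      exacts [rfl, rfl, by rw [← hc.1 y List.mem_cons_self]; rfl, rfl]
    | mk i y =>
      obtain ⟨l, r, rfl, rfl⟩ := mark_iff.1 h.1
      refine congrArg₂ _ ?_ (ih h.2 ha hc)
      rw [← ha y (by simp)]
      rfl

variable {M1 N M2 A : Type} [AddCommGroup M1] [DistribMulAction G M1] [AddCommGroup N]
  [DistribMulAction G N] [AddCommGroup M2] [DistribMulAction G M2] [AddCommGroup A]

def msum (P : PD G M1 N M2 A) : List G → List M1 → List M2 → A
  | x :: xs, r :: rs, s :: ss => P.β r (om x s) + msum P xs rs ss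
  | _, _, _ => 0

theorem msum_eq (P : PD G M1 N M2 A) {p : ℕ} {xs : List G} {rs : List M1} {ss : List M2}
    (h1 : xs.length = p) (h2 : rs.length = p) (h3 : ss.length = p) :
    msum P xs rs ss = ∑ i : Fin p, P.β (rs.getD i 0) (om (xs.getD i 1) (ss.getD i 0)) := by
  induction p generalizing xs rs ss with
  | zero =>
    obtain rfl := List.length_eq_zero_iff.1 h1
    rfl
  | succ p ih =>
    obtain ⟨x, xs, rfl⟩ := List.exists_cons_of_length_eq_add_one h1
    obtain ⟨r, rs, rfl⟩ := List.exists_cons_of_length_eq_add_one h2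
    obtain ⟨s, ss, rfl⟩ := List.exists_cons_of_length_eq_add_one h3
    rw [msum, ih (Nat.succ.inj h1) (Nat.succ.inj h2) (Nat.succ.inj h3), Fin.sum_univ_succ]
    rfl

theorem mark_lift (P : PD G M1 N M2 A) {l1 : L (Lb G M1)} {l2 : L (Lb G (N × M2))}
    (h : (l2.1, l2.2.map (Lb.mp Prod.fst)) = (l1.1, l1.2.map (Lb.mp P.q))) :
    ∃ l : L (Lb G (M1 × M2)), (l.1, l.2.map (Lb.mp Prod.fst)) = l1 ∧ (l.1, l.2.map P.qq) = l2 := by
  obtain ⟨i, k⟩ := l1
  obtain ⟨j, k'⟩ := l2
  obtain ⟨rfl, e⟩ := Prod.mk.inj h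
  cases k <;> cases k' <;> simp only [Kd.map, reduceCtorEq, Kd.cup.injEq] at e
  · exact ⟨(_, .X), rfl, rfl⟩
  · exact ⟨(_, .Z), rfl, rfl⟩
  · rename_i y z
    refine ⟨(_, .cup ⟨y.s, y.x, (y.m, z.m.2)⟩), rfl, congrArg (fun u => (j, Kd.cup u)) ?_⟩
    exact Lb.ext (congrArg Lb.s e :).symm (congrArg Lb.x e :).symm
      (Prod.ext (congrArg Lb.m e :).symm rfl)
  · exact ⟨(_, .cap), rfl, rfl⟩

theorem mark_jump (P : PD G M1 N M2 A) (ρ : M2) (l r : List (Lb G (M1 × M2)))
    {p q : Lb G (M1 × M2)} (hx : q.x = p.x⁻¹) {d : M1} (hd : P.q d = 0) :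
    OmS P ρ (l ++ [p, q].map (Lb.mp fun m => (m.1 + d, m.2)) ++ r) =
      OmS P ρ (l ++ [p, q] ++ r) - P.β d (om p.x (q.m.2 - p.m.2)) := by
  have e : reg (reg ρ l) [p, q] - reg ρ l = om p.x (q.m.2 - p.m.2) := by
    simp only [reg, List.foldl, reg1, hx, inv_inv, om, smul_sub, smul_add, smul_inv_smul]
    abel
  simp only [oms_append, reg_append, oms_jump P hd, reg_map fun m : M1 × M2 => m.1 + d, e]
  abel

/-- The state sum of `lo` computed with the exact colouring `H` of `hi`, which jumps at the marks.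
`E` is a valid marked colouring in `N`, `H` lifts `hi E`, `W` has first component `lo E`; the level
`t` over `M1 × M2` has first component the level of `H` and maps to the level of `W`.  At an
ordinary letter lift the letter of `W` with the letter of `H` (`zipl`, `run_ji`, `lam_lift` for one
letter); at a mark both strands jump by the row `r` (`oms_append`, `oms_jump`), and the region
changes by `om x (m b - m a)` across the two strands. -/
theorem mark_lam (P : PD G M1 N M2 A) {E : List (ML (Lb G N))} {a b : List (Lb G N)}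
    (hE : RunM E a b) {H : List (L (Lb G M1))} {W : List (L (Lb G (N × M2)))}
    {t : List (Lb G (M1 × M2))} {h' : List (Lb G M1)} {e' : List (Lb G (N × M2))}
    (hH : mapW (Lb.mp P.q) H = hi E) (hW : mapW (Lb.mp Prod.fst) W = lo E)
    (ha : (t.map P.qq).map (Lb.mp Prod.fst) = a) (rH : Run H (t.map (Lb.mp Prod.fst)) h')
    (rW : Run W (t.map P.qq) e') (ρ : M2) :
    ∃ t' : List (Lb G (M1 × M2)), t'.map (Lb.mp Prod.fst) = h' ∧ Lam P ρ W (t.map P.qq) =
      msum P (ylist (E.map (ML.map bs))) (rows (E.map (ML.map bs)) H (t.map (Lb.mp Prod.fst)))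
        (sites (E.map (ML.map bs)) (mapW (Lb.mp Prod.snd) W) (t.map (Lb.mp Prod.snd))) +
      OmS P ρ t' - OmS P ρ t := by
  subst ha
  induction E generalizing H W t with
  | nil =>
    obtain rfl : H = [] := List.map_eq_nil_iff.1 hH
    obtain rfl : W = [] := List.map_eq_nil_iff.1 hW
    exact ⟨t, rH, by simp [Lam, msum, ylist]⟩
  | cons d E ih =>
    cases d with
    | lt l0 =>
      obtain ⟨l1, H, rfl, rfl, k1⟩ := mark_cons hH
      obtain ⟨l2, W, rfl, e, k2⟩ := mark_cons hW
      obtain ⟨l, rfl, rfl⟩ := mark_lift P e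
      have hl : ok l t := (run_ji hom_fst P.hom_qq
        (fun y z h1 h2 => lb_ji y z h1 (congrArg (Lb.mp Prod.snd) h2 :)) (w := [l])
        ⟨rH.1, rfl⟩ ⟨rW.1, rfl⟩).1
      have h1 := hE.2
      have h2 := rH.2
      have h3 := rW.2
      rw [← e, next_map hom_fst, next_map P.hom_qq] at h1
      rw [next_map hom_fst] at h2
      rw [next_map P.hom_qq] at h3
      obtain ⟨t', i1, i2⟩ := ih k1 k2 h2 h3 h1
      refine ⟨t', i1, ?_⟩
      have e2 : (l.2.map P.qq).map (Lb.mp Prod.snd) = l.2.map (Lb.mp Prod.snd) := mark_kd _ _ _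
      rw [Lam, jl1 P hl, next_map P.hom_qq, i2, List.map_cons, ML.map, ylist, rows, mapW_cons,
        sites, next_map hom_fst, e2, next_map hom_snd l]
      abel
    | mk i y =>
      have h0 := hE.1
      rw [List.map_map] at h0
      obtain ⟨l, p, q, r, rfl, rfl, rfl, -⟩ := mark_split h0
      obtain ⟨y', H, rfl, e3, k1⟩ := mark_hi hH
      have h1 := rH.1
      have h2 := rH.2.2
      rw [List.map_append, List.map_cons, List.map_cons,
        ← List.length_map (Lb.mp Prod.fst)] at h1 h2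
      rw [mark_next] at h2
      have e4 := mark_cap h1
      have hd : P.q (y'.m - p.m.1) = 0 := by
        rw [map_sub, sub_eq_zero]
        exact congrArg Lb.m e3
      set t1 := l ++ [p, q].map (Lb.mp fun m => (m.1 + (y'.m - p.m.1), m.2)) ++ r with ht1
      have a1 : t1.map P.qq = (l ++ p :: q :: r).map P.qq := by
        have b : P.q y'.m = P.q p.m.1 := congrArg Lb.m e3
        simp [ht1, PD.qq, Lb.mp, b]
      have a2 : t1.map (Lb.mp Prod.snd) = (l ++ p :: q :: r).map (Lb.mp Prod.snd) := by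
        simp [ht1, Lb.mp]
      have a3 : t1.map (Lb.mp Prod.fst) =
          l.map (Lb.mp Prod.fst) ++ y' :: Lab.rho y' :: r.map (Lb.mp Prod.fst) := by
        have b1 : p.s = y'.s := (congrArg Lb.s e3 :).symm
        have b2 : p.x = y'.x := (congrArg Lb.x e3 :).symm
        have b3 : q.s = !p.s := congrArg Lb.s e4
        have b4 : q.x = p.x⁻¹ := congrArg Lb.x e4
        have b5 : q.m.1 = p.m.1 := congrArg Lb.m e4
        simp [ht1, Lb.mp, Lb.ext_iff, rho_s, rho_x, rho_m, b1, b2, b3, b4, b5]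
      obtain ⟨t', i1, i2⟩ := ih (t := t1) k1 hW (a3 ▸ h2) (a1 ▸ rW) (a1 ▸ hE.2)
      refine ⟨t', i1, ?_⟩
      rw [a1, a2, a3, ht1, mark_jump P ρ l r (congrArg Lb.x e4 :) hd] at i2
      rw [i2, List.map_cons, ML.map, ylist, rows, sites, msum]
      simp only [List.map_append, List.map_cons, List.append_assoc, List.cons_append,
        List.nil_append]
      rw [← List.length_map (Lb.mp Prod.fst), mark_next, (mark_hm _ _ _ _).1, List.length_map,
        ← List.length_map (Lb.mp Prod.snd), (mark_hm _ _ _ _).1, (mark_hm _ _ _ _).2]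
      change _ = P.β (y'.m - p.m.1) (om p.x (q.m.2 - p.m.2)) + _ + _ - _
      abel

end Pool.Agent.AS
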