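import Pool.Agent.Lib.MP_dae8ad_gt.T.Basic

namespace Pool.Agent.AS

def moves_Ex (Y : Type) [Lab Y] (s s' : List (L Unit)) : Prop :=
  ∀ (u : List (L Y)) (a b : List Y) (c : List Unit), shape u = s → Run u a b →
    Run s' (a.map fun _ => ()) c → ∃ u', shape u' = s' ∧ Run u' a b

def moves_Un (Y : Type) [Lab Y] (s : List (L Unit)) : Prop :=
  ∀ (u u' : List (L Y)) (a b : List Y), shape u = s → shape u' = s → Run u a b → Run u' a b → u = u'

def moves_All (Y : Type) [Lab Y] (s s' : List (L Unit)) : Prop :=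
  moves_Ex Y s s' ∧ moves_Ex Y s' s ∧ moves_Un Y s ∧ moves_Un Y s'

section
variable {Y : Type}

theorem moves_nc {u : List (L Y)} (v : List (L Y)) (h : shape u = shape v) (hc : cups v = []) :
    u = v := eq_of_no_cups h hc

theorem moves_cons {u : List (L Y)} {i : ℕ} {k : Kd Unit} {s : List (L Unit)}
    (h : shape u = (i, k) :: s) :
    ∃ κ v, u = (i, κ) :: v ∧ κ.map (fun _ => ()) = k ∧ shape v = s := by
  rcases u with _ | ⟨⟨j, κ⟩, v⟩
  · cases h
  · obtain ⟨h1, h2⟩ := List.cons.inj h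
    obtain ⟨rfl, h3⟩ := Prod.mk.inj h1
    exact ⟨κ, v, rfl, h3, h2⟩

theorem moves_cup {u : List (L Y)} {i : ℕ} (v : List (L Y))
    (h : shape u = (i, .cup ()) :: shape v) (hc : cups v = []) : ∃ y, u = (i, .cup y) :: v := by
  obtain ⟨κ, w, rfl, h1, h2⟩ := moves_cons h
  obtain rfl := moves_nc v h2 hc
  cases κ with
  | cup y => exact ⟨y, rfl⟩
  | _ => cases h1

theorem moves_two {u : List (L Y)} {i j : ℕ} {k k' : Kd Unit} (h : shape u = [(i, k), (j, k')]) :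
    ∃ κ κ', u = [(i, κ), (j, κ')] ∧ κ.map (fun _ => ()) = k ∧ κ'.map (fun _ => ()) = k' := by
  obtain ⟨κ, v, rfl, h1, h2⟩ := moves_cons h
  obtain ⟨κ', w, rfl, h3, h4⟩ := moves_cons h2
  obtain rfl := moves_nc [] h4 rfl
  exact ⟨κ, κ', rfl, h1, h3⟩

variable [Lab Y]

theorem moves_le {i : ℕ} {w : List (L Y)} {a b : List Y} (h : Run (shift i w) a b) (hw : w ≠ []) :
    i ≤ a.length := by
  rcases w with _ | ⟨l, w⟩
  · exact absurd rfl hw
  · exact (Nat.le_add_left _ _).trans h.1.1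

omit [Lab Y] in
theorem moves_cut {i : ℕ} {a : List Y} (h : i ≤ a.length) :
    ∃ c r : List Y, a = c ++ r ∧ c.length = i :=
  ⟨a.take i, a.drop i, (List.take_append_drop _ _).symm, List.length_take_of_le h⟩

theorem moves_liftE {s s' : List (L Unit)} (h : moves_Ex Y s s') (hs : s ≠ [] ∨ s' ≠ []) (i : ℕ) :
    moves_Ex Y (shift i s) (shift i s') := by
  intro u a b c hu hr hc
  obtain ⟨u0, rfl, h0⟩ := mapW_eq_shift hu
  have hi : i ≤ a.length := by
    rcases hs with hs | hs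
    · exact moves_le hr fun e => hs (by rw [← h0, e]; rfl)
    · simpa using moves_le hc hs
  obtain ⟨l, r, rfl, rfl⟩ := moves_cut hi
  obtain ⟨b0, h1, rfl⟩ := run_left.1 hr
  rw [List.map_append, ← List.length_map (fun _ => ())] at hc
  obtain ⟨c0, h2, -⟩ := run_left.1 hc
  obtain ⟨u', h3, h4⟩ := h u0 r b0 c0 h0 h1 h2
  exact ⟨shift l.length u', by rw [← h3]; exact mapW_shift _ _ _, run_left.2 ⟨b0, h4, rfl⟩⟩

theorem moves_liftU {s : List (L Unit)} (h : moves_Un Y s) (i : ℕ) : moves_Un Y (shift i s) := by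
  intro u u' a b hu hu' hr hr'
  obtain ⟨u0, rfl, h0⟩ := mapW_eq_shift hu
  obtain ⟨u1, rfl, h1⟩ := mapW_eq_shift hu'
  by_cases hs : s = []
  · subst hs
    rw [moves_nc [] h0 rfl, moves_nc [] h1 rfl]
  · obtain ⟨l, r, rfl, rfl⟩ := moves_cut (moves_le hr fun e => hs (by rw [← h0, e]; rfl))
    obtain ⟨b0, h2, rfl⟩ := run_left.1 hr
    obtain ⟨b1, h3, e⟩ := run_left.1 hr'
    obtain rfl := List.append_cancel_left e
    rw [h u0 u1 r b0 h0 h1 h2 h3]

theorem moves_lift {s s' t t' : List (L Unit)} (h : moves_All Y s s') (hs : s ≠ []) (i : ℕ)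
    (e : t = shift i s) (e' : t' = shift i s') : moves_All Y t t' := by
  subst e e'
  exact ⟨moves_liftE h.1 (Or.inl hs) i, moves_liftE h.2.1 (Or.inr hs) i, moves_liftU h.2.2.1 i,
    moves_liftU h.2.2.2 i⟩

theorem moves_Unc (v : List (L Y)) (hc : cups v = []) : moves_Un Y (shape v) :=
  fun _ _ _ _ h h' _ _ => (moves_nc v h hc).trans (moves_nc v h' hc).symm

theorem moves_head {κ : Kd Y} {x : List Y} (h : x.length = κ.inw) (r : List Y) :
    (okh κ (x ++ r) ↔ okh κ x) ∧ nx κ (x ++ r) = nx κ x ++ r ∧ (nx κ x).length = κ.outw := by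
  rcases x with _ | ⟨p, _ | ⟨q, _ | ⟨z, t⟩⟩⟩ <;> cases κ <;>
    simp [Kd.inw, Kd.outw, okh, nx] at h ⊢

theorem moves_inw {κ : Kd Y} {a : List Y} (h : okh κ a) : κ.inw ≤ a.length := by
  cases κ with
  | cup y => exact Nat.zero_le _
  | cap =>
    obtain ⟨p, t, rfl⟩ := h
    simp [Kd.inw]
  | _ => exact h

theorem moves_tail (x r : List Y) (m : ℕ) (κ : Kd Y) :
    (ok (x.length + m, κ) (x ++ r) ↔ ok (m, κ) r) ∧
      next (x.length + m, κ) (x ++ r) = x ++ next (m, κ) r := by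
  have h1 : x.drop (x.length + m) = [] := List.drop_eq_nil_of_le (Nat.le_add_right _ _)
  have h2 : x.take (x.length + m) = x := List.take_of_length_le (Nat.le_add_right _ _)
  simp [ok, next, List.take_append, List.drop_append, h1, h2]

theorem moves_kinj {κ κ' : Kd Y} (h : κ.map (fun _ => ()) = κ'.map fun _ => ()) {r : List Y}
    (e : nx κ r = nx κ' r) : κ = κ' := by
  cases κ <;> cases κ' <;> simp_all [Kd.map, nx]

theorem moves_farL {κ κ' : Kd Y} {m : ℕ} {a b : List Y} :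
    Run [(0, κ), (κ.outw + m, κ')] a b ↔ ∃ x r, a = x ++ r ∧ x.length = κ.inw ∧ okh κ x ∧
      ok (m, κ') r ∧ b = nx κ x ++ next (m, κ') r := by
  have key : ∀ x r : List Y, x.length = κ.inw → (Run [(0, κ), (κ.outw + m, κ')] (x ++ r) b ↔
      okh κ x ∧ ok (m, κ') r ∧ b = nx κ x ++ next (m, κ') r) := by
    intro x r hx
    obtain ⟨h1, h2, h3⟩ := moves_head hx r
    have e : next (0, κ) (x ++ r) = nx κ x ++ r := h2
    have e' : ok (0, κ) (x ++ r) ↔ okh κ x := (and_iff_right (Nat.zero_le _)).trans h1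
    simp only [Run]
    rw [e, e', ← h3, (moves_tail _ r m κ').1, (moves_tail _ r m κ').2, eq_comm]
  constructor
  · intro h
    obtain ⟨x, r, rfl, hx⟩ := moves_cut (moves_inw (a := a) h.1.2)
    exact ⟨x, r, rfl, hx, (key x r hx).1 h⟩
  · rintro ⟨x, r, rfl, hx, h⟩
    exact (key x r hx).2 h

theorem moves_farR {κ κ' : Kd Y} {m : ℕ} {a b : List Y} :
    Run [(κ.inw + m, κ'), (0, κ)] a b ↔ ∃ x r, a = x ++ r ∧ x.length = κ.inw ∧ okh κ x ∧
      ok (m, κ') r ∧ b = nx κ x ++ next (m, κ') r := by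
  have key : ∀ x r : List Y, x.length = κ.inw → (Run [(κ.inw + m, κ'), (0, κ)] (x ++ r) b ↔
      okh κ x ∧ ok (m, κ') r ∧ b = nx κ x ++ next (m, κ') r) := by
    intro x r hx
    obtain ⟨h1, h2, -⟩ := moves_head hx (next (m, κ') r)
    have e : next (0, κ) (x ++ next (m, κ') r) = nx κ x ++ next (m, κ') r := h2
    have e' : ok (0, κ) (x ++ next (m, κ') r) ↔ okh κ x :=
      (and_iff_right (Nat.zero_le _)).trans h1
    simp only [Run]
    rw [← hx, (moves_tail _ r m κ').1, (moves_tail _ r m κ').2, e, e', eq_comm, and_left_comm]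
  constructor
  · intro h
    obtain ⟨x, r, rfl, hx⟩ := moves_cut ((Nat.le_add_right _ _).trans h.1.1)
    exact ⟨x, r, rfl, hx, (key x r hx).1 h⟩
  · rintro ⟨x, r, rfl, hx, h⟩
    exact (key x r hx).2 h

omit [Lab Y] in
theorem moves_w (κ : Kd Y) :
    (κ.map fun _ => ()).inw = κ.inw ∧ (κ.map fun _ => ()).outw = κ.outw := by
  cases κ <;> exact ⟨rfl, rfl⟩

theorem moves_farU {κ κ' μ μ' : Kd Y} {m : ℕ} {a b : List Y}
    (e : μ.map (fun _ => ()) = κ.map fun _ => ()) (e' : μ'.map (fun _ => ()) = κ'.map fun _ => ())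
    (h : ∃ x r, a = x ++ r ∧ x.length = κ.inw ∧ okh κ x ∧ ok (m, κ') r ∧
      b = nx κ x ++ next (m, κ') r)
    (h' : ∃ x r, a = x ++ r ∧ x.length = μ.inw ∧ okh μ x ∧ ok (m, μ') r ∧
      b = nx μ x ++ next (m, μ') r) : κ = μ ∧ κ' = μ' := by
  obtain ⟨x, r, rfl, hx, -, -, rfl⟩ := h
  obtain ⟨x', r', h1, hx', -, -, h2⟩ := h'
  obtain ⟨rfl, rfl⟩ := List.append_inj h1 (by rw [hx, hx', ← (moves_w μ).1, e, (moves_w κ).1])
  obtain ⟨h3, h4⟩ := List.append_inj h2 (by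
    rw [(moves_head hx r).2.2, (moves_head hx' r).2.2, ← (moves_w μ).2, e, (moves_w κ).2])
  exact ⟨moves_kinj e.symm h3, moves_kinj e'.symm (List.append_cancel_left h4)⟩

theorem moves_far (m : ℕ) (k k' : Kd Unit) :
    moves_All Y [(0, k), (k.outw + m, k')] [(k.inw + m, k'), (0, k)] := by
  refine ⟨fun u a b c hu hr _ => ?_, fun u a b c hu hr _ => ?_, fun u u' a b hu hu' hr hr' => ?_,
    fun u u' a b hu hu' hr hr' => ?_⟩
  · obtain ⟨κ, κ', rfl, rfl, rfl⟩ := moves_two hu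
    rw [(moves_w κ).2] at hr
    rw [(moves_w κ).1]
    exact ⟨[(κ.inw + m, κ'), (0, κ)], rfl, moves_farR.2 (moves_farL.1 hr)⟩
  · obtain ⟨κ', κ, rfl, rfl, rfl⟩ := moves_two hu
    rw [(moves_w κ).1] at hr
    rw [(moves_w κ).2]
    exact ⟨[(0, κ), (κ.outw + m, κ')], rfl, moves_farL.2 (moves_farR.1 hr)⟩
  · obtain ⟨κ, κ', rfl, rfl, rfl⟩ := moves_two hu
    obtain ⟨μ, μ', rfl, e, e'⟩ := moves_two hu'
    rw [(moves_w κ).2] at hr
    rw [← e, (moves_w μ).2] at hr'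
    obtain ⟨rfl, rfl⟩ := moves_farU e e' (moves_farL.1 hr) (moves_farL.1 hr')
    rfl
  · obtain ⟨κ', κ, rfl, rfl, rfl⟩ := moves_two hu
    obtain ⟨μ', μ, rfl, e', e⟩ := moves_two hu'
    rw [(moves_w κ).1] at hr
    rw [← e, (moves_w μ).1] at hr'
    obtain ⟨rfl, rfl⟩ := moves_farU e e' (moves_farR.1 hr) (moves_farR.1 hr')
    rfl

variable [SQ Y]

theorem moves_aar (p q : Y) : Lab.act p (Lab.act (Lab.rho p) q) = q := by
  have h := SQ.act_rho_act (Lab.rho p) q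
  rwa [SQ.rho_rho] at h

theorem moves_rinj {p q : Y} (h : Lab.rho p = Lab.rho q) : p = q := by
  rw [← SQ.rho_rho p, h, SQ.rho_rho]

theorem moves_zig : moves_All Y [(1, .cup ()), (0, .cap)] [] := by
  refine ⟨fun u a b c hu hr _ => ?_, fun u a b c hu hr hc => ?_, fun u u' a b hu hu' hr hr' => ?_,
    moves_Unc [] rfl⟩
  · obtain ⟨y, rfl⟩ := moves_cup [(0, .cap)] hu rfl
    refine ⟨[], rfl, ?_⟩
    rcases a with _ | ⟨p, t⟩ <;> simp [Run, ok, next, okh, nx] at hr ⊢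
    rw [← hr.2, hr.1, SQ.rho_rho]
  · obtain rfl := moves_nc [] hu rfl
    obtain rfl : a = b := hr
    rcases a with _ | ⟨p, t⟩
    · simp [Run, ok] at hc
    · exact ⟨[(1, .cup (Lab.rho p)), (0, .cap)], rfl,
        by simp [Run, ok, next, okh, nx, SQ.rho_rho]⟩
  · obtain ⟨y, rfl⟩ := moves_cup [(0, .cap)] hu rfl
    obtain ⟨z, rfl⟩ := moves_cup [(0, .cap)] hu' rfl
    rcases a with _ | ⟨p, t⟩ <;> simp [Run, ok, next, okh, nx] at hr hr' ⊢
    rw [hr.1, hr'.1]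

theorem moves_zag : moves_All Y [(0, .cup ()), (1, .cap)] [] := by
  refine ⟨fun u a b c hu hr _ => ?_, fun u a b c hu hr hc => ?_, fun u u' a b hu hu' hr hr' => ?_,
    moves_Unc [] rfl⟩
  · obtain ⟨y, rfl⟩ := moves_cup [(1, .cap)] hu rfl
    refine ⟨[], rfl, ?_⟩
    rcases a with _ | ⟨p, t⟩ <;> simp [Run, ok, next, okh, nx, SQ.rho_rho] at hr ⊢
    rw [← hr.2, hr.1]
  · obtain rfl := moves_nc [] hu rfl
    obtain rfl : a = b := hr
    rcases a with _ | ⟨p, t⟩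
    · simp [Run, ok, next, okh, nx] at hc
    · exact ⟨[(0, .cup p), (1, .cap)], rfl, by simp [Run, ok, next, okh, nx, SQ.rho_rho]⟩
  · obtain ⟨y, rfl⟩ := moves_cup [(1, .cap)] hu rfl
    obtain ⟨z, rfl⟩ := moves_cup [(1, .cap)] hu' rfl
    rcases a with _ | ⟨p, t⟩ <;> simp [Run, ok, next, okh, nx, SQ.rho_rho] at hr hr' ⊢
    rw [← hr.1, hr'.1]

theorem moves_r1X : moves_All Y [(0, .X), (0, .cap)] [(0, .cap)] := by
  refine ⟨fun u a b c hu hr _ => ⟨[(0, .cap)], rfl, ?_⟩,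
    fun u a b c hu hr _ => ⟨[(0, .X), (0, .cap)], rfl, ?_⟩,
    moves_Unc [(0, .X), (0, .cap)] rfl, moves_Unc [(0, .cap)] rfl⟩
  · obtain rfl := moves_nc [(0, .X), (0, .cap)] hu rfl
    rcases a with _ | ⟨p, _ | ⟨q, t⟩⟩ <;> simp [Run, ok, next, okh, nx] at hr ⊢
    refine ⟨?_, hr.2⟩
    have h := congrArg (Lab.act (Lab.rho p)) hr.1
    rw [SQ.rho_act, SQ.act_rho_act] at h
    have h2 := SQ.act_rho_act p p
    rw [SQ.act_self, h] at h2
    rw [← h2, SQ.rho_rho]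
  · obtain rfl := moves_nc [(0, .cap)] hu rfl
    rcases a with _ | ⟨p, _ | ⟨q, t⟩⟩ <;> simp [Run, ok, next, okh, nx] at hr ⊢
    exact ⟨by rw [hr.1, SQ.rho_act, SQ.rho_rho, SQ.act_self], hr.2⟩

theorem moves_r1Z : moves_All Y [(0, .Z), (0, .cap)] [(0, .cap)] := by
  refine ⟨fun u a b c hu hr _ => ⟨[(0, .cap)], rfl, ?_⟩,
    fun u a b c hu hr _ => ⟨[(0, .Z), (0, .cap)], rfl, ?_⟩,
    moves_Unc [(0, .Z), (0, .cap)] rfl, moves_Unc [(0, .cap)] rfl⟩
  · obtain rfl := moves_nc [(0, .Z), (0, .cap)] hu rfl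
    rcases a with _ | ⟨p, _ | ⟨q, t⟩⟩ <;> simp [Run, ok, next, okh, nx] at hr ⊢
    refine ⟨?_, hr.2⟩
    have h := congrArg (Lab.act q) hr.1
    rw [moves_aar, ← SQ.rho_act, SQ.act_self] at h
    rw [h, SQ.rho_rho]
  · obtain rfl := moves_nc [(0, .cap)] hu rfl
    rcases a with _ | ⟨p, _ | ⟨q, t⟩⟩ <;> simp [Run, ok, next, okh, nx] at hr ⊢
    exact ⟨by rw [hr.1, SQ.rho_rho, SQ.act_self], hr.2⟩

theorem moves_r2X : moves_All Y [(0, .X), (0, .Z)] [] := by
  refine ⟨fun u a b c hu hr _ => ⟨[], rfl, ?_⟩,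
    fun u a b c hu hr hc => ⟨[(0, .X), (0, .Z)], rfl, ?_⟩,
    moves_Unc [(0, .X), (0, .Z)] rfl, moves_Unc [] rfl⟩
  · obtain rfl := moves_nc [(0, .X), (0, .Z)] hu rfl
    rcases a with _ | ⟨p, _ | ⟨q, t⟩⟩ <;> simp [Run, ok, next, okh, nx, SQ.act_rho_act] at hr ⊢
    exact hr
  · obtain rfl := moves_nc [] hu rfl
    rcases a with _ | ⟨p, _ | ⟨q, t⟩⟩ <;> simp [Run, ok, next, okh, nx, SQ.act_rho_act] at hc hr ⊢
    exact hr

theorem moves_r2Z : moves_All Y [(0, .Z), (0, .X)] [] := by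
  refine ⟨fun u a b c hu hr _ => ⟨[], rfl, ?_⟩,
    fun u a b c hu hr hc => ⟨[(0, .Z), (0, .X)], rfl, ?_⟩,
    moves_Unc [(0, .Z), (0, .X)] rfl, moves_Unc [] rfl⟩
  · obtain rfl := moves_nc [(0, .Z), (0, .X)] hu rfl
    rcases a with _ | ⟨p, _ | ⟨q, t⟩⟩ <;> simp [Run, ok, next, okh, nx, moves_aar] at hr ⊢
    exact hr
  · obtain rfl := moves_nc [] hu rfl
    rcases a with _ | ⟨p, _ | ⟨q, t⟩⟩ <;> simp [Run, ok, next, okh, nx, moves_aar] at hc hr ⊢
    exact hr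

theorem moves_r3 : moves_All Y [(0, .X), (1, .X), (0, .X)] [(1, .X), (0, .X), (1, .X)] := by
  refine ⟨fun u a b c hu hr _ => ⟨[(1, .X), (0, .X), (1, .X)], rfl, ?_⟩,
    fun u a b c hu hr _ => ⟨[(0, .X), (1, .X), (0, .X)], rfl, ?_⟩,
    moves_Unc [(0, .X), (1, .X), (0, .X)] rfl, moves_Unc [(1, .X), (0, .X), (1, .X)] rfl⟩
  · obtain rfl := moves_nc [(0, .X), (1, .X), (0, .X)] hu rfl
    rcases a with _ | ⟨p, _ | ⟨q, _ | ⟨r, t⟩⟩⟩ <;> simp [Run, ok, next, okh, nx] at hr ⊢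
    rw [SQ.act_act, hr]
  · obtain rfl := moves_nc [(1, .X), (0, .X), (1, .X)] hu rfl
    rcases a with _ | ⟨p, _ | ⟨q, _ | ⟨r, t⟩⟩⟩ <;> simp [Run, ok, next, okh, nx] at hr ⊢
    rw [← SQ.act_act, hr]

theorem moves_capX : moves_All Y [(0, .X), (1, .cap)] [(1, .Z), (0, .cap)] := by
  refine ⟨fun u a b c hu hr _ => ⟨[(1, .Z), (0, .cap)], rfl, ?_⟩,
    fun u a b c hu hr _ => ⟨[(0, .X), (1, .cap)], rfl, ?_⟩,
    moves_Unc [(0, .X), (1, .cap)] rfl, moves_Unc [(1, .Z), (0, .cap)] rfl⟩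
  · obtain rfl := moves_nc [(0, .X), (1, .cap)] hu rfl
    rcases a with _ | ⟨p, _ | ⟨q, _ | ⟨r, t⟩⟩⟩ <;> simp [Run, ok, next, okh, nx] at hr ⊢
    exact ⟨hr.1, by rw [hr.1, SQ.rho_rho, hr.2]⟩
  · obtain rfl := moves_nc [(1, .Z), (0, .cap)] hu rfl
    rcases a with _ | ⟨p, _ | ⟨q, _ | ⟨r, t⟩⟩⟩ <;> simp [Run, ok, next, okh, nx] at hr ⊢
    exact ⟨hr.1, by rw [← hr.2, hr.1, SQ.rho_rho]⟩

theorem moves_capZ : moves_All Y [(0, .Z), (1, .cap)] [(1, .X), (0, .cap)] := by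
  refine ⟨fun u a b c hu hr _ => ⟨[(1, .X), (0, .cap)], rfl, ?_⟩,
    fun u a b c hu hr _ => ⟨[(0, .Z), (1, .cap)], rfl, ?_⟩,
    moves_Unc [(0, .Z), (1, .cap)] rfl, moves_Unc [(1, .X), (0, .cap)] rfl⟩
  · obtain rfl := moves_nc [(0, .Z), (1, .cap)] hu rfl
    rcases a with _ | ⟨p, _ | ⟨q, _ | ⟨r, t⟩⟩⟩ <;> simp [Run, ok, next, okh, nx] at hr ⊢
    exact ⟨by rw [hr.1, SQ.rho_act, moves_aar], hr.2⟩
  · obtain rfl := moves_nc [(1, .X), (0, .cap)] hu rfl
    rcases a with _ | ⟨p, _ | ⟨q, _ | ⟨r, t⟩⟩⟩ <;> simp [Run, ok, next, okh, nx] at hr ⊢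
    exact ⟨by rw [SQ.rho_act, ← hr.1, SQ.act_rho_act], hr.2⟩

theorem moves_cupX : moves_All Y [(1, .cup ()), (0, .X)] [(0, .cup ()), (1, .Z)] := by
  refine ⟨fun u a b c hu hr _ => ?_, fun u a b c hu hr _ => ?_, fun u u' a b hu hu' hr hr' => ?_,
    fun u u' a b hu hu' hr hr' => ?_⟩
  · obtain ⟨y, rfl⟩ := moves_cup [(0, .X)] hu rfl
    rcases a with _ | ⟨p, t⟩ <;> simp [Run, ok, next, okh, nx] at hr
    subst hr
    exact ⟨[(0, .cup (Lab.act p y)), (1, .Z)], rfl,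
      by simp [Run, ok, next, okh, nx, SQ.act_rho_act, SQ.rho_act]⟩
  · obtain ⟨y, rfl⟩ := moves_cup [(1, .Z)] hu rfl
    rcases a with _ | ⟨p, t⟩ <;> simp [Run, ok, next, okh, nx] at hr
    subst hr
    exact ⟨[(1, .cup (Lab.act (Lab.rho p) y)), (0, .X)], rfl,
      by simp [Run, ok, next, okh, nx, moves_aar, SQ.rho_act]⟩
  · obtain ⟨y, rfl⟩ := moves_cup [(0, .X)] hu rfl
    obtain ⟨z, rfl⟩ := moves_cup [(0, .X)] hu' rfl
    rcases a with _ | ⟨p, t⟩ <;> simp [Run, ok, next, okh, nx] at hr hr' ⊢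
    subst hr
    simp only [List.cons.injEq] at hr'
    exact moves_rinj hr'.2.2.1.symm
  · obtain ⟨y, rfl⟩ := moves_cup [(1, .Z)] hu rfl
    obtain ⟨z, rfl⟩ := moves_cup [(1, .Z)] hu' rfl
    rcases a with _ | ⟨p, t⟩ <;> simp [Run, ok, next, okh, nx] at hr hr' ⊢
    exact (List.cons.inj (hr.trans hr'.symm)).1

omit [SQ Y] in
theorem moves_cupZ : moves_All Y [(1, .cup ()), (0, .Z)] [(0, .cup ()), (1, .X)] := by
  refine ⟨fun u a b c hu hr _ => ?_, fun u a b c hu hr _ => ?_, fun u u' a b hu hu' hr hr' => ?_,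
    fun u u' a b hu hu' hr hr' => ?_⟩
  · obtain ⟨y, rfl⟩ := moves_cup [(0, .Z)] hu rfl
    rcases a with _ | ⟨p, t⟩ <;> simp [Run, ok, next, okh, nx] at hr
    subst hr
    exact ⟨[(0, .cup y), (1, .X)], rfl, by simp [Run, ok, next, okh, nx]⟩
  · obtain ⟨y, rfl⟩ := moves_cup [(1, .X)] hu rfl
    rcases a with _ | ⟨p, t⟩ <;> simp [Run, ok, next, okh, nx] at hr
    subst hr
    exact ⟨[(1, .cup y), (0, .Z)], rfl, by simp [Run, ok, next, okh, nx]⟩
  · obtain ⟨y, rfl⟩ := moves_cup [(0, .Z)] hu rfl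
    obtain ⟨z, rfl⟩ := moves_cup [(0, .Z)] hu' rfl
    rcases a with _ | ⟨p, t⟩ <;> simp [Run, ok, next, okh, nx] at hr hr' ⊢
    exact (List.cons.inj (hr.trans hr'.symm)).1
  · obtain ⟨y, rfl⟩ := moves_cup [(1, .X)] hu rfl
    obtain ⟨z, rfl⟩ := moves_cup [(1, .X)] hu' rfl
    rcases a with _ | ⟨p, t⟩ <;> simp [Run, ok, next, okh, nx] at hr hr' ⊢
    exact (List.cons.inj (hr.trans hr'.symm)).1

theorem moves_all {s s' : List (L Unit)} (h : Mv s s') : moves_All Y s s' := by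
  cases h with
  | far i m k k' =>
    exact moves_lift (moves_far m k k') (by simp) i (by simp [shift]; omega)
      (by simp [shift]; omega)
  | zig i =>
    exact moves_lift moves_zig (by simp) i (by simp [shift, Nat.add_comm])
      (by simp [shift, Nat.add_comm])
  | zag i =>
    exact moves_lift moves_zag (by simp) i (by simp [shift, Nat.add_comm])
      (by simp [shift, Nat.add_comm])
  | r1X i =>
    exact moves_lift moves_r1X (by simp) i (by simp [shift, Nat.add_comm])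
      (by simp [shift, Nat.add_comm])
  | r1Z i =>
    exact moves_lift moves_r1Z (by simp) i (by simp [shift, Nat.add_comm])
      (by simp [shift, Nat.add_comm])
  | r2X i =>
    exact moves_lift moves_r2X (by simp) i (by simp [shift, Nat.add_comm])
      (by simp [shift, Nat.add_comm])
  | r2Z i =>
    exact moves_lift moves_r2Z (by simp) i (by simp [shift, Nat.add_comm])
      (by simp [shift, Nat.add_comm])
  | r3 i =>
    exact moves_lift moves_r3 (by simp) i (by simp [shift, Nat.add_comm])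
      (by simp [shift, Nat.add_comm])
  | capX i =>
    exact moves_lift moves_capX (by simp) i (by simp [shift, Nat.add_comm])
      (by simp [shift, Nat.add_comm])
  | capZ i =>
    exact moves_lift moves_capZ (by simp) i (by simp [shift, Nat.add_comm])
      (by simp [shift, Nat.add_comm])
  | cupX i =>
    exact moves_lift moves_cupX (by simp) i (by simp [shift, Nat.add_comm])
      (by simp [shift, Nat.add_comm])
  | cupZ i =>
    exact moves_lift moves_cupZ (by simp) i (by simp [shift, Nat.add_comm])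
      (by simp [shift, Nat.add_comm])

end

variable {Y Y' : Type} [Lab Y] [Lab Y'] [SQ Y]

/-- A colouring of one side of a move gives a colouring of the other side with the same ends,
provided the other side fits the width.  Case by case: write `a = l ++ (strands) ++ r` with
`l.length = i` and use `next_app`, `ok_app`. -/
theorem mv_ex {s s' : List (L Unit)} (h : MvS s s') {u : List (L Y)} (hu : shape u = s)
    {a b : List Y} (hr : Run u a b) {c : List Unit} (hc : Run s' (a.map fun _ => ()) c) :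
    ∃ u', shape u' = s' ∧ Run u' a b := by
  rcases h with h | h
  · exact (moves_all h).1 u a b c hu hr hc
  · exact (moves_all h).2.1 u a b c hu hr hc

/-- Each side of a move is determined by its ends (the label of a cup can be read on `b`). -/
theorem mv_uniq {s s' : List (L Unit)} (h : MvS s s') {u u' : List (L Y)} (hu : shape u = s)
    (hu' : shape u' = s) {a b : List Y} (hr : Run u a b) (hr' : Run u' a b) : u = u' := by
  rcases h with h | h
  · exact (moves_all h).2.2.1 u u' a b hu hu' hr hr'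
  · exact (moves_all h).2.2.2 u u' a b hu hu' hr hr'

end Pool.Agent.AS
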