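import Pool.Agent.Lib.MP_dae8ad_gt.T.QDefs
import Pool.Agent.Lib.MP_dae8ad_gt.T.Basic

namespace Pool.Agent.AS

variable {g : ℕ} {M : Type} [AddCommGroup M]

theorem plan_split {Y : Type} [Lab Y] {l : L Y} {a : List Y} (h : ok l a) :
    ∃ c r, a = c ++ r ∧ a.drop l.1 = r ∧ okh l.2 r ∧ next l a = c ++ nx l.2 r :=
  ⟨a.take l.1, a.drop l.1, (List.take_append_drop _ _).symm, rfl, h.2, rfl⟩

theorem plan_sum (F : Bool × (Fin g × Bool) → M) :
    ((legs g).map F).sum = ∑ k : Fin g, (F (true, (k, false)) + F (true, (k, true)) +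
      F (false, (k, false)) + F (false, (k, true))) := by
  rw [Fin.sum_univ_def, legs]
  induction List.finRange g with
  | nil => rfl
  | cons k l ih =>
    simp only [List.flatMap_cons, List.map_append, List.sum_append, ih, List.map_cons,
      List.sum_cons, List.map_nil, List.sum_nil, add_zero, add_assoc]

section
variable {T : Type} [DecidableEq T]

/-- The signed indicator of a name. -/
def plan_f (i : T) (y : Bool × T) : ℤ := if y.2 = i then (if y.1 then 1 else -1) else 0

def plan_t (i : T) (a : List (Bool × T)) : ℤ := (a.map (plan_f i)).sum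

def plan_N (i j : T) : List (Bool × T) → ℤ
  | [] => 0
  | y :: a => plan_f i y * plan_t j a + plan_N i j a

theorem plan_t_nil (i : T) : plan_t i [] = 0 := rfl

theorem plan_t_cons (i : T) (y : Bool × T) (a : List (Bool × T)) :
    plan_t i (y :: a) = plan_f i y + plan_t i a := rfl

theorem plan_t_append (i : T) (a b : List (Bool × T)) :
    plan_t i (a ++ b) = plan_t i a + plan_t i b := by
  simp only [plan_t, List.map_append, List.sum_append]

theorem plan_N_append (i j : T) (a b : List (Bool × T)) :
    plan_N i j (a ++ b) = plan_N i j a + plan_t i a * plan_t j b + plan_N i j b := by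
  induction a with
  | nil => simp [plan_N, plan_t_nil]
  | cons y a ih =>
    rw [List.cons_append, plan_N, plan_N, ih, plan_t_append, plan_t_cons]
    ring

theorem plan_f_rho (i : T) (y : Bool × T) : plan_f i (Lab.rho y) = -plan_f i y := by
  obtain ⟨s, n⟩ := y
  show plan_f i (!s, n) = _
  cases s <;> simp only [plan_f] <;> split_ifs <;> simp_all

theorem plan_f_mul {i j : T} (hij : i ≠ j) (y : Bool × T) : plan_f i y * plan_f j y = 0 := by
  unfold plan_f
  by_cases h : y.2 = i
  · rw [if_neg (fun h' : y.2 = j => hij (h.symm.trans h')), mul_zero]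
  · rw [if_neg h, zero_mul]

theorem plan_ff (i j : T) (p q : Bool × T) : plan_f i p * plan_f j q =
    if p.2 = i ∧ q.2 = j then (if p.1 = q.1 then 1 else -1) else 0 := by
  obtain ⟨s, n⟩ := p
  obtain ⟨s', n'⟩ := q
  by_cases h : n = i <;> by_cases h' : n' = j <;> cases s <;> cases s' <;> simp [plan_f, h, h']

theorem plan_ff' (i j : T) (p q : Bool × T) : -(plan_f i q * plan_f j p) =
    if q.2 = i ∧ p.2 = j then (if p.1 = q.1 then -1 else 1) else 0 := by
  obtain ⟨s, n⟩ := p
  obtain ⟨s', n'⟩ := q
  by_cases h : n = j <;> by_cases h' : n' = i <;> cases s <;> cases s' <;> simp [plan_f, h, h']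

theorem plan_step {i j : T} (hij : i ≠ j) {k : Kd (Bool × T)} {r : List (Bool × T)}
    (h : okh k r) : plan_t j (nx k r) = plan_t j r ∧
      wt i j k r - wt j i k r = plan_N i j r - plan_N i j (nx k r) := by
  cases k with
  | X =>
    match r, h with
    | p :: q :: t, _ =>
      have e : nx .X (p :: q :: t) = q :: p :: t := rfl
      rw [e]
      simp only [wt, ← plan_ff, plan_N, plan_t_cons]
      constructor <;> ring
  | Z =>
    match r, h with
    | p :: q :: t, _ =>
      have e : nx .Z (p :: q :: t) = q :: p :: t := rfl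
      rw [e]
      simp only [wt, ← plan_ff', plan_N, plan_t_cons]
      constructor <;> ring
  | cup y =>
    have e : nx (.cup y) r = y :: Lab.rho y :: r := rfl
    have e' : ∀ i j : T, wt i j (.cup y) r = 0 := fun _ _ => by simp only [wt]
    rw [e]
    simp only [e', plan_N, plan_t_cons, plan_f_rho]
    exact ⟨by ring, by linear_combination (-1 : ℤ) * plan_f_mul hij y⟩
  | cap =>
    obtain ⟨y, t, rfl⟩ := h
    have e : nx .cap (y :: Lab.rho y :: t) = t := rfl
    have e' : ∀ i j : T, wt i j .cap (y :: Lab.rho y :: t) = 0 := fun _ _ => by simp only [wt]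
    rw [e]
    simp only [e', plan_N, plan_t_cons, plan_f_rho]
    exact ⟨by ring, by linear_combination plan_f_mul hij y⟩

theorem plan_run {i j : T} (hij : i ≠ j) {w : List (L (Bool × T))} {a b : List (Bool × T)}
    (h : Run w a b) : cnt i j w a - cnt j i w a = plan_N i j a - plan_N i j b := by
  induction w generalizing a with
  | nil =>
    have e : a = b := h
    simp [cnt, e]
  | cons l w ih =>
    have ih' := ih h.2
    obtain ⟨c, r, rfl, e1, e2, e3⟩ := plan_split h.1
    obtain ⟨s1, s2⟩ := plan_step hij e2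
    rw [cnt, cnt, e1]
    rw [e3] at ih' ⊢
    rw [plan_N_append, s1] at ih'
    rw [plan_N_append]
    linear_combination ih' + s2

end

theorem plan_legs {i j : Fin g × Bool} (hij : i ≠ j) : plan_N i j (legs g) = Jm g i j := by
  have h : ∀ l : List (Fin g), plan_N i j (l.flatMap fun k =>
      [(true, (k, false)), (true, (k, true)), (false, (k, false)), (false, (k, true))]) =
      (l.map fun k => plan_f i (true, (k, false)) * plan_f j (true, (k, true)) -
        plan_f i (true, (k, true)) * plan_f j (true, (k, false))).sum := by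
    intro l
    induction l with
    | nil => rfl
    | cons k l ih =>
      have r1 : ∀ (i : Fin g × Bool) t, plan_f i (false, (k, t)) = -plan_f i (true, (k, t)) :=
        fun i t => plan_f_rho i (true, (k, t))
      rw [List.flatMap_cons, plan_N_append, ih, List.map_cons, List.sum_cons]
      simp only [plan_N, plan_t_cons, plan_t_nil, r1]
      linear_combination (-1 : ℤ) * plan_f_mul hij (true, (k, false)) -
        plan_f_mul hij (true, (k, true))
  rw [legs, h, ← Fin.sum_univ_def, Finset.sum_eq_single i.1]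
  · obtain ⟨k, t⟩ := i
    obtain ⟨k', t'⟩ := j
    by_cases e : k = k' <;> cases t <;> cases t' <;> simp [plan_f, Jm, e]
  · obtain ⟨k, t⟩ := i
    intro k' _ e
    simp [plan_f, show ¬ k' = k from e]
  · simp

/-- Planarity.  For names `i`, `j` let `N a` be the sum of `σ σ'` (`σ = ± 1` the orientations) over
the pairs of positions `k < k'` of the level `a` with names `i` at `k` and `j` at `k'`; for `i ≠ j`,
`cnt i j w a - cnt j i w a = N a - N b` when `Run w a b` (cups and caps do not change `N`).  On
`legs g` the signed count of each name in a handle is zero, and `N = Jm g i j`. -/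
theorem plan {S : SW g} (h : Run S [] (legs g)) : (seifert S).transpose - seifert S = Jm g := by
  ext i j
  show cnt j i S [] - cnt i j S [] = _
  by_cases hij : i = j
  · subst hij
    obtain ⟨k, t⟩ := i
    cases t <;> simp [Jm]
  · have := plan_run hij h
    rw [plan_legs hij, plan_N] at this
    linear_combination -this

section
variable {T : Type} [DecidableEq T] {v : T → M}

def plan_p (j : T) (p : Qd v) : M := if p.n = j then sgn p.s p.z else 0

theorem plan_p_rho (j : T) (p : Qd v) : plan_p j (Lab.rho p) = -plan_p j p := by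
  obtain ⟨s, n, z⟩ := p
  show plan_p j ⟨!s, n, z⟩ = _
  by_cases h : n = j <;> cases s <;> simp [plan_p, sgn, h]

theorem plan_pstep [Fintype T] (j : T) {k : Kd (Qd v)} {r : List (Qd v)} (h : okh k r) :
    ((nx k r).map (plan_p j)).sum =
      (r.map (plan_p j)).sum + ∑ i, wt i j (k.map Qd.nm) (r.map Qd.nm) • v i := by
  cases k with
  | X =>
    match r, h with
    | ⟨s, n, z⟩ :: ⟨s', n', z'⟩ :: t, _ =>
      have e : nx .X ((⟨s, n, z⟩ : Qd v) :: ⟨s', n', z'⟩ :: t) =
        ⟨s', n', z' + sgn s (v n)⟩ :: ⟨s, n, z⟩ :: t := rfl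
      rw [e, Finset.sum_eq_single n]
      · simp only [List.map_cons, List.sum_cons, Kd.map, wt, Qd.nm, plan_p, true_and]
        by_cases h' : n' = j <;> cases s <;> cases s' <;> simp [h', sgn] <;> abel
      · intro i _ hi
        simp [Kd.map, wt, Qd.nm, hi.symm]
      · simp
  | Z =>
    match r, h with
    | ⟨s, n, z⟩ :: ⟨s', n', z'⟩ :: t, _ =>
      have e : nx .Z ((⟨s, n, z⟩ : Qd v) :: ⟨s', n', z'⟩ :: t) =
        ⟨s', n', z'⟩ :: ⟨s, n, z + sgn (!s') (v n')⟩ :: t := rfl
      rw [e, Finset.sum_eq_single n']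
      · simp only [List.map_cons, List.sum_cons, Kd.map, wt, Qd.nm, plan_p, true_and]
        by_cases h' : n = j <;> cases s <;> cases s' <;> simp [h', sgn] <;> abel
      · intro i _ hi
        simp [Kd.map, wt, Qd.nm, hi.symm]
      · simp
  | cup y =>
    have e : nx (.cup y) r = y :: Lab.rho y :: r := rfl
    rw [e]
    simp [Kd.map, wt, plan_p_rho]
  | cap =>
    obtain ⟨y, t, rfl⟩ := h
    have e : nx .cap (y :: Lab.rho y :: t) = t := rfl
    rw [e]
    simp [Kd.map, wt, plan_p_rho]

theorem plan_prun [Fintype T] (j : T) {w : List (L (Qd v))} {a b : List (Qd v)} (h : Run w a b) :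
    (b.map (plan_p j)).sum =
      (a.map (plan_p j)).sum + ∑ i, cnt i j (mapW Qd.nm w) (a.map Qd.nm) • v i := by
  induction w generalizing a with
  | nil =>
    have e : a = b := h
    simp [mapW_nil, cnt, e]
  | cons l w ih =>
    have ih' := ih h.2
    simp only [mapW_cons, cnt, next_map (hom_nm v), add_smul, Finset.sum_add_distrib,
      ← List.map_drop]
    obtain ⟨c, r, rfl, e1, e2, e3⟩ := plan_split h.1
    rw [ih', e1, e3, List.map_append, List.sum_append, plan_pstep j e2, List.map_append (f := plan_p j),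
      List.sum_append]
    abel

end

/-- The potential `Φ j a = ∑ sgn p.s p.z` over the strands of name `j` changes along a word by
`∑ i, cnt i j • v i`; on `topQ` it is `zu j - zd j`. -/
theorem q_pot {v zu zd : Fin g × Bool → M} {E : List (L (Qd v))} (h : Run E [] (topQ v zu zd))
    (j : Fin g × Bool) : zu j - zd j = ∑ i, seifert (mapW Qd.nm E) i j • v i := by
  have := plan_prun j h
  rw [topQ, List.map_map, plan_sum, Finset.sum_eq_single j.1] at this
  · refine Eq.trans ?_ (this.trans (zero_add _))
    obtain ⟨k, t⟩ := j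
    cases t <;> simp [plan_p, sgn, sub_eq_add_neg]
  · obtain ⟨k, t⟩ := j
    intro k' _ e
    simp [plan_p, show ¬ k' = k from e]
  · simp

theorem plan_mem (y : Bool × (Fin g × Bool)) : y ∈ legs g := by
  obtain ⟨s, k, t⟩ := y
  refine List.mem_flatMap.2 ⟨k, List.mem_finRange k, ?_⟩
  cases s <;> cases t <;> simp

theorem plan_nodup : (legs g).Nodup := by
  refine List.nodup_flatMap.2 ⟨fun k _ => by simp, (List.nodup_finRange g).imp fun {k k'} e => ?_⟩
  intro y h1 h2
  have e1 : y.2.1 = k := by
    simp only [List.mem_cons, List.not_mem_nil, or_false] at h1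
    rcases h1 with h | h | h | h <;> rw [h]
  have e2 : y.2.1 = k' := by
    simp only [List.mem_cons, List.not_mem_nil, or_false] at h2
    rcases h2 with h | h | h | h <;> rw [h]
  exact e (e1.symm.trans e2)

omit [AddCommGroup M] in
/-- `legs g` has no repetition. -/
theorem q_top {v : Fin g × Bool → M} {b : List (Qd v)} (h : b.map Qd.nm = legs g) :
    ∃ zu zd, b = topQ v zu zd := by
  have h1 : ∀ y, ∃ p ∈ b, Qd.nm p = y := fun y => List.mem_map.1 (h ▸ plan_mem y)
  choose P hP hP' using h1
  have h2 : (b.map Qd.nm).Nodup := h ▸ plan_nodup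
  refine ⟨fun n => (P (true, n)).z, fun n => (P (false, n)).z, ?_⟩
  rw [topQ, ← h, List.map_map]
  refine (List.map_id b).symm.trans (List.map_congr_left fun p hp => ?_)
  have e : P (Qd.nm p) = p := List.inj_on_of_nodup_map h2 (hP _) hp (hP' _)
  obtain ⟨s, n, z⟩ := p
  refine Qd.ext rfl rfl ?_
  cases s
  · exact (congrArg Qd.z e).symm
  · exact (congrArg Qd.z e).symm

theorem mem_legs (y : Bool × (Fin g × Bool)) : y ∈ legs g :=
  plan_mem y

/-- A quantity that is constant along strands depends only on the name: compose with the maps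
`W → Bool`, `w ↦ decide (w = w0)`, use the second part of `Bands`, then `lev_forall`. -/
theorem name_fun {S : SW g} (hS : Bands g S) {W : Type} [Nonempty W]
    {E : List (L (Bool × ((Fin g × Bool) × W)))} {b : List (Bool × ((Fin g × Bool) × W))}
    (hE : mapW (fun y => (y.1, y.2.1)) E = S) (h : Run E [] b) :
    ∃ f : Fin g × Bool → W, (∀ y ∈ cups E, y.2.2 = f y.2.1) ∧ ∀ y ∈ b, y.2.2 = f y.2.1 := by
  classical
  have key : ∀ y ∈ cups E, ∀ z ∈ cups E, y.2.1 = z.2.1 → y.2.2 = z.2.2 := by
    intro y hy z hz e
    let φ : Bool × ((Fin g × Bool) × W) → Bool × ((Fin g × Bool) × Bool) :=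
      fun u => (u.1, u.2.1, decide (u.2.2 = z.2.2))
    have hφ : Hom φ := ⟨fun _ _ => rfl, fun _ => rfl⟩
    have h1 := hS.2.1 (mapW φ E) (b.map φ) ((mapW_mapW _ _ _).trans hE) (run_map hφ h) (φ y)
      (by rw [cups_mapW]; exact List.mem_map_of_mem hy) (φ z)
      (by rw [cups_mapW]; exact List.mem_map_of_mem hz) e
    simpa [φ] using h1
  let f : Fin g × Bool → W := fun n =>
    if h : ∃ y ∈ cups E, y.2.1 = n then h.choose.2.2 else Classical.arbitrary W
  have hf : ∀ y ∈ cups E, y.2.2 = f y.2.1 := by
    intro y hy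
    have h1 : ∃ z ∈ cups E, z.2.1 = y.2.1 := ⟨y, hy, rfl⟩
    simp only [f, dif_pos h1]
    exact key y hy _ h1.choose_spec.1 h1.choose_spec.2.symm
  refine ⟨f, hf, ?_⟩
  rw [← run_lev h]
  exact lev_forall (fun y : Bool × ((Fin g × Bool) × W) => y.2.2 = f y.2.1) (fun _ _ _ h => h)
    (fun _ h => h) E [] hf (fun _ h => absurd h List.not_mem_nil)

end Pool.Agent.AS
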