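import Pool.Agent.Lib.MP_dae8ad_gt.T.LbDefs

/-! Colourings of the cores of the bands, boxes, and the pattern. -/

namespace Pool.Agent.AS

/-- Orientation, name and position of a band; passing under band `i` translates by `± v i`. -/
@[ext] structure Qd {T M : Type} (v : T → M) where
  s : Bool
  n : T
  z : M

def sgn {M : Type} [Neg M] (b : Bool) (m : M) : M := if b then m else -m

instance {T M : Type} [AddCommGroup M] (v : T → M) : Lab (Qd v) :=
  ⟨fun p q => ⟨q.s, q.n, q.z + sgn p.s (v p.n)⟩, fun p => ⟨!p.s, p.n, p.z⟩⟩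

def Qd.nm {T M : Type} {v : T → M} (p : Qd v) : Bool × T := (p.s, p.n)

theorem hom_nm {T M : Type} [AddCommGroup M] (v : T → M) : Hom (Qd.nm : Qd v → Bool × T) :=
  ⟨fun _ _ => rfl, fun _ => rfl⟩

abbrev SW (g : ℕ) := List (L (Bool × (Fin g × Bool)))

def topQ {g : ℕ} {M : Type} (v zu zd : Fin g × Bool → M) : List (Qd v) :=
  (legs g).map fun y => ⟨y.1, y.2, if y.1 then zu y.2 else zd y.2⟩

section
variable {G M : Type} [Group G] [AddCommGroup M] [DistribMulAction G M] {g : ℕ}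

def hP (P : Pr (Lb G M)) : G := P.l.x * P.r.x

def tl (a : M) (P : Pr (Lb G M)) : Pr (Lb G M) := P.map (Lb.mp (· + a))

def vq (P : Pr (Lb G M)) (y : Fin g × Bool → M) : Fin g × Bool → M := fun i => om (hP P)⁻¹ (y i)

/-- The four strands of a band. -/
def FQ (P : Pr (Lb G M)) (y : Fin g × Bool → M) (p : Qd (vq P y)) : Pr (Pr (Lb G M)) :=
  if p.s then ⟨Lab.rho (tl (p.z + y p.n) P), tl p.z P⟩
  else ⟨Lab.rho (tl p.z P), tl (p.z + y p.n) P⟩

def zuF (y : Fin g × Bool → M) (i : Fin g × Bool) : M :=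
  if i.2 then -y (i.1, false) - y (i.1, true) else -y (i.1, false)

def zdF (y : Fin g × Bool → M) (i : Fin g × Bool) : M :=
  if i.2 then -y (i.1, true) else -y (i.1, false) - y (i.1, true)

/-- The row `j` of `(U - h⁻¹ Uᵀ) y`. -/
def beq {T : Type} [Fintype T] (U : Matrix T T ℤ) (h : G) (y : T → M) (j : T) : M :=
  ∑ i, U j i • y i - h⁻¹ • ∑ i, U i j • y i

def IsBox (S : SW g) (P : Pr (Lb G M)) (y : Fin g × Bool → M) (w : List (L (Lb G M))) : Prop :=
  ∃ E : List (L (Qd (vq P y))), mapW Qd.nm E = S ∧ Run E [] (topQ _ (zuF y) (zdF y)) ∧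
    w = boxW g (mapW (FQ P y) E)

end

/-- A disc with two bands whose boundary is a trefoil. -/
def SJ : SW 1 :=
  [(0, .cup (false, (0, false))), (0, .X), (2, .cup (false, (0, true))), (2, .X), (1, .X)]

@[ext] structure Tri (Y : Type) where
  a : Y
  b : Y
  c : Y

section
variable {Y Y' : Type}

def Tri.map (f : Y → Y') (y : Tri Y) : Tri Y' := ⟨f y.a, f y.b, f y.c⟩

def R0 (y : Tri Y) : List (L Y) :=
  [(0, .cup y.a), (2, .cup y.b), (4, .cup y.c), (2, .X), (1, .X), (3, .X), (2, .X), (2, .X),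
    (3, .X), (3, .X), (2, .X)]

def R1 : List (L Y) := [(2, .X), (3, .X), (1, .Z), (2, .Z)]

def R2a : List (L Y) := [(2, .Z), (1, .Z), (3, .Z), (2, .Z)]

def R2 : List (L Y) := R2a ++ [(0, .cap), (0, .cap), (0, .cap)]

/-- The ribbon knot without the boxes. -/
def RW (y : Tri Y) : List (L Y) := R0 y ++ (R1 ++ R2)

variable [Lab Y]

def lv0 (y : Tri Y) : List Y := lev (R0 y) []
def lv1 (y : Tri Y) : List Y := lev R1 (lv0 y)
def P1 (y : Tri Y) : Pr Y := ⟨(lv0 y).getD 1 y.a, (lv0 y).getD 2 y.a⟩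
def P3 (y : Tri Y) : Pr Y := ⟨(lv1 y).getD 3 y.a, (lv1 y).getD 4 y.a⟩

def botW (y : Tri Y) (w2 w3 : List (L Y)) : List (L Y) :=
  shift 1 w2 ++ (R1 ++ (rv (shift 3 w3) (lv1 y) ++ R2))

def KB (y : Tri Y) (w1 w2 w3 : List (L Y)) : List (L Y) := R0 y ++ shift 1 w1 ++ botW y w2 w3

def KG {g : ℕ} (y : Tri Y) (S : SW g) : List (L Y) :=
  KB y (box (P1 y) S) (box (P1 y) SJ) (box (P3 y) SJ)

end

section
variable {G M : Type} [Group G] [AddCommGroup M] [DistribMulAction G M] {g : ℕ}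

/-- The colouring of the satellite with labels `y` on the pattern and box data `Y`. -/
def IsK (S : SW g) (y : Tri (Lb G M)) (Y : N3 (Fin g × Bool) → M) (b : List (L (Lb G M))) : Prop :=
  Run (RW y) [] [] ∧ ∃ w1 w2 w3, IsBox S (P1 y) (fun i => Y (.inl i)) w1 ∧
    IsBox SJ (P1 y) (fun i => Y (.inr (.inl i))) w2 ∧
    IsBox SJ (P3 y) (fun i => Y (.inr (.inr i))) w3 ∧ b = KB y w1 w2 w3

/-- The equations of the three boxes. -/
def keq (U : Matrix (Fin g × Bool) (Fin g × Bool) ℤ) (h h' : G) (Y : N3 (Fin g × Bool) → M) :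
    N3 (Fin g × Bool) → M :=
  Sum.elim (beq U h fun i => Y (.inl i))
    (Sum.elim (beq UJ h fun i => Y (.inr (.inl i))) (beq UJ h' fun i => Y (.inr (.inr i))))

/-- The weights of the three boxes. -/
def kw (h h' : G) (Y : N3 (Fin g × Bool) → M) : N3 (Fin g × Bool) → M :=
  Sum.elim (fun i => om h⁻¹ (Y (.inl i)))
    (Sum.elim (fun i => om h⁻¹ (Y (.inr (.inl i)))) (fun i => -om h'⁻¹ (Y (.inr (.inr i)))))

end

end Pool.Agent.AS
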