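import Pool.Agent.Lib.MP_dae8ad_gt.T.Plan

namespace Pool.Agent.AS

variable {g : ℕ} {M : Type} [AddCommGroup M]

section
variable {Y Y' W : Type} [Lab Y] [Lab Y'] [Lab W] {f : Y → W} {f' : Y' → W}

/-- Pairs of labels with the same image. -/
@[ext] structure qex_P (hf : Hom f) (hf' : Hom f') where
  a : Y
  b : Y'
  e : f a = f' b

instance (hf : Hom f) (hf' : Hom f') : Lab (qex_P hf hf') :=
  ⟨fun p q => ⟨Lab.act p.a q.a, Lab.act p.b q.b, by rw [hf.act, hf'.act, p.e, q.e]⟩,
    fun p => ⟨Lab.rho p.a, Lab.rho p.b, by rw [hf.rho, hf'.rho, p.e]⟩⟩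

theorem qex_word (hf : Hom f) (hf' : Hom f') : ∀ (E : List (L Y)) (C : List (L Y')),
    mapW f E = mapW f' C →
      ∃ F : List (L (qex_P hf hf')), mapW qex_P.a F = E ∧ mapW qex_P.b F = C
  | [], [], _ => ⟨[], rfl, rfl⟩
  | [], _ :: _, h => by simp [mapW] at h
  | _ :: _, [], h => by simp [mapW] at h
  | (i, k) :: E, (j, k') :: C, h => by
    rw [mapW_cons, mapW_cons, List.cons.injEq, Prod.mk.injEq] at h
    obtain ⟨⟨hi, hk⟩, h⟩ := h
    obtain rfl : i = j := hi
    obtain ⟨F, rfl, rfl⟩ := qex_word hf hf' E C h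
    cases k <;> cases k' <;> simp only [Kd.map, reduceCtorEq, Kd.cup.injEq] at hk
    · exact ⟨(i, .X) :: F, rfl, rfl⟩
    · exact ⟨(i, .Z) :: F, rfl, rfl⟩
    · exact ⟨(i, .cup ⟨_, _, hk⟩) :: F, rfl, rfl⟩
    · exact ⟨(i, .cap) :: F, rfl, rfl⟩

theorem qex_lev (hf : Hom f) (hf' : Hom f') : ∀ (a : List Y) (a' : List Y'),
    a.map f = a'.map f' → ∃ x : List (qex_P hf hf'), x.map qex_P.a = a ∧ x.map qex_P.b = a'
  | [], [], _ => ⟨[], rfl, rfl⟩
  | [], _ :: _, h => by simp at h
  | _ :: _, [], h => by simp at h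
  | p :: a, q :: a', h => by
    rw [List.map_cons, List.map_cons, List.cons.injEq] at h
    obtain ⟨x, rfl, rfl⟩ := qex_lev hf hf' a a' h.2
    exact ⟨⟨p, q, h.1⟩ :: x, rfl, rfl⟩

theorem qex_zip (hf : Hom f) (hf' : Hom f') {E : List (L Y)} {a b : List Y} (h : Run E a b)
    {C : List (L Y')} {a' b' : List Y'} (h' : Run C a' b') (hs : mapW f E = mapW f' C)
    (ha : a.map f = a'.map f') :
    ∃ (F : List (L (qex_P hf hf'))) (x y : List (qex_P hf hf')), mapW qex_P.a F = E ∧
      mapW qex_P.b F = C ∧ x.map qex_P.a = a ∧ x.map qex_P.b = a' ∧ y.map qex_P.a = b ∧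
      y.map qex_P.b = b' ∧ Run F x y := by
  obtain ⟨F, rfl, rfl⟩ := qex_word hf hf' E C hs
  obtain ⟨x, rfl, rfl⟩ := qex_lev hf hf' a a' ha
  have h1 : Hom (qex_P.a : qex_P hf hf' → Y) := ⟨fun _ _ => rfl, fun _ => rfl⟩
  have h2 : Hom (qex_P.b : qex_P hf hf' → Y') := ⟨fun _ _ => rfl, fun _ => rfl⟩
  exact ⟨F, x, lev F x, rfl, rfl, rfl, rfl, (lev_map h1 F x).symm.trans (run_lev h),
    (lev_map h2 F x).symm.trans (run_lev h'),
    run_ji h1 h2 (fun _ _ e1 e2 => qex_P.ext e1 e2) h h'⟩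

end

theorem qex_zw {A B C D : Type} (ψ : B → C → D) (u : A → B) (w : A → C) (x : List A) :
    List.zipWith ψ (x.map u) (x.map w) = x.map fun p => ψ (u p) (w p) := by
  induction x with
  | nil => rfl
  | cons p x ih => simp only [List.map_cons, List.zipWith_cons_cons, ih]

/-- Positions can be shifted by any quantity that is constant along strands.  `E` and `C` have the
same orientations; add the value of `C` to the position, letter by letter (`List.zipWith`). -/
theorem q_shift {T : Type} {v : T → M} {E : List (L (Qd v))} {a b : List (Qd v)} (h : Run E a b)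
    {C : List (L (Bool × M))} {a' b' : List (Bool × M)} (h' : Run C a' b')
    (hs : mapW Qd.s E = mapW Prod.fst C) (ha : a.map Qd.s = a'.map Prod.fst) :
    ∃ E' : List (L (Qd v)), mapW Qd.nm E' = mapW Qd.nm E ∧
      Run E' (List.zipWith (fun p c => ⟨p.s, p.n, p.z + c.2⟩) a a')
        (List.zipWith (fun p c => ⟨p.s, p.n, p.z + c.2⟩) b b') := by
  have h1 : Hom (Qd.s : Qd v → Bool) := ⟨fun _ _ => rfl, fun _ => rfl⟩
  have h2 : Hom (Prod.fst : Bool × M → Bool) := ⟨fun _ _ => rfl, fun _ => rfl⟩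
  obtain ⟨F, x, y, rfl, rfl, rfl, rfl, rfl, rfl, hF⟩ := qex_zip h1 h2 h h' hs ha
  have h3 : Hom fun p : qex_P h1 h2 => (⟨p.a.s, p.a.n, p.a.z + p.b.2⟩ : Qd v) :=
    ⟨fun p q => Qd.ext rfl rfl (add_right_comm _ _ _), fun _ => rfl⟩
  refine ⟨_, ?_, by rw [qex_zw, qex_zw]; exact run_map h3 hF⟩
  rw [mapW_mapW, mapW_mapW]
  rfl

theorem qex_seg {S : SW g} (hS : Bands g S) (v : Fin g × Bool → M) (p : SW g) :
    ∀ q, S = p ++ q → ∃ (E : List (L (Qd v))) (b : List (Qd v)), mapW Qd.nm E = p ∧ Run E [] b := by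
  induction p using List.reverseRecOn with
  | nil => exact fun _ _ => ⟨[], [], rfl, rfl⟩
  | append_singleton p l ih =>
    intro q hq
    rw [List.append_assoc, List.singleton_append] at hq
    obtain ⟨E, b, rfl, hb⟩ := ih _ hq
    have h0 := hS.1
    rw [hq] at h0
    obtain ⟨c, hc, hl, -⟩ := run_append.1 h0
    obtain rfl : b.map Qd.nm = c := run_det (run_map (hom_nm v) hb) hc
    have key : ∀ (E' : List (L (Qd v))) (b' : List (Qd v)) (l' : L (Qd v)),
        mapW Qd.nm E' = mapW Qd.nm E → Run E' [] b' → ok l' b' → (l'.1, l'.2.map Qd.nm) = l →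
        ∃ (F : List (L (Qd v))) (b : List (Qd v)), mapW Qd.nm F = mapW Qd.nm E ++ [l] ∧
          Run F [] b := fun E' b' l' e1 e2 e3 e4 =>
      ⟨E' ++ [l'], next l' b', by rw [mapW_append, e1, ← e4]; rfl,
        run_append.2 ⟨b', e2, e3, rfl⟩⟩
    obtain ⟨i, k⟩ := l
    obtain ⟨hi, hk⟩ := hl
    rw [List.length_map] at hi
    rw [← List.map_drop] at hk
    cases k with
    | X => exact key E b (i, .X) rfl hb ⟨hi, by simpa [okh] using hk⟩ rfl
    | Z => exact key E b (i, .Z) rfl hb ⟨hi, by simpa [okh] using hk⟩ rfl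
    | cup y => exact key E b (i, .cup ⟨y.1, y.2, 0⟩) rfl hb ⟨hi, trivial⟩ rfl
    | cap =>
      obtain ⟨y0, t, ht⟩ := hk
      obtain ⟨p0, t1, e1, rfl, ht1⟩ := List.map_eq_cons_iff.1 ht
      obtain ⟨q0, r0, rfl, e2, -⟩ := List.map_eq_cons_iff.1 ht1
      obtain ⟨E2, l, y, z, r, hE2, hl, hr, hyz⟩ := hS.2.2 _ i q hq
      have hm : Hom fun c : Bool × Bool => (c.1, if c.2 = y.2 then q0.z - p0.z else 0) :=
        ⟨fun _ _ => rfl, fun _ => rfl⟩
      obtain ⟨E', e3, h3⟩ := q_shift hb (run_map hm hr) (by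
        rw [mapW_mapW]
        exact (mapW_mapW Prod.fst Qd.nm E).symm.trans hE2.symm) rfl
      have h4 : (b.take i).length = i := List.length_take_of_le hi
      rw [← List.take_append_drop i b, e1, List.map_append,
        List.zipWith_append (by rw [h4, List.length_map, hl])] at h3
      refine key E' _ (i, .cap) e3 h3 ?_ rfl
      have h5 := fun (u w : List (Qd v)) (hu : u.length = i) => hu ▸ (ok_app u w .cap).2
      refine h5 _ _ (by rw [List.length_zipWith, h4, List.length_map, hl, min_self]) ?_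
      rw [List.map_cons, List.map_cons, List.zipWith_cons_cons, List.zipWith_cons_cons]
      refine ⟨_, _, congrArg₂ List.cons rfl (congrArg₂ List.cons ?_ rfl)⟩
      refine Qd.ext (congrArg Prod.fst e2) (congrArg Prod.snd e2) ?_
      change q0.z + (if z.2 = y.2 then _ else 0) = p0.z + (if y.2 = y.2 then _ else 0)
      rw [if_neg (Ne.symm hyz), if_pos rfl]
      abel

/-- Existence.  Induction over the initial segments `p` of `S` (`List.reverseRecOn`): at a cap the
two strands have opposite orientations and the same name but different positions; the third part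
of `Bands` gives a 2-colouring that separates them, shift one colour (`q_shift`).  At the end shift
by a function of the name (`C = mapW (fun y => (y.1, f y.2)) S`), `q_top`. -/
theorem q_ex {S : SW g} (hS : Bands g S) (v zu : Fin g × Bool → M) :
    ∃ (E : List (L (Qd v))) (zd : Fin g × Bool → M), mapW Qd.nm E = S ∧ Run E [] (topQ v zu zd) := by
  obtain ⟨E, b, hE, hb⟩ := qex_seg hS v S [] (List.append_nil S).symm
  have h1 := run_map (hom_nm v) hb
  rw [hE] at h1
  obtain ⟨zu0, zd0, rfl⟩ := q_top (run_det h1 hS.1)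
  have hm : Hom fun c : Bool × (Fin g × Bool) => (c.1, zu c.2 - zu0 c.2) :=
    ⟨fun _ _ => rfl, fun _ => rfl⟩
  obtain ⟨E', e3, h3⟩ := q_shift hb (run_map hm hS.1) (by
    rw [mapW_mapW, ← hE, mapW_mapW]
    rfl) rfl
  refine ⟨E', fun n => zd0 n + (zu n - zu0 n), e3.trans hE, ?_⟩
  unfold topQ at h3 ⊢
  rw [qex_zw] at h3
  refine (List.map_congr_left fun y _ => ?_) ▸ h3
  refine Qd.ext rfl rfl ?_
  cases y.1 <;> simp

/-- Uniqueness: the difference of the positions is constant along strands (zip the two words into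
one with labels `Bool × (name × M)`), so it depends only on the name (`name_fun`), and it vanishes
at the upward legs. -/
theorem q_uniq {S : SW g} (hS : Bands g S) {v zu zd zd' : Fin g × Bool → M}
    {E E' : List (L (Qd v))} (h1 : mapW Qd.nm E = S) (h2 : mapW Qd.nm E' = S)
    (r1 : Run E [] (topQ v zu zd)) (r2 : Run E' [] (topQ v zu zd')) : E = E' := by
  obtain ⟨F, x, y, rfl, rfl, hx, -, ya, yb, hF⟩ :=
    qex_zip (hom_nm v) (hom_nm v) r1 r2 (h1.trans h2.symm) rfl
  obtain rfl : x = [] := List.map_eq_nil_iff.1 hx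
  have h3 : Hom fun p : qex_P (hom_nm v) (hom_nm v) => (p.a.s, (p.a.n, p.a.z - p.b.z)) := by
    refine ⟨fun p q => Prod.ext rfl (Prod.ext rfl ?_), fun _ => rfl⟩
    have e1 : p.a.s = p.b.s := congrArg Prod.fst p.e
    have e2 : p.a.n = p.b.n := congrArg Prod.snd p.e
    change q.a.z + sgn p.a.s (v p.a.n) - (q.b.z + sgn p.b.s (v p.b.n)) = q.a.z - q.b.z
    rw [e1, e2, add_sub_add_right_eq_sub]
  have : Nonempty M := ⟨0⟩
  obtain ⟨f, f1, f2⟩ := name_fun hS (by rw [← h1, mapW_mapW, mapW_mapW]; rfl) (run_map h3 hF)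
  have h4 : ∀ n, f n = 0 := by
    intro n
    have m1 : (⟨true, n, zu n⟩ : Qd v) ∈ y.map qex_P.a :=
      ya ▸ List.mem_map.2 ⟨(true, n), mem_legs _, rfl⟩
    obtain ⟨t, ht, e1⟩ := List.mem_map.1 m1
    have m2 : t.b ∈ topQ v zu zd' := yb ▸ List.mem_map_of_mem ht
    obtain ⟨u, -, e2⟩ := List.mem_map.1 m2
    have e3 := t.e
    have e4 := f2 _ (List.mem_map_of_mem ht)
    rw [e1, ← e2] at e3
    obtain rfl : (true, n) = u := e3
    simp only [e1, ← e2, if_true, sub_self] at e4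
    exact e4.symm
  refine mapW_congr fun t ht => ?_
  have e1 := f1 _ (by rw [cups_mapW]; exact List.mem_map_of_mem ht)
  rw [h4] at e1
  exact Qd.ext (congrArg Prod.fst t.e) (congrArg Prod.snd t.e) (sub_eq_zero.1 e1)

end Pool.Agent.AS
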