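import Pool.Agent.Lib.MP_dae8ad_gt.T.Lin1
import Pool.Agent.Lib.MP_dae8ad_gt.S.Seq0

namespace Pool.Agent.AS

/-- The banded matrix with weights `wt` in a commutative ring. -/
noncomputable def seqmod_k {G A p q : Type} [CommRing A] (dg : G → ℤ) (wt : ℤ → G → A)
    (φ : p → q → G →₀ ℤ) (j j' : ℤ) : Matrix p q A :=
  fun a b => (φ a b).sum fun g n => if dg g = j - j' then (n : A) * wt j g else 0

/-- The degrees that occur. -/
noncomputable def seqmod_D {G p q : Type} [Fintype p] [Fintype q] (dg : G → ℤ)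
    (φ : p → q → G →₀ ℤ) : Finset ℤ :=
  Finset.univ.biUnion fun x : p × q => (φ x.1 x.2).support.image dg

theorem seqmod_mem {G p q : Type} [Fintype p] [Fintype q] (dg : G → ℤ) (φ : p → q → G →₀ ℤ)
    {a : p} {b : q} {g : G} (h : g ∈ (φ a b).support) : dg g ∈ seqmod_D dg φ :=
  Finset.mem_biUnion.2 ⟨(a, b), Finset.mem_univ _, Finset.mem_image_of_mem _ h⟩

theorem seqmod_zero {G A p q : Type} [CommRing A] [Fintype p] [Fintype q] {dg : G → ℤ}
    (wt : ℤ → G → A) {φ : p → q → G →₀ ℤ} {j j' : ℤ} (h : j - j' ∉ seqmod_D dg φ) :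
    seqmod_k dg wt φ j j' = 0 := by
  ext a b
  exact Finset.sum_eq_zero fun g hg => if_neg fun e : dg g = j - j' =>
    h (by rw [← e]; exact seqmod_mem dg φ hg)

theorem seqmod_map {G A B p q : Type} [CommRing A] [CommRing B] (κ : A →+* B) (dg : G → ℤ)
    (wt : ℤ → G → A) (φ : p → q → G →₀ ℤ) (j j' : ℤ) (a : p) (b : q) :
    κ (seqmod_k dg wt φ j j' a b) = seqmod_k dg (fun j g => κ (wt j g)) φ j j' a b := by
  simp only [seqmod_k, Finsupp.sum, map_sum, apply_ite κ, map_mul, map_intCast, map_zero]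

theorem seqmod_app {G F p q : Type} [Field F] [Fintype p] [Fintype q] (dg : G → ℤ)
    (wt : ℤ → G → F) (φ : p → q → G →₀ ℤ) (v : ℤ → q → F) (j : ℤ) (a : p) :
    app (seqmod_k dg wt φ) v j a =
      ∑ k, (φ a k).sum fun g n => (n : F) * wt j g * v (j - dg g) k := by
  rw [app_eq_sum _ v j ((seqmod_D dg φ).image (j - ·)) fun j' hj => Or.inl
    (seqmod_zero wt fun h => hj (Finset.mem_image.2 ⟨_, h, sub_sub_cancel _ _⟩))]
  simp only [Finset.sum_apply, Matrix.mulVec, dotProduct, seqmod_k, Finsupp.sum, Finset.sum_mul]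
  rw [Finset.sum_comm]
  refine Finset.sum_congr rfl fun k _ => ?_
  rw [Finset.sum_comm]
  refine Finset.sum_congr rfl fun g hg => ?_
  rw [Finset.sum_eq_single (j - dg g), if_pos (sub_sub_cancel _ _).symm]
  · intro j' _ hj
    rw [if_neg fun e => hj (by rw [e, sub_sub_cancel]), zero_mul]
  · exact fun h => (h (Finset.mem_image_of_mem _ (seqmod_mem dg φ hg))).elim

theorem seqmod_win {F p q : Type} [Field F] [Fintype q] (T : Ker F p q) (S : Finset ℤ)
    {v : ℤ → q → F} (h : ∀ j, j ∉ S → v j = 0) (j : ℤ) (a : p) :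
    app T v j a = ∑ x : S × q, T j x.1 a x.2 * v x.1 x.2 := by
  rw [app_eq_sum T v j S fun j' hj => Or.inr (h j' hj), Fintype.sum_prod_type, Finset.sum_apply,
    ← Finset.sum_coe_sort]
  rfl

variable {G K p q : Type} [Group G] [Field K] {O : Subring K} (R : SR G O) [Fintype p] [Fintype q]

theorem band_kerOf (f : O →+* K) (φ : p → q → G →₀ ℤ) : ∃ w, ∀ w', w ≤ w' → Band (kerOf R f φ) w' := by
  refine ⟨(seqmod_D R.dg φ).sup Int.natAbs, fun w' hw j j' h => ?_⟩
  refine seqmod_zero (fun j g => f (R.ρ j g)) fun hm => ?_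
  have h1 := Finset.le_sup (f := Int.natAbs) hm
  rw [Int.abs_eq_natAbs] at h
  omega

omit [Fintype p] [Fintype q] in
theorem cov_kerOf (f : O →+* K) (φ : p → q → G →₀ ℤ) {τ : K ≃+* K} {n : ℕ}
    (h : ∀ (j : ℤ) g, f (R.ρ (j + n) g) = τ (f (R.ρ j g))) : Cov τ n (kerOf R f φ) := by
  intro j j'
  ext a b
  simp only [kerOf, Matrix.map_apply, Finsupp.sum, map_sum, apply_ite τ, map_mul, map_intCast,
    map_zero, h, add_sub_add_right_eq_sub]

omit [Fintype p] [Fintype q] in
theorem int_kerOf (f : O →+* K) (hf : ∀ o, f o ∈ O) (φ : p → q → G →₀ ℤ) :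
    IntK O (kerOf R f φ) := by
  intro j j' a b
  refine O.sum_mem fun g _ => ?_
  beta_reduce
  split_ifs
  exacts [O.mul_mem (intCast_mem O _) (hf _), O.zero_mem]

/-- The matrix acts as the group ring does; `cj` may be the identity. -/
theorem ev_kerOf (cj : K →+* K) (φ : p → q → G →₀ ℤ) {E : Set ℤ} (c : q → Sq R E K) (j : ℤ)
    (a : p) : cj ((evF (φ a) c).v j) =
      app (kerOf R (cj.comp O.subtype) φ) (fun j k => cj ((c k).v j)) j a := by
  refine Eq.trans ?_ (seqmod_app R.dg (fun j g => cj.comp O.subtype (R.ρ j g)) φ _ j a).symm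
  have e : (evF (φ a) c).v j = ∑ k, (φ a k).sum fun g n => n • (g • c k).v j := by
    show Sq.ev j (evF (φ a) c) = _
    simp only [evF, ap, Finsupp.sum, map_sum, map_zsmul]
    rfl
  rw [e]
  simp only [Finsupp.sum, map_sum, Sq.v_smul, zsmul_eq_mul, map_mul, map_intCast, mul_assoc,
    Subring.smul_def, smul_eq_mul]
  rfl

omit [Fintype p] in
theorem ev_omF {M : Type} [AddCommGroup M] [DistribMulAction G M] (y : p → G)
    (φ : p → q → G →₀ ℤ) (c : q → M) (i : p) : evF (omF y φ i) c = om (y i) (evF (φ i) c) := by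
  simp only [evF, om, omF, Finset.smul_sum, ← Finset.sum_sub_distrib]
  refine Finset.sum_congr rfl fun k _ => ?_
  rw [ap, Finsupp.sum_sub_index fun _ _ _ => sub_smul _ _ _,
    Finsupp.sum_mapDomain_index (h := fun g (n : ℤ) => n • g • c k) (fun _ => zero_smul _ _)
      fun _ _ _ => add_smul _ _ _]
  simp only [ap, Finsupp.sum, Finset.smul_sum, mul_smul, smul_comm (y i)]

/-- `1 - g` is injective on half infinite sequences when `g` has degree `± 1`: look at the extreme
index (the weights are units: `ρ j g * ρ (j - dg g) g⁻¹ = 1`). -/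
theorem om_inj {N : Type} [AddCommGroup N] [Module O N] {E : Set ℤ} {e : ℤ} (hE : e ∈ E)
    (he : e = 1 ∨ e = -1) {g : G} (hg : R.dg g = 1 ∨ R.dg g = -1) {m : Sq R E N}
    (h : om g m = 0) : m = 0 := by
  have h1 : ∀ j, m.v j = R.ρ j g • m.v (j - R.dg g) := fun j => by
    have := congrArg (fun z => z.v j) (sub_eq_zero.1 h)
    exact this
  have h2 : ∀ j, m.v j = 0 ↔ m.v (j - R.dg g) = 0 := fun j => by
    refine ⟨fun h0 => ?_, fun h0 => by rw [h1, h0, smul_zero]⟩
    have e1 : R.ρ (j - R.dg g) g⁻¹ * R.ρ j g = 1 := by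
      rw [mul_comm, ← R.ρ_mul, mul_inv_cancel, R.ρ_one]
    rw [← one_smul O (m.v _), ← e1, mul_smul, ← h1, h0, smul_zero]
  have h3 : ∀ j, m.v (j + 1) = 0 ↔ m.v j = 0 := fun j => by
    rcases hg with hg | hg
    · rw [h2, hg, add_sub_cancel_right]
    · rw [h2 j, hg, sub_neg_eq_add]
  have h4 : ∀ j, m.v j = 0 ↔ m.v 0 = 0 := fun j => by
    induction j using Int.induction_on with
    | zero => rfl
    | succ i ih => rw [h3, ih]
    | pred i ih => rw [← h3, sub_add_cancel, ih]
  obtain ⟨J, hJ⟩ := m.bd e hE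
  refine Sq.ext fun j => (h4 j).2 ((h4 (e * (J - 1))).1 (hJ _ ?_))
  rcases he with rfl | rfl <;> omega

/-- The untwisted case over `ZMod 2`: if `v` is finite and killed, sum over all indices to get
`∑ v j = 0` from `t1`; then the running sums `v' j = ∑ v i (i ≤ j)` form a finite sequence with
shorter support, `v = v' - shift v'`, and `T v'` is finite and shift invariant, so zero; induction
on the length of the support. -/
theorem finInj_two (dg : G → ℤ) (φ : p → q → G →₀ ℤ)
    (t1 : ∀ c : q → ZMod 2, (∀ i, ∑ k, (aug (φ i k) : ZMod 2) * c k = 0) → c = 0) :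
    FinInj (fun j j' a b => (φ a b).sum fun g n => if dg g = j - j' then (n : ZMod 2) else 0 :
      Ker (ZMod 2) p q) := by
  classical
  intro v hv h
  have hT : (fun j j' a b => (φ a b).sum fun g n => if dg g = j - j' then (n : ZMod 2) else 0 :
      Ker (ZMod 2) p q) = seqmod_k dg (fun _ _ => 1) φ := by
    funext j j' a b
    simp only [seqmod_k, mul_one]
  rw [hT] at h
  have hf : ∀ k, (Function.support fun j => v j k).Finite := fun k =>
    ((fs_iff v).1 hv).subset fun j hj h0 => hj (by simp [h0])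
  let ε : AddMonoidAlgebra (ZMod 2) ℤ →+* ZMod 2 :=
    (AddMonoidAlgebra.lift (ZMod 2) (ZMod 2) ℤ 1).toRingHom
  have hε : ∀ a b, ε (AddMonoidAlgebra.single a b) = b := fun a b =>
    (AddMonoidAlgebra.lift_single _ a b).trans (by simp)
  let M : Matrix p q (AddMonoidAlgebra (ZMod 2) ℤ) := fun a b =>
    (φ a b).sum fun g n => AddMonoidAlgebra.single (dg g) (n : ZMod 2)
  let u : q → AddMonoidAlgebra (ZMod 2) ℤ := fun k =>
    .ofCoeff (Finsupp.ofSupportFinite (fun j => v j k) (hf k))
  have hu : ∀ k j, (u k).coeff j = v j k := fun _ _ => rfl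
  obtain ⟨L, hL⟩ := minor ε M fun c hc => t1 c fun i => by
    simpa only [Matrix.mulVec, dotProduct, Matrix.map_apply, M, aug, Finsupp.sum, map_sum, hε,
      Int.cast_sum, Pi.zero_apply] using congrFun hc i
  have hM : M.mulVec u = 0 := by
    funext a
    refine AddMonoidAlgebra.coeff_injective (Finsupp.ext fun j => ?_)
    have h1 := congrFun (congrFun h j) a
    rw [seqmod_app] at h1
    simp only [Finsupp.sum, mul_one, Pi.zero_apply] at h1
    simp only [Matrix.mulVec, dotProduct, M, Finsupp.sum, Finset.sum_mul,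
      AddMonoidAlgebra.coeff_sum, Finsupp.finsetSum_apply, AddMonoidAlgebra.coeff_single_mul_apply,
      hu, neg_add_eq_sub, h1, Pi.zero_apply, AddMonoidAlgebra.coeff_zero, Finsupp.zero_apply]
  have h0 : u = 0 := Matrix.eq_zero_of_mulVec_eq_zero (M := L * M)
    (fun e => hL (by rw [e, map_zero])) (by rw [← Matrix.mulVec_mulVec, hM, Matrix.mulVec_zero])
  funext j k
  rw [← hu, h0]
  rfl

/-- Restrict to the columns in a finite window `[a, b]` and the rows in `[a - w, b + w]`; the
finite matrix is the image of a matrix over `A` whose reduction is injective (`finInj_two`), so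
`minor` gives a left multiple with non-zero determinant in `K`. -/
theorem finInj_of (f : O →+* K) (φ : p → q → G →₀ ℤ)
    (t1 : ∀ c : q → ZMod 2, (∀ i, ∑ k, (aug (φ i k) : ZMod 2) * c k = 0) → c = 0)
    {A : Type} [CommRing A] (ε : A →+* ZMod 2) (κ : A →+* K) (a : ℤ → G → A)
    (h1 : ∀ j g, κ (a j g) = f (R.ρ j g)) (h2 : ∀ j g, ε (a j g) = 1)
    (h3 : ∀ z, ε z ≠ 0 → κ z ≠ 0) : FinInj (kerOf R f φ) := by
  classical
  intro v hv h
  have hT : (fun j j' a b => (φ a b).sum fun g n => if R.dg g = j - j' then (n : ZMod 2) else 0 :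
      Ker (ZMod 2) p q) = seqmod_k R.dg (fun _ _ => 1) φ := by
    funext j j' a b
    simp only [seqmod_k, mul_one]
  have hI := finInj_two R.dg φ t1
  rw [hT] at hI
  obtain ⟨S, hS⟩ : ∃ S : Finset ℤ, ∀ j, j ∉ S → v j = 0 :=
    ⟨((fs_iff v).1 hv).toFinset, fun j hj => by_contra fun h0 => hj (by simpa using h0)⟩
  let S' : Finset ℤ := S.biUnion fun j' => (seqmod_D R.dg φ).image (j' + ·)
  let M : Matrix (S' × p) (S × q) A := fun x y => seqmod_k R.dg a φ x.1 y.1 x.2 y.2
  obtain ⟨L, hL⟩ := minor ε M fun c hc => by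
    let u : ℤ → q → ZMod 2 := fun j k => if hj : j ∈ S then c (⟨j, hj⟩, k) else 0
    have hu : ∀ j, j ∉ S → u j = 0 := fun j hj => funext fun k => dif_neg hj
    have hc' : ∀ x : S × q, u x.1 x.2 = c x := fun x => dif_pos x.1.2
    have h0 := hI u ((fs_iff u).2 (S.finite_toSet.subset fun j hj => by_contra fun h0 =>
      hj (hu j h0))) (funext fun j => funext fun i => by
        rw [seqmod_win _ S hu]
        by_cases hj : j ∈ S'
        · simpa only [Matrix.mulVec, dotProduct, Matrix.map_apply, M, seqmod_map, h2, hc',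
            Pi.zero_apply] using congrFun hc (⟨j, hj⟩, i)
        · refine Finset.sum_eq_zero fun x _ => ?_
          rw [seqmod_zero _ fun hm => hj (Finset.mem_biUnion.2 ⟨x.1, x.1.2,
            Finset.mem_image.2 ⟨_, hm, add_sub_cancel _ _⟩⟩), Matrix.zero_apply, zero_mul])
    funext x
    rw [← hc', h0]
    rfl
  have hM : (M.map κ).mulVec (fun x : S × q => v x.1 x.2) = 0 := by
    funext x
    have h4 := congrFun (congrFun h x.1) x.2
    rw [seqmod_win _ S hS] at h4
    simp only [Matrix.mulVec, dotProduct, Matrix.map_apply, M, seqmod_map, h1]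
    exact h4
  have h0 := Matrix.eq_zero_of_mulVec_eq_zero (M := (L * M).map κ)
    (by rw [← RingHom.mapMatrix_apply, ← RingHom.map_det]; exact h3 _ hL)
    (by rw [Matrix.map_mul, ← Matrix.mulVec_mulVec, hM, Matrix.mulVec_zero])
  funext j k
  by_cases hj : j ∈ S
  · exact congrFun h0 (⟨j, hj⟩, k)
  · rw [hS j hj]
    rfl

end Pool.Agent.AS
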