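import Pool.Agent.Lib.MP_dae8ad_gt.T.SeqMod
import Pool.Agent.Lib.MP_dae8ad_gt.T.CoreB

namespace Pool.Agent.AS

variable {G K : Type} [Group G] [Field K] {O : Subring K} {cj : K →+* K} (R : SR G O)

/-- Reduction modulo `O`. -/
def redS (E : Set ℤ) : Sq R E K →+ Sq R E (QO O) where
  toFun m := Sq.mk (fun j => Submodule.Quotient.mk (m.v j)) fun e he => by
    obtain ⟨J, hJ⟩ := m.bd e he
    exact ⟨J, fun j hj => by
      show Submodule.Quotient.mk (m.v j) = (0 : QO O)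
      rw [hJ j hj]; rfl⟩
  map_zero' := rfl
  map_add' _ _ := rfl

/-- The inclusion of the finite sequences. -/
def incS (e : ℤ) (he : e = 1 ∨ e = -1) (N : Type) [AddCommGroup N] :
    Sq R {1, -1} N →+ Sq R {e} N where
  toFun m := Sq.mk m.v fun _ h => m.bd _ (by rw [Set.mem_singleton_iff.1 h]; exact he)
  map_zero' := rfl
  map_add' _ _ := rfl

theorem eqv_redS (E : Set ℤ) : Eqv G (redS R E) := fun _ _ => rfl

/-- Choose lifts that send `0` to `0`. -/
theorem redS_surj (E : Set ℤ) : Function.Surjective (redS R E) := by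
  intro m
  have h : ∀ z : QO O, ∃ k : K, Submodule.Quotient.mk k = z ∧ (z = 0 → k = 0) := fun z => by
    by_cases hz : z = 0
    · exact ⟨0, hz.symm, fun _ => rfl⟩
    · exact (Submodule.Quotient.mk_surjective _ z).imp fun _ hk => ⟨hk, fun h => absurd h hz⟩
  choose s h1 h2 using h
  exact ⟨Sq.mk (fun j => s (m.v j)) fun e he => (m.bd e he).imp fun _ hJ j hj => h2 _ (hJ j hj),
    Sq.ext fun j => h1 _⟩

theorem redS_zero {E : Set ℤ} (m : Sq R E K) : redS R E m = 0 ↔ ∀ j, m.v j ∈ O :=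
  ⟨fun h j => (QO_zero O _).1 (congrArg (·.v j) h),
    fun h => Sq.ext fun j => (QO_zero O _).2 (h j)⟩

theorem eqv_incS (e : ℤ) (he : e = 1 ∨ e = -1) (N : Type) [AddCommGroup N] [Module O N] :
    Eqv G (incS R e he N) := fun _ _ => rfl

theorem seqpd_fin {α β A : Type} [Zero α] [Zero β] [Zero A] {e : ℤ} (he : e = 1 ∨ e = -1)
    {u : ℤ → α} {v : ℤ → β} (hu : Bd e u) (hv : Bd (-e) v) {b : α → β → A} (b0 : ∀ m, b 0 m = 0)
    (b1 : ∀ k, b k 0 = 0) : Function.HasFiniteSupport fun j => b (u j) (v j) := by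
  obtain ⟨J, hJ⟩ := hu
  obtain ⟨J', hJ'⟩ := hv
  refine (Set.finite_Icc (min J J') (max (-J) (-J'))).subset fun j hj => ?_
  have h1 : ¬ e * j < J := fun h => hj (by simp only [hJ j h, b0])
  have h2 : ¬ -e * j < J' := fun h => hj (by simp only [hJ' j h, b1])
  rcases he with rfl | rfl <;> constructor <;> omega

theorem seqpd_ex {N M2 A : Type} [AddCommGroup N] [DistribMulAction G N] [AddCommGroup M2]
    [Module O M2] [AddCommGroup A] {E E' : Set ℤ} {e : ℤ} (he : e = 1 ∨ e = -1) (hE : e ∈ E)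
    (hE' : -e ∈ E') (q : Sq R E K →+ N) (h1 : Eqv G q) (h2 : Function.Surjective q)
    (S : K → Prop) (hq : ∀ p, q p = 0 → ∀ j, S (p.v j)) (b : K → M2 →+ A) (b0 : b 0 = 0)
    (ba : ∀ k k', S k → S k' → b (k + k') = b k + b k')
    (bi : ∀ j g k m, S k → b (R.ρ j g • k) (R.ρ j g • m) = b k m) :
    ∃ P : PD G (Sq R E K) N (Sq R E' M2) A, P.q = q ∧
      ∀ p m, P.β p m = ∑ᶠ j, b (p.v j) (m.v j) := by
  have fin : ∀ (p : Sq R E K) (m : Sq R E' M2),
      Function.HasFiniteSupport fun j => b (p.v j) (m.v j) := fun p m =>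
    seqpd_fin (b := fun k m => b k m) he (p.bd e hE) (m.bd _ hE') (fun m => by rw [b0]; rfl)
      fun k => map_zero _
  refine ⟨⟨q, h1, h2, fun p m => ∑ᶠ j, b (p.v j) (m.v j), fun p p' hp hp' m => ?_,
    fun p _ m m' => ?_, fun g p m hp => ?_⟩, rfl, fun _ _ => rfl⟩
  · rw [← finsum_add_distrib (fin p m) (fin p' m)]
    exact finsum_congr fun j => by rw [Sq.v_add, ba _ _ (hq p hp j) (hq p' hp' j)]; rfl
  · rw [← finsum_add_distrib (fin p m) (fin p m')]
    exact finsum_congr fun j => map_add _ _ _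
  · rw [← finsum_comp_equiv (Equiv.subRight (R.dg g)) (f := fun j => b (p.v j) (m.v j))]
    exact finsum_congr fun j => bi _ _ _ _ (hq p hp _)

/-- `β p m = ∑ᶠ j, o j • m j` with `o j = cj (p j)` read in `O` (zero if it is not in `O`). -/
theorem exPD2 (hv : VR O cj) (hu : ∀ j g, cj (R.ρ j g) * R.ρ j g = 1) {e : ℤ}
    (he : e = 1 ∨ e = -1) :
    ∃ P : PD G (Sq R {e} K) (Sq R {e} (QO O)) (Sq R {-e} (QO O)) (QO O), P.q = redS R {e} ∧
      ∀ p, (∀ j, p.v j ∈ O) → ∀ m : Sq R {-e} K,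
        P.β p (redS R {-e} m) = Submodule.Quotient.mk (∑ᶠ j, cj (p.v j) * m.v j) := by
  classical
  let o : K → O := fun k => if h : cj k ∈ O then ⟨cj k, h⟩ else 0
  have ho : ∀ k ∈ O, (o k : K) = cj k := fun k hk => by simp only [o, dif_pos (hv.cj_mem k hk)]
  obtain ⟨P, h1, h2⟩ := seqpd_ex R (E := {e}) (E' := {-e}) he rfl rfl _ (eqv_redS R _)
    (redS_surj R _) (· ∈ O) (fun p => (redS_zero R p).1)
    (fun k => DistribSMul.toAddMonoidHom (QO O) (o k))
    (AddMonoidHom.ext fun m => by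
      rw [show o 0 = 0 from Subtype.ext ((ho 0 O.zero_mem).trans (map_zero _))]
      exact zero_smul _ m)
    (fun k k' hk hk' => AddMonoidHom.ext fun m => by
      rw [show o (k + k') = o k + o k' from Subtype.ext (by
        rw [Subring.coe_add, ho _ (O.add_mem hk hk'), ho _ hk, ho _ hk', map_add])]
      exact add_smul _ _ m)
    fun j g k m hk => (smul_smul _ _ m).trans (congrArg (· • m) (Subtype.ext (by
      rw [Subring.coe_mul, ho _ hk, ho (R.ρ j g • k) (O.mul_mem (R.ρ j g).2 hk)]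
      change cj (R.ρ j g * k) * _ = _
      rw [map_mul, mul_right_comm, hu, one_mul])))
  refine ⟨P, h1, fun p hp m => (h2 _ _).trans ?_⟩
  refine .trans (finsum_congr fun j => ?_) (map_finsum (Submodule.mkQ (1 : Submodule O K))
    (seqpd_fin (b := fun k m => cj k * m) he (p.bd e rfl) (m.bd _ rfl) (by simp) (by simp))).symm
  rw [← ho _ (hp j)]
  rfl

theorem exPD3 (hu : ∀ j g, cj (R.ρ j g) * R.ρ j g = 1) :
    ∃ P : PD G (Sq R {1, -1} K) Unit (Sq R {1, -1} K) K,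
      ∀ p m, P.β p m = ∑ᶠ j, cj (p.v j) * m.v j := by
  obtain ⟨P, -, h⟩ := seqpd_ex R (N := Unit) (E := {1, -1}) (E' := {1, -1}) (.inl rfl) (.inl rfl)
    (.inr rfl) 0 (fun _ _ => rfl) (fun _ => ⟨0, rfl⟩) (fun _ => True) (fun _ _ _ => trivial)
    (fun k => AddMonoidHom.mulLeft (cj k)) (AddMonoidHom.ext fun m => by simp)
    (fun k k' _ _ => AddMonoidHom.ext fun m => by simp [add_mul]) fun j g k m _ => by
      change cj (R.ρ j g * k) * (R.ρ j g * m) = cj k * m
      rw [map_mul, mul_mul_mul_comm, hu, one_mul]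
  exact ⟨P, h⟩

/-- The sum over the rows of the pairings is `pair`. -/
theorem sum_pair {p : Type} [Fintype p] {e : ℤ} (he : e = 1 ∨ e = -1) (u v : ℤ → p → K)
    (hu : Bd e u) (hv : Bd (-e) v) : ∑ i, ∑ᶠ j, u j i * v j i = pair u v :=
  sum_finsum_comm _ (fun i j => u j i * v j i) fun i _ =>
    seqpd_fin (b := fun a b : p → K => a i * b i) he hu hv (by simp) (by simp)

theorem seqpd_lift {q : Type} (f : K →+* K) {v : ℤ → q → K} (hv : Fs v) :
    ∃ c : q → Sq R {1, -1} K, ∀ k j, (c k).v j = f (v j k) := by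
  refine ⟨fun k => Sq.mk (fun j => f (v j k)) fun e he => ?_, fun _ _ => rfl⟩
  have : Bd e v := by
    rcases he with rfl | rfl
    exacts [hv.1, hv.2]
  exact this.imp fun J hJ j hj => by simp only [hJ j hj, Pi.zero_apply, map_zero]

variable {X : Type} [AddCommGroup X] [DistribMulAction G1 X] {τ : K ≃+* K} {n : ℕ} {χ : X → K}

theorem srOf_unit (h : Good X O cj τ n χ) (j : ℤ) (g : Aff G1 X) :
    cj ((srOf h).ρ j g) * (srOf h).ρ j g = 1 := by
  change cj (χ _) * χ _ = 1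
  rw [h.chi_cj, ← h.chi_add, neg_add_cancel, h.chi_zero]

theorem seqpd_alg (h : Good X O cj τ n χ) : ∃ (A : Type) (_ : CommRing A) (ε : A →+* ZMod 2)
    (κ : A →+* K) (a : X → A), (∀ x, κ (a x) = χ x) ∧ (∀ x, ε (a x) = 1) ∧
      ∀ z, ε z ≠ 0 → κ z ≠ 0 := by
  refine ⟨AddMonoidAlgebra ℤ X, inferInstance, AddMonoidAlgebra.lift ℤ (ZMod 2) X 1,
    AddMonoidAlgebra.lift ℤ K X ⟨⟨fun x => χ x.toAdd, h.chi_zero⟩, fun _ _ => h.chi_add _ _⟩,
    fun x => .single x 1, fun x => by simp, fun x => by simp, fun z hz => ?_⟩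
  refine h.odd z.coeff (ZMod.intCast_eq_one_iff_odd.1 ?_)
  have : ((z.coeff.sum fun _ a => a : ℤ) : ZMod 2) ≠ 0 := by
    simpa [AddMonoidAlgebra.lift_apply', Finsupp.sum] using hz
  revert this
  generalize ((z.coeff.sum fun _ a => a : ℤ) : ZMod 2) = t
  revert t
  decide

/-- `finInj_of` with `A = AddMonoidAlgebra ℤ X`, `ε` the augmentation modulo `2`, `κ` induced by
`χ`, `a j g = single (± tt (-j) • g.a) 1` (`odd`); for `omF` use `ev_omF`, `ev_kerOf`, `om_inj`;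
`orth` with `exPD3`, `sum_pair`. -/
theorem duo_of (h : Good X O cj τ n χ) {K0 : List (L (Lb0 (Aff G1 X)))}
    (C : SD (Aff G1 X) (fun x => x.g = tt 1 ∨ x.g = tt (-1)) K0) :
    ∃ w, Duo O τ n w (kerOf (srOf h) (cj.comp O.subtype) C.V)
      (kerOf (srOf h) O.subtype (omF C.yv C.Pi)) := by
  obtain ⟨w, hw⟩ := band_kerOf (srOf h) (cj.comp O.subtype) C.V
  obtain ⟨w', hw'⟩ := band_kerOf (srOf h) O.subtype (omF C.yv C.Pi)
  obtain ⟨A, _, ε, κ, a, h1, h2, h3⟩ := seqpd_alg h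
  have bV := hw _ (le_max_left w w')
  have bT := hw' _ (le_max_right w w')
  have cv : ∀ (j : ℤ) (x : X), tt (-(j + n)) • x = tt (-n) • tt (-j) • x := fun j x => by
    rw [neg_add_rev, tt_add, mul_smul]
  have ev : ∀ (φ : Fin (C.b + C.d) → Fin C.b → Aff G1 X →₀ ℤ) (v : ℤ → Fin C.b → K)
      (c : Fin C.b → Sq (srOf h) {1, -1} K), (∀ k j, (c k).v j = RingHom.id K (v j k)) →
      ∀ i j, (evF (φ i) c).v j = app (kerOf (srOf h) O.subtype φ) v j i := fun φ v c hc i j => by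
    have := ev_kerOf (srOf h) (RingHom.id K) φ c j i
    simp only [hc] at this
    exact this
  refine ⟨max w w', h.npos, bV, bT, cov_kerOf _ _ _ fun j g => ?_, cov_kerOf _ _ _ fun j g => ?_,
    int_kerOf _ _ (fun o => h.vr.cj_mem _ o.2) _, int_kerOf _ _ (fun o => o.2) _,
    finInj_of _ _ _ C.t1 ε κ (fun j g => a (-(tt (-j) • g.a)))
      (fun j g => (h1 _).trans (h.chi_cj _).symm) (fun _ _ => h2 _) h3, fun v hv e => ?_,
    by simp, fun c m hc hm => ?_⟩
  · change cj (χ _) = τ (cj (χ _))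
    rw [cv, h.chi_cj, h.chi_cj, ← smul_neg, h.cov]
  · change χ _ = τ (χ _)
    rw [cv, h.cov]
  · obtain ⟨c, hc⟩ := seqpd_lift (srOf h) (RingHom.id K) hv
    refine finInj_of (srOf h) O.subtype _ C.t2 ε κ (fun j g => a (tt (-j) • g.a))
      (fun j g => h1 _) (fun _ _ => h2 _) h3 v hv (funext₂ fun j i => ?_)
    rw [← ev _ v c hc, om_inj (srOf h) (e := 1) (.inl rfl) (.inl rfl) (g := C.yv i)
      ((C.yv_Q i).imp (congrArg Multiplicative.toAdd) (congrArg Multiplicative.toAdd))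
      (m := evF (C.Pi i) c) ((ev_omF _ _ _ _).symm.trans (Sq.ext fun j => by
        rw [ev _ v c hc, e]; rfl))]
    rfl
  · obtain ⟨c', hc'⟩ := seqpd_lift (srOf h) cj hc
    obtain ⟨m', hm'⟩ := seqpd_lift (srOf h) (RingHom.id K) hm
    obtain ⟨P, hP⟩ := exPD3 (srOf h) (srOf_unit h)
    have := C.orth P c' (fun _ => rfl) m'
    simp only [hP, ← ev_omF, ev _ m m' hm', ev_kerOf, hc', h.vr.cj_cj] at this
    exact (sum_pair (.inl rfl) _ _ (app_bd bV (.inl rfl) hc.1)
      (app_bd bT (.inr rfl) hm.2)).symm.trans this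

end Pool.Agent.AS
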