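import Pool.Agent.Lib.MP_dae8ad_gt.T.Lev2
import Pool.Agent.Lib.MP_dae8ad_gt.T.L1
import Pool.Agent.Lib.MP_dae8ad_gt.A.NumTh

namespace Pool.Agent.AS

def yT : Tri Bool := ⟨true, true, true⟩

theorem P1_yT : P1 yT = ⟨false, true⟩ := rfl
theorem P3_yT : P3 yT = ⟨false, true⟩ := rfl

/-- With `h = 1` the box equations say `(U - Uᵀ) y = 0`, and `J * J = -1`. -/
theorem beq_one {g : ℕ} {U : Matrix (Fin g × Bool) (Fin g × Bool) ℤ} (hU : U.transpose - U = Jm g)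
    {G M : Type} [Group G] [AddCommGroup M] [DistribMulAction G M] {y : Fin g × Bool → M}
    (h : ∀ j, beq U (1 : G) y j = 0) : y = 0 := by
  have h1 : ∀ j, ∑ i, Jm g j i • y i = 0 := fun j => by
    have := h j
    rw [beq, inv_one, one_smul, sub_eq_zero] at this
    simp only [← hU, Matrix.sub_apply, Matrix.transpose_apply, sub_smul, Finset.sum_sub_distrib,
      this, sub_self]
  funext k
  have h2 : ∑ i, (Jm g * Jm g) k i • y i = 0 := by
    simp only [Matrix.mul_apply, Finset.sum_smul, mul_smul]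
    rw [Finset.sum_comm]
    simp only [← Finset.smul_sum, h1, smul_zero, Finset.sum_const_zero]
  simpa [Jm_mul, Matrix.one_apply] using h2

theorem topo_ne {Y : Type} [Lab Y] {g : ℕ} (y : Tri Y) (S : SW g) : KG y S ≠ [] := by
  simp [KG, KB, R0]

theorem topo_y1 {M : Type} {y : Tri (Lb G1 M)} (h : y.map bs = y1 () () ()) :
    y = y1 y.a.m y.b.m y.c.m :=
  Tri.ext (Lb.ext (congrArg (·.a.s) h) (congrArg (·.a.x) h) rfl)
    (Lb.ext (congrArg (·.b.s) h) (congrArg (·.b.x) h) rfl)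
    (Lb.ext (congrArg (·.c.s) h) (congrArg (·.c.x) h) rfl)

theorem topo_rho {X K : Type} [AddCommGroup X] [DistribMulAction G1 X] [Field K] {O : Subring K}
    {cj : K →+* K} {τ : K ≃+* K} {n : ℕ} {χ : X → K} (hG : Good X O cj τ n χ) (j : ℤ) (x : X) :
    ((srOf hG).ρ j (⟨x, 1⟩ : Aff G1 X)⁻¹ : K) = χ (-(tt (-j) • x)) := by
  show χ (tt (-j) • -((1 : G1)⁻¹ • x)) = _
  rw [inv_one, one_smul, smul_neg]

/-- Level one: `sliceY_of_slice`, `sliceY_map hom_i1`, `mapW_KG` (`yT.map i1 = y1 () () ()`),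
`exSD` gives `C`; `exX C.V` gives `X`, `x`; `b = C.res 0 x` is a colouring (`res_spec`), `k_all`
and `beq_one` (`r1_h1`, `k_col`, `plan`, `UJ_plan`) show `IsK S (y1 m1 m2 m3) 0 b`, so
`b = KG (y1 m1 m2 m3) S` (`k_zero`, `k_uniq`).  `h = hh m1 m2 m3`, `γ = gm m1 m2` (`r1_iff`),
`l1_main`, `per_X`.  Level two: `res_slice`, `sliceY_map hom_toG`, `mapW_KG`, `exSD` give slice data
over `Aff G1 X` for `y0 = (y1 m1 m2 m3).map toG`; for `Good` data take `R = srOf`, `duo_of`,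
`r1_h2`, `lev2` (`(R.ρ j ⟨h, 1⟩⁻¹ : K) = χ (-(tt (-j) • h))`). -/
theorem topo {g : ℕ} {S : SW g} (hS : Bands g S) (h : Slice (KG yT S)) :
    ∃ (X : Type) (_ : AddCommGroup X) (_ : DistribMulAction G1 X) (h γ : X), Kg h ∧ Kf γ ∧
      L1 h γ ∧ Per X ∧ Obs h (h + γ) (seifert S) := by
  have h2 : SliceY Lb.s (fun y : Lb0 G1 => y.x = tt 1 ∨ y.x = tt (-1)) (mapW i1 (KG yT S)) :=
    sliceY_map hom_i1 (fun _ => rfl) (fun y _ => by cases y <;> simp [i1]) (sliceY_of_slice h)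
  rw [mapW_KG hom_i1, show yT.map i1 = y1 () () () from rfl] at h2
  obtain ⟨C⟩ := exSD (Q := fun x => x = tt 1 ∨ x = tt (-1)) h2 (topo_ne _ _)
  obtain ⟨X, _, _, x, hx, hgen, hu⟩ := exX C.V
  obtain ⟨y, Y, hy, hK⟩ := k_all hS (C.res_spec 0 hx).2.2.2.1
  obtain ⟨m1, m2, m3, rfl⟩ : ∃ m1 m2 m3, y = y1 m1 m2 m3 := ⟨_, _, _, topo_y1 hy⟩
  obtain rfl : Y = 0 := by
    have e := (k_col hK).2
    rw [(r1_h1 m1 m2 m3).1, (r1_h1 m1 m2 m3).2] at e
    funext i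
    rcases i with i | i | i
    exacts [congrFun (beq_one (plan hS.1) fun j => e (.inl j)) i,
      congrFun (beq_one UJ_plan fun j => e (.inr (.inl j))) i,
      congrFun (beq_one UJ_plan fun j => e (.inr (.inr j))) i]
  obtain ⟨hf, hg⟩ := (r1_iff m1 m2 m3).1 hK.1
  refine ⟨X, _, _, hh m1 m2 m3, gm m1 m2, kg_hh hg, kf_gm hf, l1_main hS C x hx hu hK,
    per_X C.V C.t1 x hx hgen, fun K _ O cj τ n χ hG hU => ?_⟩
  have h3 : SliceY Lb.s (fun y : Lb0 (Aff G1 X) => y.x.g = tt 1 ∨ y.x.g = tt (-1))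
      (mapW toG (C.res 0 x)) := sliceY_map hom_toG (fun _ => rfl) (fun _ h => h) (C.res_slice 0 hx)
  rw [k_uniq hS hK (k_zero hS hK.1), mapW_KG hom_toG] at h3
  obtain ⟨C2⟩ := exSD (Q := fun x : Aff G1 X => x.g = tt 1 ∨ x.g = tt (-1)) h3 (topo_ne _ _)
  obtain ⟨w, hD⟩ := duo_of hG C2
  obtain ⟨e1, e3⟩ := r1_h2 m1 m2 m3
  have H : Lv (srOf hG) S ((y1 m1 m2 m3).map toG) := by
    refine ⟨hS, ?_, rfl, rfl, rfl, by rw [e1]; rfl, by rw [e3]; rfl, fun j hj => ?_⟩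
    · rw [← mapW_RW]
      exact run_map hom_toG hK.1
    · rw [e1, e3, topo_rho, topo_rho]
      exact hU (-j) (neg_ne_zero.2 hj)
  have h4 := lev2 hG.vr hG.far (srOf_unit hG) H C2
    (fun z hz => hz.imp (congrArg Multiplicative.toAdd) (congrArg Multiplicative.toAdd)) hD
  simpa only [Am, cm3, e1, e3, topo_rho, neg_zero, tt_zero, one_smul] using h4

end Pool.Agent.AS
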